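import Pool.Agent.FS.RMain

/-!
# Hodge characters with at most six elements: invariance under the local units

`r` is an odd prime, `T` a multiset of elements of order divisible by `r` whose sawtooth weights
are invariant under the units congruent to one modulo the part of `m` prime to `r`.
-/

set_option autoImplicit false

namespace Pool.Agent.FF

open Finset Pool.Agent.FS
open Pool.Agent.Helper9.Fermat (fib mem_fib)

section

variable {m : ℕ} [NeZero m]

/-- the `r`-part of `m`, divided by `r` -/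
def Qr (m r : ℕ) : ℕ := qq m r / r

/-- the number of elements of a half system -/
def Dr (r : ℕ) : ℕ := (r - 1) / 2

theorem two_Dr {r : ℕ} (hr : r.Prime) (hr3 : 3 ≤ r) : 2 * Dr r = r - 1 := by
  have h4 := hr.eq_two_or_odd
  unfold Dr
  omega

theorem r_dvd_qq {r : ℕ} (hr : r.Prime) (hrm : r ∣ m) : r ∣ qq m r := by
  have h1 : 1 ≤ m.factorization r := hr.factorization_pos_of_dvd (NeZero.ne m) hrm
  exact dvd_pow_self r (by omega)

theorem Qr_pos {r : ℕ} (hr : r.Prime) (hrm : r ∣ m) : 0 < Qr m r :=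
  Nat.div_pos (Nat.le_of_dvd (Nat.pow_pos hr.pos) (r_dvd_qq hr hrm)) hr.pos

theorem Qr_mul {r : ℕ} (hr : r.Prime) (hrm : r ∣ m) : Qr m r * r = qq m r :=
  Nat.div_mul_cancel (r_dvd_qq hr hrm)

/-- The sawtooth weights of `T` are invariant under `Kl m r`. -/
def KInv (r : ℕ) (T : Multiset (ZMod m)) : Prop :=
  ∀ t h : (ZMod m)ˣ, h ∈ Kl m r →
    (T.map fun x => sw (((t * h : (ZMod m)ˣ) : ZMod m) * x)).sum =
      (T.map fun x => sw ((t : ZMod m) * x)).sum

/-- The weights of the part prime to `r` of `T`. -/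
noncomputable def Gr (r : ℕ) (T : Multiset (ZMod m)) (t : (ZMod m)ˣ) : ℤ :=
  GG T fun w => sw ((t : ZMod m) * (ide m r * w))

theorem Up_uni {r : ℕ} {T : Multiset (ZMod m)} (hTr : ∀ x ∈ T, r ∣ addOrderOf x) :
    ∀ x ∈ T, ∀ w ∈ Up x, Uni m (addOrderOf w) ∧ r ∣ addOrderOf w := by
  intro x hx w hw
  have hxm : addOrderOf x ∣ m := by
    have := addOrderOf_dvd_card (x := x)
    rwa [ZMod.card] at this
  obtain ⟨h1, h2, _⟩ := upl_uni hxm
  rw [Up_order x w hw]
  exact ⟨h1, (hTr x hx).trans h2⟩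

/-- sums over `Kl m r` -/
theorem Kl_sum {r : ℕ} (hr : r.Prime) {T : Multiset (ZMod m)} (hTr : ∀ x ∈ T, r ∣ addOrderOf x)
    {B : Type} [AddCommGroup B] [Fintype (Kl m r)] (g g' : ZMod m → B)
    (hg : ∀ n : ℕ, Uni m n → r ∣ n → ∀ u : (ZMod n)ˣ,
        ∑ᶠ k : Kl n r, g (emb m n (((k : (ZMod n)ˣ) * u : (ZMod n)ˣ) : ZMod n)) =
          g' (emb m n u)) :
    ∑ h : Kl m r, GG T (fun w => g (((h : (ZMod m)ˣ) : ZMod m) * w)) = GG T g' := by
  classical
  rw [← GG_sum T univ fun (h : Kl m r) w => g (((h : (ZMod m)ˣ) : ZMod m) * w)]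
  refine GG_congr T fun x hx w hw => ?_
  obtain ⟨h1, h2⟩ := Up_uni hTr x hx w hw
  have hn0 : addOrderOf w ≠ 0 := by
    intro h
    rw [h] at h1
    exact NeZero.ne m (Nat.eq_zero_of_zero_dvd h1.1)
  have : NeZero (addOrderOf w) := ⟨hn0⟩
  obtain ⟨u, hu⟩ := (exists_emb h1.1 w).1 rfl
  have h3 := rel_units (g := g) h1 hr h2 u
  rw [hg _ h1 h2 u, finsum_eq_sum_of_fintype, ← hu] at h3
  exact h3.symm

/-- The weights of `T` in terms of those of the part prime to `r`. -/
theorem weight_formula {r : ℕ} (hr : r.Prime) (hrm : r ∣ m) {T : Multiset (ZMod m)}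
    (hTr : ∀ x ∈ T, r ∣ addOrderOf x) (hr3 : 3 ≤ r) (hK : KInv r T) (t : (ZMod m)ˣ) :
    ((2 * (Qr m r * Dr r) : ℕ) : ℤ) * (T.map fun x => sw ((t : ZMod m) * x)).sum =
      GG T (fun w => sw ((t : ZMod m) * (al m r * w))) -
        GG T (fun w => sw ((t : ZMod m) * (be m r * w))) := by
  classical
  have hs := Kl_sum hr hTr (fun w => sw ((t : ZMod m) * w))
    (fun w => sw ((t : ZMod m) * (al m r * w)) - sw ((t : ZMod m) * (be m r * w))) (by
    intro n hn hrn u
    have hn0 : n ≠ 0 := by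
      rintro rfl
      exact NeZero.ne m (Nat.eq_zero_of_zero_dvd hn.1)
    have : NeZero n := ⟨hn0⟩
    exact rel_of_dist (g := fun w => sw ((t : ZMod m) * w)) hn hr hrn
      ((isDist_sw_unit t) r hr hrm) u)
  have e4 : ∀ h : Kl m r, GG T (fun w => sw ((t : ZMod m) * (((h : (ZMod m)ˣ) : ZMod m) * w))) =
      GG T (fun w => sw ((t : ZMod m) * w)) := by
    intro h
    have e5 := hK t h h.2
    rw [← GG_dist T (isDist_sw_unit (t * (h : (ZMod m)ˣ))),
      ← GG_dist T (isDist_sw_unit t)] at e5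
    simp only [Units.val_mul, mul_assoc] at e5
    exact e5
  rw [sum_congr rfl fun h _ => e4 h, sum_const, card_univ, ← Nat.card_eq_fintype_card,
    card_Kl r hr hrm, nsmul_eq_mul, GG_sub, GG_dist T (isDist_sw_unit t), ← two_Dr hr hr3] at hs
  have e5 : 2 * (Qr m r * Dr r) = qq m r / r * (2 * Dr r) := by
    unfold Qr
    ring
  rw [e5]
  exact hs

/-- `Gr` depends only on the part prime to `r`. -/
theorem Gr_al {r : ℕ} (T : Multiset (ZMod m)) (t ua : (ZMod m)ˣ)
    (hua : ∀ x : ZMod m, al m r * x = (ua : ZMod m) * (ide m r * x)) :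
    GG T (fun w => sw ((t : ZMod m) * (al m r * w))) = Gr r T (t * ua) := by
  unfold Gr
  simp only [Units.val_mul, mul_assoc, ← hua]

theorem Gr_be {r : ℕ} (T : Multiset (ZMod m)) (t ub : (ZMod m)ˣ)
    (hub : ∀ x : ZMod m, be m r * x = (ub : ZMod m) * (ide m r * x)) :
    GG T (fun w => sw ((t : ZMod m) * (be m r * w))) = Gr r T (t * ub) := by
  unfold Gr
  simp only [Units.val_mul, mul_assoc, ← hub]

variable {A : Type} [AddCommGroup A] (D : Datum m A)

/-- the invariance under `Kl m r` of the lifts -/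
theorem lift_inv {r : ℕ} (hr : r.Prime) (hr3 : 3 ≤ r) {T : Multiset (ZMod m)}
    (hTr : ∀ x ∈ T, r ∣ addOrderOf x) (hK : KInv r T) (ψ : ZMod m → ℤ)
    (hψ : ∀ n l : ℕ, Uni m n → r ∣ n → l.Prime → l ∣ n → l ≠ r → Rel ψ n l) :
    ∀ h ∈ Kl m r, GG T (fun w => (liftDatum D hr ψ hψ).F ((h : ZMod m) * w)) =
      GG T (liftDatum D hr ψ hψ).F := by
  have hUp := Up_uni hTr
  intro h hh
  set R := liftDatum D hr ψ hψ with hR
  rw [← sub_eq_zero]
  refine R.inj hr hr3 _ (sub_mem ?_ ?_) ?_ ?_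
  · refine GG_mem T _ _ fun x hx w hw => AddSubgroup.subset_closure ⟨_, ?_, rfl⟩
    change Uni m _ ∧ r ∣ _
    rw [RUp_addOrderOf_unit_mul]
    exact hUp x hx w hw
  · exact GG_mem T _ _ fun x hx w hw => AddSubgroup.subset_closure ⟨_, hUp x hx w hw, rfl⟩
  · intro t
    rw [map_sub, GG_map, GG_map]
    have e1 : (fun w => R.W t (R.F ((h : ZMod m) * w))) =
        fun w => sw (((t * h : (ZMod m)ˣ) : ZMod m) * w) := by
      funext w
      rw [R.wf, Units.val_mul, mul_assoc]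
    have e2 : (fun w => R.W t (R.F w)) = fun w => sw ((t : ZMod m) * w) := by
      funext w
      rw [R.wf]
    rw [e1, e2, GG_dist T (isDist_sw_unit (t * h)), GG_dist T (isDist_sw_unit t), hK t h hh,
      sub_self]
  · intro t
    rw [map_sub, GG_map, GG_map]
    have e1 : (fun w => R.W' t (R.F ((h : ZMod m) * w))) = fun w => R.W' t (R.F w) := by
      funext w
      rw [R.wf', R.wf', mul_left_comm (ide m r) (h : ZMod m) w, Kl_mul_ide r hr h hh]
    rw [e1, sub_self]

include D in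
/-- Integrality: the sums of integral distributions over the part prime to `r` are divisible by
half the order of `Kl m r`. -/
theorem dvd_GG {r : ℕ} (hr : r.Prime) (hr3 : 3 ≤ r) (hrm : r ∣ m) {T : Multiset (ZMod m)}
    (hTr : ∀ x ∈ T, r ∣ addOrderOf x) (hK : KInv r T) (φ : ZMod m → ℤ) (hφ : IsDist φ)
    (hodd : ∀ x, φ (-x) = - φ x) :
    ((Qr m r * Dr r : ℕ) : ℤ) ∣ GG T (fun w => φ (ide m r * w)) := by
  classical
  obtain ⟨ψ, hψ, hψs⟩ := exists_lift hr hrm φ hφ
  set g : ZMod m → ℤ := fun w => ψ w - ψ (-w) with hg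
  have hinv : ∀ h ∈ Kl m r, GG T (fun w => g ((h : ZMod m) * w)) = GG T g := by
    intro h hh
    have h1 := congrArg (fun p : A × A × ℤ => p.2.2) (lift_inv D hr hr3 hTr hK ψ hψ h hh)
    have h2 : ∀ G : ZMod m → A × A × ℤ, (GG T G).2.2 = GG T fun w => (G w).2.2 := by
      intro G
      exact GG_map T ((AddMonoidHom.snd A ℤ).comp (AddMonoidHom.snd A (A × ℤ))) G
    simp only [h2] at h1
    exact h1
  have hs := Kl_sum hr hTr g (fun w => 2 * φ (ide m r * w)) (by
    intro n hn hrn u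
    have hn0 : n ≠ 0 := by
      rintro rfl
      exact NeZero.ne m (Nat.eq_zero_of_zero_dvd hn.1)
    have : NeZero n := ⟨hn0⟩
    have h1 := hψs n hn hrn u
    have h2 := hψs n hn hrn (-1 * u)
    have e1 : ∀ k : Kl n r, ψ (emb m n (((k : (ZMod n)ˣ) * (-1 * u) : (ZMod n)ˣ) : ZMod n)) =
        ψ (-emb m n (((k : (ZMod n)ˣ) * u : (ZMod n)ˣ) : ZMod n)) := by
      intro k
      rw [← emb_neg hn.1, mul_left_comm]
    rw [finsum_congr e1, emb_neg hn.1, mul_neg, hodd] at h2
    rw [finsum_eq_sum_of_fintype] at h1 h2 ⊢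
    rw [sum_sub_distrib, h1, h2]
    ring)
  rw [sum_congr rfl fun (h : Kl m r) _ => hinv h h.2, sum_const, card_univ,
    ← Nat.card_eq_fintype_card, card_Kl r hr hrm, nsmul_eq_mul] at hs
  have h2 : GG T (fun w => 2 * φ (ide m r * w)) = 2 * GG T (fun w => φ (ide m r * w)) :=
    (GG_map T (AddMonoidHom.mulLeft (2 : ℤ)) fun w => φ (ide m r * w)).symm
  rw [h2] at hs
  refine ⟨GG T g, ?_⟩
  rw [← two_Dr hr hr3] at hs
  unfold Qr
  push_cast at hs ⊢
  linarith

/-- Multisets with the same weights of the part prime to `r` have the same value. -/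
theorem compare {r : ℕ} (hr : r.Prime) (hr3 : 3 ≤ r) (hrm : r ∣ m) {U V : Multiset (ZMod m)}
    (hU : ∀ x ∈ U, r ∣ addOrderOf x) (hV : ∀ x ∈ V, r ∣ addOrderOf x) (hKU : KInv r U)
    (hKV : KInv r V) (h : ∀ t, Gr r U t = Gr r V t) :
    (U.map D.f).sum = (V.map D.f).sum := by
  classical
  obtain ⟨ua, hua⟩ := exists_unit_al (m := m) r hr
  obtain ⟨ub, hub⟩ := exists_unit_be (m := m) r hr hrm
  -- the first weights
  have hW1 : ∀ t : (ZMod m)ˣ, (U.map fun x => sw ((t : ZMod m) * x)).sum =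
      (V.map fun x => sw ((t : ZMod m) * x)).sum := by
    intro t
    have e1 := weight_formula hr hrm hU hr3 hKU t
    have e2 := weight_formula hr hrm hV hr3 hKV t
    rw [Gr_al U t ua hua, Gr_be U t ub hub, h, h, ← Gr_al V t ua hua, ← Gr_be V t ub hub,
      ← e2] at e1
    have h0 := two_Dr hr hr3
    have h1 : 0 < 2 * (Qr m r * Dr r) :=
      Nat.mul_pos (by norm_num) (Nat.mul_pos (Qr_pos hr hrm) (by omega))
    have h2 : ((2 * (Qr m r * Dr r) : ℕ) : ℤ) ≠ 0 := by exact_mod_cast h1.ne'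
    exact mul_left_cancel₀ h2 e1
  have hψ : ∀ n l : ℕ, Uni m n → r ∣ n → l.Prime → l ∣ n → l ≠ r →
      Rel (fun _ : ZMod m => (0 : ℤ)) n l := by
    intro n l _ _ _ _ _ u
    simp
  set R := liftDatum D hr (fun _ : ZMod m => (0 : ℤ)) hψ with hR
  have hz : GG U R.F - GG V R.F = 0 := by
    refine R.inj hr hr3 _ (sub_mem ?_ ?_) ?_ ?_
    · exact GG_mem U _ _ fun x hx w hw => AddSubgroup.subset_closure ⟨_, Up_uni hU x hx w hw, rfl⟩
    · exact GG_mem V _ _ fun x hx w hw => AddSubgroup.subset_closure ⟨_, Up_uni hV x hx w hw, rfl⟩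
    · intro t
      rw [map_sub, GG_map, GG_map, sub_eq_zero]
      have e1 : (fun w => R.W t (R.F w)) = fun w => sw ((t : ZMod m) * w) := by
        funext w
        rw [R.wf]
      rw [e1, GG_dist U (isDist_sw_unit t), GG_dist V (isDist_sw_unit t)]
      exact hW1 t
    · intro t
      rw [map_sub, GG_map, GG_map, sub_eq_zero]
      have e1 : (fun w => R.W' t (R.F w)) = fun w => sw ((t : ZMod m) * (ide m r * w)) := by
        funext w
        rw [R.wf']
      rw [e1]
      exact h t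
  have h1 := congrArg (AddMonoidHom.fst A (A × ℤ)) hz
  rw [map_sub, GG_map, GG_map, map_zero, sub_eq_zero] at h1
  rw [← GG_dist U (D_isDist D), ← GG_dist V (D_isDist D)]
  exact h1

end

end Pool.Agent.FF
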