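import Pool.Agent.FF.SumOss
import Pool.Agent.FF.Inv

/-!
# FF-Mod5

`T` has six elements, all of order `420`, with vanishing weights. `N v = #{x ∈ T | x = emb m 420 v}`.

Proof plan. Suppose that `oss σs N v` is odd for all `v : (ZMod 420)ˣ`, `σs` a list of four units,
each `≡ ± 1` modulo `5`.
* `sum_oss`: for a finite set `F` stable under all `σ ∈ σs`,
  `∑ v ∈ F, oss σs N v = 2 ^ length * ∑ v ∈ F, N v` (induction over the list; multiplication by
  `σ` is a bijection of `F`).
* `N ≥ 0`, so `oss σs N v ≥ 1`. The sum over all `v` is `16 * ∑ N = 16 * 6 = 96 = φ 420`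
  (`∑ v, N v = T.card`: `exists_emb`, `emb_inj`), so `oss σs N v = 1` for all `v`.
* Let `F = {v | v ≡ ± 1 mod 5}`; `F` has `48` elements (the reduction `(ZMod 420)ˣ → (ZMod 5)ˣ` is
  a surjective homomorphism of groups with `96` and `4` elements, or a computation), so
  `∑ v ∈ F, N v = 3`: with `n j = ∑ N v` over the `v ≡ j mod 5`: `n 1 + n 4 = 3`.
* Let `K = {t : (ZMod 420)ˣ | t ≡ 1 mod 5}` and `A v = ∑ t ∈ K, (2 * val (t v) - 420)`. It depends
  only on `v mod 5` and is odd (`val (- x) = 420 - val x`). For all units `t` of `ℤ/m`,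
  `sw (t * emb m 420 v) = m / 420 * (2 * val (t' v) - 420)`, `t'` the image of `t`
  (`Mixed_mul_emb`, `Mixed_sw_emb`), so (`ZMod.unitsMap_surjective`)
  `∑ v, N v * (2 * val (t v) - 420) = 0` for all `t : (ZMod 420)ˣ`. Sum over `t ∈ K`, and over
  `t ∈ w K`, `w = 17 ≡ 2 mod 5`: with `A₁ = A 1`, `A₂ = A w`:
  `(n 1 - n 4) A₁ + (n 2 - n 3) A₂ = 0`, `(n 1 - n 4) A₂ - (n 2 - n 3) A₁ = 0`, so
  `(n 1 - n 4) (A₁² + A₂²) = 0`. One of `A₁`, `A₂` is not zero (computation with natural numbers:
  sum of `2 * t - 420` over the `t < 420` prime to `420`, `t % 5 = 1`, resp. of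
  `2 * (17 * t % 420) - 420`), so `n 1 = n 4`, and `n 1 + n 4 = 3` is a contradiction.
-/

set_option autoImplicit false

namespace Pool.Agent.FF

open Finset Pool.Agent.FS
open Pool.Agent.Helper9.Fermat (fib mem_fib)

private theorem Mod5_oss_nonneg {G : Type*} [CommGroup G] (σs : List G) (N : G → ℤ)
    (hN : ∀ g, 0 ≤ N g) : ∀ g, 0 ≤ oss σs N g := by
  induction σs with
  | nil => exact hN
  | cons σ l ih => intro g; exact add_nonneg (ih _) (ih _)

private theorem Mod5_sum_cnt {α U : Type*} [Fintype U] (ι : U → α) (hι : Function.Injective ι)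
    [∀ v, DecidablePred fun x => x = ι v]
    (T : Multiset α) (hT : ∀ x ∈ T, ∃ v, x = ι v) (g : α → ℤ) :
    (T.map g).sum = ∑ v, ((T.filter fun x => x = ι v).card : ℤ) * g (ι v) := by
  classical
  induction T using Multiset.induction_on with
  | empty => simp
  | cons a T ih =>
    have h1 := ih (fun x hx => hT x (Multiset.mem_cons_of_mem hx))
    obtain ⟨v0, hv0⟩ := hT a (Multiset.mem_cons_self a T)
    have h2 : ∀ v, (((a ::ₘ T).filter fun x => x = ι v).card : ℤ) * g (ι v) =
        (if v = v0 then g (ι v) else 0) + ((T.filter fun x => x = ι v).card : ℤ) * g (ι v) := by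
      intro v
      by_cases hv : v = v0
      · rw [if_pos hv, Multiset.filter_cons_of_pos _ (by rw [hv]; exact hv0), Multiset.card_cons]
        push_cast
        ring
      · rw [if_neg hv, Multiset.filter_cons_of_neg _ (by
          rw [hv0]
          intro hh
          exact hv (hι hh).symm), zero_add]
    rw [Multiset.map_cons, Multiset.sum_cons, h1, Finset.sum_congr rfl fun v _ => h2 v,
      Finset.sum_add_distrib, Finset.sum_ite_eq' univ v0, if_pos (mem_univ v0), hv0]

private theorem Mod5_dvd : 5 ∣ 420 := by norm_num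

/-- reduction modulo five -/
private noncomputable def m5 : (ZMod 420)ˣ →* ZMod 5 :=
  ((ZMod.castHom Mod5_dvd (ZMod 5)) : ZMod 420 →* ZMod 5).comp (Units.coeHom (ZMod 420))

private theorem m5_rr (v : (ZMod 420)ˣ) : m5 v = ((rr v : ℕ) : ZMod 5) := by
  change (ZMod.castHom Mod5_dvd (ZMod 5)) (v : ZMod 420) = _
  rw [ZMod.castHom_apply, ← ZMod.natCast_val]
  rfl

private theorem m5_ne (v : (ZMod 420)ˣ) : m5 v ≠ 0 := by
  intro h
  have h1 : m5 v * m5 v⁻¹ = 1 := by rw [← map_mul, mul_inv_cancel, map_one]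
  rw [h, zero_mul] at h1
  exact absurd h1 (by decide)

/-- weight of a unit -/
private def wg (u : (ZMod 420)ˣ) : ℤ := 2 * (rr u : ℤ) - 420

private theorem wg_neg (u : (ZMod 420)ˣ) : wg (-1 * u) = - wg u := by
  have h1 := rr_neg u
  have h2 : rr u < 420 := ZMod.val_lt _
  have h3 : rr (-1 * u) < 420 := ZMod.val_lt _
  have h4 : rr u ≠ 0 := by
    intro h
    have := rr_coprime u
    rw [h] at this
    norm_num at this
  unfold Nat.ModEq at h1
  unfold wg
  omega

/-- average over a class -/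
private noncomputable def AA (v : (ZMod 420)ˣ) : ℤ :=
  ∑ t ∈ univ.filter (fun t => m5 t = 1), wg (t * v)

set_option maxRecDepth 20000 in
private theorem AA_congr {v v' : (ZMod 420)ˣ} (h : m5 v = m5 v') : AA v = AA v' := by
  unfold AA
  apply Finset.sum_equiv (Equiv.mulRight (v * v'⁻¹))
  · intro t
    rw [mem_filter, mem_filter]
    have h1 : m5 (Equiv.mulRight (v * v'⁻¹) t) = m5 t := by
      rw [Equiv.coe_mulRight, map_mul, map_mul, h, ← map_mul, mul_inv_cancel, map_one, mul_one]
    rw [h1]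
    exact ⟨fun hh => ⟨mem_univ _, hh.2⟩, fun hh => ⟨mem_univ _, hh.2⟩⟩
  · intro t _
    rw [Equiv.coe_mulRight]
    congr 1
    group

private theorem AA_neg (v : (ZMod 420)ˣ) : AA (-1 * v) = - AA v := by
  unfold AA
  rw [← Finset.sum_neg_distrib]
  apply Finset.sum_congr rfl
  intro t _
  rw [mul_left_comm, wg_neg]

set_option maxRecDepth 20000 in
private theorem AA_one : AA 1 = -672 := by
  have h1 : AA 1 = ∑ k ∈ (range 420).filter (fun k => Nat.Coprime k 420 ∧ k % 5 = 1),
      (2 * (k : ℤ) - 420) := by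
    unfold AA
    apply Finset.sum_nbij (fun t : (ZMod 420)ˣ => rr t)
    · intro t ht
      rw [mem_filter] at ht ⊢
      refine ⟨mem_range.2 (ZMod.val_lt _), rr_coprime t, ?_⟩
      have h2 := ht.2
      rw [m5_rr] at h2
      have h3 : ((rr t : ℕ) : ZMod 5) = ((1 : ℕ) : ZMod 5) := by rw [h2]; rfl
      rw [ZMod.natCast_eq_natCast_iff] at h3
      exact h3
    · intro t _ t' _ htt
      apply rr_inj
      have : rr t = rr t' := htt
      rw [this]
    · intro k hk
      rw [mem_coe, mem_filter, mem_range] at hk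
      refine ⟨ZMod.unitOfCoprime k hk.2.1, ?_, ?_⟩
      · rw [mem_coe, mem_filter]
        refine ⟨mem_univ _, ?_⟩
        rw [m5_rr]
        have h2 : rr (ZMod.unitOfCoprime k hk.2.1) = k := by
          unfold rr
          rw [ZMod.coe_unitOfCoprime, ZMod.val_natCast, Nat.mod_eq_of_lt hk.1]
        rw [h2]
        have h3 : ((k : ℕ) : ZMod 5) = ((1 : ℕ) : ZMod 5) := by
          rw [ZMod.natCast_eq_natCast_iff]
          exact hk.2.2
        rw [h3]
        rfl
      · change rr (ZMod.unitOfCoprime k hk.2.1) = k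
        unfold rr
        rw [ZMod.coe_unitOfCoprime, ZMod.val_natCast, Nat.mod_eq_of_lt hk.1]
    · intro t _
      rw [mul_one]
      rfl
  rw [h1]
  decide +kernel

/-- the two characters -/
private def c5 (x : ZMod 5) : ℤ := if x = 1 then 1 else if x = 4 then -1 else 0

private def s5 (x : ZMod 5) : ℤ := if x = 2 then 1 else if x = 3 then -1 else 0

private theorem c5_two : ∀ x : ZMod 5, c5 (2 * x) = - s5 x := by decide

private theorem s5_two : ∀ x : ZMod 5, s5 (2 * x) = c5 x := by decide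

private theorem c5_abs : ∀ x : ZMod 5, c5 x + (if x = 1 ∨ x = 4 then 1 else 0) =
    2 * (if x = 1 then 1 else 0) := by decide

private theorem F_two : ∀ x : ZMod 5, x ≠ 0 → ((x = 1 ∨ x = 4) ↔ ¬ (2 * x = 1 ∨ 2 * x = 4)) := by
  decide

private theorem F_four : ∀ x : ZMod 5, (4 * x = 1 ∨ 4 * x = 4) ↔ (x = 1 ∨ x = 4) := by
  decide

private theorem x_cases : ∀ x : ZMod 5, x ≠ 0 → x = 1 ∨ x = 4 ∨ x = 2 ∨ x = 3 := by decide

/-- a unit congruent to two modulo five -/
private noncomputable def w17 : (ZMod 420)ˣ := ZMod.unitOfCoprime 17 (by norm_num)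

private theorem m5_w : m5 w17 = 2 := by
  rw [m5_rr]
  have : rr w17 = 17 := by
    unfold rr w17
    rw [ZMod.coe_unitOfCoprime, ZMod.val_natCast]
  rw [this]
  decide

private theorem m5_neg_one : m5 (-1) = 4 := by
  have h : m5 (-1) = -1 := by
    change (ZMod.castHom Mod5_dvd (ZMod 5)) ((-1 : (ZMod 420)ˣ) : ZMod 420) = -1
    rw [Units.val_neg, Units.val_one, map_neg, map_one]
  rw [h]
  decide

private theorem AA_eq (v : (ZMod 420)ˣ) : AA v = AA 1 * c5 (m5 v) + AA w17 * s5 (m5 v) := by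
  rcases x_cases (m5 v) (m5_ne v) with h | h | h | h
  · have h1 : AA v = AA 1 := AA_congr (by rw [h, map_one])
    rw [h1, h, show c5 1 = 1 by decide, show s5 1 = 0 by decide]
    ring
  · have h1 : AA v = AA (-1 * 1) := AA_congr (by rw [h, map_mul, m5_neg_one, map_one]; decide)
    rw [h1, AA_neg, h, show c5 4 = -1 by decide, show s5 4 = 0 by decide]
    ring
  · have h1 : AA v = AA w17 := AA_congr (by rw [h, m5_w])
    rw [h1, h, show c5 2 = 0 by decide, show s5 2 = 1 by decide]
    ring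
  · have h1 : AA v = AA (-1 * w17) := AA_congr (by rw [h, map_mul, m5_neg_one, m5_w]; decide)
    rw [h1, AA_neg, h, show c5 3 = 0 by decide, show s5 3 = -1 by decide]
    ring

set_option maxRecDepth 20000 in
/-- the combinatorial part -/
private theorem Mod5_core (N : (ZMod 420)ˣ → ℤ) (hN : ∀ v, 0 ≤ N v) (hN6 : ∑ v, N v = 6)
    (hW : ∀ t : (ZMod 420)ˣ, ∑ v, N v * wg (t * v) = 0)
    (σs : List (ZMod 420)ˣ) (hlen : σs.length = 4)
    (hσ : ∀ σ ∈ σs, rr σ ≡ 1 [MOD 5] ∨ rr σ ≡ 4 [MOD 5]) :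
    ∃ v : (ZMod 420)ˣ, Even (oss σs N v) := by
  classical
  by_contra hcon
  push Not at hcon
  have hcard : Fintype.card (ZMod 420)ˣ = 96 := by
    rw [ZMod.card_units_eq_totient]
    decide +kernel
  have h1 : ∀ v, 1 ≤ oss σs N v := by
    intro v
    have h2 := Mod5_oss_nonneg σs N hN v
    have h3 : oss σs N v ≠ 0 := by
      intro h0
      have := hcon v
      rw [h0] at this
      exact this ⟨0, by norm_num⟩
    omega
  have hsum := sum_oss σs N univ (fun σ _ g => by simp)
  rw [hlen, hN6] at hsum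
  have h2 : ∑ v, (oss σs N v - 1) = 0 := by
    rw [Finset.sum_sub_distrib, hsum, Finset.sum_const, Finset.card_univ, hcard]
    norm_num
  have h3 : ∀ v, oss σs N v = 1 := by
    intro v
    have h4 := (Finset.sum_eq_zero_iff_of_nonneg (fun v _ => by linarith [h1 v])).1 h2 v (mem_univ v)
    linarith
  -- the classes `± 1`
  obtain ⟨F, hF⟩ : ∃ F : Finset (ZMod 420)ˣ, F = univ.filter (fun v => m5 v = 1 ∨ m5 v = 4) :=
    ⟨_, rfl⟩
  have mF : ∀ v, v ∈ F ↔ (m5 v = 1 ∨ m5 v = 4) := by
    intro v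
    rw [hF, mem_filter]
    exact ⟨fun hh => hh.2, fun hh => ⟨mem_univ _, hh⟩⟩
  have hFc : F.card = 48 := by
    have e1 : (∑ v : (ZMod 420)ˣ, if v ∈ F then (1 : ℤ) else 0) =
        ∑ v : (ZMod 420)ˣ, if v ∈ F then (0 : ℤ) else 1 := by
      rw [← Equiv.sum_comp (Equiv.mulLeft w17)]
      apply Finset.sum_congr rfl
      intro v _
      rw [Equiv.coe_mulLeft]
      have h4 : v ∈ F ↔ ¬ (w17 * v ∈ F) := by
        rw [mF, mF, map_mul, m5_w]
        exact F_two _ (m5_ne v)
      by_cases h5 : v ∈ F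
      · rw [if_pos h5, if_neg (h4.1 h5)]
      · rw [if_neg h5, if_pos (by by_contra h6; exact h5 (h4.2 h6))]
    have e2 : (∑ v : (ZMod 420)ˣ, if v ∈ F then (1 : ℤ) else 0) +
        (∑ v : (ZMod 420)ˣ, if v ∈ F then (0 : ℤ) else 1) = 96 := by
      rw [← Finset.sum_add_distrib]
      have : ∀ v : (ZMod 420)ˣ, (if v ∈ F then (1 : ℤ) else 0) + (if v ∈ F then (0 : ℤ) else 1) =
          1 := by
        intro v
        split_ifs <;> norm_num
      rw [Finset.sum_congr rfl fun v _ => this v, Finset.sum_const, Finset.card_univ, hcard]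
      norm_num
    have e3 : (∑ v : (ZMod 420)ˣ, if v ∈ F then (1 : ℤ) else 0) = F.card := by
      rw [Finset.sum_ite_mem, univ_inter, Finset.sum_const]
      simp
    have : (F.card : ℤ) = 48 := by linarith
    exact_mod_cast this
  have hsF := sum_oss σs N F (fun σ hs g => by
    rw [mF, mF, map_mul]
    have h4 : m5 σ = 1 ∨ m5 σ = 4 := by
      rcases hσ σ hs with h5 | h5
      · left
        rw [m5_rr, (ZMod.natCast_eq_natCast_iff _ _ _).2 h5]
        rfl
      · right
        rw [m5_rr, (ZMod.natCast_eq_natCast_iff _ _ _).2 h5]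
        rfl
    rcases h4 with h4 | h4
    · rw [h4, one_mul]
    · rw [h4]
      exact F_four _)
  have hF3 : ∑ v ∈ F, N v = 3 := by
    rw [Finset.sum_congr rfl fun v _ => h3 v, Finset.sum_const, hFc, hlen] at hsF
    norm_num at hsF
    linarith
  -- the weights
  have hw1 : ∑ v, N v * AA v = 0 := by
    unfold AA
    simp only [Finset.mul_sum]
    rw [Finset.sum_comm]
    apply Finset.sum_eq_zero
    intro t _
    exact hW t
  have hw2 : ∑ v, N v * AA (w17 * v) = 0 := by
    unfold AA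
    simp only [Finset.mul_sum]
    rw [Finset.sum_comm]
    apply Finset.sum_eq_zero
    intro t _
    have := hW (t * w17)
    rw [← this]
    apply Finset.sum_congr rfl
    intro v _
    rw [mul_assoc]
  obtain ⟨C, hC⟩ : ∃ C : ℤ, C = ∑ v, N v * c5 (m5 v) := ⟨_, rfl⟩
  obtain ⟨S, hS⟩ : ∃ S : ℤ, S = ∑ v, N v * s5 (m5 v) := ⟨_, rfl⟩
  have e1 : AA 1 * C + AA w17 * S = 0 := by
    rw [← hw1, hC, hS, Finset.mul_sum, Finset.mul_sum, ← Finset.sum_add_distrib]
    apply Finset.sum_congr rfl
    intro v _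
    rw [AA_eq v]
    ring
  have e2 : AA w17 * C - AA 1 * S = 0 := by
    rw [← hw2, hC, hS, Finset.mul_sum, Finset.mul_sum, ← Finset.sum_sub_distrib]
    apply Finset.sum_congr rfl
    intro v _
    rw [AA_eq (w17 * v), map_mul, m5_w, c5_two, s5_two]
    ring
  have e3 : C * (AA 1 ^ 2 + AA w17 ^ 2) = 0 := by
    linear_combination AA 1 * e1 + AA w17 * e2
  rw [AA_one] at e3
  have e4 : C = 0 := by
    rcases mul_eq_zero.1 e3 with h4 | h4
    · exact h4
    · exfalso
      have := sq_nonneg (AA w17)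
      linarith
  have e5 : C + ∑ v ∈ F, N v = 2 * ∑ v, N v * (if m5 v = 1 then 1 else 0) := by
    have e6 : ∑ v ∈ F, N v = ∑ v, N v * (if m5 v = 1 ∨ m5 v = 4 then 1 else 0) := by
      rw [hF, Finset.sum_filter]
      apply Finset.sum_congr rfl
      intro v _
      split_ifs <;> ring
    rw [hC, e6, ← Finset.sum_add_distrib, Finset.mul_sum]
    apply Finset.sum_congr rfl
    intro v _
    rw [← mul_add, c5_abs]
    ring
  rw [e4, hF3] at e5
  omega

section

variable {m : ℕ} [NeZero m]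

open Classical in
theorem mod5 (T : Multiset (ZMod m)) (hc : T.card = 6) (hT : ∀ x ∈ T, addOrderOf x = 420)
    (hW : ∀ t : (ZMod m)ˣ, (T.map fun x => sw ((t : ZMod m) * x)).sum = 0)
    (σs : List (ZMod 420)ˣ) (hlen : σs.length = 4)
    (hσ : ∀ σ ∈ σs, rr σ ≡ 1 [MOD 5] ∨ rr σ ≡ 4 [MOD 5]) :
    ∃ v : (ZMod 420)ˣ, Even (oss σs
      (fun v : (ZMod 420)ˣ => ((T.filter fun x => x = emb m 420 v).card : ℤ)) v) := by
  have hn : 420 ∣ m := by
    have h1 : 0 < T.card := by omega
    obtain ⟨x, hx⟩ := Multiset.card_pos_iff_exists_mem.1 h1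
    have h2 := addOrderOf_dvd_card (x := x)
    rw [ZMod.card, hT x hx] at h2
    exact h2
  have hι : Function.Injective fun v : (ZMod 420)ˣ => emb m 420 v := by
    intro v v' h
    exact Units.ext (emb_inj hn h)
  have hTι : ∀ x ∈ T, ∃ v : (ZMod 420)ˣ, x = emb m 420 v := fun x hx =>
    (exists_emb hn x).1 (hT x hx)
  apply Mod5_core _ (fun v => Int.natCast_nonneg _) ?_ ?_ σs hlen hσ
  · have h1 := Mod5_sum_cnt (fun v : (ZMod 420)ˣ => emb m 420 v) hι T hTι (fun _ => 1)
    simp only [Multiset.map_const', Multiset.sum_replicate, mul_one, hc] at h1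
    rw [← h1]
    norm_num
  · intro t
    obtain ⟨t', ht'⟩ := ZMod.unitsMap_surjective hn t
    have h1 := Mod5_sum_cnt (fun v : (ZMod 420)ˣ => emb m 420 v) hι T hTι
      (fun x => sw ((t' : ZMod m) * x))
    rw [hW t'] at h1
    have hm : ((m / 420 : ℕ) : ℤ) ≠ 0 := by
      have hm0 : 0 < m := Nat.pos_of_ne_zero (NeZero.ne m)
      have : 0 < m / 420 := Nat.div_pos (Nat.le_of_dvd hm0 hn) (by norm_num)
      exact_mod_cast this.ne'
    have h2 : ∀ v : (ZMod 420)ˣ, sw ((t' : ZMod m) * emb m 420 v) =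
        ((m / 420 : ℕ) : ℤ) * wg (t * v) := by
      intro v
      rw [Mixed_mul_emb hn, ht', ← Units.val_mul, Mixed_sw_emb hn (by norm_num)]
      rfl
    simp only [h2] at h1
    have h3 : ((m / 420 : ℕ) : ℤ) * ∑ v : (ZMod 420)ˣ,
        ((T.filter fun x => x = emb m 420 v).card : ℤ) * wg (t * v) = 0 := by
      rw [Finset.mul_sum]
      refine Eq.trans ?_ h1.symm
      apply Finset.sum_congr rfl
      intro v _
      ring
    exact (mul_eq_zero.1 h3).resolve_left hm

end

end Pool.Agent.FF
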