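import Pool.Agent.FF.CntA
import Pool.Agent.FF.Mod5

/-!
# FF-Cnt

`n` is a unitary divisor of `m` with prime divisors `2, 3, 5, 7`, `4 ∣ n`; `T` is a multiset of
elements whose order `e` satisfies `420 ∣ e ∣ n`. Then `upl m e = n` (both are products of `qq m l`
over `l = 2, 3, 5, 7`; `upl m e` is the unitary divisor with the same prime factors,
`upl_uni`, `uni_ordProj`), and `Up x = {w | (n / e) w = x}` has `n / e` elements, all of order `n`
(`Up_order`, `RUp_eq_fib`, `fib_card`), i.e. of the form `emb m n w` (`exists_emb`, `emb_inj`).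
`NN T n w = #{x ∈ T | emb m n w ∈ Up x}`.

Proof plan.
* `par`: suppose `oss σs (NN T n) g` is odd for all `g`. It is `≥ 0` (sum of natural numbers), so
  `≥ 1`, and by `sum_oss` with `F = univ`: `φ n ≤ 16 ∑ x ∈ T, n / e x`. By
  `Nat.totient_mul_prod_primeFactors` (`φ n * 210 = n * 48`) `35 φ n = 8 n`. Let `n = 420 n'`,
  `e x = 420 c x`, `n / e x = n' / c x`: `6 n' ≤ ∑ x ∈ T, n' / c x`, where `T.card ≤ 6` and
  `n' / c x ≤ n'` with equality iff `c x = 1`. So `T.card = 6` and all orders are `420`.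
  Then `NN T n w = N (π w)` with `π : (ZMod n)ˣ → (ZMod 420)ˣ` the reduction and
  `N v = #{x ∈ T | x = emb m 420 v}`, because `emb m n w ∈ Up x ↔ (n / 420) * emb m n w = x` and
  `(n / 420) * emb m n w = emb m 420 (π w)`. So `oss σs (NN T n) g = oss (σs.map π) N (π g)` (`π` is
  a homomorphism) and `π` is surjective (`ZMod.unitsMap_surjective`). This contradicts `mod5`.
-/

set_option autoImplicit false

namespace Pool.Agent.FF

open Finset Pool.Agent.FS
open Pool.Agent.Helper9.Fermat (fib mem_fib)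

section

private theorem Cnt_oss_nonneg {G : Type*} [CommGroup G] (σs : List G) (N : G → ℤ)
    (hN : ∀ g, 0 ≤ N g) : ∀ g, 0 ≤ oss σs N g := by
  induction σs with
  | nil => exact hN
  | cons σ σs ih =>
    intro g
    exact add_nonneg (ih g) (ih (σ * g))

private theorem Cnt_oss_map {G H : Type*} [CommGroup G] [CommGroup H] (π : G →* H)
    (σs : List G) (N : H → ℤ) :
    ∀ g, oss σs (fun g => N (π g)) g = oss (σs.map π) N (π g) := by
  induction σs with
  | nil => exact fun g => rfl
  | cons σ σs ih =>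
    intro g
    have h1 : oss (σ :: σs) (fun g => N (π g)) g =
        oss σs (fun g => N (π g)) g + oss σs (fun g => N (π g)) (σ * g) := rfl
    have h2 : oss ((σ :: σs).map π) N (π g) =
        oss (σs.map π) N (π g) + oss (σs.map π) N (π σ * π g) := rfl
    rw [h1, h2, ih, ih, map_mul]

open Classical in
private theorem Cnt_count {α : Type*} (e : α → ℕ) (n : ℕ) (hn0 : 0 < n) (T : Multiset α) :
    (∀ x ∈ T, 420 ∣ e x ∧ e x ∣ n) →
    840 * (T.map fun x => n / e x).sum + n * (T.filter fun x => e x ≠ 420).card ≤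
      2 * n * T.card := by
  induction T using Multiset.induction_on with
  | empty =>
    intro _
    simp
  | cons a T ih =>
    intro hT
    have h1 := ih fun x hx => hT x (Multiset.mem_cons_of_mem hx)
    obtain ⟨⟨c, hc⟩, d, hd⟩ := hT a (Multiset.mem_cons_self a T)
    have hea : 0 < e a := by
      rcases Nat.eq_zero_or_pos (e a) with h | h
      · rw [h, zero_mul] at hd
        omega
      · exact h
    have h2 : n / e a = d := by
      conv_lhs => rw [hd]
      exact Nat.mul_div_cancel_left d hea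
    rw [Multiset.map_cons, Multiset.sum_cons, Multiset.card_cons, h2]
    by_cases h3 : e a = 420
    · rw [Multiset.filter_cons_of_neg _ (by simpa using h3)]
      rw [h3] at hd
      nlinarith
    · rw [Multiset.filter_cons_of_pos (p := fun x => e x ≠ 420) _ h3, Multiset.card_cons]
      have h4 : 840 ≤ e a := by
        have : c ≠ 0 := by
          rintro rfl
          omega
        have : c ≠ 1 := by
          rintro rfl
          omega
        omega
      have h5 : 840 * d ≤ n := by
        rw [hd]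
        exact Nat.mul_le_mul_right d h4
      nlinarith

private theorem Cnt_int_sum {α : Type*} (f : α → ℕ) (T : Multiset α) :
    (T.map fun x => ((f x : ℕ) : ℤ)).sum = (((T.map f).sum : ℕ) : ℤ) := by
  induction T using Multiset.induction_on with
  | empty => rfl
  | cons a T ih =>
    rw [Multiset.map_cons, Multiset.sum_cons, ih, Multiset.map_cons, Multiset.sum_cons,
      Nat.cast_add]

private theorem Cnt_totient {n : ℕ} (hpf : n.primeFactors = {2, 3, 5, 7}) :
    35 * n.totient = 8 * n := by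
  have h1 := Nat.totient_mul_prod_primeFactors n
  rw [hpf] at h1
  have h2 : ∏ p ∈ ({2, 3, 5, 7} : Finset ℕ), p = 210 := by decide
  have h3 : ∏ p ∈ ({2, 3, 5, 7} : Finset ℕ), (p - 1) = 48 := by decide
  rw [h2, h3] at h1
  omega

end

section

variable {m : ℕ} [NeZero m]

private theorem Cnt_rr_map {n d : ℕ} [NeZero n] [NeZero d] (hd : d ∣ n) (w : (ZMod n)ˣ) :
    rr (ZMod.unitsMap hd w) ≡ rr w [MOD d] := by
  rw [← ZMod.natCast_eq_natCast_iff, rr, rr, ZMod.natCast_zmod_val, ZMod.unitsMap_def,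
    Units.coe_map]
  change (ZMod.castHom hd (ZMod d)) (w : ZMod n) = _
  rw [ZMod.castHom_apply, ZMod.natCast_val]

omit [NeZero m] in
private theorem Cnt_emb {n d : ℕ} [NeZero n] [NeZero d] (hn : n ∣ m) (hd : d ∣ n)
    (w : (ZMod n)ˣ) :
    ((n / d : ℕ) : ZMod m) * emb m n (w : ZMod n) =
      emb m d ((ZMod.unitsMap hd w : (ZMod d)ˣ) : ZMod d) := by
  have h1 : m / d = n / d * (m / n) := by
    obtain ⟨c, hc⟩ := hn
    obtain ⟨k, hk⟩ := hd
    have hn0 : 0 < n := Nat.pos_of_ne_zero (NeZero.ne n)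
    have hd0 : 0 < d := Nat.pos_of_ne_zero (NeZero.ne d)
    rw [hc, Nat.mul_div_cancel_left c hn0, hk, Nat.mul_div_cancel_left k hd0, mul_assoc,
      Nat.mul_div_cancel_left _ hd0]
  have h2 := emb_modEq (m := m) (hd.trans hn) (Cnt_rr_map hd w)
  unfold emb
  rw [← Nat.cast_mul, ← mul_assoc, ← h1]
  exact h2.symm

theorem par {n : ℕ} [NeZero n] (hn : n ∣ m) (hu : n.Coprime (m / n))
    (hpf : n.primeFactors = {2, 3, 5, 7}) (h420 : 420 ∣ n) (T : Multiset (ZMod m))
    (hT : ∀ x ∈ T, 420 ∣ addOrderOf x ∧ addOrderOf x ∣ n) (hc : T.card ≤ 6)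
    (hW : T.card = 6 → ∀ t : (ZMod m)ˣ, (T.map fun x => sw ((t : ZMod m) * x)).sum = 0)
    (σs : List (ZMod n)ˣ) (hlen : σs.length = 4)
    (hσ : ∀ σ ∈ σs, rr σ ≡ 1 [MOD 5] ∨ rr σ ≡ 4 [MOD 5]) :
    ∃ g : (ZMod n)ˣ, Even (oss σs (NN T n) g) := by
  classical
  by_contra hcon
  push Not at hcon
  have hn0 : 0 < n := Nat.pos_of_ne_zero (NeZero.ne n)
  have hNN0 : ∀ g, 0 ≤ NN T n g := by
    intro g
    unfold NN
    exact Int.natCast_nonneg _
  have h1 : ∀ g, 1 ≤ oss σs (NN T n) g := by
    intro g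
    have h2 := Cnt_oss_nonneg σs (NN T n) hNN0 g
    have h3 := Int.not_even_iff_odd.1 (hcon g)
    obtain ⟨k, hk⟩ := h3
    omega
  have h2 := sum_oss σs (NN T n) univ (fun σ _ g => by simp)
  have h3 : ((n.totient : ℕ) : ℤ) ≤ ∑ g : (ZMod n)ˣ, oss σs (NN T n) g := by
    have h4 : ∑ g : (ZMod n)ˣ, (1 : ℤ) ≤ ∑ g : (ZMod n)ˣ, oss σs (NN T n) g :=
      sum_le_sum fun g _ => h1 g
    rw [sum_const, card_univ, ZMod.card_units_eq_totient, nsmul_eq_mul, mul_one] at h4
    exact h4
  rw [h2, hlen, card_NN hn hu hpf T hT,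
    Cnt_int_sum (fun x : ZMod m => n / addOrderOf x) T] at h3
  have h4 : n.totient ≤ 16 * (T.map fun x => n / addOrderOf x).sum := by
    have : ((n.totient : ℕ) : ℤ) ≤ ((16 * (T.map fun x => n / addOrderOf x).sum : ℕ) : ℤ) := by
      push_cast at h3 ⊢
      linarith
    exact_mod_cast this
  have h5 := Cnt_count (fun x : ZMod m => addOrderOf x) n hn0 T hT
  have h6 := Cnt_totient hpf
  set S := (T.map fun x => n / addOrderOf x).sum with hS
  set K := (T.filter fun x => addOrderOf x ≠ 420).card with hK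
  have h7 : 12 * n ≤ 840 * S := by omega
  have h8 : 12 * n + n * K ≤ 2 * n * T.card := by omega
  have h9 : 2 * n * T.card ≤ 12 * n := by nlinarith
  have hK0 : K = 0 := by
    rcases Nat.eq_zero_or_pos K with h | h
    · exact h
    · have : n * 1 ≤ n * K := Nat.mul_le_mul_left n h
      omega
  have hc6 : T.card = 6 := by
    rcases Nat.lt_or_ge T.card 6 with h | h
    · have : 2 * n * T.card ≤ 2 * n * 5 := Nat.mul_le_mul_left _ (by omega)
      omega
    · omega
  have hT420 : ∀ x ∈ T, addOrderOf x = 420 := by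
    intro x hx
    by_contra hne
    have h10 : x ∈ T.filter fun x => addOrderOf x ≠ 420 := Multiset.mem_filter.2 ⟨hx, hne⟩
    rw [Multiset.card_eq_zero.1 hK0] at h10
    exact absurd h10 (Multiset.notMem_zero x)
  obtain ⟨v, hv⟩ := mod5 T hc6 hT420 (hW hc6) (σs.map (ZMod.unitsMap h420)) (by simpa using hlen)
    (by
      intro σ hσ'
      rw [List.mem_map] at hσ'
      obtain ⟨τ, hτ, rfl⟩ := hσ'
      have h10 : rr (ZMod.unitsMap h420 τ) ≡ rr τ [MOD 5] :=
        (Cnt_rr_map h420 τ).of_dvd (by norm_num)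
      rcases hσ τ hτ with h11 | h11
      · exact Or.inl (h10.trans h11)
      · exact Or.inr (h10.trans h11))
  obtain ⟨g, hg⟩ := ZMod.unitsMap_surjective h420 v
  apply hcon g
  have hN : NN T n = fun w => (fun v : (ZMod 420)ˣ =>
      ((T.filter fun x => x = emb m 420 v).card : ℤ)) (ZMod.unitsMap h420 w) := by
    funext w
    simp only [NN]
    congr 2
    refine Multiset.filter_congr fun x hx => ?_
    rw [RUp_mem, hT420 x hx, upl_eq hn hu hpf dvd_rfl h420, Cnt_emb hn h420 w]
    exact eq_comm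
  rw [hN, Cnt_oss_map (ZMod.unitsMap h420) σs (fun v : (ZMod 420)ˣ =>
      ((T.filter fun x => x = emb m 420 v).card : ℤ)) g, hg]
  exact hv

end

end Pool.Agent.FF
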