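import Pool.Agent.FF.Inv

/-!
# FF-CntA

`n` is a unitary divisor of `m` with prime divisors `2, 3, 5, 7`, `4 ∣ n`; `T` is a multiset of
elements whose order `e` satisfies `420 ∣ e ∣ n`. Then `upl m e = n` (both are products of `qq m l`
over `l = 2, 3, 5, 7`; `upl m e` is the unitary divisor with the same prime factors,
`upl_uni`, `uni_ordProj`), and `Up x = {w | (n / e) w = x}` has `n / e` elements, all of order `n`
(`Up_order`, `RUp_eq_fib`, `fib_card`), i.e. of the form `emb m n w` (`exists_emb`, `emb_inj`).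
`NN T n w = #{x ∈ T | emb m n w ∈ Up x}`.

Proof plan.
* `sum_NN`: `D.f x = ∑ w ∈ Up x, D.f w` (`Up_sum`), sum over `x ∈ T` (induction over `T`).
* `card_NN`: the same with the constant function `1`: `∑ w, NN T n w = ∑ x ∈ T, n / e x`.
-/

set_option autoImplicit false

namespace Pool.Agent.FF

open Finset Pool.Agent.FS
open Pool.Agent.Helper9.Fermat (fib mem_fib)

section

variable {m : ℕ} [NeZero m]

open Classical in
/-- the multiplicities at the level `n` -/
noncomputable def NN (T : Multiset (ZMod m)) (n : ℕ) (w : (ZMod n)ˣ) : ℤ :=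
  ((T.filter fun x => emb m n (w : ZMod n) ∈ Up x).card : ℤ)

theorem upl_eq {n : ℕ} (hn : n ∣ m) (hu : n.Coprime (m / n)) (hpf : n.primeFactors = {2, 3, 5, 7})
    {e : ℕ} (he : 420 ∣ e) (hen : e ∣ n) : upl m e = n := by
  have hm0 : m ≠ 0 := NeZero.ne m
  have hn0 : n ≠ 0 := fun h => hm0 (Nat.eq_zero_of_zero_dvd (h ▸ hn))
  have he0 : e ≠ 0 := fun h => hn0 (Nat.eq_zero_of_zero_dvd (h ▸ hen))
  have hpe : e.primeFactors = n.primeFactors := by
    refine Finset.Subset.antisymm (Nat.primeFactors_mono hen hn0) ?_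
    rw [hpf]
    intro l hl
    simp only [mem_insert, mem_singleton] at hl
    rw [Nat.mem_primeFactors]
    rcases hl with rfl | rfl | rfl | rfl
    · exact ⟨by norm_num, (by norm_num : 2 ∣ 420).trans he, he0⟩
    · exact ⟨by norm_num, (by norm_num : 3 ∣ 420).trans he, he0⟩
    · exact ⟨by norm_num, (by norm_num : 5 ∣ 420).trans he, he0⟩
    · exact ⟨by norm_num, (by norm_num : 7 ∣ 420).trans he, he0⟩
  unfold upl
  rw [hpe]
  have h1 : ∀ l ∈ n.primeFactors, qq m l = l ^ n.factorization l := by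
    intro l hl
    rw [Nat.mem_primeFactors] at hl
    exact (uni_ordProj ⟨hn, hu⟩ hl.1 hl.2.1).symm
  rw [prod_congr rfl h1]
  conv_rhs => rw [← Nat.prod_factorization_pow_eq_self hn0]
  rw [Finsupp.prod, Nat.support_factorization]

open Classical in
private lemma cntA_key {n : ℕ} [NeZero n] (hn : n ∣ m)
    (hu : n.Coprime (m / n)) (hpf : n.primeFactors = {2, 3, 5, 7}) (x : ZMod m)
    (hx : 420 ∣ addOrderOf x ∧ addOrderOf x ∣ n) {B : Type} [AddCommGroup B] (g : ZMod m → B) :
    ∑ w : (ZMod n)ˣ, (if emb m n (w : ZMod n) ∈ Up x then g (emb m n (w : ZMod n)) else 0) =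
      ∑ z ∈ Up x, g z := by
  rw [← sum_filter]
  refine sum_bij (fun w _ => emb m n (w : ZMod n)) ?_ ?_ ?_ ?_
  · intro w hw
    exact (mem_filter.1 hw).2
  · intro w _ w' _ h
    exact Units.ext (emb_inj hn h)
  · intro z hz
    have h1 : addOrderOf z = n := by
      rw [Up_order x z hz]
      exact upl_eq hn hu hpf hx.1 hx.2
    obtain ⟨w, hw⟩ := (exists_emb hn z).1 h1
    exact ⟨w, mem_filter.2 ⟨mem_univ _, hw ▸ hz⟩, hw.symm⟩
  · intro w _
    rfl

open Classical in
private lemma cntA_cons (T : Multiset (ZMod m)) (n : ℕ) (x : ZMod m) (w : (ZMod n)ˣ) :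
    NN (x ::ₘ T) n w = (if emb m n (w : ZMod n) ∈ Up x then 1 else 0) + NN T n w := by
  unfold NN
  by_cases h : emb m n (w : ZMod n) ∈ Up x
  · rw [Multiset.filter_cons_of_pos (p := fun x => emb m n (w : ZMod n) ∈ Up x) _ h,
      Multiset.card_cons, if_pos h]
    push_cast
    ring
  · rw [Multiset.filter_cons_of_neg (p := fun x => emb m n (w : ZMod n) ∈ Up x) _ h,
      if_neg h, zero_add]

theorem sum_NN {A : Type} [AddCommGroup A] (D : Datum m A) {n : ℕ} [NeZero n] (hn : n ∣ m)
    (hu : n.Coprime (m / n)) (hpf : n.primeFactors = {2, 3, 5, 7}) (T : Multiset (ZMod m))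
    (hT : ∀ x ∈ T, 420 ∣ addOrderOf x ∧ addOrderOf x ∣ n) :
    ∑ w : (ZMod n)ˣ, NN T n w • D.f (emb m n w) = (T.map D.f).sum := by
  classical
  induction T using Multiset.induction_on with
  | empty => simp [NN]
  | cons x T ih =>
    have h1 := ih fun y hy => hT y (Multiset.mem_cons_of_mem hy)
    have h2 := cntA_key hn hu hpf x (hT x (Multiset.mem_cons_self x T)) D.f
    rw [Up_sum (D_isDist D)] at h2
    rw [Multiset.map_cons, Multiset.sum_cons, ← h1, ← h2, ← sum_add_distrib]
    refine sum_congr rfl fun w _ => ?_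
    rw [cntA_cons, add_smul]
    by_cases h : emb m n (w : ZMod n) ∈ Up x
    · rw [if_pos h, if_pos h, one_smul]
    · rw [if_neg h, if_neg h, zero_smul]

theorem card_NN {n : ℕ} [NeZero n] (hn : n ∣ m)
    (hu : n.Coprime (m / n)) (hpf : n.primeFactors = {2, 3, 5, 7}) (T : Multiset (ZMod m))
    (hT : ∀ x ∈ T, 420 ∣ addOrderOf x ∧ addOrderOf x ∣ n) :
    ∑ w : (ZMod n)ˣ, NN T n w = (T.map fun x => ((n / addOrderOf x : ℕ) : ℤ)).sum := by
  classical
  induction T using Multiset.induction_on with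
  | empty => simp [NN]
  | cons x T ih =>
    have h1 := ih fun y hy => hT y (Multiset.mem_cons_of_mem hy)
    have hx := hT x (Multiset.mem_cons_self x T)
    have h2 := cntA_key hn hu hpf x hx (fun _ => (1 : ℤ))
    have h3 : (Up x).card = n / addOrderOf x := by
      have h4 := upl_eq hn hu hpf hx.1 hx.2
      obtain ⟨y, hy⟩ := RUp_exists x
      have h5 := RUp_eq_fib x
      have hm0 : m ≠ 0 := NeZero.ne m
      have h6 : 0 < upl m (addOrderOf x) / addOrderOf x := by
        refine Nat.pos_of_ne_zero fun h => ?_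
        have h7 := RUp_dvd x
        rw [h] at h7
        exact hm0 (Nat.eq_zero_of_zero_dvd h7)
      have h7 := Pool.Agent.Helper9.Fermat.fib_card h6 (RUp_dvd x) y
      rw [← hy, ← h5, h4] at h7
      exact h7
    rw [sum_const, h3, nsmul_eq_mul, mul_one] at h2
    rw [Multiset.map_cons, Multiset.sum_cons, ← h1, ← h2, ← sum_add_distrib]
    exact sum_congr rfl fun w _ => cntA_cons T n x w

end

end Pool.Agent.FF
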