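import Pool.Agent.FF.CombDefs

/-!
# FF-SumOss

Induction over the list; multiplication by `σ` is a bijection of `F`.
-/

set_option autoImplicit false

namespace Pool.Agent.FF

open Finset Pool.Agent.FS

theorem sum_oss {G : Type*} [CommGroup G] (σs : List G) (N : G → ℤ)
    (F : Finset G) (hF : ∀ σ ∈ σs, ∀ g, σ * g ∈ F ↔ g ∈ F) :
    ∑ v ∈ F, oss σs N v = 2 ^ σs.length * ∑ v ∈ F, N v := by
  induction σs with
  | nil => simp [oss]
  | cons σ σs ih =>
    have ih' := ih (fun τ hτ => hF τ (List.mem_cons_of_mem _ hτ))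
    have h1 : ∀ v, oss (σ :: σs) N v = oss σs N v + oss σs N (σ * v) := fun _ => rfl
    have h2 : ∑ v ∈ F, oss σs N (σ * v) = ∑ v ∈ F, oss σs N v :=
      Finset.sum_equiv (Equiv.mulLeft σ)
        (fun g => (hF σ List.mem_cons_self g).symm) (fun _ _ => rfl)
    simp only [h1]
    rw [Finset.sum_add_distrib, h2, ih', List.length_cons, pow_succ]
    ring

end Pool.Agent.FF
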