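import Pool.Agent.FF.CntA
import Pool.Agent.FF.SumOss

/-!
# FF-CntB (general levels; the level with the primes `2, 3, 5, 11`)
-/

set_option autoImplicit false

namespace Pool.Agent.FF

open Finset Pool.Agent.FS
open Pool.Agent.Helper9.Fermat (fib mem_fib)

section

variable {m : ℕ} [NeZero m]

open Classical in
private lemma cntB_key {n : ℕ} [NeZero n] (hn : n ∣ m) (x : ZMod m)
    (hx : upl m (addOrderOf x) = n) {B : Type} [AddCommGroup B] (g : ZMod m → B) :
    ∑ w : (ZMod n)ˣ, (if emb m n (w : ZMod n) ∈ Up x then g (emb m n (w : ZMod n)) else 0) =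
      ∑ z ∈ Up x, g z := by
  rw [← sum_filter]
  refine sum_bij (fun w _ => emb m n (w : ZMod n)) ?_ ?_ ?_ ?_
  · intro w hw
    exact (mem_filter.1 hw).2
  · intro w _ w' _ h
    exact Units.ext (emb_inj hn h)
  · intro z hz
    have h1 : addOrderOf z = n := by
      rw [Up_order x z hz]
      exact hx
    obtain ⟨w, hw⟩ := (exists_emb hn z).1 h1
    exact ⟨w, mem_filter.2 ⟨mem_univ _, hw ▸ hz⟩, hw.symm⟩
  · intro w _
    rfl

open Classical in
private lemma cntB_cons (T : Multiset (ZMod m)) (n : ℕ) (x : ZMod m) (w : (ZMod n)ˣ) :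
    NN (x ::ₘ T) n w = (if emb m n (w : ZMod n) ∈ Up x then 1 else 0) + NN T n w := by
  unfold NN
  by_cases h : emb m n (w : ZMod n) ∈ Up x
  · rw [Multiset.filter_cons_of_pos (p := fun x => emb m n (w : ZMod n) ∈ Up x) _ h,
      Multiset.card_cons, if_pos h]
    push_cast
    ring
  · rw [Multiset.filter_cons_of_neg (p := fun x => emb m n (w : ZMod n) ∈ Up x) _ h,
      if_neg h, zero_add]

theorem sum_NN2 {A : Type} [AddCommGroup A] (D : Datum m A) {n : ℕ} [NeZero n] (hn : n ∣ m)
    (T : Multiset (ZMod m)) (hT : ∀ x ∈ T, upl m (addOrderOf x) = n) :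
    ∑ w : (ZMod n)ˣ, NN T n w • D.f (emb m n w) = (T.map D.f).sum := by
  classical
  induction T using Multiset.induction_on with
  | empty => simp [NN]
  | cons x T ih =>
    have h1 := ih fun y hy => hT y (Multiset.mem_cons_of_mem hy)
    have h2 := cntB_key hn x (hT x (Multiset.mem_cons_self x T)) D.f
    rw [Up_sum (D_isDist D)] at h2
    rw [Multiset.map_cons, Multiset.sum_cons, ← h1, ← h2, ← sum_add_distrib]
    refine sum_congr rfl fun w _ => ?_
    rw [cntB_cons, add_smul]
    by_cases h : emb m n (w : ZMod n) ∈ Up x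
    · rw [if_pos h, if_pos h, one_smul]
    · rw [if_neg h, if_neg h, zero_smul]

theorem card_NN2 {n : ℕ} [NeZero n] (hn : n ∣ m)
    (T : Multiset (ZMod m)) (hT : ∀ x ∈ T, upl m (addOrderOf x) = n) :
    ∑ w : (ZMod n)ˣ, NN T n w = (T.map fun x => ((n / addOrderOf x : ℕ) : ℤ)).sum := by
  classical
  induction T using Multiset.induction_on with
  | empty => simp [NN]
  | cons x T ih =>
    have h1 := ih fun y hy => hT y (Multiset.mem_cons_of_mem hy)
    have hx := hT x (Multiset.mem_cons_self x T)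
    have h2 := cntB_key hn x hx (fun _ => (1 : ℤ))
    have h3 : (Up x).card = n / addOrderOf x := by
      have h4 := hx
      obtain ⟨y, hy⟩ := RUp_exists x
      have h5 := RUp_eq_fib x
      have hm0 : m ≠ 0 := NeZero.ne m
      have h6 : 0 < upl m (addOrderOf x) / addOrderOf x := by
        refine Nat.pos_of_ne_zero fun h => ?_
        have h7 := RUp_dvd x
        rw [h] at h7
        exact hm0 (Nat.eq_zero_of_zero_dvd h7)
      have h7 := Pool.Agent.Helper9.Fermat.fib_card h6 (RUp_dvd x) y
      rw [← hy, ← h5, h4] at h7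
      exact h7
    rw [sum_const, h3, nsmul_eq_mul, mul_one] at h2
    rw [Multiset.map_cons, Multiset.sum_cons, ← h1, ← h2, ← sum_add_distrib]
    exact sum_congr rfl fun w _ => cntB_cons T n x w

theorem upl_eq2 {n : ℕ} (hn : n ∣ m) (hu : n.Coprime (m / n)) {e : ℕ}
    (hpf : e.primeFactors = n.primeFactors) : upl m e = n := by
  have hm0 : m ≠ 0 := NeZero.ne m
  have hn0 : n ≠ 0 := fun h => hm0 (Nat.eq_zero_of_zero_dvd (h ▸ hn))
  unfold upl
  rw [hpf]
  have h1 : ∀ l ∈ n.primeFactors, qq m l = l ^ n.factorization l := by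
    intro l hl
    rw [Nat.mem_primeFactors] at hl
    exact (uni_ordProj ⟨hn, hu⟩ hl.1 hl.2.1).symm
  rw [prod_congr rfl h1]
  conv_rhs => rw [← Nat.prod_factorization_pow_eq_self hn0]
  rw [Finsupp.prod, Nat.support_factorization]

private theorem CntB_oss_nonneg {G : Type*} [CommGroup G] (σs : List G) (N : G → ℤ)
    (hN : ∀ g, 0 ≤ N g) : ∀ g, 0 ≤ oss σs N g := by
  induction σs with
  | nil => exact hN
  | cons σ σs ih =>
    intro g
    exact add_nonneg (ih g) (ih (σ * g))

/-- at the level with the primes `2, 3, 5, 11` six elements are not enough -/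
theorem par11 {n : ℕ} [NeZero n] (hn : n ∣ m) (hu : n.Coprime (m / n))
    (hpf : n.primeFactors = {2, 3, 5, 11}) (T : Multiset (ZMod m))
    (hT : ∀ x ∈ T, 660 ∣ addOrderOf x ∧ addOrderOf x ∣ n) (hc : T.card ≤ 6)
    (σs : List (ZMod n)ˣ) (hlen : σs.length = 4) :
    ∃ g : (ZMod n)ˣ, Even (oss σs (NN T n) g) := by
  classical
  by_contra hcon
  push Not at hcon
  have hn0 : 0 < n := Nat.pos_of_ne_zero (NeZero.ne n)
  have hNN0 : ∀ g, 0 ≤ NN T n g := by
    intro g
    unfold NN
    exact Int.natCast_nonneg _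
  have h1 : ∀ g, 1 ≤ oss σs (NN T n) g := by
    intro g
    have h2 := CntB_oss_nonneg σs (NN T n) hNN0 g
    have h3 := hcon g
    rcases lt_or_eq_of_le h2 with h | h
    · omega
    · exfalso
      rw [← h] at h3
      exact h3 Even.zero
  have h2 := sum_oss σs (NN T n) univ (fun σ _ g => by simp)
  have hpe : ∀ x ∈ T, (addOrderOf x).primeFactors = n.primeFactors := by
    intro x hx
    obtain ⟨he, hen⟩ := hT x hx
    have he0 : addOrderOf x ≠ 0 := fun h => hn0.ne' (Nat.eq_zero_of_zero_dvd (h ▸ hen))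
    refine Finset.Subset.antisymm (Nat.primeFactors_mono hen hn0.ne') ?_
    rw [hpf]
    intro l hl
    simp only [mem_insert, mem_singleton] at hl
    rw [Nat.mem_primeFactors]
    rcases hl with rfl | rfl | rfl | rfl
    · exact ⟨by norm_num, (by norm_num : 2 ∣ 660).trans he, he0⟩
    · exact ⟨by norm_num, (by norm_num : 3 ∣ 660).trans he, he0⟩
    · exact ⟨by norm_num, (by norm_num : 5 ∣ 660).trans he, he0⟩
    · exact ⟨by norm_num, (by norm_num : 11 ∣ 660).trans he, he0⟩
  have h3 := card_NN2 hn T fun x hx => upl_eq2 hn hu (hpe x hx)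
  have h4 : (Fintype.card (ZMod n)ˣ : ℤ) ≤ ∑ v : (ZMod n)ˣ, oss σs (NN T n) v := by
    have h5 := card_nsmul_le_sum (univ : Finset (ZMod n)ˣ) (oss σs (NN T n)) 1 fun v _ => h1 v
    rw [nsmul_eq_mul, mul_one, card_univ] at h5
    exact h5
  rw [h2, hlen, h3, ZMod.card_units_eq_totient] at h4
  -- the count
  have h5 : ∀ U : Multiset (ZMod m), (∀ x ∈ U, 660 ∣ addOrderOf x ∧ addOrderOf x ∣ n) →
      660 * (U.map fun x => ((n / addOrderOf x : ℕ) : ℤ)).sum ≤ (n : ℤ) * U.card := by
    intro U
    induction U using Multiset.induction_on with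
    | empty => intro _; simp
    | cons x U ih =>
      intro hU
      have h6 := ih fun y hy => hU y (Multiset.mem_cons_of_mem hy)
      obtain ⟨⟨c, hc⟩, d, hd⟩ := hU x (Multiset.mem_cons_self x U)
      have hea : 0 < addOrderOf x := addOrderOf_pos x
      have h7 : n / addOrderOf x = d := by
        conv_lhs => rw [hd]
        exact Nat.mul_div_cancel_left d hea
      rw [Multiset.map_cons, Multiset.sum_cons, Multiset.card_cons, h7]
      have h8 : 660 * d ≤ n := by
        rw [hd]
        refine Nat.mul_le_mul_right d ?_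
        rw [hc]
        have : c ≠ 0 := by
          rintro rfl
          omega
        omega
      rw [Nat.cast_add, Nat.cast_one]
      have h9 : (660 : ℤ) * d ≤ n := by exact_mod_cast h8
      linarith
  have h6 := h5 T hT
  have h7 : 33 * n.totient = 8 * n := by
    have h1 := Nat.totient_mul_prod_primeFactors n
    rw [hpf] at h1
    have h2 : ∏ p ∈ ({2, 3, 5, 11} : Finset ℕ), p = 330 := by decide
    have h3 : ∏ p ∈ ({2, 3, 5, 11} : Finset ℕ), (p - 1) = 80 := by decide
    rw [h2, h3] at h1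
    omega
  have h8 : (33 : ℤ) * n.totient = 8 * n := by exact_mod_cast h7
  have h9 : (T.card : ℤ) ≤ 6 := by exact_mod_cast hc
  have h10 : (0 : ℤ) < n := by exact_mod_cast hn0
  nlinarith

end

end Pool.Agent.FF
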