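import Pool.Agent.FF.CombDefs

/-!
# FF-CombB

Notation: see `Pool/Agent/FF/CombDefs.lean`. Proof plan.
* `comb_ind`: induction over `rs` (for all `ds`, `s`). `s = ± 1`; `h` is the indicator function of
  `H l`, `h (c g) = 1 - h g`.
  `rs = []`: `F` is invariant under all `K l`, so constant: `F g = F 1` because
  `g = ∏ κ l g` (apply `hgen` to the quotient). Take `κ₀ = F 1`, `R = 0`, `ψ = 0`.
  `rs = l :: rs'`: write `F - s F ∘ c = F₁ + R₁` with `F₁` invariant under `l :: ds` and
  `R₁ ∈ Dec ds rs'` (closure induction). As `σ = F - s F ∘ c` satisfies `σ + s σ ∘ c = 0`,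
  `F₁ + s F₁ ∘ c = - (R₁ + s R₁ ∘ c)`, and composing with `π g = (κ l g)⁻¹ * g` (which does not
  change the left side) it is in `Dec (l :: ds) rs'`. Induction hypothesis for `F₁`, `-s`,
  `l :: ds`: `F₁ = κ₀ h' + R' + (ψ' - s ψ' ∘ c)`, `h'` the indicator function of all `H l'`,
  `l' ∈ rs'`. Now `F = h F + (1 - h) F = h (F₁ + R₁) + (ψ₁ + s ψ₁ ∘ c)` with `ψ₁ = (1 - h) F`,
  and `h (ψ' - s ψ' ∘ c) = (ψ₂ + s ψ₂ ∘ c) - s ψ' ∘ c` with `ψ₂ = h ψ'`. So
  `F = κ₀ h h' + (h R₁ + h R' - s ψ' ∘ c) + (ψ₁ + ψ₂) + s (ψ₁ + ψ₂) ∘ c`.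
-/

set_option autoImplicit false

namespace Pool.Agent.FF

open Finset Pool.Agent.FS

variable {G : Type*} [CommGroup G]

/-- composition with a map of the group -/
private def cmp (π : G → G) : (G → ℤ) →+ (G → ℤ) where
  toFun F := fun g => F (π g)
  map_zero' := rfl
  map_add' _ _ := rfl

/-- multiplication by a function -/
private def mulBy (h : G → ℤ) : (G → ℤ) →+ (G → ℤ) where
  toFun F := fun g => h g * F g
  map_zero' := by
    funext g
    simp
  map_add' F F' := by
    funext g
    simp [mul_add]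

private theorem dec_map {K : ℕ → Subgroup G} {ds rs ds2 rs2 : List ℕ}
    (φ : (G → ℤ) →+ (G → ℤ))
    (h : ∀ F : G → ℤ, ∀ l ∈ rs, InvA K (l :: ds) F → φ F ∈ Dec K ds2 rs2) {R : G → ℤ}
    (hR : R ∈ Dec K ds rs) : φ R ∈ Dec K ds2 rs2 := by
  have h1 : Dec K ds rs ≤ (Dec K ds2 rs2).comap φ := by
    refine (AddSubgroup.closure_le _).2 ?_
    rintro F ⟨l, hl, hF⟩
    exact h F l hl hF
  exact h1 hR

private theorem mem_dec {K : ℕ → Subgroup G} {ds rs : List ℕ} {F : G → ℤ} {l : ℕ}
    (hl : l ∈ rs) (hF : InvA K (l :: ds) F) : F ∈ Dec K ds rs :=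
  AddSubgroup.subset_closure ⟨l, hl, hF⟩

private theorem inv_cons {K : ℕ → Subgroup G} {ds : List ℕ} {F : G → ℤ} {l : ℕ}
    (h1 : ∀ k ∈ K l, ∀ g, F (k * g) = F g) (h2 : InvA K ds F) : InvA K (l :: ds) F := by
  intro l' hl'
  rcases List.mem_cons.mp hl' with rfl | h
  · exact h1
  · exact h2 l' h

private theorem inv_tail {K : ℕ → Subgroup G} {ds : List ℕ} {F : G → ℤ} {l : ℕ}
    (h : InvA K (l :: ds) F) : InvA K ds F := fun l' hl' => h l' (List.mem_cons_of_mem _ hl')

private theorem inv_comp {K : ℕ → Subgroup G} {ds : List ℕ} {F : G → ℤ} (c : G)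
    (h : InvA K ds F) : InvA K ds (fun g => F (c * g)) := by
  intro l hl k hk g
  have e : c * (k * g) = k * (c * g) := mul_left_comm c k g
  show F (c * (k * g)) = F (c * g)
  rw [e]
  exact h l hl k hk _

private theorem inv_mul {K : ℕ → Subgroup G} {ds : List ℕ} {F F' : G → ℤ}
    (h : InvA K ds F) (h' : InvA K ds F') : InvA K ds (fun g => F g * F' g) := by
  intro l hl k hk g
  show F (k * g) * F' (k * g) = F g * F' g
  rw [h l hl k hk g, h' l hl k hk g]

private theorem inv_add {K : ℕ → Subgroup G} {ds : List ℕ} {F F' : G → ℤ}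
    (h : InvA K ds F) (h' : InvA K ds F') : InvA K ds (fun g => F g + F' g) := by
  intro l hl k hk g
  show F (k * g) + F' (k * g) = F g + F' g
  rw [h l hl k hk g, h' l hl k hk g]

private theorem dec_split {K : ℕ → Subgroup G} {ds rs : List ℕ} {l : ℕ} {F : G → ℤ}
    (hF : F ∈ Dec K ds (l :: rs)) :
    ∃ F₁ R₁ : G → ℤ, InvA K (l :: ds) F₁ ∧ R₁ ∈ Dec K ds rs ∧ ∀ g, F g = F₁ g + R₁ g := by
  induction hF using AddSubgroup.closure_induction with
  | mem F hF =>
    obtain ⟨l', hl', hF⟩ := hF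
    rcases List.mem_cons.mp hl' with rfl | h
    · exact ⟨F, 0, hF, AddSubgroup.zero_mem _, fun g => by simp⟩
    · exact ⟨0, F, fun _ _ _ _ _ => rfl, mem_dec h hF, fun g => by simp⟩
  | zero => exact ⟨0, 0, fun _ _ _ _ _ => rfl, AddSubgroup.zero_mem _, fun g => by simp⟩
  | add F F' _ _ h h' =>
    obtain ⟨F₁, R₁, a1, a2, a3⟩ := h
    obtain ⟨F₂, R₂, b1, b2, b3⟩ := h'
    refine ⟨fun g => F₁ g + F₂ g, R₁ + R₂, inv_add a1 b1, AddSubgroup.add_mem _ a2 b2, fun g => ?_⟩
    simp only [Pi.add_apply]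
    rw [a3, b3]
    ring
  | neg F _ h =>
    obtain ⟨F₁, R₁, a1, a2, a3⟩ := h
    refine ⟨fun g => - F₁ g, - R₁, fun l' hl' k hk g => ?_, AddSubgroup.neg_mem _ a2, fun g => ?_⟩
    · show - F₁ (k * g) = - F₁ g
      rw [a1 l' hl' k hk g]
    · simp only [Pi.neg_apply]
      rw [a3]
      ring

private theorem const_of_inv {K : ℕ → Subgroup G} {κ : ℕ → G →* G} {ls ds : List ℕ}
    (hP : ProdDec K κ ls) (hperm : ds.Perm ls) {F : G → ℤ} (hF : InvA K ds F) (g : G) :
    F g = F 1 := by
  have hmem : ∀ l, l ∈ ds ↔ l ∈ ls := fun l => hperm.mem_iff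
  have hnd : ds.Nodup := hperm.nodup_iff.mpr hP.nodup
  -- removing components one by one
  have key : ∀ es : List ℕ, (∀ l ∈ es, l ∈ ls) → F ((es.map fun l => κ l g).prod⁻¹ * g) = F g := by
    intro es
    induction es with
    | nil => intro _; simp
    | cons l es ih =>
      intro hes
      have h1 := ih fun l' hl' => hes l' (List.mem_cons_of_mem _ hl')
      have hl := hes l List.mem_cons_self
      rw [List.map_cons, List.prod_cons, mul_inv, mul_assoc, ← h1]
      exact hF l ((hmem l).mpr hl) _ ((K l).inv_mem (hP.mem l hl g)) _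
  have hone : (ds.map fun l => κ l g).prod⁻¹ * g = 1 := by
    apply hP.gen
    intro l hl
    have hp : ∀ es : List ℕ, es.Nodup → (∀ l' ∈ es, l' ∈ ls) →
        κ l (es.map fun l => κ l g).prod = if l ∈ es then κ l g else 1 := by
      intro es
      induction es with
      | nil => intro _ _; simp
      | cons l' es ih =>
        intro hnd' hes
        have h1 := ih (List.nodup_cons.mp hnd').2 fun l'' hl'' => hes l'' (List.mem_cons_of_mem _ hl'')
        have hl' := hes l' List.mem_cons_self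
        rw [List.map_cons, List.prod_cons, map_mul, h1]
        by_cases he : l' = l
        · subst he
          rw [if_neg (List.nodup_cons.mp hnd').1, if_pos List.mem_cons_self, mul_one]
          exact hP.fix l' hl' _ (hP.mem l' hl' g)
        · rw [hP.one l hl l' hl' he _ (hP.mem l' hl' g), one_mul]
          have : (l ∈ l' :: es) ↔ l ∈ es := by
            rw [List.mem_cons]
            constructor
            · rintro (h | h)
              · exact absurd h.symm he
              · exact h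
            · exact Or.inr
          simp only [this]
    rw [map_mul, map_inv, hp ds hnd (fun l' hl' => (hmem l').mp hl'), if_pos ((hmem l).mpr hl)]
    exact inv_mul_cancel _
  have h2 := key ds (fun l' hl' => (hmem l').mp hl')
  rw [hone] at h2
  exact h2.symm

theorem comb_ind {K : ℕ → Subgroup G} {κ : ℕ → G →* G} {ls : List ℕ} (hP : ProdDec K κ ls)
    {c : G} {H : ℕ → Set G} (hH : HalfSys K c H ls) (rs ds : List ℕ) (hperm : (ds ++ rs).Perm ls)
    (s : ℤ) (hs : s = 1 ∨ s = -1) (F : G → ℤ) (hF : InvA K ds F)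
    (hd : (fun g => F g - s * F (c * g)) ∈ Dec K ds rs) :
    ∃ κ₀ : ℤ, ∃ R ∈ Dec K ds rs, ∃ ψ : G → ℤ, InvA K ds ψ ∧
      ∀ g, F g = κ₀ * ind H rs g + R g + (ψ g + s * ψ (c * g)) := by
  induction rs generalizing ds s F with
  | nil =>
    have hperm' : ds.Perm ls := by simpa using hperm
    refine ⟨F 1, 0, AddSubgroup.zero_mem _, 0, fun _ _ _ _ _ => rfl, fun g => ?_⟩
    have h1 : ind H [] g = 1 := by
      unfold ind
      rw [if_pos]
      intro l hl
      simp at hl
    rw [h1, const_of_inv hP hperm' hF g]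
    simp
  | cons l rs ih =>
    have hmem : ∀ x, x ∈ ds ++ l :: rs ↔ x ∈ ls := fun x => hperm.mem_iff
    have hnd : (ds ++ l :: rs).Nodup := hperm.nodup_iff.mpr hP.nodup
    have hl : l ∈ ls := (hmem l).mp (by simp)
    have hdl : ∀ d ∈ ds, d ≠ l := by
      intro d hd' he
      subst he
      exact (List.disjoint_of_nodup_append hnd) hd' List.mem_cons_self
    have hrl : ∀ r ∈ rs, r ≠ l := by
      intro r hr he
      subst he
      exact (List.nodup_cons.mp (List.nodup_append.mp hnd).2.1).1 hr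
    have hdm : ∀ d ∈ ds, d ∈ ls := fun d hd' => (hmem d).mp (by simp [hd'])
    have hrm : ∀ r ∈ rs, r ∈ ls := fun r hr => (hmem r).mp (by simp [hr])
    have hss : s * s = 1 := by rcases hs with rfl | rfl <;> norm_num
    have hcc : ∀ g, c * (c * g) = g := fun g => by rw [← mul_assoc, hH.sq, one_mul]
    obtain ⟨F₁, R₁, hF₁, hR₁, hsp⟩ := dec_split hd
    -- the indicator function of `H l`
    classical
    obtain ⟨h, hh⟩ : ∃ h : G → ℤ, h = fun g => if g ∈ H l then 1 else 0 := ⟨_, rfl⟩
    have hhc : ∀ g, h (c * g) = 1 - h g := by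
      intro g
      rw [hh]
      simp only
      by_cases hg : g ∈ H l
      · have : c * g ∉ H l := fun h' => ((hH.neg l hl g).mp h') hg
        simp [hg, this]
      · have : c * g ∈ H l := (hH.neg l hl g).mpr hg
        simp [hg, this]
    have hhi : ∀ l' ∈ ls, l' ≠ l → ∀ k ∈ K l', ∀ g, h (k * g) = h g := by
      intro l' hl' hne k hk g
      rw [hh]
      simp only [hH.inv l hl l' hl' hne k hk g]
    have hhd : InvA K ds h := fun d hd' => hhi d (hdm d hd') (hdl d hd')
    -- the projection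
    obtain ⟨π, hπ⟩ : ∃ π : G → G, π = fun g => (κ l g)⁻¹ * g := ⟨_, rfl⟩
    have hπl : ∀ k ∈ K l, ∀ g, π (k * g) = π g := by
      intro k hk g
      rw [hπ]
      simp only [map_mul, hP.fix l hl k hk, mul_inv]
      rw [mul_mul_mul_comm, inv_mul_cancel, one_mul]
    have hπo : ∀ l' ∈ ls, l' ≠ l → ∀ k ∈ K l', ∀ g, π (k * g) = k * π g := by
      intro l' hl' hne k hk g
      rw [hπ]
      simp only [map_mul, hP.one l hl l' hl' hne k hk, one_mul]
      exact mul_left_comm _ _ _
    have hπF : ∀ E : G → ℤ, (∀ k ∈ K l, ∀ g, E (k * g) = E g) → ∀ g, E (π g) = E g := by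
      intro E hE g
      rw [hπ]
      exact hE _ ((K l).inv_mem (hP.mem l hl g)) _
    -- `F₁ + s F₁ ∘ c` is in `Dec (l :: ds) rs`
    have hrel : ∀ g, F₁ g + s * F₁ (c * g) = -(R₁ g + s * R₁ (c * g)) := by
      intro g
      have e1 := hsp g
      have e2 := hsp (c * g)
      rw [hcc] at e2
      have e3 : s * (F (c * g) - s * F g) = s * (F₁ (c * g) + R₁ (c * g)) := by rw [e2]
      have e4 : s * (s * F g) = F g := by rw [← mul_assoc, hss, one_mul]
      linear_combination (-1 : ℤ) * e1 - e3 - e4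
    have hmapπ : ∀ R ∈ Dec K ds rs, (fun g => R (π g)) ∈ Dec K (l :: ds) rs := by
      intro R hR
      refine dec_map (cmp π) ?_ hR
      intro E l' hl' hE
      refine mem_dec hl' ?_
      have hE' : ∀ x ∈ l' :: ds, ∀ k ∈ K x, ∀ g, cmp π E (k * g) = cmp π E g := by
        intro x hx k hk g
        have hx1 : x ∈ ls ∧ x ≠ l := by
          rcases List.mem_cons.mp hx with rfl | hx
          · exact ⟨hrm _ hl', hrl _ hl'⟩
          · exact ⟨hdm _ hx, hdl _ hx⟩
        show E (π (k * g)) = E (π g)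
        rw [hπo x hx1.1 hx1.2 k hk g]
        exact hE x hx k hk _
      refine inv_cons (hE' l' List.mem_cons_self) (inv_cons ?_ ?_)
      · intro k hk g
        show E (π (k * g)) = E (π g)
        rw [hπl k hk g]
      · exact fun x hx => hE' x (List.mem_cons_of_mem _ hx)
    have hmapc : ∀ R ∈ Dec K ds rs, (fun g => R (c * g)) ∈ Dec K ds rs := by
      intro R hR
      exact dec_map (cmp fun g => c * g) (fun E l' hl' hE => mem_dec hl' (inv_comp c hE)) hR
    have hd' : (fun g => F₁ g - (-s) * F₁ (c * g)) ∈ Dec K (l :: ds) rs := by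
      have e : (fun g => F₁ g - (-s) * F₁ (c * g)) =
          -((fun g => R₁ (π g)) + s • (fun g => R₁ (c * π g))) := by
        funext g
        have hinv : ∀ k ∈ K l, ∀ g, F₁ (k * g) + s * F₁ (c * (k * g)) = F₁ g + s * F₁ (c * g) := by
          intro k hk g
          have h3 : F₁ (c * (k * g)) = F₁ (c * g) := inv_comp c hF₁ l List.mem_cons_self k hk g
          rw [hF₁ l List.mem_cons_self k hk g, h3]
        have h1 := hπF (fun g => F₁ g + s * F₁ (c * g)) hinv g
        have h2 := hrel (π g)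
        simp only [Pi.neg_apply, Pi.add_apply, Pi.smul_apply, smul_eq_mul]
        linear_combination h2 - h1
      rw [e]
      refine AddSubgroup.neg_mem _ (AddSubgroup.add_mem _ (hmapπ R₁ hR₁) ?_)
      exact AddSubgroup.zsmul_mem _ (hmapπ _ (hmapc R₁ hR₁)) s
    have hs' : -s = 1 ∨ -s = -1 := by rcases hs with rfl | rfl <;> simp
    have hperm' : (l :: ds ++ rs).Perm ls :=
      (List.perm_middle.symm).trans hperm
    obtain ⟨κ₀, R', hR', ψ', hψ', hF₁'⟩ := ih (l :: ds) hperm' (-s) hs' F₁ hF₁ hd'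
    refine ⟨κ₀, (fun g => h g * R₁ g) + (fun g => h g * R' g) + (-s) • (fun g => ψ' (c * g)), ?_,
      fun g => (1 - h g) * F g + h g * ψ' g, ?_, ?_⟩
    · have hsub : ∀ E ∈ Dec K ds rs, E ∈ Dec K ds (l :: rs) := by
        intro E hE
        exact dec_map (AddMonoidHom.id _)
          (fun E' l' hl' hE' => mem_dec (List.mem_cons_of_mem _ hl') hE') hE
      have hmulh : ∀ (E : G → ℤ) (l' : ℕ), l' ∈ rs → InvA K (l' :: ds) E →
          InvA K (l' :: ds) (fun g => h g * E g) := by
        intro E l' hl' hE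
        exact inv_mul (inv_cons (hhi l' (hrm l' hl') (hrl l' hl')) hhd) hE
      refine AddSubgroup.add_mem _ (AddSubgroup.add_mem _ ?_ ?_) ?_
      · refine hsub _ (dec_map (mulBy h) ?_ hR₁)
        exact fun E l' hl' hE => mem_dec hl' (hmulh E l' hl' hE)
      · refine hsub _ (dec_map (mulBy h) ?_ hR')
        intro E l' hl' hE
        refine mem_dec hl' (hmulh E l' hl' (inv_cons (hE l' List.mem_cons_self) ?_))
        exact inv_tail (inv_tail hE)
      · exact AddSubgroup.zsmul_mem _ (mem_dec List.mem_cons_self (inv_comp c hψ')) _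
    · refine inv_add (inv_mul ?_ hF) (inv_mul hhd (inv_tail hψ'))
      intro x hx k hk g
      show 1 - h (k * g) = 1 - h g
      rw [hhd x hx k hk g]
    · intro g
      have hind : ind H (l :: rs) g = h g * ind H rs g := by
        unfold ind
        rw [hh]
        simp only [List.forall_mem_cons]
        by_cases h1 : g ∈ H l
        · by_cases h2 : ∀ l ∈ rs, g ∈ H l
          · rw [if_pos ⟨h1, h2⟩, if_pos h1, if_pos h2, one_mul]
          · rw [if_neg fun h' => h2 h'.2, if_neg h2, mul_zero]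
        · rw [if_neg fun h' => h1 h'.1, if_neg h1, zero_mul]
      have e1 := hsp g
      have e2 := hF₁' g
      have e3 := hhc g
      simp only [Pi.add_apply, Pi.smul_apply, smul_eq_mul] at e1 ⊢
      rw [hind, e3]
      have e4 : h g * (F g - s * F (c * g)) = h g * (F₁ g + R₁ g) := by rw [e1]
      have e5 : h g * F₁ g = h g * (κ₀ * ind H rs g + R' g + (ψ' g + -s * ψ' (c * g))) := by
        rw [e2]
      linear_combination e4 + e5

end Pool.Agent.FF
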