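import Pool.Agent.FF.CombDefs

/-!
# FF-CombC

Notation: see `Pool/Agent/FF/CombDefs.lean`. Proof plan.
* `prod_half`: induction: `∏ (1 - h l) - (-1) ^ length * ∏ h l ∈ Dec K [] ls`: with
  `P' = (-1)^k H' + R'`, `(1 - h) P' = (-1)^k H' + (-1)^(k+1) h H' + (1 - h) R'` and `H'` (the product
  over the `l' ≠ l`) is `K l`-invariant.
-/

set_option autoImplicit false

namespace Pool.Agent.FF

open Finset Pool.Agent.FS

variable {G : Type*} [CommGroup G]

private lemma combC_ind_cons (H : ℕ → Set G) (l : ℕ) (ls : List ℕ) (g : G) [Decidable (g ∈ H l)] :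
    ind H (l :: ls) g = (if g ∈ H l then 1 else 0) * ind H ls g := by
  unfold ind
  by_cases h1 : g ∈ H l
  · by_cases h2 : ∀ l' ∈ ls, g ∈ H l'
    · have h3 : ∀ l' ∈ l :: ls, g ∈ H l' := by
        intro l' hl'
        rcases List.mem_cons.mp hl' with h | h
        · rw [h]; exact h1
        · exact h2 l' h
      rw [if_pos h1, if_pos h2, if_pos h3]
      ring
    · have h3 : ¬ ∀ l' ∈ l :: ls, g ∈ H l' := fun h =>
        h2 fun l' hl' => h l' (List.mem_cons_of_mem _ hl')
      rw [if_neg h2, if_neg h3]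
      ring
  · have h3 : ¬ ∀ l' ∈ l :: ls, g ∈ H l' := fun h => h1 (h l List.mem_cons_self)
    rw [if_neg h1, if_neg h3]
    ring

private lemma combC_mono {K : ℕ → Subgroup G} {ls ls' : List ℕ} (h : ∀ l ∈ ls, l ∈ ls')
    {F : G → ℤ} (hF : F ∈ Dec K [] ls) : F ∈ Dec K [] ls' := by
  refine AddSubgroup.closure_mono ?_ hF
  rintro F ⟨l, hl, hF⟩
  exact ⟨l, h l hl, hF⟩

open Classical in
private lemma combC_aux (K : ℕ → Subgroup G) (c : G) (H : ℕ → Set G) (ls : List ℕ) :
    ls.Nodup → (∀ l ∈ ls, ∀ g, c * g ∈ H l ↔ g ∉ H l) →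
    (∀ l ∈ ls, ∀ l' ∈ ls, l' ≠ l → ∀ k ∈ K l', ∀ g, k * g ∈ H l ↔ g ∈ H l) →
    (fun g => ind H ls (c * g) - (-1) ^ ls.length * ind H ls g) ∈ Dec K [] ls := by
  induction ls with
  | nil =>
    intro _ _ _
    have : (fun g => ind H [] (c * g) - (-1) ^ ([] : List ℕ).length * ind H [] g) =
        (0 : G → ℤ) := by
      funext g
      simp [ind]
    rw [this]
    exact zero_mem _
  | cons l ls ih =>
    intro hnd hneg hinv
    have hnd' := (List.nodup_cons.mp hnd)
    have hi := ih hnd'.2 (fun l' hl' => hneg l' (List.mem_cons_of_mem _ hl'))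
      (fun l₁ h₁ l₂ h₂ => hinv l₁ (List.mem_cons_of_mem _ h₁) l₂ (List.mem_cons_of_mem _ h₂))
    -- multiplication by `1 - h`
    let M : (G → ℤ) →+ (G → ℤ) :=
      { toFun := fun F g => (1 - (if g ∈ H l then 1 else 0)) * F g
        map_zero' := by funext g; simp
        map_add' := fun a b => by funext g; simp only [Pi.add_apply]; ring }
    have hM : ∀ F ∈ Dec K [] ls, M F ∈ Dec K [] (l :: ls) := by
      intro F hF
      refine AddSubgroup.closure_induction (p := fun F _ => M F ∈ Dec K [] (l :: ls))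
        ?_ ?_ ?_ ?_ hF
      · rintro F ⟨l', hl', hF⟩
        refine AddSubgroup.subset_closure ⟨l', List.mem_cons_of_mem _ hl', ?_⟩
        intro l₁ hl₁ k hk g
        have e : l₁ = l' := by simpa using hl₁
        subst e
        have hne : l₁ ≠ l := fun h => hnd'.1 (h ▸ hl')
        have h1 := hinv l List.mem_cons_self l₁ (List.mem_cons_of_mem _ hl') hne k hk g
        have h2 := hF l₁ (by simp) k hk g
        show (1 - (if k * g ∈ H l then 1 else 0)) * F (k * g) =
          (1 - (if g ∈ H l then 1 else 0)) * F g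
        rw [h2]
        simp only [h1]
      · rw [map_zero]; exact zero_mem _
      · intro a b _ _ ha hb
        rw [map_add]; exact add_mem ha hb
      · intro a _ ha
        rw [map_neg]; exact neg_mem ha
    have h1 : (fun g => (-1) ^ ls.length * ind H ls g) ∈ Dec K [] (l :: ls) := by
      refine AddSubgroup.subset_closure ⟨l, List.mem_cons_self, ?_⟩
      intro l₁ hl₁ k hk g
      have e : l₁ = l := by simpa using hl₁
      subst e
      have h2 : ind H ls (k * g) = ind H ls g := by
        unfold ind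
        have h3 : (∀ l' ∈ ls, k * g ∈ H l') ↔ ∀ l' ∈ ls, g ∈ H l' := by
          refine forall₂_congr fun l' hl' => ?_
          have hne : l₁ ≠ l' := fun h => hnd'.1 (h ▸ hl')
          exact hinv l' (List.mem_cons_of_mem _ hl') l₁ List.mem_cons_self hne k hk g
        by_cases h4 : ∀ l' ∈ ls, g ∈ H l'
        · rw [if_pos h4, if_pos (h3.mpr h4)]
        · rw [if_neg h4, if_neg (fun h => h4 (h3.mp h))]
      show (-1) ^ ls.length * ind H ls (k * g) = (-1) ^ ls.length * ind H ls g
      rw [h2]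
    have h2 := add_mem (hM _ hi) h1
    refine (congrArg (· ∈ Dec K [] (l :: ls)) ?_).mp h2
    funext g
    show (1 - (if g ∈ H l then 1 else 0)) * (ind H ls (c * g) - (-1) ^ ls.length * ind H ls g) +
      (-1) ^ ls.length * ind H ls g =
      ind H (l :: ls) (c * g) - (-1) ^ (ls.length + 1) * ind H (l :: ls) g
    rw [combC_ind_cons, combC_ind_cons]
    have h3 := hneg l List.mem_cons_self g
    by_cases h4 : g ∈ H l
    · rw [if_pos h4, if_neg (fun h => (h3.mp h) h4)]
      ring
    · rw [if_neg h4, if_pos (h3.mpr h4)]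
      ring

theorem prod_half {K : ℕ → Subgroup G} {κ : ℕ → G →* G} {ls : List ℕ} (hP : ProdDec K κ ls)
    {c : G} {H : ℕ → Set G} (hH : HalfSys K c H ls) (hlen : Even ls.length) :
    (fun g => ind H ls g - ind H ls (c * g)) ∈ Dec K [] ls := by
  have h1 := neg_mem (combC_aux K c H ls hP.nodup hH.neg hH.inv)
  refine (congrArg (· ∈ Dec K [] ls) ?_).mp h1
  funext g
  show -(ind H ls (c * g) - (-1) ^ ls.length * ind H ls g) = ind H ls g - ind H ls (c * g)
  rw [hlen.neg_one_pow]
  ring

end Pool.Agent.FF
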