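import Pool.Agent.FF.CombDefs

/-!
# FF-CombD

Notation: see `Pool/Agent/FF/CombDefs.lean`. Proof plan.
* `oss_parity`: `oss` is additive, preserves even functions values, and `oss` of a `K l`-invariant
  function is even (the operators `os` commute; `os (κ l c) F = 2 F`); for `E = ψ + ψ ∘ c`:
  `oss σs (ψ ∘ c) = oss σs ψ` (as `c = ∏ σ`, by `hgen`; `oss σs F (σ * g) = oss σs F g` for
  `σ ∈ σs`, since `σ * σ = 1`), so `oss σs E` is even; and `oss σs` of the indicator function of all
  `H l` is `1`.
-/

set_option autoImplicit false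

namespace Pool.Agent.FF

open Finset Pool.Agent.FS

variable {G : Type*} [CommGroup G]

private theorem combD_oss_cons (σ : G) (σs : List G) (F : G → ℤ) :
    oss (σ :: σs) F = os σ (oss σs F) := rfl

private theorem combD_oss_add (σs : List G) (F F' : G → ℤ) :
    oss σs (fun g => F g + F' g) = fun g => oss σs F g + oss σs F' g := by
  induction σs with
  | nil => rfl
  | cons σ σs ih =>
    rw [combD_oss_cons, ih, combD_oss_cons, combD_oss_cons]
    funext g
    simp only [os]
    ring

private theorem combD_oss_mul (σs : List G) (w F : G → ℤ)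
    (hw : ∀ σ ∈ σs, ∀ g, w (σ * g) = w g) :
    oss σs (fun g => w g * F g) = fun g => w g * oss σs F g := by
  induction σs with
  | nil => rfl
  | cons σ σs ih =>
    rw [combD_oss_cons, ih (fun τ hτ => hw τ (List.mem_cons_of_mem _ hτ)), combD_oss_cons]
    funext g
    simp only [os, hw σ List.mem_cons_self]
    ring

private theorem combD_oss_shift (σs : List G) (F : G → ℤ) (τ : G) :
    oss σs (fun g => F (τ * g)) = fun g => oss σs F (τ * g) := by
  induction σs with
  | nil => rfl
  | cons σ σs ih =>
    rw [combD_oss_cons, ih, combD_oss_cons]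
    funext g
    simp only [os]
    rw [mul_left_comm τ σ g]

private theorem combD_even_inv (σs : List G) (F : G → ℤ) (τ : G) (hτ : τ ∈ σs)
    (hF : ∀ g, F (τ * g) = F g) (g : G) : Even (oss σs F g) := by
  induction σs generalizing g with
  | nil => simp at hτ
  | cons σ σs ih =>
    rw [combD_oss_cons]
    simp only [os]
    rcases List.mem_cons.1 hτ with rfl | h
    · have h1 : oss σs F (τ * g) = oss σs F g := by
        have h2 := combD_oss_shift σs F τ
        have h3 : (fun g => F (τ * g)) = F := funext hF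
        rw [h3] at h2
        exact (congrFun h2 g).symm
      rw [h1]
      exact ⟨_, rfl⟩
    · exact (ih h g).add (ih h (σ * g))

private theorem combD_invol (σs : List G) (F : G → ℤ) (τ : G) (hτ : τ ∈ σs) (h1 : τ * τ = 1)
    (g : G) : oss σs F (τ * g) = oss σs F g := by
  induction σs generalizing g with
  | nil => simp at hτ
  | cons σ σs ih =>
    rw [combD_oss_cons]
    simp only [os]
    rcases List.mem_cons.1 hτ with rfl | h
    · rw [← mul_assoc, h1, one_mul, add_comm]
    · rw [ih h g, mul_left_comm, ih h (σ * g)]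

private theorem combD_prod (σs : List G) (F : G → ℤ) (hσ : ∀ σ ∈ σs, σ * σ = 1) (τs : List G)
    (hτ : ∀ τ ∈ τs, τ ∈ σs) (g : G) : oss σs F (τs.prod * g) = oss σs F g := by
  induction τs with
  | nil => simp
  | cons τ τs ih =>
    rw [List.prod_cons, mul_assoc, combD_invol σs F τ (hτ τ List.mem_cons_self)
      (hσ τ (hτ τ List.mem_cons_self)), ih fun τ hτ' => hτ τ (List.mem_cons_of_mem _ hτ')]

private theorem combD_kappa {K : ℕ → Subgroup G} {κ : ℕ → G →* G} {ls : List ℕ}
    (hP : ProdDec K κ ls) (c : G) (l : ℕ) (hl : l ∈ ls) (as : List ℕ) (has : ∀ a ∈ as, a ∈ ls)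
    (hnd : as.Nodup) :
    κ l (as.map fun a => κ a c).prod = if l ∈ as then κ l c else 1 := by
  induction as with
  | nil => simp
  | cons a as ih =>
    rw [List.map_cons, List.prod_cons, map_mul,
      ih (fun b hb => has b (List.mem_cons_of_mem _ hb)) (List.nodup_cons.1 hnd).2]
    have ha := has a List.mem_cons_self
    have hna := (List.nodup_cons.1 hnd).1
    by_cases h : l = a
    · subst h
      rw [if_neg hna, if_pos List.mem_cons_self, mul_one]
      exact hP.fix l hl _ (hP.mem l hl c)
    · rw [hP.one l hl a ha (fun h' => h h'.symm) _ (hP.mem a ha c), one_mul]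
      simp [h]

private theorem combD_c {K : ℕ → Subgroup G} {κ : ℕ → G →* G} {ls : List ℕ}
    (hP : ProdDec K κ ls) {c : G} (hc : c * c = 1) : c = (ls.map fun a => κ a c).prod := by
  have h1 : c * (ls.map fun a => κ a c).prod = 1 := by
    apply hP.gen
    intro l hl
    rw [map_mul, combD_kappa hP c l hl ls (fun a ha => ha) hP.nodup, if_pos hl, ← map_mul, hc,
      map_one]
  calc c = c * (c * (ls.map fun a => κ a c).prod) := by rw [h1, mul_one]
    _ = (ls.map fun a => κ a c).prod := by rw [← mul_assoc, hc, one_mul]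

private theorem combD_H {K : ℕ → Subgroup G} {κ : ℕ → G →* G} {ls : List ℕ}
    (hP : ProdDec K κ ls) {c : G} {H : ℕ → Set G} (hH : HalfSys K c H ls) (l : ℕ) (hl : l ∈ ls)
    (as : List ℕ) (has : ∀ a ∈ as, a ∈ ls) (hla : l ∉ as) (g : G) :
    (as.map fun a => κ a c).prod * g ∈ H l ↔ g ∈ H l := by
  induction as with
  | nil => simp
  | cons a as ih =>
    have ha := has a List.mem_cons_self
    have h1 : a ≠ l := fun h => hla (h ▸ List.mem_cons_self)
    rw [List.map_cons, List.prod_cons, mul_assoc,
      hH.inv l hl a ha h1 _ (hP.mem a ha c),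
      ih (fun b hb => has b (List.mem_cons_of_mem _ hb))
        (fun h => hla (List.mem_cons_of_mem _ h))]

private theorem combD_flip {K : ℕ → Subgroup G} {κ : ℕ → G →* G} {ls : List ℕ}
    (hP : ProdDec K κ ls) {c : G} {H : ℕ → Set G} (hH : HalfSys K c H ls) (l : ℕ) (hl : l ∈ ls)
    (g : G) : κ l c * g ∈ H l ↔ g ∉ H l := by
  rw [← hH.neg l hl g]
  have h1 : c * g = ((ls.erase l).map fun a => κ a c).prod * (κ l c * g) := by
    have h2 := List.prod_map_erase (fun a => κ a c) hl
    rw [← mul_assoc, mul_comm ((ls.erase l).map fun a => κ a c).prod, h2,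
      ← combD_c hP hH.sq]
  rw [h1, combD_H hP hH l hl (ls.erase l) (fun a ha => List.mem_of_mem_erase ha)
    hP.nodup.not_mem_erase]

private theorem combD_ind {K : ℕ → Subgroup G} {κ : ℕ → G →* G} {ls : List ℕ}
    (hP : ProdDec K κ ls) {c : G} {H : ℕ → Set G} (hH : HalfSys K c H ls) (as : List ℕ)
    (has : ∀ a ∈ as, a ∈ ls) (hnd : as.Nodup) :
    oss (as.map fun l => κ l c) (ind H as) = fun _ => 1 := by
  classical
  induction as with
  | nil =>
    funext g
    simp [oss, ind]
  | cons a as ih =>
    have ha := has a List.mem_cons_self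
    have hna := (List.nodup_cons.1 hnd).1
    have h1 : ind H (a :: as) = fun g => (if g ∈ H a then 1 else 0) * ind H as g := by
      funext g
      unfold ind
      by_cases h2 : g ∈ H a
      · by_cases h3 : ∀ l ∈ as, g ∈ H l
        · rw [if_pos h2, if_pos h3, if_pos]
          · ring
          · intro l hl
            rcases List.mem_cons.1 hl with rfl | hl
            · exact h2
            · exact h3 l hl
        · rw [if_neg h3, if_neg]
          · ring
          · intro h4
            exact h3 fun l hl => h4 l (List.mem_cons_of_mem _ hl)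
      · rw [if_neg h2, if_neg]
        · ring
        · intro h4
          exact h2 (h4 a List.mem_cons_self)
    rw [List.map_cons, combD_oss_cons, h1, combD_oss_mul, ih
      (fun b hb => has b (List.mem_cons_of_mem _ hb)) (List.nodup_cons.1 hnd).2]
    · funext g
      simp only [os, mul_one]
      have h2 := combD_flip hP hH a ha g
      by_cases h3 : g ∈ H a
      · have h4 : κ a c * g ∉ H a := fun h => (h2.1 h) h3
        rw [if_pos h3, if_neg h4]
        ring
      · have h4 : κ a c * g ∈ H a := h2.2 h3
        rw [if_neg h3, if_pos h4]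
        ring
    · intro σ hσ g
      obtain ⟨b, hb, rfl⟩ := List.mem_map.1 hσ
      have hb' := has b (List.mem_cons_of_mem _ hb)
      have h2 : b ≠ a := fun h => hna (h ▸ hb)
      have h3 := hH.inv a ha b hb' h2 _ (hP.mem b hb' c) g
      by_cases h4 : g ∈ H a
      · rw [if_pos h4, if_pos (h3.2 h4)]
      · rw [if_neg h4, if_neg (fun h => h4 (h3.1 h))]

private theorem combD_dec {K : ℕ → Subgroup G} {κ : ℕ → G →* G} {ls : List ℕ}
    (hP : ProdDec K κ ls) (c : G) (R : G → ℤ) (hR : R ∈ Dec K [] ls) (g : G) :
    Even (oss (ls.map fun l => κ l c) R g) := by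
  revert g
  unfold Dec at hR
  induction hR using AddSubgroup.closure_induction with
  | mem F hF =>
    intro g
    obtain ⟨l, hl, hF⟩ := hF
    refine combD_even_inv _ F (κ l c) (List.mem_map.2 ⟨l, hl, rfl⟩) (fun g => ?_) g
    exact hF l List.mem_cons_self _ (hP.mem l hl c) g
  | zero =>
    intro g
    have h1 : ∀ σs : List G, oss σs (0 : G → ℤ) = 0 := by
      intro σs
      induction σs with
      | nil => rfl
      | cons σ σs ih =>
        rw [combD_oss_cons, ih]
        funext g
        simp [os]
    rw [h1]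
    simp
  | add F F' _ _ h h' =>
    intro g
    have h1 : F + F' = fun g => F g + F' g := rfl
    rw [h1, combD_oss_add]
    exact (h g).add (h' g)
  | neg F _ h =>
    intro g
    have h1 : -F = fun g => (-1) * F g := by
      funext g
      simp
    rw [h1, combD_oss_mul _ (fun _ => (-1 : ℤ)) F (fun _ _ _ => rfl)]
    exact (h g).mul_left _

theorem oss_parity {K : ℕ → Subgroup G} {κ : ℕ → G →* G} {ls : List ℕ} (hP : ProdDec K κ ls)
    {c : G} {H : ℕ → Set G} (hH : HalfSys K c H ls) (κ₀ : ℤ) (R ψ : G → ℤ) (hR : R ∈ Dec K [] ls)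
    (g : G) :
    Even (oss (ls.map fun l => κ l c) (fun g => κ₀ * ind H ls g + R g + (ψ g + ψ (c * g))) g) ↔
      Even κ₀ := by
  have hsq : ∀ σ ∈ ls.map (fun l => κ l c), σ * σ = 1 := by
    intro σ hσ
    obtain ⟨l, _, rfl⟩ := List.mem_map.1 hσ
    show κ l c * κ l c = 1
    rw [← map_mul, hH.sq, map_one]
  rw [combD_oss_add _ (fun g => κ₀ * ind H ls g + R g) (fun g => ψ g + ψ (c * g)),
    combD_oss_add _ (fun g => κ₀ * ind H ls g) R, combD_oss_add _ ψ (fun g => ψ (c * g)),
    combD_oss_mul _ (fun _ => κ₀) (ind H ls) (fun _ _ _ => rfl), combD_oss_shift,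
    combD_ind hP hH ls (fun a ha => ha) hP.nodup]
  have h1 : oss (ls.map fun l => κ l c) ψ (c * g) = oss (ls.map fun l => κ l c) ψ g := by
    have h2 := combD_prod (ls.map fun l => κ l c) ψ hsq (ls.map fun l => κ l c)
      (fun τ hτ => hτ) g
    rw [← combD_c hP hH.sq] at h2
    exact h2
  have h3 := combD_dec hP c R hR g
  simp only [mul_one]
  rw [h1]
  have h4 : Even (oss (ls.map fun l => κ l c) ψ g + oss (ls.map fun l => κ l c) ψ g) := ⟨_, rfl⟩
  rw [Int.even_add, Int.even_add]
  simp only [h3, h4, iff_true]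

end Pool.Agent.FF
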