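import Pool.Agent.FF.CombA
import Pool.Agent.FF.CombB
import Pool.Agent.FF.CombC
import Pool.Agent.FF.CombD

/-!
# FF-Comb4

Notation: see `Pool/Agent/FF/CombDefs.lean`. Proof plan.
* `comb_even`: `comb_ind` with `ds = []`, `s = 1`; `κ₀` is even by `oss_parity`, `κ₀ = 2 j`, and
  `2 h = (h + h ∘ c) + (h - h ∘ c)` with `h - h ∘ c ∈ Dec K [] ls` by `prod_half`
  (`h ∘ c = ∏ (1 - h l)`, the length is even).
-/

set_option autoImplicit false

namespace Pool.Agent.FF

open Finset Pool.Agent.FS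

variable {G : Type*} [CommGroup G]

theorem comb_even {K : ℕ → Subgroup G} {κ : ℕ → G →* G} {ls : List ℕ} (hP : ProdDec K κ ls)
    {c : G} {H : ℕ → Set G} (hH : HalfSys K c H ls) (hlen : Even ls.length) (N : G → ℤ)
    (hN : ∀ ks : List G, List.Forall₂ (fun l k => k ∈ K l) ls ks →
      ∀ g, difs ks (fun g => N g - N (c * g)) g = 0)
    (hpar : ∃ g, Even (oss (ls.map fun l => κ l c) N g)) :
    ∃ R ∈ Dec K [] ls, ∃ E : G → ℤ, (∀ g, E (c * g) = E g) ∧ ∀ g, N g = R g + E g := by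
  have hcc : ∀ g : G, c * (c * g) = g := by
    intro g
    rw [← mul_assoc, hH.sq, one_mul]
  have hd0 : (fun g => N g - N (c * g)) ∈ Dec K [] ls :=
    dec_of_difs K κ ls hP.nodup hP.mem hP.fix hP.one _ hN
  have hd : (fun g => N g - 1 * N (c * g)) ∈ Dec K [] ls := by
    have e : (fun g => N g - 1 * N (c * g)) = (fun g => N g - N (c * g)) := by
      funext g
      rw [one_mul]
    rw [e]
    exact hd0
  have hinv : InvA K [] N := fun l hl => absurd hl List.not_mem_nil
  obtain ⟨κ₀, R, hR, ψ, _, hNe⟩ := comb_ind hP hH ls [] (List.Perm.refl _) 1 (Or.inl rfl) N hinv hd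
  have hNe' : N = fun g => κ₀ * ind H ls g + R g + (ψ g + ψ (c * g)) := by
    funext g
    rw [hNe g, one_mul]
  obtain ⟨g₀, hg₀⟩ := hpar
  rw [hNe', oss_parity hP hH κ₀ R ψ hR g₀] at hg₀
  obtain ⟨j, hj⟩ := hg₀
  have hhalf := prod_half hP hH hlen
  refine ⟨R + j • (fun g => ind H ls g - ind H ls (c * g)),
    AddSubgroup.add_mem _ hR (AddSubgroup.zsmul_mem _ hhalf j),
    fun g => j * (ind H ls g + ind H ls (c * g)) + (ψ g + ψ (c * g)), ?_, ?_⟩
  · intro g
    simp only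
    rw [hcc g]
    ring
  · intro g
    rw [hNe']
    simp only [Pi.add_apply, Pi.smul_apply, smul_eq_mul]
    rw [hj]
    ring

end Pool.Agent.FF
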