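import Pool.Agent.FF.CombDefs

/-!
# FF-CombA

Notation: see `Pool/Agent/FF/CombDefs.lean`. Proof plan.
* `dec_of_difs`: induction over `ls`. For `ls = l :: ls'` let `π g = (κ l g)⁻¹ * g` and
  `F = F ∘ π + (F - F ∘ π)`; `F ∘ π` is `K l`-invariant. `F - F ∘ π` has vanishing differences for
  `ls'`: the elements of `K l'`, `l' ≠ l`, do not change `κ l g`, so on
  `{g | κ l g = a}` the function `F - F ∘ π` agrees with `dif a⁻¹ F`, and
  `difs ks' (dif a⁻¹ F) = difs (a⁻¹ :: ks') F` (`Mixed_difs_dif`). (The induction hypothesis is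
  applied with the shorter list; only the first three properties of `κ` are used.)
-/

set_option autoImplicit false

namespace Pool.Agent.FF

open Finset Pool.Agent.FS

variable {G : Type*} [CommGroup G]

private lemma combA_congr (κl : G →* G) (a : G) (ks : List G) (hk : ∀ k ∈ ks, κl k = 1)
    (φ ψ : G → ℤ) (h : ∀ g, κl g = a → φ g = ψ g) :
    ∀ g, κl g = a → difs ks φ g = difs ks ψ g := by
  induction ks with
  | nil => exact h
  | cons k ks ih =>
    intro g hg
    have ih' := ih fun k' hk' => hk k' (List.mem_cons_of_mem _ hk')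
    change difs ks φ g - difs ks φ (k * g) = difs ks ψ g - difs ks ψ (k * g)
    rw [ih' g hg, ih' (k * g) (by rw [map_mul, hk k List.mem_cons_self, one_mul, hg])]

private lemma combA_mono (K : ℕ → Subgroup G) (l : ℕ) (ls : List ℕ) {F : G → ℤ}
    (hF : F ∈ Dec K [] ls) : F ∈ Dec K [] (l :: ls) := by
  refine AddSubgroup.closure_mono ?_ hF
  rintro F ⟨l', hl', h⟩
  exact ⟨l', List.mem_cons_of_mem _ hl', h⟩

private lemma combA_forall (K : ℕ → Subgroup G) (κl : G →* G) (ls : List ℕ) :
    ∀ ks : List G, (∀ l' ∈ ls, ∀ g ∈ K l', κl g = 1) →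
      List.Forall₂ (fun l k => k ∈ K l) ls ks → ∀ k ∈ ks, κl k = 1 := by
  induction ls with
  | nil =>
    intro ks _ h k hk
    cases h
    exact absurd hk List.not_mem_nil
  | cons l ls ih =>
    intro ks h1 h k hk
    cases h with
    | cons ha hb =>
      rcases List.mem_cons.1 hk with rfl | hk
      · exact h1 l List.mem_cons_self _ ha
      · exact ih _ (fun l' hl' => h1 l' (List.mem_cons_of_mem _ hl')) hb k hk

theorem dec_of_difs (K : ℕ → Subgroup G) (κ : ℕ → G →* G) (ls : List ℕ) (hnd : ls.Nodup)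
    (h1 : ∀ l ∈ ls, ∀ g, κ l g ∈ K l) (h2 : ∀ l ∈ ls, ∀ g ∈ K l, κ l g = g)
    (h3 : ∀ l ∈ ls, ∀ l' ∈ ls, l' ≠ l → ∀ g ∈ K l', κ l g = 1) (F : G → ℤ)
    (hF : ∀ ks : List G, List.Forall₂ (fun l k => k ∈ K l) ls ks → ∀ g, difs ks F g = 0) :
    F ∈ Dec K [] ls := by
  induction ls generalizing F with
  | nil =>
    have : F = 0 := funext fun g => hF [] List.Forall₂.nil g
    rw [this]
    exact zero_mem _
  | cons l ls ih =>
    have hl : l ∉ ls := (List.nodup_cons.1 hnd).1
    set Φ : G → ℤ := fun g => F ((κ l g)⁻¹ * g) with hΦ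
    have hΦm : Φ ∈ Dec K [] (l :: ls) := by
      refine AddSubgroup.subset_closure ⟨l, List.mem_cons_self, ?_⟩
      intro l' hl' k hk g
      have hl'' : l' = l := by simpa using hl'
      subst hl''
      have hkk := h2 l' List.mem_cons_self k hk
      simp only [hΦ]
      congr 1
      rw [map_mul, hkk, mul_inv]
      calc k⁻¹ * (κ l' g)⁻¹ * (k * g) = (k⁻¹ * k) * ((κ l' g)⁻¹ * g) := mul_mul_mul_comm _ _ _ _
        _ = _ := by rw [inv_mul_cancel, one_mul]
    have hdm : F - Φ ∈ Dec K [] (l :: ls) := by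
      refine combA_mono K l ls (ih (List.nodup_cons.1 hnd).2
        (fun l' hl' => h1 l' (List.mem_cons_of_mem _ hl'))
        (fun l' hl' => h2 l' (List.mem_cons_of_mem _ hl'))
        (fun l' hl' l'' hl'' => h3 l' (List.mem_cons_of_mem _ hl') l'' (List.mem_cons_of_mem _ hl''))
        _ ?_)
      intro ks hks g
      have hk1 : ∀ k ∈ ks, κ l k = 1 :=
        combA_forall K (κ l) ls ks (fun l' hl' => h3 l List.mem_cons_self l'
          (List.mem_cons_of_mem _ hl') (fun e => hl (e ▸ hl'))) hks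
      have e1 := combA_congr (κ l) (κ l g) ks hk1 (F - Φ) (dif (κ l g)⁻¹ F) (by
        intro h hh
        simp only [Pi.sub_apply, hΦ, dif, hh]) g rfl
      rw [e1, Mixed_difs_dif]
      exact hF ((κ l g)⁻¹ :: ks)
        (List.Forall₂.cons (inv_mem (h1 l List.mem_cons_self g)) hks) g
    have := add_mem hdm hΦm
    rwa [sub_add_cancel] at this

end Pool.Agent.FF
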