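import Pool.Agent.FS.RComb

/-!
# FF-CombDefs

An abelian group `G` which is the product of the subgroups `K l`, `l ∈ ls`, with the projections
`κ l`; `c` is an involution, `H l` a half system which depends on the component `l` only.
`InvA K ds F` says that `F` is invariant under all `K l`, `l ∈ ds`; `Dec K ds rs` is the group of
the sums of functions invariant under the `K l`, `l ∈ ds`, and under one further `K l`, `l ∈ rs`.
-/

set_option autoImplicit false

namespace Pool.Agent.FF

open Finset Pool.Agent.FS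

variable {G : Type*} [CommGroup G]

/-- sum over an orbit of an involution -/
def os (σ : G) (F : G → ℤ) : G → ℤ := fun g => F g + F (σ * g)

/-- iterated sums -/
def oss (σs : List G) (F : G → ℤ) : G → ℤ := σs.foldr os F

/-- invariance under the subgroups of a list -/
def InvA (K : ℕ → Subgroup G) (ds : List ℕ) (F : G → ℤ) : Prop :=
  ∀ l ∈ ds, ∀ k ∈ K l, ∀ g, F (k * g) = F g

/-- sums of functions invariant under all `K l`, `l ∈ ds`, and under one `K l`, `l ∈ rs` -/
def Dec (K : ℕ → Subgroup G) (ds rs : List ℕ) : AddSubgroup (G → ℤ) :=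
  AddSubgroup.closure {F | ∃ l ∈ rs, InvA K (l :: ds) F}

open Classical in
/-- indicator function of the intersection of the half systems -/
noncomputable def ind (H : ℕ → Set G) (ls : List ℕ) (g : G) : ℤ :=
  if ∀ l ∈ ls, g ∈ H l then 1 else 0

/-- a product decomposition -/
structure ProdDec (K : ℕ → Subgroup G) (κ : ℕ → G →* G) (ls : List ℕ) : Prop where
  nodup : ls.Nodup
  mem : ∀ l ∈ ls, ∀ g, κ l g ∈ K l
  fix : ∀ l ∈ ls, ∀ g ∈ K l, κ l g = g
  one : ∀ l ∈ ls, ∀ l' ∈ ls, l' ≠ l → ∀ g ∈ K l', κ l g = 1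
  gen : ∀ g : G, (∀ l ∈ ls, κ l g = 1) → g = 1

/-- half systems for an involution -/
structure HalfSys (K : ℕ → Subgroup G) (c : G) (H : ℕ → Set G) (ls : List ℕ) : Prop where
  sq : c * c = 1
  neg : ∀ l ∈ ls, ∀ g, c * g ∈ H l ↔ g ∉ H l
  inv : ∀ l ∈ ls, ∀ l' ∈ ls, l' ≠ l → ∀ k ∈ K l', ∀ g, k * g ∈ H l ↔ g ∈ H l

end Pool.Agent.FF
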