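import Pool.Agent.FF.Inv

/-!
# FF-Eleven

Proof plan.
* `eleven`. If `z = 0`: `t = 1` and `sw y = sw (11 y)`. If `11 y = 0` then `sw y = 0`, so
  `y = m / 2` and `2 y = 0`. Otherwise `y = 11 y`, `10 y = 0`, and `5` does not divide `m`, so
  `2 y = 0`. Now `z ≠ 0`, `N = addOrderOf z ≥ 2`, choose a unit `t` with `t z = m / N` (see the
  plan of `unit_fix` in FF-Ybd) and replace `y, z` by `t y, t z`: `val z = m / N`,
  `2 sw z = 4 m / N - 2 m`. If `11 y = 0` then `sw y = 4 m / N - 2 m > - m` gives `N = 2` or `N = 3`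
  and `sw y = 0` or `sw y = - 2 m / 3`, `y = m / 2` or `y = m / 6`: contradiction to `11 y = 0`.
  So let `a = val y`, `b = val (11 y)`, both in `(0, m)`: `a - b = 2 m / N - m`, so
  `a < 2 m / N`, and `b = 11 a - m i`: `10 a + 2 m / N = m j` with `j = i + 1`, that is
  `10 a N = m (j N - 2)`. `a > 0` gives `j N > 2`, `a < 2 m / N` gives `j N < 22`, and
  `5 ∣ j N - 2` since `5` does not divide `m`: `j N` is `7`, `12` or `17`.
  `j N = 12`: `a N = m`, `y = z`, `N ∣ 12`, so `12 y = 0`.
  `j N = 7`, `N = 7` (`N ≥ 2`): `14 a = m`, `val z = 2 a`; apply `h` to the unit `5`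
  (times the old `t`): `sw (5 y) - sw (55 y) = 2 sw (5 z)`: `(10 a - 14 a) - (26 a - 14 a) =
  2 (20 a - 14 a)`, false.
  `j N = 17`, `N = 17`: `34 a = 3 m`, so `m = 34 c`, `a = 3 c`, `val z = 2 c`; apply `h` to the unit
  `5 ^ 4 = 625`: `625 y = 5 c`, `11 * 5 c = 21 c`, `625 z = 26 c`:
  `(10 - 34) c - (42 - 34) c = 2 (52 - 34) c`, false.
-/

set_option autoImplicit false

namespace Pool.Agent.FF

open Finset Pool.Agent.FS
open Pool.Agent.Helper9.Fermat (fib mem_fib)
open Pool.Agent.FS.Quot (sw_zero sw_of_ne)

section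

variable {m : ℕ} [NeZero m]

private theorem eleven_sw {x : ℕ} (h0 : 0 < x) (hx : x < m) :
    sw ((x : ℕ) : ZMod m) = 2 * (x : ℤ) - m := by
  have h1 : ((x : ℕ) : ZMod m).val = x := ZMod.val_cast_of_lt hx
  have h2 : ((x : ℕ) : ZMod m) ≠ 0 := by
    intro h
    rw [h, ZMod.val_zero] at h1
    omega
  rw [sw_of_ne h2, h1]

private theorem eleven_unit (z : ZMod m) (hz : z ≠ 0) :
    ∃ (t : (ZMod m)ˣ) (N c : ℕ), 2 ≤ N ∧ m = N * c ∧ (t : ZMod m) * z = ((c : ℕ) : ZMod m) := by
  have hN0 : 0 < addOrderOf z := addOrderOf_pos z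
  have hNm : addOrderOf z ∣ m := by
    have := addOrderOf_dvd_card (x := z)
    rwa [ZMod.card] at this
  have hN1 : addOrderOf z ≠ 1 := by
    intro h
    exact hz (AddMonoid.addOrderOf_eq_one_iff.mp h)
  have : NeZero (addOrderOf z) := ⟨hN0.ne'⟩
  obtain ⟨w, hw⟩ := (exists_emb hNm z).1 rfl
  obtain ⟨t, ht⟩ := ZMod.unitsMap_surjective hNm w⁻¹
  obtain ⟨c, hc⟩ := hNm
  have hmn : m / addOrderOf z = c := Nat.div_eq_of_eq_mul_right hN0 hc
  refine ⟨t, addOrderOf z, c, by omega, hc, ?_⟩
  have h1 : ((t : ZMod m)).val ≡ ((w⁻¹ : (ZMod (addOrderOf z))ˣ) : ZMod (addOrderOf z)).val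
      [MOD addOrderOf z] := by
    rw [← ZMod.natCast_eq_natCast_iff, ZMod.natCast_zmod_val, ← ht, ZMod.unitsMap_val]
    rw [ZMod.natCast_val]
  have h2 : (t : ZMod m).val * ((w : (ZMod (addOrderOf z))ˣ) : ZMod (addOrderOf z)).val ≡ 1
      [MOD addOrderOf z] := by
    refine (h1.mul_right _).trans ?_
    rw [← ZMod.natCast_eq_natCast_iff]
    push_cast
    rw [ZMod.natCast_zmod_val, ZMod.natCast_zmod_val]
    exact w.inv_mul
  have h3 : c * ((t : ZMod m).val * ((w : (ZMod (addOrderOf z))ˣ) : ZMod (addOrderOf z)).val) ≡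
      c * 1 [MOD c * addOrderOf z] := h2.mul_left' c
  have h4 : c * addOrderOf z = m := by
    rw [mul_comm]
    exact hc.symm
  rw [h4, ← ZMod.natCast_eq_natCast_iff] at h3
  have h5 : z = ((c * ((w : (ZMod (addOrderOf z))ˣ) : ZMod (addOrderOf z)).val : ℕ) : ZMod m) := by
    conv_lhs => rw [hw]
    unfold emb
    rw [hmn]
  calc (t : ZMod m) * z = ((c * ((t : ZMod m).val *
        ((w : (ZMod (addOrderOf z))ˣ) : ZMod (addOrderOf z)).val) : ℕ) : ZMod m) := by
        conv_lhs => rw [h5]
        push_cast
        rw [ZMod.natCast_zmod_val]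
        ring
    _ = ((c * 1 : ℕ) : ZMod m) := h3
    _ = ((c : ℕ) : ZMod m) := by rw [mul_one]

theorem eleven (hm : Even m) (h5 : ¬ 5 ∣ m) (y z : ZMod m) (hy : y ≠ 0)
    (h : ∀ t : (ZMod m)ˣ, sw ((t : ZMod m) * y) - sw ((t : ZMod m) * (11 * y)) =
      2 * sw ((t : ZMod m) * z)) : 12 * y = 0 := by
  have hm0 : 0 < m := Nat.pos_of_ne_zero (NeZero.ne m)
  have hcop : Nat.Coprime 5 m := (Nat.Prime.coprime_iff_not_dvd Nat.prime_five).mpr h5
  have hu5 : IsUnit (5 : ZMod m) := by
    have := (ZMod.unitOfCoprime 5 hcop).isUnit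
    rwa [ZMod.coe_unitOfCoprime] at this
  by_cases hz : z = 0
  · have h1 := h 1
    rw [hz, mul_zero, sw_zero, mul_zero, Units.val_one, one_mul, one_mul] at h1
    by_cases h11 : 11 * y = 0
    · rw [h11, sw_zero, sub_zero, sw_of_ne hy] at h1
      have h2 : 2 * y.val = m := by omega
      have h3 : 2 * y = 0 := by
        have h4 : ((2 * y.val : ℕ) : ZMod m) = 0 := by
          rw [h2]
          exact ZMod.natCast_self m
        push_cast at h4
        rwa [ZMod.natCast_zmod_val] at h4
      calc 12 * y = 6 * (2 * y) := by ring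
        _ = 0 := by rw [h3, mul_zero]
    · rw [sw_of_ne hy, sw_of_ne h11] at h1
      have h2 : y.val = (11 * y).val := by omega
      have h3 : y = 11 * y := ZMod.val_injective m h2
      have h4 : (5 : ZMod m) * (2 * y) = 0 := by
        have h5 : 11 * y - y = 0 := sub_eq_zero.mpr h3.symm
        calc (5 : ZMod m) * (2 * y) = 11 * y - y := by ring
          _ = 0 := h5
      have h6 : 2 * y = 0 := by
        exact (hu5.mul_right_eq_zero).mp h4
      calc 12 * y = 6 * (2 * y) := by ring
        _ = 0 := by rw [h6, mul_zero]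
  · obtain ⟨t, N, c, hN, hmc, htz⟩ := eleven_unit z hz
    have hc0 : 0 < c := by
      rcases Nat.eq_zero_or_pos c with h1 | h1
      · rw [h1, mul_zero] at hmc
        omega
      · exact h1
    have hy1 : (t : ZMod m) * y ≠ 0 := by
      intro h1
      exact hy ((t.isUnit.mul_right_eq_zero).mp h1)
    obtain ⟨a, ha0, ham, hay⟩ : ∃ a : ℕ, 0 < a ∧ a < m ∧ (t : ZMod m) * y = ((a : ℕ) : ZMod m) := by
      refine ⟨((t : ZMod m) * y).val, ?_, ZMod.val_lt _, ?_⟩
      · exact Nat.pos_of_ne_zero fun h1 => hy1 ((ZMod.val_eq_zero _).mp h1)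
      · rw [ZMod.natCast_zmod_val]
    have hcm : c < m := by
      rw [hmc]
      nlinarith
    -- the hypothesis for multiples of `t`
    have key : ∀ k : ℕ, k.Coprime m → sw (((k * a : ℕ)) : ZMod m) - sw (((k * (11 * a) : ℕ)) : ZMod m) =
        2 * sw (((k * c : ℕ)) : ZMod m) := by
      intro k hk
      have h1 := h (ZMod.unitOfCoprime k hk * t)
      have e1 : ((ZMod.unitOfCoprime k hk * t : (ZMod m)ˣ) : ZMod m) * y = ((k * a : ℕ) : ZMod m) := by
        rw [Units.val_mul, ZMod.coe_unitOfCoprime, mul_assoc, hay]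
        push_cast
        ring
      have e2 : ((ZMod.unitOfCoprime k hk * t : (ZMod m)ˣ) : ZMod m) * (11 * y) =
          ((k * (11 * a) : ℕ) : ZMod m) := by
        have : ((ZMod.unitOfCoprime k hk * t : (ZMod m)ˣ) : ZMod m) * (11 * y) =
            11 * (((ZMod.unitOfCoprime k hk * t : (ZMod m)ˣ) : ZMod m) * y) := by ring
        rw [this, e1]
        push_cast
        ring
      have e3 : ((ZMod.unitOfCoprime k hk * t : (ZMod m)ˣ) : ZMod m) * z = ((k * c : ℕ) : ZMod m) := by
        rw [Units.val_mul, ZMod.coe_unitOfCoprime, mul_assoc, htz]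
        push_cast
        ring
      rw [e1, e2, e3] at h1
      exact h1
    have back : ((12 * a : ℕ) : ZMod m) = 0 → 12 * y = 0 := by
      intro h1
      have h2 : (t : ZMod m) * (12 * y) = 0 := by
        calc (t : ZMod m) * (12 * y) = 12 * ((t : ZMod m) * y) := by ring
          _ = 0 := by
            rw [hay]
            push_cast at h1
            exact h1
      exact (t.isUnit.mul_right_eq_zero).mp h2
    have h1 := key 1 (Nat.coprime_one_left m)
    rw [one_mul, one_mul, one_mul, eleven_sw ha0 ham, eleven_sw hc0 hcm] at h1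
    by_cases h11 : (((11 * a : ℕ)) : ZMod m) = 0
    · exfalso
      rw [h11, sw_zero] at h1
      rw [ZMod.natCast_eq_zero_iff] at h11
      have h2 : 2 * a + m = 4 * c := by omega
      have hN4 : N < 4 := by
        by_contra hN4
        have : 4 * c ≤ N * c := Nat.mul_le_mul_right c (by omega)
        omega
      have hN23 : N = 2 ∨ N = 3 := by omega
      rcases hN23 with rfl | rfl
      · have h3 : m = 2 * a := by omega
        rw [h3] at h11
        have := Nat.le_of_dvd (by omega) h11
        obtain ⟨k, hk⟩ := h11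
        have h6 : 11 * a = a * (2 * k) := by rw [hk]; ring
        have h7 : 11 = 2 * k := by
          have : a * 11 = a * (2 * k) := by rw [← h6]; ring
          exact Nat.eq_of_mul_eq_mul_left ha0 this
        omega
      · have h3 : m = 6 * a := by omega
        rw [h3] at h11
        obtain ⟨k, hk⟩ := h11
        have h6 : 11 * a = a * (6 * k) := by rw [hk]; ring
        have h7 : 11 = 6 * k := by
          have : a * 11 = a * (6 * k) := by rw [← h6]; ring
          exact Nat.eq_of_mul_eq_mul_left ha0 this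
        omega
    · rw [sw_of_ne h11, ZMod.val_natCast] at h1
      have hb := Nat.mod_lt (11 * a) hm0
      have hdiv := Nat.div_add_mod (11 * a) m
      set b := 11 * a % m with hbdef
      set i := 11 * a / m with hidef
      have hab : b + 2 * c = a + m := by omega
      have ha2c : a < 2 * c := by omega
      -- 10 a + 2 c = m (i + 1)
      have h3 : 10 * a + 2 * c = m * (i + 1) := by
        have : m * (i + 1) = m * i + m := by ring
        omega
      have h4 : 10 * a + 2 * c = c * (N * (i + 1)) := by
        rw [h3]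
        conv_lhs => rw [hmc]
        ring
      obtain ⟨j, hj⟩ : ∃ j, j = N * (i + 1) := ⟨_, rfl⟩
      rw [← hj] at h4
      have hj2 : 2 < j := by
        by_contra hj2
        have : c * j ≤ c * 2 := Nat.mul_le_mul_left c (by omega)
        omega
      have hj22 : j < 22 := by
        by_contra hj22
        have : c * 22 ≤ c * j := Nat.mul_le_mul_left c (by omega)
        omega
      have h5c : ¬ 5 ∣ c := fun h6 => h5 (hmc ▸ Dvd.dvd.mul_left h6 N)
      obtain ⟨e, he⟩ : ∃ e, j = e + 2 := ⟨j - 2, by omega⟩
      have h6 : 10 * a = c * e := by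
        rw [he, mul_add] at h4
        omega
      have h7 : 5 ∣ e := by
        have : 5 ∣ c * e := ⟨2 * a, by rw [← h6]; ring⟩
        rcases (Nat.Prime.dvd_mul Nat.prime_five).mp this with h8 | h8
        · exact absurd h8 h5c
        · exact h8
      have hNj : N ∣ j := ⟨i + 1, hj⟩
      have he3 : e = 5 ∨ e = 10 ∨ e = 15 := by omega
      rcases he3 with rfl | rfl | rfl
      · -- j = 7
        have hN7 : N = 7 := by
          rw [he] at hNj
          rcases (Nat.dvd_prime (by norm_num : Nat.Prime 7)).mp hNj with h8 | h8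
          · omega
          · exact h8
        exfalso
        rw [hN7] at hmc
        have hc2 : c = 2 * a := by omega
        have hm14 : m = 14 * a := by omega
        have h8 := key 5 hcop
        have e1 : ((5 * (11 * a) : ℕ) : ZMod m) = ((13 * a : ℕ) : ZMod m) := by
          rw [ZMod.natCast_eq_natCast_iff]
          have : 5 * (11 * a) = 13 * a + m * 3 := by omega
          rw [this]
          exact Nat.add_mul_mod_self_left _ _ _
        rw [e1, eleven_sw (by omega) (by omega), eleven_sw (by omega) (by omega),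
          eleven_sw (by omega) (by omega)] at h8
        push_cast at h8
        omega
      · -- j = 12
        have hac : a = c := by omega
        apply back
        rw [ZMod.natCast_eq_zero_iff, hac]
        rw [he] at hNj
        obtain ⟨k, hk⟩ := hNj
        refine ⟨k, ?_⟩
        rw [hmc]
        calc 12 * c = (10 + 2) * c := by norm_num
          _ = N * k * c := by rw [hk]
          _ = N * c * k := by ring
      · -- j = 17
        have hN17 : N = 17 := by
          rw [he] at hNj
          rcases (Nat.dvd_prime (by norm_num : Nat.Prime 17)).mp hNj with h8 | h8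
          · omega
          · exact h8
        exfalso
        rw [hN17] at hmc
        obtain ⟨f, hf⟩ : ∃ f, c = 2 * f := ⟨c / 2, by omega⟩
        have haf : a = 3 * f := by omega
        have hm34 : m = 34 * f := by omega
        have hc625 : Nat.Coprime 625 m := by
          have : (625 : ℕ) = 5 ^ 4 := by norm_num
          rw [this]
          exact Nat.Coprime.pow_left 4 hcop
        have h8 := key 625 hc625
        have e1 : ((625 * a : ℕ) : ZMod m) = ((5 * f : ℕ) : ZMod m) := by
          rw [ZMod.natCast_eq_natCast_iff]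
          have : 625 * a = 5 * f + m * 55 := by omega
          rw [this]
          exact Nat.add_mul_mod_self_left _ _ _
        have e2 : ((625 * (11 * a) : ℕ) : ZMod m) = ((21 * f : ℕ) : ZMod m) := by
          rw [ZMod.natCast_eq_natCast_iff]
          have : 625 * (11 * a) = 21 * f + m * 606 := by omega
          rw [this]
          exact Nat.add_mul_mod_self_left _ _ _
        have e3 : ((625 * c : ℕ) : ZMod m) = ((26 * f : ℕ) : ZMod m) := by
          rw [ZMod.natCast_eq_natCast_iff]
          have : 625 * c = 26 * f + m * 36 := by omega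
          rw [this]
          exact Nat.add_mul_mod_self_left _ _ _
        rw [e1, e2, e3, eleven_sw (by omega) (by omega), eleven_sw (by omega) (by omega),
          eleven_sw (by omega) (by omega)] at h8
        push_cast at h8
        omega

end

end Pool.Agent.FF
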