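import Pool.Agent.FF.Inv

/-!
# FF-Eleven7

Proof plan (compare the proved file `Pool/Agent/FF/Eleven.lean`, whose lemmas can be copied).
If `z = 0`: `sw y = sw (11 y)` (`t = 1`), both arguments nonzero, so `y = 11 y`, `10 y = 0`, and
`7` does not divide the order of `y`. Let `z ≠ 0`, `N = addOrderOf z ≥ 2`. For a unit `t` with
`t z = m / N` let `a = val (t y)`, `b = val (t (11 y))`, both in `(0, m)`: `a - b = 2 m / N - m` and
`b = 11 a - m i`, so `10 a N = m (j N - 2)` with `2 < j N < 22`. As elements of `ZMod m` this says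
`10 y = - 2 z`, so `(10 N) y = 0`: if `7` does not divide `N` then it does not divide the order of
`y` either. So it suffices to show `¬ 7 ∣ N`. Otherwise `N = 7` and `j = 1, 2, 3`, `N = 14` and
`j = 1`, or `N = 21` and `j = 1`:
* `N = 7`, `j = 1`: `m = 14 c`, `t y = c`, `t z = 2 c`; a unit `s ≡ 5 mod 14` gives
  `sw (5 c) - sw (13 c) = 2 sw (10 c)`, i.e. `(10 - 14) - (26 - 14) = 2 (20 - 14)`, false.
* `N = 7`, `j = 2`: `m = 35 c`, `t y = 6 c`, `t z = 5 c`; `s ≡ 13 mod 35`.
* `N = 7`, `j = 3`: `m = 70 c`, `t y = 19 c`, `t z = 10 c`; `s ≡ 13 mod 70`.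
* `N = 14`, `j = 1`: `m = 70 c`, `t y = 6 c`, `t z = 5 c`; `s ≡ 13 mod 70`.
* `N = 21`, `j = 1`: `m = 210 c`, `t y = 19 c`, `t z = 10 c`; `s ≡ 13 mod 210`.
(`val (s * (w c))` is `(s w mod M) c` for `m = M c`; the units exist by
`ZMod.unitsMap_surjective`; in each case the relation `h` for the unit `s t` is false.)
-/

set_option autoImplicit false

namespace Pool.Agent.FF

open Finset Pool.Agent.FS
open Pool.Agent.Helper9.Fermat (fib mem_fib)
open Pool.Agent.FS.Quot (sw_zero sw_of_ne)

section

variable {m : ℕ} [NeZero m]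

omit [NeZero m] in
private theorem eleven7_sw {x : ℕ} (h0 : 0 < x) (hx : x < m) :
    sw ((x : ℕ) : ZMod m) = 2 * (x : ℤ) - m := by
  have h1 : ((x : ℕ) : ZMod m).val = x := ZMod.val_cast_of_lt hx
  have h2 : ((x : ℕ) : ZMod m) ≠ 0 := by
    intro h
    rw [h, ZMod.val_zero] at h1
    omega
  rw [sw_of_ne h2, h1]

private theorem eleven7_unit0 (z : ZMod m) (hz : z ≠ 0) :
    ∃ (t : (ZMod m)ˣ) (c : ℕ), 2 ≤ addOrderOf z ∧ m = addOrderOf z * c ∧
      (t : ZMod m) * z = ((c : ℕ) : ZMod m) := by
  have hN0 : 0 < addOrderOf z := addOrderOf_pos z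
  have hNm : addOrderOf z ∣ m := by
    have := addOrderOf_dvd_card (x := z)
    rwa [ZMod.card] at this
  have hN1 : addOrderOf z ≠ 1 := by
    intro h
    exact hz (AddMonoid.addOrderOf_eq_one_iff.mp h)
  have : NeZero (addOrderOf z) := ⟨hN0.ne'⟩
  obtain ⟨w, hw⟩ := (exists_emb hNm z).1 rfl
  obtain ⟨t, ht⟩ := ZMod.unitsMap_surjective hNm w⁻¹
  obtain ⟨c, hc⟩ := hNm
  have hmn : m / addOrderOf z = c := Nat.div_eq_of_eq_mul_right hN0 hc
  refine ⟨t, c, by omega, hc, ?_⟩
  have h1 : ((t : ZMod m)).val ≡ ((w⁻¹ : (ZMod (addOrderOf z))ˣ) : ZMod (addOrderOf z)).val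
      [MOD addOrderOf z] := by
    rw [← ZMod.natCast_eq_natCast_iff, ZMod.natCast_zmod_val, ← ht, ZMod.unitsMap_val]
    rw [ZMod.natCast_val]
  have h2 : (t : ZMod m).val * ((w : (ZMod (addOrderOf z))ˣ) : ZMod (addOrderOf z)).val ≡ 1
      [MOD addOrderOf z] := by
    refine (h1.mul_right _).trans ?_
    rw [← ZMod.natCast_eq_natCast_iff]
    push_cast
    rw [ZMod.natCast_zmod_val, ZMod.natCast_zmod_val]
    exact w.inv_mul
  have h3 : c * ((t : ZMod m).val * ((w : (ZMod (addOrderOf z))ˣ) : ZMod (addOrderOf z)).val) ≡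
      c * 1 [MOD c * addOrderOf z] := h2.mul_left' c
  have h4 : c * addOrderOf z = m := by
    rw [mul_comm]
    exact hc.symm
  rw [h4, ← ZMod.natCast_eq_natCast_iff] at h3
  have h5 : z = ((c * ((w : (ZMod (addOrderOf z))ˣ) : ZMod (addOrderOf z)).val : ℕ) : ZMod m) := by
    conv_lhs => rw [hw]
    unfold emb
    rw [hmn]
  calc (t : ZMod m) * z = ((c * ((t : ZMod m).val *
        ((w : (ZMod (addOrderOf z))ˣ) : ZMod (addOrderOf z)).val) : ℕ) : ZMod m) := by
        conv_lhs => rw [h5]
        push_cast
        rw [ZMod.natCast_zmod_val]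
        ring
    _ = ((c * 1 : ℕ) : ZMod m) := h3
    _ = ((c : ℕ) : ZMod m) := by rw [mul_one]

/-- a unit of `ZMod m` with a prescribed residue modulo a divisor `M` of `m` -/
private theorem eleven7_unit (M f k : ℕ) (hmf : m = M * f) (hk : k.Coprime M) :
    ∃ s : (ZMod m)ˣ, ∀ w : ℕ, (s : ZMod m) * ((w * f : ℕ) : ZMod m) =
      (((k * w % M) * f : ℕ) : ZMod m) := by
  have hm0 : m ≠ 0 := NeZero.ne m
  have hM0 : M ≠ 0 := by
    rintro rfl
    rw [zero_mul] at hmf
    exact hm0 hmf
  have : NeZero M := ⟨hM0⟩
  have hMm : M ∣ m := ⟨f, hmf⟩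
  obtain ⟨s, hs⟩ := ZMod.unitsMap_surjective hMm (ZMod.unitOfCoprime k hk)
  refine ⟨s, fun w => ?_⟩
  have h1 : (s : ZMod m).val ≡ k [MOD M] := by
    rw [← ZMod.natCast_eq_natCast_iff]
    have h2 := congrArg (fun u : (ZMod M)ˣ => (u : ZMod M)) hs
    simp only [ZMod.unitsMap_val, ZMod.coe_unitOfCoprime] at h2
    rw [ZMod.natCast_val]
    exact h2
  have h2 : f * ((s : ZMod m).val * w) ≡ f * (k * w % M) [MOD f * M] :=
    ((h1.mul_right w).trans (Nat.mod_modEq (k * w) M).symm).mul_left' f
  have h3 : f * M = m := by rw [hmf, mul_comm]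
  rw [h3, ← ZMod.natCast_eq_natCast_iff] at h2
  calc (s : ZMod m) * ((w * f : ℕ) : ZMod m) = ((f * ((s : ZMod m).val * w) : ℕ) : ZMod m) := by
        push_cast
        rw [ZMod.natCast_zmod_val]
        ring
    _ = ((f * (k * w % M) : ℕ) : ZMod m) := h2
    _ = _ := by rw [mul_comm]

theorem eleven7 (hm : Even m) (y z : ZMod m) (hy : y ≠ 0) (hy11 : 11 * y ≠ 0)
    (h : ∀ t : (ZMod m)ˣ, sw ((t : ZMod m) * y) - sw ((t : ZMod m) * (11 * y)) =
      2 * sw ((t : ZMod m) * z)) : ¬ 7 ∣ addOrderOf y ∧ ¬ 7 ∣ addOrderOf z := by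
  have hm0 : 0 < m := Nat.pos_of_ne_zero (NeZero.ne m)
  by_cases hz : z = 0
  · have h1 := h 1
    rw [hz, mul_zero, sw_zero, mul_zero, Units.val_one, one_mul, one_mul, sw_of_ne hy,
      sw_of_ne hy11] at h1
    have h2 : y.val = (11 * y).val := by omega
    have h3 : y = 11 * y := ZMod.val_injective m h2
    have h4 : (10 : ℕ) • y = 0 := by
      rw [nsmul_eq_mul]
      push_cast
      calc 10 * y = 11 * y - y := by ring
        _ = 0 := sub_eq_zero.mpr h3.symm
    refine ⟨fun h7 => ?_, ?_⟩
    · have h5 := h7.trans (addOrderOf_dvd_of_nsmul_eq_zero h4)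
      omega
    · rw [hz, addOrderOf_zero]
      omega
  · obtain ⟨t, c, hN, hmc, htz⟩ := eleven7_unit0 z hz
    have hNz : addOrderOf z • z = 0 := addOrderOf_nsmul_eq_zero z
    set N := addOrderOf z with hNdef
    have hc0 : 0 < c := by
      rcases Nat.eq_zero_or_pos c with h1 | h1
      · rw [h1, mul_zero] at hmc
        omega
      · exact h1
    have hy1 : (t : ZMod m) * y ≠ 0 := by
      intro h1
      exact hy ((t.isUnit.mul_right_eq_zero).mp h1)
    obtain ⟨a, ha0, ham, hay⟩ : ∃ a : ℕ, 0 < a ∧ a < m ∧ (t : ZMod m) * y = ((a : ℕ) : ZMod m) := by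
      refine ⟨((t : ZMod m) * y).val, ?_, ZMod.val_lt _, ?_⟩
      · exact Nat.pos_of_ne_zero fun h1 => hy1 ((ZMod.val_eq_zero _).mp h1)
      · rw [ZMod.natCast_zmod_val]
    have hcm : c < m := by
      rw [hmc]
      nlinarith
    have hay11 : (t : ZMod m) * (11 * y) = ((11 * a : ℕ) : ZMod m) := by
      have : (t : ZMod m) * (11 * y) = 11 * ((t : ZMod m) * y) := by ring
      rw [this, hay]
      push_cast
      ring
    -- the hypothesis for multiples of `t`
    have key : ∀ s : (ZMod m)ˣ, sw ((s : ZMod m) * ((a : ℕ) : ZMod m)) -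
        sw ((s : ZMod m) * ((11 * a : ℕ) : ZMod m)) = 2 * sw ((s : ZMod m) * ((c : ℕ) : ZMod m)) := by
      intro s
      have h1 := h (s * t)
      rw [Units.val_mul, mul_assoc, mul_assoc, mul_assoc, hay, hay11, htz] at h1
      exact h1
    have h11 : ((11 * a : ℕ) : ZMod m) ≠ 0 := by
      rw [← hay11]
      intro h1
      exact hy11 ((t.isUnit.mul_right_eq_zero).mp h1)
    have h1 := key 1
    rw [Units.val_one, one_mul, one_mul, one_mul, eleven7_sw ha0 ham, eleven7_sw hc0 hcm,
      sw_of_ne h11, ZMod.val_natCast] at h1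
    have hb := Nat.mod_lt (11 * a) hm0
    have hdiv := Nat.div_add_mod (11 * a) m
    set b := 11 * a % m with hbdef
    set i := 11 * a / m with hidef
    have hab : b + 2 * c = a + m := by omega
    have ha2c : a < 2 * c := by omega
    -- 10 a + 2 c = m (i + 1)
    have h3 : 10 * a + 2 * c = m * (i + 1) := by
      have : m * (i + 1) = m * i + m := by ring
      omega
    have h7N : ¬ 7 ∣ N := by
      intro h7N
      have h4 : 10 * a + 2 * c = c * (N * (i + 1)) := by
        rw [h3]
        conv_lhs => rw [hmc]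
        ring
      obtain ⟨j, hj⟩ : ∃ j, j = N * (i + 1) := ⟨_, rfl⟩
      rw [← hj] at h4
      have hj2 : 2 < j := by
        by_contra hj2
        have : c * j ≤ c * 2 := Nat.mul_le_mul_left c (by omega)
        omega
      have hj22 : j < 22 := by
        by_contra hj22
        have : c * 22 ≤ c * j := Nat.mul_le_mul_left c (by omega)
        omega
      have hNj : N ∣ j := ⟨i + 1, hj⟩
      have h7j : 7 ∣ j := h7N.trans hNj
      have hNle : N ≤ j := Nat.le_of_dvd (by omega) hNj
      have hj3 : j = 7 ∨ j = 14 ∨ j = 21 := by omega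
      have hN3 : N = 7 ∨ N = 14 ∨ N = 21 := by omega
      rcases hj3 with rfl | rfl | rfl
      · have hN7 : N = 7 := by omega
        rw [hN7] at hmc
        obtain ⟨s, hs⟩ := eleven7_unit 14 a 5 (by omega : m = 14 * a) (by norm_num)
        have h8 := key s
        have e1 := hs 1
        have e2 := hs 11
        have e3 := hs 2
        norm_num at e1 e2 e3
        have hc2 : c = 2 * a := by omega
        rw [hc2] at h8
        push_cast at h8
        rw [e1, e2, e3] at h8
        have f1 := eleven7_sw (m := m) (x := 5 * a) (by omega) (by omega)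
        have f2 := eleven7_sw (m := m) (x := 13 * a) (by omega) (by omega)
        have f3 := eleven7_sw (m := m) (x := 10 * a) (by omega) (by omega)
        push_cast at f1 f2 f3
        rw [f1, f2, f3] at h8
        omega
      · obtain ⟨f, hf⟩ : ∃ f, c = 5 * f := ⟨c / 5, by omega⟩
        have haf : a = 6 * f := by omega
        have hN2 : N = 7 ∨ N = 14 := by omega
        rcases hN2 with hN7 | hN14
        · rw [hN7] at hmc
          obtain ⟨s, hs⟩ := eleven7_unit 35 f 13 (by omega : m = 35 * f) (by norm_num)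
          have h8 := key s
          have e1 := hs 6
          have e2 := hs 66
          have e3 := hs 5
          norm_num at e1 e2 e3
          rw [hf, haf] at h8
          have e4 : 11 * (6 * f) = 66 * f := by ring
          rw [e4] at h8
          push_cast at h8
          rw [e1, e2, e3] at h8
          have f1 := eleven7_sw (m := m) (x := 8 * f) (by omega) (by omega)
          have f2 := eleven7_sw (m := m) (x := 18 * f) (by omega) (by omega)
          have f3 := eleven7_sw (m := m) (x := 30 * f) (by omega) (by omega)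
          push_cast at f1 f2 f3
          rw [f1, f2, f3] at h8
          omega
        · rw [hN14] at hmc
          obtain ⟨s, hs⟩ := eleven7_unit 70 f 13 (by omega : m = 70 * f) (by norm_num)
          have h8 := key s
          have e1 := hs 6
          have e2 := hs 66
          have e3 := hs 5
          norm_num at e1 e2 e3
          rw [hf, haf] at h8
          have e4 : 11 * (6 * f) = 66 * f := by ring
          rw [e4] at h8
          push_cast at h8
          rw [e1, e2, e3] at h8
          have f1 := eleven7_sw (m := m) (x := 8 * f) (by omega) (by omega)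
          have f2 := eleven7_sw (m := m) (x := 18 * f) (by omega) (by omega)
          have f3 := eleven7_sw (m := m) (x := 65 * f) (by omega) (by omega)
          push_cast at f1 f2 f3
          rw [f1, f2, f3] at h8
          omega
      · obtain ⟨f, hf⟩ : ∃ f, c = 10 * f := ⟨c / 10, by omega⟩
        have haf : a = 19 * f := by omega
        have hN2 : N = 7 ∨ N = 21 := by
          rcases hN3 with h | h | h
          · exact Or.inl h
          · rw [h] at hNj
            omega
          · exact Or.inr h
        rcases hN2 with hN7 | hN21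
        · rw [hN7] at hmc
          obtain ⟨s, hs⟩ := eleven7_unit 70 f 13 (by omega : m = 70 * f) (by norm_num)
          have h8 := key s
          have e1 := hs 19
          have e2 := hs 209
          have e3 := hs 10
          norm_num at e1 e2 e3
          rw [hf, haf] at h8
          have e4 : 11 * (19 * f) = 209 * f := by ring
          rw [e4] at h8
          push_cast at h8
          rw [e1, e2, e3] at h8
          have f1 := eleven7_sw (m := m) (x := 37 * f) (by omega) (by omega)
          have f2 := eleven7_sw (m := m) (x := 57 * f) (by omega) (by omega)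
          have f3 := eleven7_sw (m := m) (x := 60 * f) (by omega) (by omega)
          push_cast at f1 f2 f3
          rw [f1, f2, f3] at h8
          omega
        · rw [hN21] at hmc
          obtain ⟨s, hs⟩ := eleven7_unit 210 f 13 (by omega : m = 210 * f) (by norm_num)
          have h8 := key s
          have e1 := hs 19
          have e2 := hs 209
          have e3 := hs 10
          norm_num at e1 e2 e3
          rw [hf, haf] at h8
          have e4 : 11 * (19 * f) = 209 * f := by ring
          rw [e4] at h8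
          push_cast at h8
          rw [e1, e2, e3] at h8
          have f1 := eleven7_sw (m := m) (x := 37 * f) (by omega) (by omega)
          have f2 := eleven7_sw (m := m) (x := 197 * f) (by omega) (by omega)
          have f3 := eleven7_sw (m := m) (x := 130 * f) (by omega) (by omega)
          push_cast at f1 f2 f3
          rw [f1, f2, f3] at h8
          omega
    refine ⟨fun h7 => ?_, h7N⟩
    have h10 : (10 : ZMod m) * ((t : ZMod m) * y) = - (2 * ((t : ZMod m) * z)) := by
      rw [hay, htz]
      have h4 : ((10 * a + 2 * c : ℕ) : ZMod m) = 0 := by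
        rw [h3]
        push_cast
        rw [ZMod.natCast_self, zero_mul]
      push_cast at h4
      exact eq_neg_of_add_eq_zero_left h4
    have h12 : (10 * N) • y = 0 := by
      rw [nsmul_eq_mul] at hNz ⊢
      push_cast
      have h13 : (t : ZMod m) * (10 * (N : ZMod m) * y) = 0 := by
        calc (t : ZMod m) * (10 * (N : ZMod m) * y) =
            (N : ZMod m) * (10 * ((t : ZMod m) * y)) := by ring
          _ = - (2 * ((t : ZMod m) * ((N : ZMod m) * z))) := by
            rw [h10]
            ring
          _ = 0 := by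
            rw [hNz]
            simp
      exact (t.isUnit.mul_right_eq_zero).mp h13
    have h14 := h7.trans (addOrderOf_dvd_of_nsmul_eq_zero h12)
    have h15 : Nat.Prime 7 := by norm_num
    rcases h15.dvd_mul.mp h14 with h16 | h16
    · omega
    · exact h7N h16

end

end Pool.Agent.FF
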