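import Pool.Agent.FF.YbdA

/-!
# FF-YbdC

Proof plan.
* `six_y`. For a prime `l` and an integer `d` with `d`, `2 - d` not divisible by `l`, let
  `u = 1 + (d - 1) (1 - ide m l)` and `v = u - 2 = -(1 + ((2 - d) - 1) (1 - ide m l))`, both units
  by `exists_part`. So `(d - 1) (1 - ide m l) y = 0`. With `d = 3`, `l ≠ 3`:
  `2 y = ide m l * (2 y)`, so `l` does not divide `addOrderOf (2 y)` (`addOrderOf_ide_mul`), hence
  not `addOrderOf (6 y)`; with `l = 3`, `d = 7`: `6 y = ide m 3 * (6 y)`, so `3` does not divide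
  `addOrderOf (6 y)`. So `addOrderOf (6 y) = 1`.
-/

set_option autoImplicit false

namespace Pool.Agent.FF

open Finset Pool.Agent.FS
open Pool.Agent.Helper9.Fermat (fib mem_fib)

section

variable {m : ℕ} [NeZero m]

private theorem YbdC_aux {l : ℕ} (hl : l.Prime) (y : ZMod m)
    (h : ∀ u v : (ZMod m)ˣ, (u : ZMod m) = (v : ZMod m) + 2 → (u : ZMod m) * y = y)
    (d : ℤ) (hd : ¬ (l : ℤ) ∣ d) (hd2 : ¬ (l : ℤ) ∣ 2 - d) :
    ((d : ZMod m) - 1) * (1 - ide m l) * y = 0 := by
  obtain ⟨u, hu⟩ := exists_part (m := m) hl d hd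
  obtain ⟨v, hv⟩ := exists_part (m := m) hl (2 - d) hd2
  have h1 := h u (-v) (by
    rw [Units.val_neg, hu, hv]
    push_cast
    ring)
  rw [hu] at h1
  linear_combination h1

theorem six_y (y : ZMod m)
    (h : ∀ u v : (ZMod m)ˣ, (u : ZMod m) = (v : ZMod m) + 2 → (u : ZMod m) * y = y) :
    6 * y = 0 := by
  have key : ∀ l : ℕ, l.Prime → ide m l * (6 * y) = 6 * y := by
    intro l hl
    by_cases h3 : l = 3
    · subst h3
      have h1 := YbdC_aux hl y h 7 (by norm_num) (by norm_num)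
      push_cast at h1
      linear_combination -h1
    · have h1 := YbdC_aux hl y h 3 (by
        intro hdv
        have h2 : l ∣ 3 := by exact_mod_cast hdv
        exact h3 ((Nat.prime_dvd_prime_iff_eq hl Nat.prime_three).1 h2)) (by
        intro hdv
        have h2 : (l : ℤ) ∣ 1 := by
          have := (dvd_neg (α := ℤ)).2 hdv
          norm_num at this
          exact_mod_cast this
        have h4 := Int.natCast_dvd_natCast.1 (by exact_mod_cast h2 : ((l : ℕ) : ℤ) ∣ ((1 : ℕ) : ℤ))
        exact hl.one_lt.ne' (Nat.dvd_one.1 h4))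
      push_cast at h1
      linear_combination -3 * h1
  have h1 : addOrderOf (6 * y) = 1 := by
    by_contra hne
    obtain ⟨l, hl, hdv⟩ := Nat.exists_prime_and_dvd hne
    have h0 : addOrderOf (6 * y) ≠ 0 := (addOrderOf_pos _).ne'
    have h2 := addOrderOf_ide_mul (m := m) l hl (6 * y)
    rw [key l hl] at h2
    exact Nat.not_dvd_ordCompl hl h0 (h2 ▸ hdv)
  exact AddMonoid.addOrderOf_eq_one_iff.1 h1

end

end Pool.Agent.FF
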