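import Pool.Agent.FF.YbdB
import Pool.Agent.FF.YbdC

/-!
# FF-Ybd

Proof plan.
* `y_cases`. For the units `u, v`, `u = v + 2`, let `2 m φ x = sw (v x) - sw (u x) + 2 sw x`
  (divisible by `2 m`, see `exists_pack4`), `|φ x| ≤ 1` (`|sw| < m`). `y_bound` for `t y`:
  `Dr r * |φ (t y)| ≤ T.card < Dr r`, so `φ (t y) = 0`, and `six_y` gives `6 y = 0`. Next take
  `t₁ = t₂ + 4` (`RPack.exists_units`) and `2 m φ x = sw (t₁ x) - sw (t₂ x) - 4 sw x`,
  `|φ| ≤ 2`. If `2 y ≠ 0`: every unit `t` has `t y = y` or `t y = -y` (`rr t` is `1` or `5` modulo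
  `6` if `3 ∣ m`; if `3` does not divide `m` then `2 y = 0`); as `t₁ y = t₂ y + 4 y` and
  `2 y ≠ 0`, `6 y = 0`, we get `t₂ y = y`, `t₁ y = -y`. So `2 m φ y = - 6 sw y`. If `3 y ≠ 0`,
  then `|sw y| = 2 m / 3`, `|φ y| = 2`, `2 Dr r ≤ 2 T.card`: contradiction. So `3 y = 0`,
  `|sw y| = m / 3`, `|φ y| = 1`, `Dr r ≤ 2 T.card`.
-/

set_option autoImplicit false

namespace Pool.Agent.FF

open Finset Pool.Agent.FS
open Pool.Agent.Helper9.Fermat (fib mem_fib)

section

variable {m : ℕ} [NeZero m]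

/-- bounded distributions from two units which differ by an even integer -/
theorem Ybd_phi (c : ℕ) (u v : (ZMod m)ˣ) (huv : (u : ZMod m) = (v : ZMod m) + ((2 * c : ℕ) : ZMod m)) :
    ∃ φ : ZMod m → ℤ, IsDist φ ∧ (∀ x, (2 * m : ℤ) * φ x = (-1) * sw ((u : ZMod m) * x) +
      1 * sw ((v : ZMod m) * x) + ((2 * c : ℕ) : ℤ) * sw x) ∧ ∀ x, |φ x| ≤ (c : ℤ) := by
  have hm : 0 < (m : ℤ) := by exact_mod_cast Nat.pos_of_ne_zero (NeZero.ne m)
  have h2m : (2 * m : ℤ) ≠ 0 := by omega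
  have hdiv : ∀ x : ZMod m, (2 * m : ℤ) ∣ (-1) * sw ((u : ZMod m) * x) +
      1 * sw ((v : ZMod m) * x) + ((2 * c : ℕ) : ℤ) * sw x := by
    intro x
    by_cases hx : x = 0
    · rw [hx, mul_zero, mul_zero, Quot.sw_zero]
      simp
    · have h1 : (u : ZMod m) * x ≠ 0 := fun h => hx ((u.isUnit.mul_right_eq_zero).1 h)
      have h2 : (v : ZMod m) * x ≠ 0 := fun h => hx ((v.isUnit.mul_right_eq_zero).1 h)
      rw [Quot.sw_of_ne hx, Quot.sw_of_ne h1, Quot.sw_of_ne h2]
      have h3 : (m : ℤ) ∣ (((u : ZMod m) * x).val : ℤ) - ((v : ZMod m) * x).val -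
          2 * c * x.val := by
        rw [← ZMod.intCast_zmod_eq_zero_iff_dvd]
        push_cast
        rw [ZMod.natCast_zmod_val, ZMod.natCast_zmod_val, ZMod.natCast_zmod_val, huv]
        push_cast
        ring
      obtain ⟨k, hk⟩ := h3
      refine ⟨-k - c, ?_⟩
      push_cast
      linear_combination (-2) * hk
  choose φ hφ using hdiv
  refine ⟨φ, ?_, fun x => (hφ x).symm, ?_⟩
  · intro r hr hrm y
    apply mul_left_cancel₀ h2m
    have e1 := isDist_sw_unit u r hr hrm y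
    have e2 := isDist_sw_unit v r hr hrm y
    have e3 := RPack.isDist_sw r hr hrm y
    rw [mul_sum, ← hφ, sum_congr rfl fun z _ => (hφ z).symm, sum_add_distrib, sum_add_distrib,
      ← mul_sum, ← mul_sum, ← mul_sum, e1, e2, e3]
  · intro x
    have h1 := abs_lt.1 (RPack.abs_sw_lt ((u : ZMod m) * x))
    have h2 := abs_lt.1 (RPack.abs_sw_lt ((v : ZMod m) * x))
    have h3 := abs_lt.1 (RPack.abs_sw_lt x)
    have h4 := hφ x
    have hc : (0 : ℤ) ≤ c := Int.natCast_nonneg c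
    push_cast at h4
    rw [abs_le]
    have h5 : (2 * m : ℤ) * φ x < 2 * m * (c + 1) := by nlinarith [h1.1, h2.2, h3.2]
    have h6 : -(2 * m * (c + 1) : ℤ) < 2 * m * φ x := by nlinarith [h1.2, h2.1, h3.1]
    have h7 : φ x < c + 1 := lt_of_mul_lt_mul_left h5 (by omega)
    have h8 : -(c + 1 : ℤ) < φ x := by
      have : (2 * m : ℤ) * (-(c + 1)) < 2 * m * φ x := by linarith
      exact lt_of_mul_lt_mul_left this (by omega)
    constructor <;> omega

/-- the bound for `t * y` -/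
theorem Ybd_t {r : ℕ} (hr : r.Prime) (hrm : r ∣ m) {T : Multiset (ZMod m)}
    (hTr : ∀ x ∈ T, r ∣ addOrderOf x) (y : ZMod m)
    (hy : ∀ t : (ZMod m)ˣ, Gr r T t = ((Qr m r * Dr r : ℕ) : ℤ) * sw ((t : ZMod m) * y))
    (φ : ZMod m → ℤ) (hφ : IsDist φ) (C : ℕ) (hC : ∀ x, |φ x| ≤ C) (a b c : ℤ) (u v : (ZMod m)ˣ)
    (hform : ∀ x, (2 * m : ℤ) * φ x = a * sw ((u : ZMod m) * x) + b * sw ((v : ZMod m) * x) +
      c * sw x) (t : (ZMod m)ˣ) :
    (Dr r : ℤ) * |φ ((t : ZMod m) * y)| ≤ (T.card : ℤ) * C := by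
  have h := y_bound hr hrm (T := T.map fun x => (t : ZMod m) * x) (by
      intro x hx
      obtain ⟨z, hz, rfl⟩ := Multiset.mem_map.1 hx
      rw [RUp_addOrderOf_unit_mul]
      exact hTr z hz) ((t : ZMod m) * y) (by
      intro s
      have e : Gr r (T.map fun x => (t : ZMod m) * x) s = Gr r T (s * t) := by
        unfold Gr GG
        rw [Multiset.map_map]
        refine congrArg Multiset.sum (Multiset.map_congr rfl fun x _ => ?_)
        have e2 := Up_unit t (fun w => sw ((s : ZMod m) * (ide m r * w))) x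
        simp only [Function.comp_apply]
        rw [e2]
        refine sum_congr rfl fun w _ => ?_
        rw [Units.val_mul]
        congr 1
        ring
      rw [e, hy (s * t), Units.val_mul, mul_assoc]) φ hφ C hC a b c u v hform
  rwa [Multiset.card_map] at h

theorem y_cases (hm : Even m) {r : ℕ} (hr : r.Prime) (hrm : r ∣ m) {T : Multiset (ZMod m)}
    (hTr : ∀ x ∈ T, r ∣ addOrderOf x) (hk : T.card < Dr r) (y : ZMod m) (hy0 : y ≠ 0)
    (hy : ∀ t : (ZMod m)ˣ, Gr r T t = ((Qr m r * Dr r : ℕ) : ℤ) * sw ((t : ZMod m) * y)) :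
    2 * y = 0 ∨ (3 * y = 0 ∧ Dr r ≤ 2 * T.card) := by
  have hm0 : 0 < m := Nat.pos_of_ne_zero (NeZero.ne m)
  have hm0' : 0 < (m : ℤ) := by exact_mod_cast hm0
  have hk' : (T.card : ℤ) < Dr r := by exact_mod_cast hk
  have hfix : ∀ u v : (ZMod m)ˣ, (u : ZMod m) = (v : ZMod m) + 2 → (u : ZMod m) * y = y := by
    intro u v huv
    obtain ⟨φ, hφ, hform, hb⟩ := Ybd_phi 1 u v (by rw [huv]; norm_num)
    refine unit_fix hm y u v huv fun t => ?_
    have h1 := Ybd_t hr hrm hTr y hy φ hφ 1 (by simpa using hb) (-1) 1 ((2 * 1 : ℕ) : ℤ) u v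
      hform t
    have h2 : |φ ((t : ZMod m) * y)| < 1 := by
      by_contra h3
      have h4 : 1 ≤ |φ ((t : ZMod m) * y)| := not_lt.1 h3
      have h5 : (0 : ℤ) ≤ Dr r := Int.natCast_nonneg _
      push_cast at h1
      nlinarith
    have h3 : φ ((t : ZMod m) * y) = 0 := Int.abs_lt_one_iff.1 h2
    have h4 := hform ((t : ZMod m) * y)
    rw [h3, mul_zero] at h4
    push_cast at h4
    linarith
  have h6 : 6 * y = 0 := six_y y hfix
  by_cases h2y : 2 * y = 0
  · exact Or.inl h2y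
  right
  -- the integer `a = val y`
  obtain ⟨a, ha⟩ : ∃ a : ℕ, a = y.val := ⟨_, rfl⟩
  have hay : ((a : ℕ) : ZMod m) = y := by rw [ha, ZMod.natCast_zmod_val]
  have ham : a < m := by rw [ha]; exact ZMod.val_lt y
  have ha0 : 0 < a := by
    rw [ha]
    exact Nat.pos_of_ne_zero fun h => hy0 ((ZMod.val_eq_zero y).1 h)
  obtain ⟨k, hk6⟩ : m ∣ 6 * a := by
    rw [← ZMod.natCast_eq_zero_iff]
    push_cast
    rw [hay]
    exact h6
  have hnot2 : ¬ m ∣ 2 * a := by
    intro h
    apply h2y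
    rw [← ZMod.natCast_eq_zero_iff] at h
    push_cast at h
    rwa [hay] at h
  -- `3` divides `m`
  have h3m : 3 ∣ m := by
    by_contra h3
    apply hnot2
    have hcop : Nat.Coprime m 3 := ((Nat.Prime.coprime_iff_not_dvd Nat.prime_three).2 h3).symm
    have h1 : m ∣ 3 * (2 * a) := ⟨k, by rw [← hk6]; ring⟩
    exact hcop.dvd_of_dvd_mul_left h1
  have hpm : ∀ t : (ZMod m)ˣ, (t : ZMod m) * y = y ∨ (t : ZMod m) * y = - y := by
    intro t
    obtain ⟨b, hb⟩ : ∃ b : ℕ, b = (t : ZMod m).val := ⟨_, rfl⟩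
    have hbt : ((b : ℕ) : ZMod m) = (t : ZMod m) := by rw [hb, ZMod.natCast_zmod_val]
    have hcop : b.Coprime m := by
      rw [hb]
      exact ZMod.val_coe_unit_coprime t
    have hb2 : ¬ 2 ∣ b := by
      intro h
      exact absurd (Nat.dvd_gcd h hm.two_dvd) (by rw [hcop.gcd_eq_one]; norm_num)
    have hb3 : ¬ 3 ∣ b := by
      intro h
      exact absurd (Nat.dvd_gcd h h3m) (by rw [hcop.gcd_eq_one]; norm_num)
    have hdm := Nat.div_add_mod b 6
    have hmod : b % 6 = 1 ∨ b % 6 = 5 := by omega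
    have e : (t : ZMod m) * y = ((b % 6 : ℕ) : ZMod m) * y := by
      rw [← hbt]
      conv_lhs => rw [← hdm]
      push_cast
      linear_combination ((b / 6 : ℕ) : ZMod m) * h6
    rcases hmod with h | h
    · left
      rw [e, h]
      push_cast
      ring
    · right
      rw [e, h]
      push_cast
      linear_combination h6
  obtain ⟨t₁, t₂, ht⟩ := RPack.exists_units (m := m) hm
  obtain ⟨φ, hφ, hform, hb⟩ := Ybd_phi 2 t₁ t₂ (by rw [ht]; norm_num)
  have hb1 := y_bound hr hrm hTr y hy φ hφ 2 (by simpa using hb) (-1) 1 ((2 * 2 : ℕ) : ℤ) t₁ t₂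
    hform
  have ht' : (t₁ : ZMod m) * y = (t₂ : ZMod m) * y + 4 * y := by rw [ht]; ring
  have hcase : (t₁ : ZMod m) * y = - y ∧ (t₂ : ZMod m) * y = y := by
    rcases hpm t₁ with h | h <;> rcases hpm t₂ with h' | h' <;> rw [h, h'] at ht'
    · exact absurd (by linear_combination h6 + ht') h2y
    · exact absurd (by linear_combination (-1 : ZMod m) * ht') h2y
    · exact ⟨h, h'⟩
    · exact absurd (by linear_combination h6 + ht') h2y
  have hφy := hform y
  rw [hcase.1, hcase.2, Quot.sw_neg, Quot.sw_of_ne hy0, ← ha] at hφy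
  push_cast at hφy hb1
  have hk6' : (6 : ℤ) * a = m * k := by exact_mod_cast hk6
  have hφk : φ y = k - 3 := by
    have : (m : ℤ) * φ y = m * (k - 3) := by linarith
    exact mul_left_cancel₀ hm0'.ne' this
  have hk1 : 1 ≤ k := by
    by_contra h
    have : k = 0 := by omega
    rw [this] at hk6
    omega
  have hk5 : k ≤ 5 := by
    by_contra h
    have h1 : 6 ≤ k := by omega
    have h2 : m * 6 ≤ m * k := Nat.mul_le_mul_left m h1
    omega
  have hk3 : k ≠ 3 := by
    intro h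
    apply hnot2
    rw [h] at hk6
    exact ⟨1, by omega⟩
  have hk15 : k ≠ 1 ∧ k ≠ 5 := by
    constructor
    · intro h
      rw [hφk, h] at hb1
      norm_num at hb1
      omega
    · intro h
      rw [hφk, h] at hb1
      norm_num at hb1
      omega
  have hk24 : k = 2 ∨ k = 4 := by omega
  constructor
  · rw [← hay]
    have : m ∣ 3 * a := by
      rcases hk24 with h | h
      · rw [h] at hk6
        exact ⟨1, by omega⟩
      · rw [h] at hk6
        exact ⟨2, by omega⟩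
    rw [← ZMod.natCast_eq_zero_iff] at this
    push_cast at this
    exact this
  · rcases hk24 with h | h
    · rw [hφk, h] at hb1
      norm_num at hb1
      omega
    · rw [hφk, h] at hb1
      norm_num at hb1
      omega

end

end Pool.Agent.FF
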