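import Pool.Agent.FF.KSum
import Pool.Agent.FF.Ybd

/-!
# FF-FewP

Let `Q = Qr m r`, `D' = Dr r`, `k = T.card`, `T^p` the elements of `T` of order divisible by `p`,
`T'` the others, `k_p = card T^p`.

Proof plan.
* As `6 y ≠ 0`, `six_y` gives units `u = v + 2` with `u y ≠ y`, and then `unit_fix` a unit `t` with
  `sw (v (t y)) - sw (u (t y)) + 2 sw (t y) ≠ 0`. Let `φ x = (sw (v t x) - sw (u t x) + 2 sw (t x)) /
  (2 m)` (`choose`; divisible by `2 m` and `|φ| ≤ 1`: use `Ybd_phi 1 u v` of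
  `Pool/Agent/FF/Ybd.lean` for `φ₀` and `φ x = φ₀ (t x)`), an odd distribution (`isDist_sw_unit`) with
  `|φ y| = 1` (it is a nonzero integer).
* For every unit `h`: `GG T (fun w => φ (h * (ide m r * w))) = Q D' φ (h y)` (apply `hy` to the three
  units; `GG_add`, `GG_map`; cancel `2 m`). For `h ∈ Kl m p`: `h y = y`
  (`ide_mul_eq_self p`, `Kl_mul_ide`), so `GG T (φ (h ide ·)) = Q D' φ y`.
* For `x ∈ T'`, `w ∈ Up x`: `p` does not divide the order of `w` (`Up_order`, `upl_uni`), so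
  `h w = w`. Hence `GG T^p (φ (h ide ·)) = GG T^p (φ (ide ·))` for all `h ∈ Kl m p`.
* Choose `c x, y x` as in `Up_form` for `x ∈ T^p`; then `p ∣ addOrderOf (y x)` since
  `c * y x = ide m r * x` has order `ordCompl[r] (addOrderOf x)` (`addOrderOf_ide_mul`, `p ≠ r`) and
  the order of `c * y x` divides the order of `y x`. Sum over `h ∈ Kl m p`
  (`card_Kl`: `Qr m p * (p - 1) = 2 * (Qr m p * Dr p)`):
  `2 Qr(p) D_p * GG T^p (φ ide) = ∑ x ∈ T^p, c x * ∑ h, φ (h * y x)`, and by `Ksum_bound` (`C = 1`) the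
  right side is `≤ k_p * Q * 2 * Qr(p)` in absolute value: `D_p * |GG T^p (φ ide)| ≤ k_p Q`.
* `|GG T' (φ ide)| ≤ (k - k_p) Q` (`GG_form` or `Up_form`), so with `|φ y| = 1`:
  `Q D' D_p ≤ (k - k_p) Q D_p + k_p Q`, `D' D_p ≤ (D' + 1 - k_p) D_p + k_p`, i.e.
  `k_p (D_p - 1) ≤ D_p`, and `D_p ≥ 3` gives `k_p ≤ 1`.
-/

set_option autoImplicit false

namespace Pool.Agent.FF

open Finset Pool.Agent.FS
open Pool.Agent.Helper9.Fermat (fib mem_fib)

section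

variable {m : ℕ} [NeZero m]

theorem FewP_split {T : Multiset (ZMod m)} (P : ZMod m → Prop) [DecidablePred P]
    (g : ZMod m → ℤ) :
    GG T g = GG (T.filter P) g + GG (T.filter fun x => ¬ P x) g := by
  unfold GG
  rw [← Multiset.sum_add, ← Multiset.map_add, Multiset.filter_add_not]

theorem FewP_abs {r : ℕ} (hr : r.Prime) (T : Multiset (ZMod m))
    (hTr : ∀ x ∈ T, r ∣ addOrderOf x) (φ : ZMod m → ℤ) (hφ : IsDist φ) (hC : ∀ x, |φ x| ≤ 1) :
    |GG T (fun w => φ (ide m r * w))| ≤ (T.card : ℤ) * (Qr m r : ℤ) := by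
  obtain ⟨P, hPc, hP, hPs⟩ := GG_form hr T hTr
  rw [hPs φ hφ, ← hPc]
  refine (Multiset.abs_sum_le_sum_abs).trans ?_
  rw [Multiset.map_map]
  have h4 : ∀ z ∈ P.map (abs ∘ fun p : ℕ × ZMod m => (p.1 : ℤ) * φ p.2),
      z ≤ (Qr m r : ℤ) := by
    intro z hz
    rw [Multiset.mem_map] at hz
    obtain ⟨p, hp, rfl⟩ := hz
    rw [Function.comp_apply, abs_mul, Nat.abs_cast]
    obtain ⟨_, h6, _⟩ := hP p hp
    have h7 : ((p.1 : ℕ) : ℤ) ≤ (Qr m r : ℤ) := by exact_mod_cast h6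
    calc ((p.1 : ℕ) : ℤ) * |φ p.2| ≤ (Qr m r : ℤ) * 1 :=
          mul_le_mul h7 (hC _) (abs_nonneg _) (by positivity)
      _ = (Qr m r : ℤ) := mul_one _
  have h5 := Multiset.sum_le_card_nsmul _ _ h4
  rw [Multiset.card_map, nsmul_eq_mul] at h5
  exact h5

theorem FewP_value {r : ℕ} {T : Multiset (ZMod m)} (y : ZMod m)
    (hy : ∀ t : (ZMod m)ˣ, Gr r T t = ((Qr m r * Dr r : ℕ) : ℤ) * sw ((t : ZMod m) * y))
    (φ : ZMod m → ℤ) (a b c : ℤ) (u v : (ZMod m)ˣ)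
    (hform : ∀ x, (2 * m : ℤ) * φ x = a * sw ((u : ZMod m) * x) + b * sw ((v : ZMod m) * x) +
      c * sw x) (t : (ZMod m)ˣ) :
    GG T (fun w => φ ((t : ZMod m) * (ide m r * w))) =
      ((Qr m r * Dr r : ℕ) : ℤ) * φ ((t : ZMod m) * y) := by
  have hm0 : (m : ℤ) ≠ 0 := Nat.cast_ne_zero.2 (NeZero.ne m)
  apply mul_left_cancel₀ (mul_ne_zero two_ne_zero hm0)
  have e1 : (2 * m : ℤ) * GG T (fun w => φ ((t : ZMod m) * (ide m r * w))) =
      GG T (fun w => (2 * m : ℤ) * φ ((t : ZMod m) * (ide m r * w))) :=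
    GG_map T (AddMonoidHom.mulLeft (2 * m : ℤ)) fun w => φ ((t : ZMod m) * (ide m r * w))
  have e2 : GG T (fun w => (2 * m : ℤ) * φ ((t : ZMod m) * (ide m r * w))) =
      GG T (fun w => a * sw (((u * t : (ZMod m)ˣ) : ZMod m) * (ide m r * w)) +
        b * sw (((v * t : (ZMod m)ˣ) : ZMod m) * (ide m r * w)) +
        c * sw ((t : ZMod m) * (ide m r * w))) :=
    GG_congr T fun x _ w _ => by rw [hform, Units.val_mul, Units.val_mul, mul_assoc, mul_assoc]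
  have e3 : ∀ (d : ℤ) (s : (ZMod m)ˣ),
      GG T (fun w => d * sw ((s : ZMod m) * (ide m r * w))) = d * Gr r T s := fun d s =>
    (GG_map T (AddMonoidHom.mulLeft d) fun w => sw ((s : ZMod m) * (ide m r * w))).symm
  have e4 := hform ((t : ZMod m) * y)
  rw [e1, e2, GG_add, GG_add, e3, e3, e3, hy, hy, hy, Units.val_mul, Units.val_mul, mul_assoc,
    mul_assoc]
  linear_combination (-(((Qr m r * Dr r : ℕ) : ℤ))) * e4

theorem FewP_fix {p : ℕ} (hp : p.Prime) (h : (ZMod m)ˣ) (hh : h ∈ Kl m p) (x : ZMod m)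
    (hx : ¬ p ∣ addOrderOf x) : (h : ZMod m) * x = x := by
  have h1 := ide_mul_eq_self p hp x hx
  have h2 := Kl_mul_ide p hp h hh x
  rwa [h1] at h2

theorem FewP_order {p : ℕ} (hp : p.Prime) (x w : ZMod m) (hw : w ∈ Up x)
    (hx : ¬ p ∣ addOrderOf x) : ¬ p ∣ addOrderOf w := by
  have hxm : addOrderOf x ∣ m := by
    have := addOrderOf_dvd_card (x := x)
    rwa [ZMod.card] at this
  obtain ⟨h1, h2, h3⟩ := upl_uni hxm
  rw [Up_order x w hw]
  intro h4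
  have hm0 : m ≠ 0 := NeZero.ne m
  have h5 : upl m (addOrderOf x) ≠ 0 := fun h => hm0 (Nat.eq_zero_of_zero_dvd (h ▸ h1.1))
  have h6 : p ∈ (upl m (addOrderOf x)).primeFactors := Nat.mem_primeFactors.2 ⟨hp, h4, h5⟩
  rw [h3] at h6
  exact hx (Nat.dvd_of_mem_primeFactors h6)

theorem FewP_xsum {r p : ℕ} (hr : r.Prime) (hp : p.Prime) (hpm : p ∣ m) (hpr : p ≠ r)
    (φ : ZMod m → ℤ) (hφ : IsDist φ) (hC : ∀ x, |φ x| ≤ 1) (x : ZMod m) (hx : r ∣ addOrderOf x)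
    (hpx : p ∣ addOrderOf x) [Fintype (Kl m p)] :
    |∑ h : Kl m p, ∑ w ∈ Up x, φ (((h : (ZMod m)ˣ) : ZMod m) * (ide m r * w))| ≤
      (Qr m r : ℤ) * (2 * (Qr m p : ℤ)) := by
  obtain ⟨c, z, hc0, hcQ, hz, hcz, -, hsum⟩ := Up_form hr x hx
  have h1 : ∀ h : Kl m p, ∑ w ∈ Up x, φ (((h : (ZMod m)ˣ) : ZMod m) * (ide m r * w)) =
      (c : ℤ) * φ (((h : (ZMod m)ˣ) : ZMod m) * z) := fun h =>
    hsum (fun x => φ (((h : (ZMod m)ˣ) : ZMod m) * x)) (isDist_unit hφ (h : (ZMod m)ˣ))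
  rw [sum_congr rfl fun h _ => h1 h, ← mul_sum, abs_mul, Nat.abs_cast]
  have hpz : p ∣ addOrderOf z := by
    have h2 : addOrderOf (ide m r * x) ∣ addOrderOf z := by
      rw [← hcz, ← nsmul_eq_mul]
      exact addOrderOf_smul_dvd c
    rw [addOrderOf_ide_mul r hr x] at h2
    refine dvd_trans ?_ h2
    have h3 : p ∣ ordProj[r] (addOrderOf x) * ordCompl[r] (addOrderOf x) := by
      rw [Nat.ordProj_mul_ordCompl_eq_self]
      exact hpx
    rcases (Nat.Prime.dvd_mul hp).1 h3 with h4 | h4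
    · exact absurd ((Nat.prime_dvd_prime_iff_eq hp hr).1 (hp.dvd_of_dvd_pow h4)) hpr
    · exact h4
  have h5 := Ksum_bound hp hpm z hpz φ hφ 1 (by simpa using hC)
  have h6 : ((c : ℕ) : ℤ) ≤ (Qr m r : ℤ) := by exact_mod_cast hcQ
  refine mul_le_mul h6 (h5.trans (le_of_eq ?_)) (abs_nonneg _) (by positivity)
  push_cast
  ring

theorem FewP_Tp {r p : ℕ} (hr : r.Prime) (hp : p.Prime) (hpm : p ∣ m) (hpr : p ≠ r)
    (φ : ZMod m → ℤ) (hφ : IsDist φ) (hC : ∀ x, |φ x| ≤ 1) (T : Multiset (ZMod m))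
    (hT : ∀ x ∈ T, r ∣ addOrderOf x) (hTp : ∀ x ∈ T, p ∣ addOrderOf x) [Fintype (Kl m p)] :
    |∑ h : Kl m p, GG T (fun w => φ (((h : (ZMod m)ˣ) : ZMod m) * (ide m r * w)))| ≤
      (T.card : ℤ) * ((Qr m r : ℤ) * (2 * (Qr m p : ℤ))) := by
  rw [← GG_sum T univ fun (h : Kl m p) w => φ (((h : (ZMod m)ˣ) : ZMod m) * (ide m r * w))]
  unfold GG
  refine (Multiset.abs_sum_le_sum_abs).trans ?_
  rw [Multiset.map_map]
  have h4 : ∀ z ∈ T.map (abs ∘ fun x => ∑ w ∈ Up x, ∑ h : Kl m p,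
      φ (((h : (ZMod m)ˣ) : ZMod m) * (ide m r * w))),
      z ≤ (Qr m r : ℤ) * (2 * (Qr m p : ℤ)) := by
    intro z hz
    rw [Multiset.mem_map] at hz
    obtain ⟨x, hx, rfl⟩ := hz
    rw [Function.comp_apply, sum_comm]
    exact FewP_xsum hr hp hpm hpr φ hφ hC x (hT x hx) (hTp x hx)
  have h5 := Multiset.sum_le_card_nsmul _ _ h4
  rw [Multiset.card_map, nsmul_eq_mul] at h5
  exact h5

theorem few_p (hm : Even m) {r : ℕ} (hr : r.Prime) (hrm : r ∣ m) {T : Multiset (ZMod m)}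
    (hTr : ∀ x ∈ T, r ∣ addOrderOf x) (hk : T.card ≤ Dr r + 1) (y : ZMod m) (hy6 : 6 * y ≠ 0)
    (hy : ∀ t : (ZMod m)ˣ, Gr r T t = ((Qr m r * Dr r : ℕ) : ℤ) * sw ((t : ZMod m) * y))
    {p : ℕ} (hp : p.Prime) (hp7 : 7 ≤ p) (hpm : p ∣ m) (hpr : p ≠ r) (hpy : ¬ p ∣ addOrderOf y) :
    (T.filter fun x => p ∣ addOrderOf x).card ≤ 1 := by
  classical
  have : Fintype (Kl m p) := Fintype.ofFinite _
  obtain ⟨u, v, huv, hne⟩ : ∃ u v : (ZMod m)ˣ, (u : ZMod m) = (v : ZMod m) + 2 ∧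
      (u : ZMod m) * y ≠ y := by
    by_contra hcon
    push Not at hcon
    exact hy6 (six_y y hcon)
  obtain ⟨t, ht⟩ : ∃ t : (ZMod m)ˣ, sw ((v : ZMod m) * ((t : ZMod m) * y)) -
      sw ((u : ZMod m) * ((t : ZMod m) * y)) + 2 * sw ((t : ZMod m) * y) ≠ 0 := by
    by_contra hcon
    push Not at hcon
    exact hne (unit_fix hm y u v huv hcon)
  obtain ⟨φ₀, hφ₀, hform, hb⟩ := Ybd_phi 1 u v (by rw [huv]; norm_num)
  have hb' : ∀ x, |φ₀ x| ≤ 1 := fun x => by simpa using hb x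
  set φ : ZMod m → ℤ := fun x => φ₀ ((t : ZMod m) * x) with hφdef
  have hφ : IsDist φ := isDist_unit hφ₀ t
  have hφb : ∀ x, |φ x| ≤ 1 := fun x => hb' _
  have hy1 : |φ y| = 1 := by
    have h1 := hform ((t : ZMod m) * y)
    have h2 : φ₀ ((t : ZMod m) * y) ≠ 0 := by
      intro h0
      rw [h0, mul_zero] at h1
      apply ht
      push_cast at h1
      linarith
    have h3 := hb' ((t : ZMod m) * y)
    have h4 : 0 < |φ₀ ((t : ZMod m) * y)| := abs_pos.2 h2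
    change |φ₀ ((t : ZMod m) * y)| = 1
    omega
  -- the values
  have hval : ∀ h : (ZMod m)ˣ, GG T (fun w => φ ((h : ZMod m) * (ide m r * w))) =
      ((Qr m r * Dr r : ℕ) : ℤ) * φ ((h : ZMod m) * y) := by
    intro h
    have h1 := FewP_value y hy φ₀ (-1) 1 ((2 * 1 : ℕ) : ℤ) u v hform (t * h)
    simp only [Units.val_mul, mul_assoc] at h1
    exact h1
  have hval1 := hval 1
  simp only [Units.val_one, one_mul] at hval1
  have hvalK : ∀ h : Kl m p, GG T (fun w => φ (((h : (ZMod m)ˣ) : ZMod m) * (ide m r * w))) =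
      ((Qr m r * Dr r : ℕ) : ℤ) * φ y := by
    intro h
    rw [hval, FewP_fix hp _ h.2 y hpy]
  set Tp := T.filter fun x => p ∣ addOrderOf x with hTp
  set T' := T.filter fun x => ¬ p ∣ addOrderOf x with hT'
  have hsame : ∀ h : Kl m p, GG T' (fun w => φ (((h : (ZMod m)ˣ) : ZMod m) * (ide m r * w))) =
      GG T' (fun w => φ (ide m r * w)) := by
    intro h
    refine GG_congr T' fun x hx w hw => ?_
    have h1 := FewP_order hp x w hw (Multiset.mem_filter.1 hx).2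
    have h2 := FewP_fix hp _ h.2 w h1
    have h3 : ((h : (ZMod m)ˣ) : ZMod m) * (ide m r * w) = ide m r * w := by
      rw [mul_left_comm, h2]
    rw [h3]
  set S : ℤ := GG Tp (fun w => φ (ide m r * w)) with hS
  set S' : ℤ := GG T' (fun w => φ (ide m r * w)) with hS'
  have hSS : S + S' = ((Qr m r * Dr r : ℕ) : ℤ) * φ y := by
    rw [← hval1, FewP_split (T := T) (fun x => p ∣ addOrderOf x)]
  have hTpK : ∀ h : Kl m p, GG Tp (fun w => φ (((h : (ZMod m)ˣ) : ZMod m) * (ide m r * w))) =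
      S := by
    intro h
    have h1 := FewP_split (T := T) (fun x => p ∣ addOrderOf x)
      (fun w => φ (((h : (ZMod m)ˣ) : ZMod m) * (ide m r * w)))
    rw [hvalK h, ← hTp, ← hT', hsame h] at h1
    linarith
  have hQ : 0 < Qr m r := Qr_pos hr hrm
  have hQp : 0 < Qr m p := Qr_pos hp hpm
  have hb1 := FewP_Tp hr hp hpm hpr φ hφ hφb Tp
    (fun x hx => hTr x (Multiset.mem_filter.1 hx).1) (fun x hx => (Multiset.mem_filter.1 hx).2)
  rw [sum_congr rfl fun h _ => hTpK h, sum_const, card_univ, ← Nat.card_eq_fintype_card,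
    card_Kl p hp hpm, nsmul_eq_mul, ← two_Dr hp (by omega), abs_mul, Nat.abs_cast] at hb1
  have hb2 := FewP_abs hr T' (fun x hx => hTr x (Multiset.mem_filter.1 hx).1) φ hφ hφb
  have hcard : Tp.card + T'.card = T.card := by
    rw [← Multiset.card_add, hTp, hT', Multiset.filter_add_not]
  have hD3 : 3 ≤ Dr p := by
    unfold Dr
    omega
  have hQ' : (0 : ℤ) < Qr m r := by exact_mod_cast hQ
  have hQp' : (0 : ℤ) < Qr m p := by exact_mod_cast hQp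
  have e1 : ((qq m p / p * (2 * Dr p) : ℕ) : ℤ) = (Qr m p : ℤ) * (2 * (Dr p : ℤ)) := by
    unfold Qr
    push_cast
    rfl
  rw [e1] at hb1
  have hb3 : (Dr p : ℤ) * |S| ≤ (Tp.card : ℤ) * (Qr m r : ℤ) := by
    have h1 : (2 * (Qr m p : ℤ)) * ((Dr p : ℤ) * |S|) ≤
        (2 * (Qr m p : ℤ)) * ((Tp.card : ℤ) * (Qr m r : ℤ)) := by linarith
    exact le_of_mul_le_mul_left h1 (by positivity)
  have hb4 : (Qr m r : ℤ) * (Dr r : ℤ) ≤ |S| + |S'| := by
    have h1 : |S + S'| = (Qr m r : ℤ) * (Dr r : ℤ) := by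
      rw [hSS, abs_mul, hy1, mul_one, Nat.abs_cast]
      push_cast
      rfl
    rw [← h1]
    exact abs_add_le S S'
  have hD0 : (0 : ℤ) ≤ Dr p := Int.natCast_nonneg _
  have hb5 : (Qr m r : ℤ) * ((Dr r : ℤ) * (Dr p : ℤ)) ≤
      (Qr m r : ℤ) * ((Tp.card : ℤ) + (T'.card : ℤ) * (Dr p : ℤ)) := by
    calc (Qr m r : ℤ) * ((Dr r : ℤ) * (Dr p : ℤ)) = (Qr m r : ℤ) * (Dr r : ℤ) * (Dr p : ℤ) := by
          ring
      _ ≤ (|S| + |S'|) * (Dr p : ℤ) := mul_le_mul_of_nonneg_right hb4 hD0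
      _ = (Dr p : ℤ) * |S| + |S'| * (Dr p : ℤ) := by ring
      _ ≤ (Tp.card : ℤ) * (Qr m r : ℤ) + (T'.card : ℤ) * (Qr m r : ℤ) * (Dr p : ℤ) :=
          add_le_add hb3 (mul_le_mul_of_nonneg_right hb2 hD0)
      _ = (Qr m r : ℤ) * ((Tp.card : ℤ) + (T'.card : ℤ) * (Dr p : ℤ)) := by ring
  have hb6 := le_of_mul_le_mul_left hb5 hQ'
  have hb7 : Dr r * Dr p ≤ Tp.card + T'.card * Dr p := by exact_mod_cast hb6
  by_contra hcon
  have hk2 : 2 ≤ Tp.card := by omega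
  have hk3 : T'.card + Tp.card ≤ Dr r + 1 := by omega
  have h8 : (T'.card + Tp.card) * Dr p ≤ (Dr r + 1) * Dr p := Nat.mul_le_mul_right _ hk3
  nlinarith

end

end Pool.Agent.FF
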