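import Pool.Agent.FF.T4A
import Pool.Agent.FF.Comb4
import Pool.Agent.FF.Inv

/-!
# FF-T4

Proof plan.
* `dec_mem`: closure induction, `inv_sum_mem` for the generators.
* `T4`: `comb_even` for `N`; `hN` is `mixed`; the even part is killed by `even_sum`
  (`3 ≤ n` because `hb l ∣ n`), the rest is `dec_mem`.
-/

set_option autoImplicit false

namespace Pool.Agent.FF

open Finset Pool.Agent.FS
open Pool.Agent.Helper9.Fermat (fib mem_fib)

section

variable {m : ℕ} [NeZero m]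

variable {A : Type} [AddCommGroup A] (D : Datum m A)

theorem dec_mem {n : ℕ} [NeZero n] (hn : n ∣ m) (hu : n.Coprime (m / n)) (ls : List ℕ)
    (hp : ∀ l ∈ ls, l.Prime ∧ l ∣ n) (L : Set ℕ) (hL : ∀ l ∈ ls, ordCompl[l] n ∈ L)
    (R : (ZMod n)ˣ → ℤ) (hR : R ∈ Dec (Kl n) [] ls) :
    ∑ w : (ZMod n)ˣ, R w • D.f (emb m n w) ∈ D.lev L := by
  unfold Dec at hR
  induction hR using AddSubgroup.closure_induction with
  | mem F hF =>
    obtain ⟨l, hl, hF⟩ := hF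
    exact inv_sum_mem D hn hu l (hp l hl).1 (hp l hl).2 L (Or.inl (hL l hl)) F
      (fun k hk g => hF l (List.mem_cons_self) k hk g)
  | zero =>
    simp only [Pi.zero_apply, zero_smul, Finset.sum_const_zero]
    exact zero_mem _
  | add F G _ _ h1 h2 =>
    simp only [Pi.add_apply, add_smul, Finset.sum_add_distrib]
    exact add_mem h1 h2
  | neg F _ h1 =>
    simp only [Pi.neg_apply, neg_smul, Finset.sum_neg_distrib]
    exact neg_mem h1

private theorem T4_three_le {l n : ℕ} (hn0 : n ≠ 0) (hl : l.Prime) (h : hb l ∣ n) : 3 ≤ n := by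
  have h1 : 3 ≤ hb l := by
    unfold hb
    split_ifs with h2
    · norm_num
    · have := hl.two_le
      omega
  exact h1.trans (Nat.le_of_dvd (Nat.pos_of_ne_zero hn0) h)

private theorem T4_dvd_hb (l : ℕ) : l ∣ hb l := by
  unfold hb
  split_ifs with h2
  · rw [h2]; norm_num
  · exact dvd_rfl

theorem T4 {n : ℕ} [NeZero n] (hn : n ∣ m) (hu : n.Coprime (m / n)) (ls : List ℕ)
    (hnd : ls.Nodup) (hlen : Even ls.length) (hne : ls ≠ []) (hp : ∀ l ∈ ls, l.Prime ∧ hb l ∣ n)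
    (hall : ∀ l : ℕ, l.Prime → l ∣ n → l ∈ ls) (L : Set ℕ) (hL : ∀ n' ∈ L, ∃ l ∈ ls, ¬ l ∣ n')
    (hLo : ∀ l ∈ ls, ordCompl[l] n ∈ L) (κ : ℕ → (ZMod n)ˣ →* (ZMod n)ˣ) (hκ : IsProj n κ ls)
    (N : (ZMod n)ˣ → ℤ) (b : A) (hb : b ∈ D.lev L)
    (hW : ∀ t : (ZMod m)ˣ, D.W t (∑ w : (ZMod n)ˣ, N w • D.f (emb m n w) + b) = 0)
    (hpar : ∃ g, Even (oss (ls.map fun l => κ l (-1)) N g)) :
    ∑ w : (ZMod n)ˣ, N w • D.f (emb m n w) ∈ D.lev L := by
  have hp1 : ∀ l ∈ ls, l.Prime := fun l hl => (hp l hl).1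
  have hp2 : ∀ l ∈ ls, l.Prime ∧ l ∣ n := fun l hl => ⟨hp1 l hl, (T4_dvd_hb l).trans (hp l hl).2⟩
  have hP := proj_dec n ls hnd hp1 hall κ hκ
  have hH := half_sys n ls hp
  obtain ⟨R, hR, E, hE, hNE⟩ := comb_even hP hH hlen N
    (fun ks hks g => mixed D hn hu ls hp2 hall L hL N b hb hW ks hks g) hpar
  obtain ⟨l, hl⟩ := List.exists_mem_of_ne_nil ls hne
  have h3 : 3 ≤ n := T4_three_le (NeZero.ne n) (hp l hl).1 (hp l hl).2
  have h4 : ∑ w : (ZMod n)ˣ, N w • D.f (emb m n w) =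
      ∑ w : (ZMod n)ˣ, R w • D.f (emb m n w) + ∑ w : (ZMod n)ˣ, E w • D.f (emb m n w) := by
    rw [← Finset.sum_add_distrib]
    exact Finset.sum_congr rfl fun w _ => by rw [← add_smul, ← hNE]
  rw [h4, even_sum D hn h3 E hE, add_zero]
  exact dec_mem D hn hu ls hp2 L hLo R hR

end

end Pool.Agent.FF
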