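import Pool.Agent.FF.Ind
import Pool.Agent.FF.T4
import Pool.Agent.FF.Cnt

/-!
# FF-Fin (the main theorem for data)
-/

set_option autoImplicit false

namespace Pool.Agent.FF

open Finset Pool.Agent.FS
open Pool.Agent.Helper9.Fermat (fib mem_fib)

/-- The orders which remain: `e` or `e / 2` has at most three prime factors, all in
`{2, 3, 5, 7}`; or `e` is `r`, `3 r` (`r ≤ 19`) or `4 r` (`r ≤ 13`) for a prime `r ≥ 11`. -/
def OKo (e : ℕ) : Prop :=
  (∃ e' : ℕ, (e = e' ∨ e = 2 * e') ∧ e'.primeFactors ⊆ {2, 3, 5, 7} ∧ e'.primeFactors.card ≤ 3) ∨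
    ∃ r : ℕ, r.Prime ∧ 11 ≤ r ∧ e ∈ OKr r

/-- the four primes -/
def p4 : List ℕ := [2, 3, 5, 7]

/-- the levels which remain -/
def L4 : Set ℕ := {n | OKo n ∧ ∃ l ∈ p4, ¬ l ∣ n}

theorem mem_p4 {l : ℕ} : l ∈ p4 ↔ l ∈ ({2, 3, 5, 7} : Finset ℕ) := by
  simp [p4]

theorem p4_prime {l : ℕ} (h : l ∈ p4) : l.Prime := by
  simp only [p4, List.mem_cons, List.not_mem_nil, or_false] at h
  rcases h with rfl | rfl | rfl | rfl <;> norm_num

theorem L4_of_subset {e l : ℕ} (hl : l ∈ p4) (hle : ¬ l ∣ e)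
    (hs : e.primeFactors ⊆ {2, 3, 5, 7}) : e ∈ L4 := by
  refine ⟨Or.inl ⟨e, Or.inl rfl, hs, ?_⟩, l, hl, hle⟩
  have h1 : e.primeFactors ⊆ ({2, 3, 5, 7} : Finset ℕ).erase l := by
    intro p hp
    refine mem_erase.2 ⟨?_, hs hp⟩
    rintro rfl
    exact hle (Nat.dvd_of_mem_primeFactors hp)
  have h2 := card_le_card h1
  rw [card_erase_of_mem (mem_p4.1 hl)] at h2
  exact h2.trans (by decide)

theorem L4_OKr {r e : ℕ} (hr : r.Prime) (hr11 : 11 ≤ r) (he : e ∈ OKr r) : e ∈ L4 := by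
  refine ⟨Or.inr ⟨r, hr, hr11, he⟩, 5, by simp [p4], ?_⟩
  have p5 : Nat.Prime 5 := by norm_num
  have h1 : ¬ 5 ∣ r := fun h => by
    have := (Nat.prime_dvd_prime_iff_eq p5 hr).1 h
    omega
  rcases he with rfl | ⟨_, rfl⟩ | ⟨_, rfl⟩
  · exact h1
  · intro h
    rcases p5.dvd_mul.1 h with h | h
    · omega
    · exact h1 h
  · intro h
    rcases p5.dvd_mul.1 h with h | h
    · omega
    · exact h1 h

section

variable {m : ℕ} [NeZero m] {A : Type} [AddCommGroup A] (D : Datum m A)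

/-- an element of order twice an odd number -/
theorem half_shift (hm : 2 ∣ m) (x : ZMod m) (e : ℕ) (he : addOrderOf x = 2 * e)
    (hodd : ¬ 2 ∣ e) : (e : ZMod m) * (x + ((m / 2 : ℕ) : ZMod m)) = 0 := by
  set h := ((m / 2 : ℕ) : ZMod m) with hh
  have hh2 : h + h = 0 := by
    have := Pool.Agent.Helper9.Fermat.half_neg (m := m) hm
    rw [neg_eq_iff_add_eq_zero] at this
    exact this
  have h1 : (e : ZMod m) * x = h := by
    have h3 : ((2 : ℕ) : ZMod m) * ((e : ZMod m) * x) = 0 := by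
      rw [← mul_assoc, ← Nat.cast_mul, ← he, ← nsmul_eq_mul]
      exact addOrderOf_nsmul_eq_zero x
    have h4' : (e : ZMod m) * x ≠ 0 := by
      intro h5
      rw [← nsmul_eq_mul, ← addOrderOf_dvd_iff_nsmul_eq_zero, he] at h5
      have he1 : 0 < e := Nat.pos_of_ne_zero (by rintro rfl; exact hodd (dvd_zero 2))
      have := Nat.le_of_dvd he1 h5
      omega
    have h6 : (e : ZMod m) * x ∈ fib m 2 (((2 : ℕ) : ZMod m) * 0) := by
      rw [mem_fib, h3, mul_zero]
    have h7 : fib m 2 (((2 : ℕ) : ZMod m) * 0) = {0, h} := by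
      symm
      refine Finset.eq_of_subset_of_card_le ?_ ?_
      · intro z hz
        rw [mem_insert, mem_singleton] at hz
        rw [mem_fib]
        rcases hz with rfl | rfl
        · rfl
        · push_cast
          linear_combination hh2
      · rw [Pool.Agent.Helper9.Fermat.fib_card (by norm_num) hm,
          card_pair (Pool.Agent.Helper9.Fermat.half_ne hm).symm]
    rw [h7, mem_insert, mem_singleton] at h6
    exact h6.resolve_left h4'
  obtain ⟨c, hc⟩ : ∃ c, e = 2 * c + 1 := ⟨e / 2, by omega⟩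
  have h6 : (e : ZMod m) * h = h := by
    rw [hc]
    push_cast
    linear_combination (c : ZMod m) * hh2
  rw [mul_add, h1, h6, hh2]

theorem f_mem_L4 (hm : 2 ∣ m) (x : ZMod m) (hx : (addOrderOf x).primeFactors ⊆ {2, 3, 5, 7})
    (h420 : ¬ 420 ∣ addOrderOf x) : D.f x ∈ D.lev L4 := by
  by_cases h : ∃ l ∈ p4, ¬ l ∣ addOrderOf x
  · obtain ⟨l, hl, hlx⟩ := h
    exact f_mem D (L4_of_subset hl hlx hx)
  · push Not at h
    have h2 : 2 ∣ addOrderOf x := h 2 (by simp [p4])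
    have h3 : 3 ∣ addOrderOf x := h 3 (by simp [p4])
    have h5 : 5 ∣ addOrderOf x := h 5 (by simp [p4])
    have h7 : 7 ∣ addOrderOf x := h 7 (by simp [p4])
    obtain ⟨e, he⟩ := h2
    have hodd : ¬ 2 ∣ e := by
      intro h2
      apply h420
      omega
    have hpos : 0 < addOrderOf x := addOrderOf_pos x
    set h := ((m / 2 : ℕ) : ZMod m) with hh
    have hh2 : h + h = 0 := by
      have := Pool.Agent.Helper9.Fermat.half_neg (m := m) hm
      rw [neg_eq_iff_add_eq_zero] at this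
      exact this
    have h0 := half_shift hm x e he hodd
    have he0 : e ≠ 0 := by rintro rfl; exact hodd (dvd_zero 2)
    have hgood : ∀ y : ZMod m, (e : ZMod m) * y = 0 → D.f y ∈ D.lev L4 := by
      intro y hy
      have h1 : addOrderOf y ∣ e := by
        rw [addOrderOf_dvd_iff_nsmul_eq_zero, nsmul_eq_mul]
        exact hy
      refine f_mem D (L4_of_subset (l := 2) (by simp [p4]) (fun h => hodd (h.trans h1)) ?_)
      refine ((Nat.primeFactors_mono h1 he0).trans ?_).trans hx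
      exact Nat.primeFactors_mono (he ▸ Dvd.intro_left 2 rfl) hpos.ne'
    have hx' : x = (x + h) + h := by rw [add_assoc, hh2, add_zero]
    rw [hx', f_half D hm (x + h)]
    refine sub_mem (hgood _ ?_) (hgood _ h0)
    linear_combination 2 * h0

theorem six_lev (hm : Even m) (S : Multiset (ZMod m)) (hc : S.card ≤ 6)
    (h5 : ¬ 5 ∣ m ∨ cntp S 11 ≤ 4) (hW : ∀ t, D.W t (S.map D.f).sum = 0) :
    (S.map D.f).sum ∈ AddSubgroup.closure {a | ∃ x : ZMod m, OKo (addOrderOf x) ∧ a = D.f x} := by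
  have hm0 : m ≠ 0 := NeZero.ne m
  have hm2 : 2 ∣ m := hm.two_dvd
  suffices h : (S.map D.f).sum ∈ D.lev L4 by
    refine (AddSubgroup.closure_le _).2 ?_ h
    rintro a ⟨x, hx, rfl⟩
    exact AddSubgroup.subset_closure ⟨x, hx.1, rfl⟩
  obtain ⟨s, hs⟩ : ∃ s : Finset ℕ, s = m.primeFactors.filter fun r => 11 ≤ r := ⟨_, rfl⟩
  obtain ⟨b, hb, hSb, hb0⟩ := ind_primes D hm S hc h5 hW s
    (by
      intro r hr
      rw [hs, mem_filter, Nat.mem_primeFactors] at hr
      exact ⟨hr.1.1, hr.1.2.1, hr.2⟩)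
  set U := S.filter fun x => ∀ r ∈ s, ¬ r ∣ addOrderOf x with hU
  have hUS : U ≤ S := Multiset.filter_le _ _
  have hord : ∀ x : ZMod m, addOrderOf x ∣ m := RUp_order_dvd
  have hUpf : ∀ x ∈ U, (addOrderOf x).primeFactors ⊆ {2, 3, 5, 7} := by
    intro x hx p hp
    have h1 := (Multiset.mem_filter.1 hx).2 p
    have hpp := Nat.prime_of_mem_primeFactors hp
    have hpd := Nat.dvd_of_mem_primeFactors hp
    have h2 : p < 11 := by
      by_contra h
      rw [hs] at h1
      refine h1 (mem_filter.2 ⟨Nat.mem_primeFactors.2 ⟨hpp, hpd.trans (hord x), hm0⟩, by omega⟩) hpd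
    interval_cases p <;> first | (simp; done) | (exfalso; revert hpp; norm_num)
  have hb' : b ∈ D.lev L4 := by
    refine lev_mono D ?_ hb
    rintro n ⟨r, hr, hn⟩
    rw [hs, mem_filter, Nat.mem_primeFactors] at hr
    exact L4_OKr hr.1.1 hr.2 hn
  set T := U.filter fun x => 420 ∣ addOrderOf x with hT
  set V := U.filter fun x => ¬ 420 ∣ addOrderOf x with hV
  have hTV : T + V = U := Multiset.filter_add_not _ _
  have hUsum : (U.map D.f).sum = (T.map D.f).sum + (V.map D.f).sum := by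
    rw [← hTV, Multiset.map_add, Multiset.sum_add]
  have hVmem : (V.map D.f).sum ∈ D.lev L4 := by
    refine AddSubgroup.multiset_sum_mem _ _ fun a ha => ?_
    rw [Multiset.mem_map] at ha
    obtain ⟨x, hx, rfl⟩ := ha
    rw [hV, Multiset.mem_filter] at hx
    exact f_mem_L4 D hm2 x (hUpf x hx.1) hx.2
  rw [hSb, hUsum]
  refine add_mem (add_mem ?_ hVmem) hb'
  by_cases hT0 : T = 0
  · rw [hT0, Multiset.map_zero, Multiset.sum_zero]
    exact zero_mem _
  obtain ⟨x0, hx0⟩ := Multiset.exists_mem_of_ne_zero hT0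
  have h420m : 420 ∣ m := ((Multiset.mem_filter.1 hx0).2).trans (hord x0)
  -- the level
  obtain ⟨n, hn⟩ : ∃ n, n = ∏ l ∈ ({2, 3, 5, 7} : Finset ℕ), qq m l := ⟨_, rfl⟩
  have hpr : ∀ l ∈ ({2, 3, 5, 7} : Finset ℕ), l.Prime := fun l hl => p4_prime (mem_p4.2 hl)
  have hlm : ∀ l ∈ ({2, 3, 5, 7} : Finset ℕ), l ∣ m := by
    intro l hl
    refine dvd_trans ?_ h420m
    simp only [mem_insert, mem_singleton] at hl
    rcases hl with rfl | rfl | rfl | rfl <;> norm_num
  have hnm : n ∣ m := hn ▸ prod_qq_dvd _ hpr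
  have hn0 : n ≠ 0 := fun h => hm0 (Nat.eq_zero_of_zero_dvd (h ▸ hnm))
  have : NeZero n := ⟨hn0⟩
  have hlq : ∀ l ∈ ({2, 3, 5, 7} : Finset ℕ), l ∣ qq m l := by
    intro l hl
    have h1 : 1 ≤ m.factorization l := (hpr l hl).factorization_pos_of_dvd hm0 (hlm l hl)
    exact dvd_pow_self l (by omega)
  have hqn : ∀ l ∈ ({2, 3, 5, 7} : Finset ℕ), qq m l ∣ n := fun l hl => hn ▸ dvd_prod_of_mem _ hl
  have hpf : n.primeFactors = {2, 3, 5, 7} := by
    ext l
    rw [Nat.mem_primeFactors]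
    constructor
    · rintro ⟨hl, hln, _⟩
      rw [hn, Prime.dvd_finsetProd_iff hl.prime] at hln
      obtain ⟨l', hl', h2⟩ := hln
      have h3 : l ∣ l' := hl.dvd_of_dvd_pow h2
      rw [(Nat.prime_dvd_prime_iff_eq hl (hpr l' hl')).1 h3]
      exact hl'
    · intro hl
      exact ⟨hpr l hl, (hlq l hl).trans (hqn l hl), hn0⟩
  have hu : n.Coprime (m / n) := by
    refine unitary hnm fun l hl h => hqn l ?_
    rw [← hpf]
    exact Nat.mem_primeFactors.2 ⟨hl, h, hn0⟩
  have h4n : 4 ∣ n := by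
    refine dvd_trans ?_ (hqn 2 (by simp))
    have h4 : 4 ∣ m := dvd_trans (by norm_num) h420m
    have h3 : 2 ≤ m.factorization 2 :=
      (Nat.prime_two.pow_dvd_iff_le_factorization hm0).1 (by norm_num; exact h4)
    exact pow_dvd_pow 2 h3
  have hdvn : ∀ l ∈ ({2, 3, 5, 7} : Finset ℕ), l ∣ n := fun l hl => (hlq l hl).trans (hqn l hl)
  have h3n := hdvn 3 (by simp)
  have h5n := hdvn 5 (by simp)
  have h7n := hdvn 7 (by simp)
  have h420 : 420 ∣ n := by omega
  have hTn : ∀ x ∈ T, 420 ∣ addOrderOf x ∧ addOrderOf x ∣ n := by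
    intro x hx
    rw [hT, Multiset.mem_filter] at hx
    refine ⟨hx.2, (dvd_prod_qq (hord x)).trans ?_⟩
    rw [hn]
    exact prod_dvd_prod_of_subset _ _ _ (hUpf x hx.1)
  -- the projections
  obtain ⟨κ, hκ⟩ := exists_proj n p4 fun l hl => p4_prime hl
  have hTU : T.card ≤ U.card := Multiset.card_le_card (Multiset.filter_le _ _)
  have hUc : U.card ≤ S.card := Multiset.card_le_card hUS
  have hσ : ∀ σ ∈ p4.map fun l => κ l (-1), rr σ ≡ 1 [MOD 5] ∨ rr σ ≡ 4 [MOD 5] := by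
    intro σ hσ
    rw [List.mem_map] at hσ
    obtain ⟨l, hl, rfl⟩ := hσ
    obtain ⟨h1, h2⟩ := hκ l hl (-1)
    by_cases hl5 : l = 5
    · right
      subst hl5
      have h3 : 5 ∣ ordProj[5] n := by
        have h4 : 1 ≤ n.factorization 5 := (p4_prime hl).factorization_pos_of_dvd hn0 h5n
        exact dvd_pow_self 5 (by omega)
      refine (h2.of_dvd h3).trans ?_
      have h4 : rr (-1 : (ZMod n)ˣ) + 1 ≡ 4 + 1 [MOD 5] := (neg_one_val.of_dvd h5n).trans rfl
      exact Nat.ModEq.add_right_cancel' 1 h4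
    · left
      refine (mem_Kl.1 h1).of_dvd ?_
      have p5 : Nat.Prime 5 := by norm_num
      refine (Nat.Coprime.dvd_of_dvd_mul_left
        (((Nat.coprime_primes p5 (p4_prime hl)).2 (Ne.symm hl5)).pow_right _)
        (by rw [Nat.ordProj_mul_ordCompl_eq_self]; exact h5n))
  obtain ⟨g, hg⟩ := par hnm hu hpf h420 T hTn (by omega) (by
    intro h6 t
    have e1 : T = U := Multiset.eq_of_le_of_card_le (Multiset.filter_le _ _) (by omega)
    have e2 : U = S := Multiset.eq_of_le_of_card_le hUS (by omega)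
    rw [e1, e2, ← W_sum D]
    exact hW t) (p4.map fun l => κ l (-1)) (by simp [p4]) hσ
  rw [← sum_NN D hnm hu hpf T hTn]
  refine T4 D hnm hu p4 (by decide) (by decide) (by decide) ?_ ?_ L4 (fun n' hn' => hn'.2) ?_
    κ hκ (NN T n) ((V.map D.f).sum + b) (add_mem hVmem hb') ?_ ⟨g, hg⟩
  · intro l hl
    refine ⟨p4_prime hl, ?_⟩
    unfold Pool.Agent.FS.hb
    split_ifs with h
    · exact h4n
    · exact hdvn l (mem_p4.1 hl)
  · intro l hl hln
    rw [mem_p4, ← hpf]
    exact Nat.mem_primeFactors.2 ⟨hl, hln, hn0⟩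
  · intro l hl
    refine L4_of_subset hl (Nat.not_dvd_ordCompl (p4_prime hl) hn0) ?_
    rw [← hpf]
    exact Nat.primeFactors_mono (Nat.ordCompl_dvd n l) hn0
  · intro t
    rw [sum_NN D hnm hu hpf T hTn, ← add_assoc, ← hUsum, ← hSb]
    exact hW t

end

end Pool.Agent.FF
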