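import Pool.Agent.FF.Six11

/-!
# FF-Six11B

Proof plan. As in `six_eleven` (`Pool/Agent/FF/Six11.lean`; copy its proof up to `10 g = 0`), but
without the hypothesis that `5` does not divide `m`. Let `y = (g : ZMod m) + (m / 2 : ℕ)`, `Q = Qr m 11`,
`Dr 11 = 5`, `2 m * 5 Q ∣ G t - 10 Q g τ`, `τ = (t : ZMod m).val` odd. `10 y = 0` (`m` even) and
`ide m 11 * y = y` (`ide m 11 * g = g`, and `m / 2` has order `2`: `ide_mul_eq_self`).
If `y = 0`: then `g ≡ m / 2 mod m` and `G t ≡ 5 Q m mod 10 Q m` for all `t`, so `|G t| ≥ 5 Q m`,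
in contradiction to `no_half` with `P` from `GG_form` (as in `six_eleven`). So `y ≠ 0`, and for every
unit `t`: `sw (t y) = 2 val (t y) - m ≡ 2 τ (g + m / 2) - m ≡ 2 τ g mod 2 m`, so
`10 m Q ∣ G t - 5 Q sw (t y)`. Here `|G t| ≤ 6 Q (m - 2)` (`Gr_bound`) and, as `10 y = 0` and
`y ≠ 0`, `5 |sw (t y)| ≤ 4 m` (`10 val (t y) = i m` with `1 ≤ i ≤ 9`). So
`|G t - 5 Q sw (t y)| < 10 Q m` and `G t = 5 Q sw (t y)`.
-/

set_option autoImplicit false

namespace Pool.Agent.FF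

open Finset Pool.Agent.FS
open Pool.Agent.Helper9.Fermat (fib mem_fib)

section

variable {m : ℕ} [NeZero m]

variable {A : Type} [AddCommGroup A] (D : Datum m A)

include D in
theorem six_elevenB (hm : Even m) (h11 : 11 ∣ m) {T : Multiset (ZMod m)}
    (hTr : ∀ x ∈ T, 11 ∣ addOrderOf x) (hK : KInv 11 T) (hc : T.card ≤ 6)
    (hW : ∀ t : (ZMod m)ˣ, (T.map fun x => sw ((t : ZMod m) * x)).sum = 0) :
    ∃ y : ZMod m, y ≠ 0 ∧ 10 * y = 0 ∧ ide m 11 * y = y ∧
      ∀ t : (ZMod m)ˣ, Gr 11 T t = ((Qr m 11 * Dr 11 : ℕ) : ℤ) * sw ((t : ZMod m) * y) := by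
  have hr : Nat.Prime 11 := by norm_num
  have hr3 : 3 ≤ 11 := by norm_num
  have hm0 : 0 < m := Nat.pos_of_ne_zero (NeZero.ne m)
  have hm2 : 2 ≤ m := by
    obtain ⟨j, hj⟩ := hm
    omega
  obtain ⟨g, hg⟩ := exists_g D hm hr hr3 h11 hTr hK
  have hD : Dr 11 = 5 := rfl
  have hQ := Qr_pos (m := m) hr h11
  have hbd := Gr_bound hr hm2 hTr
  obtain ⟨P, hPc, hP, hPG⟩ := GG_form hr T hTr
  have hqQ : ((qq m 11 : ℕ) : ZMod m) = 11 * ((Qr m 11 : ℕ) : ZMod m) := by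
    rw [← Qr_mul (m := m) hr h11]
    push_cast
    ring
  have hbeQ : be m 11 = ((Qr m 11 : ℕ) : ZMod m) * ide m 11 := rfl
  obtain ⟨a, -, ha⟩ := RNorm_qq_div (m := m) 11 hr h11
  have hQa : Qr m 11 = 11 ^ a := ha
  obtain ⟨ua, hua⟩ := exists_unit_al (m := m) 11 hr
  obtain ⟨ub, hub⟩ := exists_unit_be (m := m) 11 hr h11
  have hWf := weight_formula hr h11 hTr hr3 hK 1
  rw [hW, mul_zero, Gr_al T 1 ua hua, Gr_be T 1 ub hub, one_mul, one_mul] at hWf
  rw [hD] at hg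
  obtain ⟨Q, hQe⟩ : ∃ Q, Q = Qr m 11 := ⟨_, rfl⟩
  rw [← hQe] at hg hQ hbd hqQ hbeQ hQa
  have hQm : (0 : ℤ) < 2 * (Q * 5) := by positivity
  -- equal weights give equal multiples of `g`
  have hdiff : ∀ t s : (ZMod m)ˣ, Gr 11 T t = Gr 11 T s →
      (t : ZMod m) * (g : ZMod m) = (s : ZMod m) * (g : ZMod m) := by
    intro t s hts
    have e1 := dvd_sub (hg s) (hg t)
    rw [hts] at e1
    have e2 : (2 * ((Q : ℤ) * 5)) * (m : ℤ) ∣ (2 * ((Q : ℤ) * 5)) *
        (g * (((t : ZMod m).val : ℤ) - ((s : ZMod m).val : ℤ))) := by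
      have e3 : (2 * ((Q : ℤ) * 5)) * (m : ℤ) = ((2 * m * (Q * 5) : ℕ) : ℤ) := by
        push_cast; ring
      rw [e3]
      refine e1.trans (dvd_of_eq ?_)
      push_cast
      ring
    have e4 := Int.dvd_of_mul_dvd_mul_left (by positivity) e2
    have e5 : (((g * (((t : ZMod m).val : ℤ) - ((s : ZMod m).val : ℤ)) : ℤ)) : ZMod m) = 0 :=
      (ZMod.intCast_zmod_eq_zero_iff_dvd _ _).2 e4
    push_cast at e5
    rw [ZMod.natCast_zmod_val, ZMod.natCast_zmod_val] at e5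
    linear_combination e5
  -- `g` is in the part prime to `11`
  obtain ⟨h, hh, hhy⟩ := exists_h (m := m) hr hr3 h11
  have hide : ide m 11 * (g : ZMod m) = (g : ZMod m) := by
    apply hhy
    have e1 : Gr 11 T h = Gr 11 T 1 := by
      unfold Gr
      congr 1
      funext w
      rw [Kl_mul_ide 11 hr h hh, Units.val_one, one_mul]
    have e2 := hdiff h 1 e1
    rw [Units.val_one, one_mul] at e2
    exact e2
  -- `10 g = 0`
  have h10 : (10 : ZMod m) * (g : ZMod m) = 0 := by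
    have e1 := hdiff ua ub (sub_eq_zero.1 hWf.symm)
    have e2 : (ua : ZMod m) * (g : ZMod m) = 11 * (Q : ZMod m) * (g : ZMod m) := by
      rw [← hqQ, ← RNorm_al 11 hr, hua, hide]
    have e3 : (ub : ZMod m) * (g : ZMod m) = (Q : ZMod m) * (g : ZMod m) := by
      have e4 := hub (g : ZMod m)
      rw [hide] at e4
      rw [← e4, hbeQ, mul_assoc, hide]
    rw [e2, e3] at e1
    obtain ⟨y, hy⟩ : ∃ y : ZMod m, y = 10 * (g : ZMod m) := ⟨_, rfl⟩
    have hyi : ide m 11 * y = y := by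
      rw [hy]
      linear_combination 10 * hide
    have hQy : (11 ^ a) • y = 0 := by
      rw [nsmul_eq_mul, ← hQa, hy]
      linear_combination e1
    have e5 := addOrderOf_dvd_of_nsmul_eq_zero hQy
    have e6 := addOrderOf_ide_mul (m := m) 11 hr y
    rw [hyi] at e6
    have e7 : (11 : ℕ).Coprime (addOrderOf y) := by
      rw [e6]
      exact Nat.coprime_ordCompl hr (addOrderOf_pos y).ne'
    have e8 : addOrderOf y = 1 :=
      Nat.Coprime.eq_one_of_dvd (Nat.Coprime.pow_right a e7.symm) e5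
    rw [← hy]
    exact AddMonoid.addOrderOf_eq_one_iff.1 e8
  obtain ⟨c, hmc⟩ := hm
  have hmc2 : m / 2 = c := by omega
  have hcc : (c : ZMod m) + (c : ZMod m) = 0 := by
    have e1 : ((c + c : ℕ) : ZMod m) = 0 := by
      rw [← hmc]
      exact ZMod.natCast_self m
    rw [← e1]
    push_cast
    rfl
  have hidec : ide m 11 * (c : ZMod m) = (c : ZMod m) := by
    refine ide_mul_eq_self 11 hr _ fun hcon => ?_
    have e1 : addOrderOf (c : ZMod m) ∣ 2 := by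
      refine addOrderOf_dvd_of_nsmul_eq_zero ?_
      rw [two_nsmul]
      exact hcc
    have e2 := hcon.trans e1
    revert e2
    norm_num
  have hgt : ∀ t : (ZMod m)ˣ, ∃ j : ℤ, Gr 11 T t =
      10 * (Q : ℤ) * m * j + 10 * (Q : ℤ) * g * ((t : ZMod m).val : ℤ) := by
    intro t
    obtain ⟨j, hj⟩ := hg t
    refine ⟨j, ?_⟩
    have e1 : Gr 11 T t = ((2 * m * (Q * 5) : ℕ) : ℤ) * j +
        2 * ((Q * 5 : ℕ) : ℤ) * g * ((t : ZMod m).val : ℤ) := by linarith
    rw [e1]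
    push_cast
    ring
  have hodd : ∀ t : (ZMod m)ˣ, Odd ((t : ZMod m).val : ℤ) := by
    intro t
    have e2 : ((t : ZMod m).val).Coprime m := ZMod.val_coe_unit_coprime t
    have e3 : ¬ 2 ∣ (t : ZMod m).val := by
      intro e4
      have e5 : 2 ∣ m := ⟨c, by omega⟩
      have e6 := Nat.dvd_gcd e4 e5
      rw [e2] at e6
      omega
    have e7 : Odd (t : ZMod m).val := Nat.not_even_iff_odd.1 fun e8 => e3 e8.two_dvd
    exact_mod_cast e7
  have hmcZ : (m : ℤ) = 2 * (c : ℤ) := by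
    have : (m : ℤ) = ((c + c : ℕ) : ℤ) := by rw [← hmc]
    rw [this]
    push_cast
    ring
  have hQ0 : (0 : ℤ) < Q := by exact_mod_cast hQ
  have hmZ : (0 : ℤ) < m := by exact_mod_cast hm0
  obtain ⟨y, hy⟩ : ∃ y : ZMod m, y = (g : ZMod m) + (c : ZMod m) := ⟨_, rfl⟩
  have hy10 : (10 : ZMod m) * y = 0 := by
    rw [hy]
    linear_combination h10 + 5 * hcc
  have hyi : ide m 11 * y = y := by
    rw [hy, mul_add, hide, hidec]
  have hyne : y ≠ 0 := by
    intro hy0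
    obtain ⟨t, ht⟩ := no_half Q hQ P (fun p hp => by rw [hQe]; exact (hP p hp).2.1)
      (by rw [hPc]; exact hc)
    have e1 : Gr 11 T t = (P.map fun p => (p.1 : ℤ) * sw ((t : ZMod m) * p.2)).sum :=
      hPG (fun x => sw ((t : ZMod m) * x)) (isDist_sw_unit t)
    rw [← e1] at ht
    obtain ⟨j, hj⟩ := hgt t
    have e2 : ((g + (c : ℤ) : ℤ) : ZMod m) = 0 := by
      push_cast
      rw [← hy, hy0]
    obtain ⟨k, hk⟩ := (ZMod.intCast_zmod_eq_zero_iff_dvd _ _).1 e2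
    have e3 : Gr 11 T t = (5 * (Q : ℤ) * m) * (2 * j + (2 * k - 1) * ((t : ZMod m).val : ℤ)) := by
      rw [hj]
      have e4 : 2 * g = (m : ℤ) * (2 * k - 1) := by linarith
      linear_combination (5 * (Q : ℤ) * ((t : ZMod m).val : ℤ)) * e4
    have hpos : 0 < 5 * (Q : ℤ) * m := by positivity
    have e5 : Odd (2 * k - 1 : ℤ) := ⟨k - 1, by ring⟩
    have hodd2 : Odd (2 * j + (2 * k - 1) * ((t : ZMod m).val : ℤ)) :=
      (even_two_mul j).add_odd (e5.mul (hodd t))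
    have hne : 2 * j + (2 * k - 1) * ((t : ZMod m).val : ℤ) ≠ 0 := by
      intro e6
      rw [e6] at hodd2
      exact absurd hodd2 (by decide)
    rw [e3, abs_mul, abs_of_pos hpos] at ht
    have e7 : 1 ≤ |2 * j + (2 * k - 1) * ((t : ZMod m).val : ℤ)| := Int.one_le_abs hne
    nlinarith
  refine ⟨y, hyne, hy10, hyi, ?_⟩
  intro t
  obtain ⟨j, hj⟩ := hgt t
  have hty : (t : ZMod m) * y ≠ 0 := by
    intro e1
    apply hyne
    have e2 : ((t⁻¹ : (ZMod m)ˣ) : ZMod m) * ((t : ZMod m) * y) = y := by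
      rw [← mul_assoc, Units.inv_mul, one_mul]
    rw [← e2, e1, mul_zero]
  have hsw : sw ((t : ZMod m) * y) = 2 * ((((t : ZMod m) * y).val : ℕ) : ℤ) - m :=
    if_neg hty
  -- the value of `t y` modulo `m`
  have hv : (m : ℤ) ∣ ((((t : ZMod m) * y).val : ℕ) : ℤ) -
      ((t : ZMod m).val : ℤ) * (g + (c : ℤ)) := by
    rw [← ZMod.intCast_zmod_eq_zero_iff_dvd]
    push_cast
    rw [ZMod.natCast_zmod_val, ZMod.natCast_zmod_val, ← hy]
    ring
  obtain ⟨i, hi⟩ := hv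
  obtain ⟨o, ho⟩ := hodd t
  have hdvd : Gr 11 T t - 5 * (Q : ℤ) * sw ((t : ZMod m) * y) =
      10 * (Q : ℤ) * m * (j - i - o) := by
    rw [hj, hsw]
    have e1 : ((((t : ZMod m) * y).val : ℕ) : ℤ) = ((t : ZMod m).val : ℤ) * (g + (c : ℤ)) +
        m * i := by linarith
    rw [e1]
    have e2 : (c : ℤ) * 2 = m := by linarith
    linear_combination (-10 * (Q : ℤ) * (c : ℤ)) * ho - (5 * (Q : ℤ) * (2 * o + 1)) * e2
  have hb1 : |Gr 11 T t| ≤ 6 * (Q : ℤ) * ((m : ℤ) - 2) := by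
    refine (hbd t).trans ?_
    have e3 : (T.card : ℤ) ≤ 6 := by exact_mod_cast hc
    have e4 : (2 : ℤ) ≤ m := by exact_mod_cast hm2
    have e6 : (T.card : ℤ) * (Q : ℤ) ≤ 6 * Q := by nlinarith
    nlinarith
  have hb2 : |5 * sw ((t : ZMod m) * y)| ≤ 4 * (m : ℤ) := by
    have e1 : (10 : ZMod m) * ((t : ZMod m) * y) = 0 := by
      rw [mul_left_comm, hy10, mul_zero]
    have e2 : (m : ℤ) ∣ 10 * ((((t : ZMod m) * y).val : ℕ) : ℤ) := by
      rw [← ZMod.intCast_zmod_eq_zero_iff_dvd]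
      push_cast
      rw [ZMod.natCast_zmod_val]
      exact e1
    obtain ⟨l, hl⟩ := e2
    have e3 : ((t : ZMod m) * y).val < m := ZMod.val_lt _
    have e4 : ((t : ZMod m) * y).val ≠ 0 := fun e5 => hty ((ZMod.val_eq_zero _).1 e5)
    have e5 : ((((t : ZMod m) * y).val : ℕ) : ℤ) < m := by exact_mod_cast e3
    have e6 : (1 : ℤ) ≤ ((((t : ZMod m) * y).val : ℕ) : ℤ) := by
      have : 1 ≤ ((t : ZMod m) * y).val := Nat.one_le_iff_ne_zero.2 e4
      exact_mod_cast this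
    have hl1 : 1 ≤ l := by
      by_contra hcon
      have : l ≤ 0 := by omega
      nlinarith
    have hl2 : l ≤ 9 := by
      by_contra hcon
      have : 10 ≤ l := by omega
      nlinarith
    rw [hsw, abs_le]
    constructor <;> nlinarith
  have hfin : |10 * (Q : ℤ) * m * (j - i - o)| < 10 * (Q : ℤ) * m := by
    rw [← hdvd]
    have e1 : |Gr 11 T t - 5 * (Q : ℤ) * sw ((t : ZMod m) * y)| ≤
        |Gr 11 T t| + |5 * (Q : ℤ) * sw ((t : ZMod m) * y)| := abs_sub _ _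
    have e2 : |5 * (Q : ℤ) * sw ((t : ZMod m) * y)| = (Q : ℤ) * |5 * sw ((t : ZMod m) * y)| := by
      rw [show 5 * (Q : ℤ) * sw ((t : ZMod m) * y) = (Q : ℤ) * (5 * sw ((t : ZMod m) * y)) by ring,
        abs_mul, abs_of_pos hQ0]
    have e3 : (Q : ℤ) * |5 * sw ((t : ZMod m) * y)| ≤ Q * (4 * m) :=
      mul_le_mul_of_nonneg_left hb2 hQ0.le
    rw [e2] at e1
    nlinarith
  have hpos : (0 : ℤ) < 10 * (Q : ℤ) * m := by positivity
  have hz : j - i - o = 0 := by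
    rw [abs_mul, abs_of_pos hpos] at hfin
    have e1 : |j - i - o| < 1 := by
      by_contra hcon
      rw [not_lt] at hcon
      nlinarith
    exact Int.abs_lt_one_iff.1 e1
  rw [hz, mul_zero] at hdvd
  rw [hD, ← hQe]
  push_cast
  linarith

end

end Pool.Agent.FF
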