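import Pool.Agent.FF.Step
import Pool.Agent.FF.FewP
import Pool.Agent.FF.Eleven7
import Pool.Agent.FF.Six11B

/-!
# FF-Step11 (the prime `11`, at least five elements)
-/

set_option autoImplicit false

namespace Pool.Agent.FF

open Finset Pool.Agent.FS
open Pool.Agent.Helper9.Fermat (fib mem_fib)

section

variable {m : ℕ} [NeZero m]

theorem sw_mul_Kl {p : ℕ} (hp : p.Prime) {h : (ZMod m)ˣ} (hh : h ∈ Kl m p) (z : ZMod m)
    (hz : ¬ p ∣ addOrderOf z) (t : (ZMod m)ˣ) :
    sw (((t * h : (ZMod m)ˣ) : ZMod m) * z) = sw ((t : ZMod m) * z) := by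
  have h4 := Kl_mul_ide p hp h hh z
  rw [ide_mul_eq_self p hp z hz] at h4
  rw [Units.val_mul, mul_assoc, h4]

/-- no element of `T` has order divisible by `7` -/
theorem no7 (hm : Even m) (h7 : 7 ∣ m) {r : ℕ} (hr : r.Prime) (hrm : r ∣ m) (hr7 : 7 ≠ r)
    {T : Multiset (ZMod m)} (hTr : ∀ x ∈ T, r ∣ addOrderOf x) (hk : T.card ≤ Dr r + 1)
    (y : ZMod m) (hy6 : 6 * y ≠ 0)
    (hy : ∀ t : (ZMod m)ˣ, Gr r T t = ((Qr m r * Dr r : ℕ) : ℤ) * sw ((t : ZMod m) * y))
    (hpy : ¬ 7 ∣ addOrderOf y) (z : ZMod m) (hz : ¬ 7 ∣ addOrderOf z)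
    (hW : ∀ t : (ZMod m)ˣ, (T.map fun x => sw ((t : ZMod m) * x)).sum + sw ((t : ZMod m) * z) = 0) :
    ∀ x ∈ T, ¬ 7 ∣ addOrderOf x := by
  have p7 : Nat.Prime 7 := by norm_num
  intro x hx hx7
  have h1 := few_p hm hr hrm hTr hk y hy6 hy p7 le_rfl h7 hr7 hpy
  have hxT : x ∈ T.filter fun x => 7 ∣ addOrderOf x := Multiset.mem_filter.2 ⟨hx, hx7⟩
  have h2 : 0 < (T.filter fun x => 7 ∣ addOrderOf x).card :=
    Multiset.card_pos_iff_exists_mem.2 ⟨x, hxT⟩
  have h3 : (T.filter fun x => 7 ∣ addOrderOf x) = {x} := by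
    obtain ⟨x', hx'⟩ := Multiset.card_eq_one.1 (by omega : (T.filter fun x => 7 ∣ addOrderOf x).card = 1)
    rw [hx', Multiset.mem_singleton] at hxT
    rw [hx', hxT]
  obtain ⟨h, hh, hfix⟩ := exists_h (m := m) p7 (by norm_num) h7
  -- the weight of `x` is invariant under `h`
  have hsplit : ∀ t : (ZMod m)ˣ, sw ((t : ZMod m) * x) +
      ((T.filter fun x => ¬ 7 ∣ addOrderOf x).map fun x => sw ((t : ZMod m) * x)).sum +
        sw ((t : ZMod m) * z) = 0 := by
    intro t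
    have e1 := hW t
    rw [← Multiset.filter_add_not (fun x => 7 ∣ addOrderOf x) T, Multiset.map_add,
      Multiset.sum_add, h3, Multiset.map_singleton, Multiset.sum_singleton] at e1
    exact e1
  have e1 := hsplit 1
  have e2 := hsplit (1 * h)
  rw [sw_mul_Kl p7 hh z hz] at e2
  have e3 : ((T.filter fun x => ¬ 7 ∣ addOrderOf x).map
      fun x => sw (((1 * h : (ZMod m)ˣ) : ZMod m) * x)) =
      ((T.filter fun x => ¬ 7 ∣ addOrderOf x).map fun x => sw (((1 : (ZMod m)ˣ) : ZMod m) * x)) :=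
    Multiset.map_congr rfl fun w hw => sw_mul_Kl p7 hh w (Multiset.mem_filter.1 hw).2 1
  rw [e3] at e2
  have e4 : sw ((h : ZMod m) * x) = sw x := by
    have e5 : sw (((1 * h : (ZMod m)ˣ) : ZMod m) * x) = sw (((1 : (ZMod m)ˣ) : ZMod m) * x) := by
      linarith
    rwa [one_mul, Units.val_one, one_mul] at e5
  have hx0 : x ≠ 0 := by
    rintro rfl
    rw [addOrderOf_zero] at hx7
    omega
  have hhx0 : (h : ZMod m) * x ≠ 0 := fun h' => hx0 ((Units.mul_right_eq_zero h).1 h')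
  have e5 : (h : ZMod m) * x = x := by
    rw [sw, if_neg hhx0, sw, if_neg hx0] at e4
    apply ZMod.val_injective m
    omega
  have e6 := hfix x e5
  have e7 := addOrderOf_ide_mul (m := m) 7 p7 x
  rw [e6] at e7
  have e8 := Nat.not_dvd_ordCompl p7 (addOrderOf_pos x).ne'
  rw [← e7] at e8
  exact e8 hx7

variable {A : Type} [AddCommGroup A] (D : Datum m A)

theorem step11 (hm : Even m) (h11 : 11 ∣ m) (U : Multiset (ZMod m)) (b : A) (hc : U.card ≤ 6)
    (hb : b ∈ D.lev {n | ¬ 11 ∣ n}) (hb0 : b = 0 ∨ U.card ≤ 3)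
    (hW : ∀ t, D.W t ((U.map D.f).sum + b) = 0) :
    (((Fr 11 U).map D.f).sum ∈ D.lev (OKr 11) ∧
      (((Fr 11 U).map D.f).sum = 0 ∨ 3 ≤ (Fr 11 U).card)) ∨
        (b = 0 ∧ ∀ x ∈ U, ¬ 7 ∣ addOrderOf x) := by
  have hr : Nat.Prime 11 := by norm_num
  have hr3 : 3 ≤ 11 := by norm_num
  have hr5 : 5 ≤ 11 := by norm_num
  by_cases hk4 : (Fr 11 U).card ≤ 4
  · exact Or.inl (step D hm hr le_rfl h11 U b hc hb hb0 (fun _ => Or.inr hk4) hW)
  have hK := KInv_of_W D hr U b hb hW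
  have hT := Fr_dvd (m := m) (r := 11) (U := U)
  have hD : Dr 11 = 5 := rfl
  have hle : (Fr 11 U).card ≤ U.card := Multiset.card_le_card (Multiset.filter_le _ _)
  have hb' : b = 0 := by
    rcases hb0 with h | h
    · exact h
    · omega
  have hU : ∀ t : (ZMod m)ˣ, (U.map fun x => sw ((t : ZMod m) * x)).sum = 0 := by
    intro t
    have h1 := hW t
    rwa [hb', add_zero, W_sum] at h1
  have h12 : ∀ y : ZMod m, y ≠ 0 → 12 * y = 0 →
      (∀ t : (ZMod m)ˣ, Gr 11 (Fr 11 U) t = ((Qr m 11 * Dr 11 : ℕ) : ℤ) * sw ((t : ZMod m) * y)) →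
      ((Fr 11 U).map D.f).sum ∈ D.lev (OKr 11) ∧
      (((Fr 11 U).map D.f).sum = 0 ∨ 3 ≤ (Fr 11 U).card) := by
    intro y hy0 hy12 hy
    obtain ⟨V, hV, hKV, hGV⟩ := exists_V12 hr hr5 h11 y hy0 hy12
    refine ⟨?_, Or.inr (by omega)⟩
    refine val_mem D hr hr3 h11 hT hK (OKr 11) (fun x hx => ?_) OKr_dvd hKV fun t => ?_
    · rcases hV x hx with h | h | h
      · exact Or.inl h
      · exact Or.inr (Or.inl ⟨by norm_num, h⟩)
      · exact Or.inr (Or.inr ⟨by norm_num, h⟩)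
    · rw [hy, hGV]
  by_cases h7m : 7 ∣ m
  swap
  · refine Or.inr ⟨hb', fun x _ h => h7m (h.trans ?_)⟩
    exact RUp_order_dvd x
  -- the rest
  have hrest : ∃ z : ZMod m, (∀ x ∈ U.filter fun x => ¬ 11 ∣ addOrderOf x, x = z) ∧
      ∀ t : (ZMod m)ˣ,
      ((U.filter fun x => ¬ 11 ∣ addOrderOf x).map fun x => sw ((t : ZMod m) * x)).sum =
        sw ((t : ZMod m) * z) := by
    have h1 : (Fr 11 U).card + (U.filter fun x => ¬ 11 ∣ addOrderOf x).card = U.card := by
      rw [← Multiset.card_add, Fr, Multiset.filter_add_not]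
    have h2 : (U.filter fun x => ¬ 11 ∣ addOrderOf x).card = 0 ∨
        (U.filter fun x => ¬ 11 ∣ addOrderOf x).card = 1 := by omega
    rcases h2 with h2 | h2
    · rw [Multiset.card_eq_zero] at h2
      refine ⟨0, fun x hx => ?_, fun t => ?_⟩
      · rw [h2] at hx
        exact absurd hx (Multiset.notMem_zero x)
      · rw [h2, mul_zero]
        simp [sw]
    · rw [Multiset.card_eq_one] at h2
      obtain ⟨z, hz⟩ := h2
      refine ⟨z, fun x hx => ?_, fun t => ?_⟩
      · rw [hz] at hx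
        exact Multiset.mem_singleton.1 hx
      · rw [hz]
        simp
  obtain ⟨z, hzx, hz⟩ := hrest
  have hWT : ∀ t : (ZMod m)ˣ, ((Fr 11 U).map fun x => sw ((t : ZMod m) * x)).sum +
      sw ((t : ZMod m) * z) = 0 := by
    intro t
    have h1 := hU t
    rw [← Multiset.filter_add_not (fun x => 11 ∣ addOrderOf x) U, Multiset.map_add,
      Multiset.sum_add, hz] at h1
    exact h1
  -- the conclusion
  have hend : ∀ y : ZMod m, 12 * y ≠ 0 → ¬ 7 ∣ addOrderOf y → ¬ 7 ∣ addOrderOf z →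
      (∀ t : (ZMod m)ˣ, Gr 11 (Fr 11 U) t = ((Qr m 11 * Dr 11 : ℕ) : ℤ) * sw ((t : ZMod m) * y)) →
      (b = 0 ∧ ∀ x ∈ U, ¬ 7 ∣ addOrderOf x) := by
    intro y hy12 hy7 hz7 hy
    refine ⟨hb', fun x hx => ?_⟩
    by_cases hx11 : 11 ∣ addOrderOf x
    · refine no7 hm h7m hr h11 (by norm_num) hT (by omega) y ?_ hy hy7 z hz7 hWT x
        (Multiset.mem_filter.2 ⟨hx, hx11⟩)
      intro h6
      apply hy12
      linear_combination 2 * h6
    · rw [hzx x (Multiset.mem_filter.2 ⟨hx, hx11⟩)]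
      exact hz7
  by_cases hk5 : (Fr 11 U).card = 5
  · obtain ⟨y, hy0, hyi, hy⟩ := exists_y D hm hr hr3 h11 hT hK (by omega)
    by_cases hy12 : 12 * y = 0
    · exact Or.inl (h12 y hy0 hy12 hy)
    · right
      have hWf := W_form hr hr3 h11 hT hK y hyi hy
      have hQy0 : ((Qr m 11 : ℕ) : ZMod m) * y ≠ 0 := by
        intro h
        apply hy0
        have h1 := ide_cancel hr h11 y hyi 1 (by rw [one_mul]; exact h)
        rwa [one_mul] at h1
      have hord11 : ¬ 11 ∣ addOrderOf y := by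
        have e7 := addOrderOf_ide_mul (m := m) 11 hr y
        rw [hyi] at e7
        have e8 := Nat.not_dvd_ordCompl hr (addOrderOf_pos y).ne'
        rwa [← e7] at e8
      have h11y : 11 * (((Qr m 11 : ℕ) : ZMod m) * y) ≠ 0 := by
        intro h
        have h1 := ide_cancel hr h11 y hyi 11 h
        have h2 : addOrderOf y ∣ 11 := by
          rw [addOrderOf_dvd_iff_nsmul_eq_zero, nsmul_eq_mul]
          exact_mod_cast h1
        rcases (Nat.dvd_prime hr).1 h2 with h3 | h3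
        · exact hy0 (AddMonoid.addOrderOf_eq_one_iff.1 h3)
        · exact hord11 (dvd_of_eq h3.symm)
      obtain ⟨h7y, h7z⟩ := eleven7 hm (((Qr m 11 : ℕ) : ZMod m) * y) z hQy0 h11y (by
        intro t
        have h1 := hWT t
        have h2 := hWf t
        have e1 : ((11 : ℕ) : ZMod m) = 11 := by norm_num
        rw [e1] at h2
        linarith)
      refine hend y hy12 (fun h => h7y (h.trans ?_)) h7z hy
      rw [addOrderOf_dvd_iff_nsmul_eq_zero, nsmul_eq_mul]
      refine ide_cancel hr h11 y hyi _ ?_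
      rw [← nsmul_eq_mul]
      exact addOrderOf_nsmul_eq_zero _
  · have hk6 : (Fr 11 U).card = 6 := by omega
    have hTU : Fr 11 U = U := Fr_eq (by omega)
    obtain ⟨y, hy0, hy10, hyi, hy⟩ := six_elevenB D hm h11 hT hK (by omega) (by
      rw [hTU]
      exact hU)
    by_cases hy12 : 12 * y = 0
    · exact Or.inl (h12 y hy0 hy12 hy)
    · right
      have h7y : ¬ 7 ∣ addOrderOf y := by
        intro h
        have h2 : addOrderOf y ∣ 10 := by
          rw [addOrderOf_dvd_iff_nsmul_eq_zero, nsmul_eq_mul]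
          exact_mod_cast hy10
        have := Nat.le_of_dvd (by norm_num) (h.trans h2)
        have := h.trans h2
        omega
      refine ⟨hb', fun x hx => ?_⟩
      refine no7 hm h7m hr h11 (by norm_num) hT (by omega) y ?_ hy h7y 0 ?_ ?_ x (by rwa [hTU])
      · intro h6
        apply hy12
        linear_combination 2 * h6
      · rw [addOrderOf_zero]
        norm_num
      · intro t
        rw [hTU, hU t, mul_zero]
        simp [sw]

end

end Pool.Agent.FF
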