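import Pool.Agent.FF.Ind2
import Pool.Agent.FF.Fin
import Pool.Agent.FF.CntB
import Pool.Agent.FF.Step11

/-!
# FF-Fin2 (the main theorem for data, without a condition on the level)
-/

set_option autoImplicit false

namespace Pool.Agent.FF

open Finset Pool.Agent.FS
open Pool.Agent.Helper9.Fermat (fib mem_fib)

/-- The orders which remain, without a condition on the level. -/
def OKo2 (e : ℕ) : Prop :=
  OKo e ∨ ∃ e' : ℕ, (e = e' ∨ e = 2 * e') ∧ e'.primeFactors ⊆ {2, 3, 5, 11} ∧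
    e'.primeFactors.card ≤ 3

/-- the four primes -/
def pq (q : ℕ) : List ℕ := [2, 3, 5, q]

/-- the levels which remain -/
def LL (q : ℕ) : Set ℕ := {n | OKo2 n ∧ ∃ l ∈ pq q, ¬ l ∣ n}

theorem mem_pq {q l : ℕ} : l ∈ pq q ↔ l ∈ ({2, 3, 5, q} : Finset ℕ) := by
  simp [pq]

theorem pq_prime {q : ℕ} (hq : q = 7 ∨ q = 11) {l : ℕ} (h : l ∈ pq q) : l.Prime := by
  simp only [pq, List.mem_cons, List.not_mem_nil, or_false] at h
  rcases h with rfl | rfl | rfl | rfl
  · norm_num
  · norm_num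
  · norm_num
  · rcases hq with rfl | rfl <;> norm_num

theorem LL_of_subset {q : ℕ} (hq : q = 7 ∨ q = 11) {e l : ℕ} (hl : l ∈ pq q) (hle : ¬ l ∣ e)
    (hs : e.primeFactors ⊆ {2, 3, 5, q}) : e ∈ LL q := by
  have h1 : e.primeFactors ⊆ ({2, 3, 5, q} : Finset ℕ).erase l := by
    intro p hp
    refine mem_erase.2 ⟨?_, hs hp⟩
    rintro rfl
    exact hle (Nat.dvd_of_mem_primeFactors hp)
  have h2 := card_le_card h1
  rw [card_erase_of_mem (mem_pq.1 hl)] at h2
  have h3 : ({2, 3, 5, q} : Finset ℕ).card = 4 := by rcases hq with rfl | rfl <;> rfl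
  have h4 : e.primeFactors.card ≤ 3 := by omega
  refine ⟨?_, l, hl, hle⟩
  rcases hq with rfl | rfl
  · exact Or.inl (Or.inl ⟨e, Or.inl rfl, hs, h4⟩)
  · exact Or.inr ⟨e, Or.inl rfl, hs, h4⟩

theorem LL_OKr {q r e : ℕ} (hr : r.Prime) (hr11 : 11 ≤ r) (he : e ∈ OKr r) : e ∈ LL q := by
  refine ⟨Or.inl (Or.inr ⟨r, hr, hr11, he⟩), 5, by simp [pq], ?_⟩
  obtain ⟨_, l, hl, hle⟩ := L4_OKr hr hr11 he
  have p5 : Nat.Prime 5 := by norm_num
  have h1 : ¬ 5 ∣ r := fun h => by
    have := (Nat.prime_dvd_prime_iff_eq p5 hr).1 h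
    omega
  rcases he with rfl | ⟨_, rfl⟩ | ⟨_, rfl⟩
  · exact h1
  · intro h
    rcases p5.dvd_mul.1 h with h | h
    · omega
    · exact h1 h
  · intro h
    rcases p5.dvd_mul.1 h with h | h
    · omega
    · exact h1 h

section

variable {m : ℕ} [NeZero m] {A : Type} [AddCommGroup A] (D : Datum m A)

theorem f_mem_LL {q : ℕ} (hq : q = 7 ∨ q = 11) (hm : 2 ∣ m) (x : ZMod m)
    (hx : (addOrderOf x).primeFactors ⊆ {2, 3, 5, q})
    (h60 : ¬ 60 * q ∣ addOrderOf x) : D.f x ∈ D.lev (LL q) := by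
  by_cases h : ∃ l ∈ pq q, ¬ l ∣ addOrderOf x
  · obtain ⟨l, hl, hlx⟩ := h
    exact f_mem D (LL_of_subset hq hl hlx hx)
  · push Not at h
    have h2 : 2 ∣ addOrderOf x := h 2 (by simp [pq])
    have h3 : 3 ∣ addOrderOf x := h 3 (by simp [pq])
    have h5 : 5 ∣ addOrderOf x := h 5 (by simp [pq])
    have h7 : q ∣ addOrderOf x := h q (by simp [pq])
    obtain ⟨e, he⟩ := h2
    have hodd : ¬ 2 ∣ e := by
      intro h2
      apply h60
      rcases hq with rfl | rfl <;> omega
    have hpos : 0 < addOrderOf x := addOrderOf_pos x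
    set h := ((m / 2 : ℕ) : ZMod m) with hh
    have hh2 : h + h = 0 := by
      have := Pool.Agent.Helper9.Fermat.half_neg (m := m) hm
      rw [neg_eq_iff_add_eq_zero] at this
      exact this
    have h0 := half_shift hm x e he hodd
    have he0 : e ≠ 0 := by rintro rfl; exact hodd (dvd_zero 2)
    have hgood : ∀ y : ZMod m, (e : ZMod m) * y = 0 → D.f y ∈ D.lev (LL q) := by
      intro y hy
      have h1 : addOrderOf y ∣ e := by
        rw [addOrderOf_dvd_iff_nsmul_eq_zero, nsmul_eq_mul]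
        exact hy
      refine f_mem D (LL_of_subset hq (l := 2) (by simp [pq]) (fun h => hodd (h.trans h1)) ?_)
      refine ((Nat.primeFactors_mono h1 he0).trans ?_).trans hx
      exact Nat.primeFactors_mono (he ▸ Dvd.intro_left 2 rfl) hpos.ne'
    have hx' : x = (x + h) + h := by rw [add_assoc, hh2, add_zero]
    rw [hx', f_half D hm (x + h)]
    refine sub_mem (hgood _ ?_) (hgood _ h0)
    linear_combination 2 * h0

theorem fin_gen {q : ℕ} (hq : q = 7 ∨ q = 11) (hm2 : 2 ∣ m) (U : Multiset (ZMod m)) (b : A)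
    (hUpf : ∀ x ∈ U, (addOrderOf x).primeFactors ⊆ {2, 3, 5, q}) (hb' : b ∈ D.lev (LL q))
    (hW : ∀ t, D.W t ((U.map D.f).sum + b) = 0)
    (hpar : ∀ (n : ℕ) [NeZero n], n ∣ m → n.Coprime (m / n) → n.primeFactors = {2, 3, 5, q} →
      60 * q ∣ n → ∀ T : Multiset (ZMod m), T ≤ U →
      (∀ x ∈ T, 60 * q ∣ addOrderOf x ∧ addOrderOf x ∣ n) → ∀ σs : List (ZMod n)ˣ,
      σs.length = 4 → (∀ σ ∈ σs, rr σ ≡ 1 [MOD 5] ∨ rr σ ≡ 4 [MOD 5]) →
      ∃ g, Even (oss σs (NN T n) g)) :
    (U.map D.f).sum + b ∈ D.lev (LL q) := by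
  have hm0 : m ≠ 0 := NeZero.ne m
  have hord : ∀ x : ZMod m, addOrderOf x ∣ m := RUp_order_dvd
  set T := U.filter fun x => 60 * q ∣ addOrderOf x with hT
  set V := U.filter fun x => ¬ 60 * q ∣ addOrderOf x with hV
  have hTV : T + V = U := Multiset.filter_add_not _ _
  have hUsum : (U.map D.f).sum = (T.map D.f).sum + (V.map D.f).sum := by
    rw [← hTV, Multiset.map_add, Multiset.sum_add]
  have hVmem : (V.map D.f).sum ∈ D.lev (LL q) := by
    refine AddSubgroup.multiset_sum_mem _ _ fun a ha => ?_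
    rw [Multiset.mem_map] at ha
    obtain ⟨x, hx, rfl⟩ := ha
    rw [hV, Multiset.mem_filter] at hx
    exact f_mem_LL D hq hm2 x (hUpf x hx.1) hx.2
  rw [hUsum]
  refine add_mem (add_mem ?_ hVmem) hb'
  by_cases hT0 : T = 0
  · rw [hT0, Multiset.map_zero, Multiset.sum_zero]
    exact zero_mem _
  obtain ⟨x0, hx0⟩ := Multiset.exists_mem_of_ne_zero hT0
  have h60m : 60 * q ∣ m := ((Multiset.mem_filter.1 hx0).2).trans (hord x0)
  -- the level
  obtain ⟨n, hn⟩ : ∃ n, n = ∏ l ∈ ({2, 3, 5, q} : Finset ℕ), qq m l := ⟨_, rfl⟩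
  have hpr : ∀ l ∈ ({2, 3, 5, q} : Finset ℕ), l.Prime := fun l hl => pq_prime hq (mem_pq.2 hl)
  have hlm : ∀ l ∈ ({2, 3, 5, q} : Finset ℕ), l ∣ m := by
    intro l hl
    refine dvd_trans ?_ h60m
    simp only [mem_insert, mem_singleton] at hl
    rcases hl with rfl | rfl | rfl | rfl
    · exact Dvd.dvd.mul_right (by norm_num) _
    · exact Dvd.dvd.mul_right (by norm_num) _
    · exact Dvd.dvd.mul_right (by norm_num) _
    · exact Dvd.intro_left _ rfl
  have hnm : n ∣ m := hn ▸ prod_qq_dvd _ hpr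
  have hn0 : n ≠ 0 := fun h => hm0 (Nat.eq_zero_of_zero_dvd (h ▸ hnm))
  have : NeZero n := ⟨hn0⟩
  have hlq : ∀ l ∈ ({2, 3, 5, q} : Finset ℕ), l ∣ qq m l := by
    intro l hl
    have h1 : 1 ≤ m.factorization l := (hpr l hl).factorization_pos_of_dvd hm0 (hlm l hl)
    exact dvd_pow_self l (by omega)
  have hqn : ∀ l ∈ ({2, 3, 5, q} : Finset ℕ), qq m l ∣ n := fun l hl => hn ▸ dvd_prod_of_mem _ hl
  have hpf : n.primeFactors = {2, 3, 5, q} := by
    ext l
    rw [Nat.mem_primeFactors]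
    constructor
    · rintro ⟨hl, hln, _⟩
      rw [hn, Prime.dvd_finsetProd_iff hl.prime] at hln
      obtain ⟨l', hl', h2⟩ := hln
      have h3 : l ∣ l' := hl.dvd_of_dvd_pow h2
      rw [(Nat.prime_dvd_prime_iff_eq hl (hpr l' hl')).1 h3]
      exact hl'
    · intro hl
      exact ⟨hpr l hl, (hlq l hl).trans (hqn l hl), hn0⟩
  have hu : n.Coprime (m / n) := by
    refine unitary hnm fun l hl h => hqn l ?_
    rw [← hpf]
    exact Nat.mem_primeFactors.2 ⟨hl, h, hn0⟩
  have h4n : 4 ∣ n := by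
    refine dvd_trans ?_ (hqn 2 (by simp))
    have h4 : 4 ∣ m := dvd_trans (Dvd.dvd.mul_right (by norm_num) _) h60m
    have h3 : 2 ≤ m.factorization 2 :=
      (Nat.prime_two.pow_dvd_iff_le_factorization hm0).1 (by norm_num; exact h4)
    exact pow_dvd_pow 2 h3
  have hdvn : ∀ l ∈ ({2, 3, 5, q} : Finset ℕ), l ∣ n := fun l hl => (hlq l hl).trans (hqn l hl)
  have h3n := hdvn 3 (by simp)
  have h5n := hdvn 5 (by simp)
  have h7n := hdvn q (by simp)
  have h60 : 60 * q ∣ n := by rcases hq with rfl | rfl <;> omega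
  have hTn : ∀ x ∈ T, 60 * q ∣ addOrderOf x ∧ addOrderOf x ∣ n := by
    intro x hx
    rw [hT, Multiset.mem_filter] at hx
    refine ⟨hx.2, (dvd_prod_qq (hord x)).trans ?_⟩
    rw [hn]
    exact prod_dvd_prod_of_subset _ _ _ (hUpf x hx.1)
  have hTup : ∀ x ∈ T, upl m (addOrderOf x) = n := by
    intro x hx
    refine upl_eq2 hnm hu ?_
    refine Subset.antisymm (hpf ▸ hUpf x (Multiset.mem_of_le (Multiset.filter_le _ _) hx)) ?_
    intro l hl
    rw [hpf] at hl
    have h1 : l ∣ 60 * q := by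
      simp only [mem_insert, mem_singleton] at hl
      rcases hl with rfl | rfl | rfl | rfl
      · exact Dvd.dvd.mul_right (by norm_num) _
      · exact Dvd.dvd.mul_right (by norm_num) _
      · exact Dvd.dvd.mul_right (by norm_num) _
      · exact Dvd.intro_left _ rfl
    exact Nat.mem_primeFactors.2 ⟨hpr l hl, h1.trans (hTn x hx).1, (addOrderOf_pos x).ne'⟩
  -- the projections
  obtain ⟨κ, hκ⟩ := exists_proj n (pq q) fun l hl => pq_prime hq hl
  have hσ : ∀ σ ∈ (pq q).map fun l => κ l (-1), rr σ ≡ 1 [MOD 5] ∨ rr σ ≡ 4 [MOD 5] := by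
    intro σ hσ
    rw [List.mem_map] at hσ
    obtain ⟨l, hl, rfl⟩ := hσ
    obtain ⟨h1, h2⟩ := hκ l hl (-1)
    by_cases hl5 : l = 5
    · right
      subst hl5
      have h3 : 5 ∣ ordProj[5] n := by
        have h4 : 1 ≤ n.factorization 5 :=
          (pq_prime hq hl).factorization_pos_of_dvd hn0 h5n
        exact dvd_pow_self 5 (by omega)
      refine (h2.of_dvd h3).trans ?_
      have h4 : rr (-1 : (ZMod n)ˣ) + 1 ≡ 4 + 1 [MOD 5] := (neg_one_val.of_dvd h5n).trans rfl
      exact Nat.ModEq.add_right_cancel' 1 h4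
    · left
      refine (mem_Kl.1 h1).of_dvd ?_
      have p5 : Nat.Prime 5 := by norm_num
      refine (Nat.Coprime.dvd_of_dvd_mul_left
        (((Nat.coprime_primes p5 (pq_prime hq hl)).2 (Ne.symm hl5)).pow_right _)
        (by rw [Nat.ordProj_mul_ordCompl_eq_self]; exact h5n))
  obtain ⟨g, hg⟩ := hpar n hnm hu hpf h60 T (Multiset.filter_le _ _) hTn
    ((pq q).map fun l => κ l (-1)) (by simp [pq]) hσ
  rw [← sum_NN2 D hnm T hTup]
  refine T4 D hnm hu (pq q) ?_ ⟨2, rfl⟩ (by simp [pq]) ?_ ?_ (LL q)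
    (fun n' hn' => hn'.2) ?_ κ hκ (NN T n) ((V.map D.f).sum + b) (add_mem hVmem hb') ?_ ⟨g, hg⟩
  · rcases hq with rfl | rfl <;> decide
  · intro l hl
    refine ⟨pq_prime hq hl, ?_⟩
    unfold Pool.Agent.FS.hb
    split_ifs with h
    · exact h4n
    · exact hdvn l (mem_pq.1 hl)
  · intro l hl hln
    rw [mem_pq, ← hpf]
    exact Nat.mem_primeFactors.2 ⟨hl, hln, hn0⟩
  · intro l hl
    refine LL_of_subset hq hl (Nat.not_dvd_ordCompl (pq_prime hq hl) hn0) ?_
    rw [← hpf]
    exact Nat.primeFactors_mono (Nat.ordCompl_dvd n l) hn0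
  · intro t
    rw [sum_NN2 D hnm T hTup, ← add_assoc, ← hUsum]
    exact hW t

/-- the classification of the multisets with at most six elements and zero weights, without a
condition on the level -/
theorem six_lev2 (hm : Even m) (S : Multiset (ZMod m)) (hc : S.card ≤ 6)
    (hW : ∀ t, D.W t (S.map D.f).sum = 0) :
    (S.map D.f).sum ∈ AddSubgroup.closure {a | ∃ x : ZMod m, OKo2 (addOrderOf x) ∧ a = D.f x} := by
  have hm0 : m ≠ 0 := NeZero.ne m
  have hm2 : 2 ∣ m := hm.two_dvd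
  have hL : ∀ q, (S.map D.f).sum ∈ D.lev (LL q) →
      (S.map D.f).sum ∈
        AddSubgroup.closure {a | ∃ x : ZMod m, OKo2 (addOrderOf x) ∧ a = D.f x} := by
    intro q h
    refine (AddSubgroup.closure_le _).2 ?_ h
    rintro a ⟨x, hx, rfl⟩
    exact AddSubgroup.subset_closure ⟨x, hx.1, rfl⟩
  obtain ⟨s, hs⟩ : ∃ s : Finset ℕ, s = m.primeFactors.filter fun r => 13 ≤ r := ⟨_, rfl⟩
  obtain ⟨b, hb, hSb, hb0⟩ := ind_primes2 D hm S hc hW s
    (by
      intro r hr
      rw [hs, mem_filter, Nat.mem_primeFactors] at hr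
      exact ⟨hr.1.1, hr.1.2.1, hr.2⟩)
  set U := S.filter fun x => ∀ r ∈ s, ¬ r ∣ addOrderOf x with hU
  have hUS : U ≤ S := Multiset.filter_le _ _
  have hUc : U.card ≤ 6 := (Multiset.card_le_card hUS).trans hc
  have hord : ∀ x : ZMod m, addOrderOf x ∣ m := RUp_order_dvd
  have hUpf : ∀ x ∈ U, (addOrderOf x).primeFactors ⊆ {2, 3, 5, 7, 11} := by
    intro x hx p hp
    have h1 := (Multiset.mem_filter.1 hx).2 p
    have hpp := Nat.prime_of_mem_primeFactors hp
    have hpd := Nat.dvd_of_mem_primeFactors hp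
    have h2 : p < 13 := by
      by_contra h
      rw [hs] at h1
      refine h1 (mem_filter.2 ⟨Nat.mem_primeFactors.2 ⟨hpp, hpd.trans (hord x), hm0⟩, by omega⟩) hpd
    interval_cases p <;> first | (simp; done) | (exfalso; revert hpp; norm_num)
  have hbL : ∀ q, b ∈ D.lev (LL q) := by
    intro q
    refine lev_mono D ?_ hb
    rintro n ⟨r, hr, hn⟩
    rw [hs, mem_filter, Nat.mem_primeFactors] at hr
    exact LL_OKr hr.1.1 (by omega) hn
  have hWU : ∀ t, D.W t ((U.map D.f).sum + b) = 0 := fun t => by rw [← hSb]; exact hW t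
  -- the level with the primes `2, 3, 5, 7`
  have h7 : ∀ (U' : Multiset (ZMod m)) (b' : A), U' ≤ U → (∀ x ∈ U', ¬ 11 ∣ addOrderOf x) →
      b' ∈ D.lev (LL 7) → (U'.card = 6 → b' = 0) → (∀ t, D.W t ((U'.map D.f).sum + b') = 0) →
      (U'.map D.f).sum + b' ∈ D.lev (LL 7) := by
    intro U' b' hU' h11 hb' hb6 hW'
    refine fin_gen D (Or.inl rfl) hm2 U' b' ?_ hb' hW' ?_
    · intro x hx p hp
      have h1 := hUpf x (Multiset.mem_of_le hU' hx) hp
      simp only [mem_insert, mem_singleton] at h1 ⊢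
      rcases h1 with h | h | h | h | h
      · exact Or.inl h
      · exact Or.inr (Or.inl h)
      · exact Or.inr (Or.inr (Or.inl h))
      · exact Or.inr (Or.inr (Or.inr h))
      · rw [h] at hp
        exact absurd (Nat.dvd_of_mem_primeFactors hp) (h11 x hx)
    · intro n _ hnm hu hpf h420 T hTU hTn σs hlen hσ
      have h1 : T.card ≤ U'.card := Multiset.card_le_card hTU
      have h2 : U'.card ≤ U.card := Multiset.card_le_card hU'
      refine par hnm hu hpf h420 T hTn (by omega) (fun h6 t => ?_) σs hlen hσ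
      have e1 : T = U' := Multiset.eq_of_le_of_card_le hTU (by omega)
      have h3 := hW' t
      rw [hb6 (by omega), add_zero, W_sum] at h3
      rw [e1]
      exact h3
  by_cases h11 : 11 ∣ m
  swap
  · refine hL 7 ?_
    rw [hSb]
    refine h7 U b le_rfl (fun x _ h => h11 (h.trans (hord x))) (hbL 7) (fun h => ?_) hWU
    rcases hb0 with h' | h'
    · exact h'
    · omega
  have hb11 : b ∈ D.lev {n | ¬ 11 ∣ n} := by
    refine lev_mono D ?_ hb
    rintro n ⟨r, hr, hn⟩
    rw [hs, mem_filter, Nat.mem_primeFactors] at hr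
    exact OKr_not_dvd (by norm_num) le_rfl hr.1.1 (by omega) hn
  rcases step11 D hm h11 U b hUc hb11 hb0 hWU with ⟨h1, h2⟩ | ⟨h1, h2⟩
  · refine hL 7 ?_
    have hsum : (U.map D.f).sum = ((Fr 11 U).map D.f).sum +
        ((U.filter fun x => ¬ 11 ∣ addOrderOf x).map D.f).sum := by
      rw [← Multiset.sum_add, ← Multiset.map_add, Fr, Multiset.filter_add_not]
    have hcard : (Fr 11 U).card + (U.filter fun x => ¬ 11 ∣ addOrderOf x).card = U.card := by
      rw [← Multiset.card_add, Fr, Multiset.filter_add_not]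
    have hS' : (S.map D.f).sum = ((U.filter fun x => ¬ 11 ∣ addOrderOf x).map D.f).sum +
        (((Fr 11 U).map D.f).sum + b) := by
      rw [hSb, hsum]
      abel
    rw [hS']
    refine h7 _ _ (Multiset.filter_le _ _) (fun x hx => (Multiset.mem_filter.1 hx).2)
      (add_mem (lev_mono D ?_ h1) (hbL 7)) ?_ ?_
    · intro n hn
      exact LL_OKr (by norm_num) le_rfl hn
    · intro h6
      have e1 : ((Fr 11 U).map D.f).sum = 0 := by
        rcases h2 with h | h
        · exact h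
        · omega
      have e2 : b = 0 := by
        rcases hb0 with h | h
        · exact h
        · omega
      rw [e1, e2, add_zero]
    · intro t
      rw [← hS']
      exact hW t
  · refine hL 11 ?_
    rw [hSb]
    refine fin_gen D (Or.inr rfl) hm2 U b ?_ (hbL 11) hWU ?_
    · intro x hx p hp
      have h1 := hUpf x hx hp
      simp only [mem_insert, mem_singleton] at h1 ⊢
      rcases h1 with h | h | h | h | h
      · exact Or.inl h
      · exact Or.inr (Or.inl h)
      · exact Or.inr (Or.inr (Or.inl h))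
      · rw [h] at hp
        exact absurd (Nat.dvd_of_mem_primeFactors hp) (h2 x hx)
      · exact Or.inr (Or.inr (Or.inr h))
    · intro n _ hnm hu hpf h660 T hTU hTn σs hlen _
      have h3 : T.card ≤ U.card := Multiset.card_le_card hTU
      exact par11 hnm hu hpf T hTn (by omega) σs hlen

end

end Pool.Agent.FF
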