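import Mathlib

/-!
# FF-HalfSum

`H = {β : 2 val β < r}` (nonzero) is a half system of `ZMod r`: `-β ∈ H ↔ β ∉ H` for `β ≠ 0`.

Proof plan. Write `S f = ∑ β ∈ H, f β`. For every function `f`,
`S f + S (f ∘ neg) = ∑ β ≠ 0, f β`.
* `2 S (s1 (h ·)) = S (s1 (h ·) + s1 (-h ·)) + S (s1 (h ·) - s1 (-h ·))`. The first term is
  `∑ β ≠ 0, s1 (h β) = ∑ β ≠ 0, s1 β`, the second is `S (s0 (u h ·)) - S (s0 (h ·))` by `h1`.
* For the odd function `f = s0 (h ·)`: `S (f (u ·)) = ∑ γ ∈ u H, f γ`,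
  `S f - S (f (u ·)) = ∑ (H \ u H), f - ∑ (u H \ H), f`, and `u H \ H = -(H \ u H)`
  (`γ ≠ 0`: `γ ∈ u H ↔ u⁻¹ γ ∈ H`), so it is `2 ∑ (H \ u H), f`.
* The sum of the two is `∑ β ≠ 0, s1 β`.
-/

set_option autoImplicit false

namespace Pool.Agent.FF

open Finset

/-- a half system -/
def HS (r : ℕ) [NeZero r] : Finset (ZMod r) := univ.filter fun β : ZMod r => β ≠ 0 ∧ 2 * β.val < r

theorem HalfSum_odd (r : ℕ) [Fact r.Prime] (hr3 : 3 ≤ r) : r % 2 = 1 := by
  have hp : r.Prime := Fact.out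
  rcases hp.eq_two_or_odd with h | h
  · omega
  · exact h

theorem HalfSum_neg_mem (r : ℕ) [Fact r.Prime] (hr3 : 3 ≤ r) (β : ZMod r) (hβ : β ≠ 0) :
    -β ∈ HS r ↔ β ∉ HS r := by
  have hodd := HalfSum_odd r hr3
  have hv : (-β).val = r - β.val := by
    rw [ZMod.neg_val]
    simp [hβ]
  have hlt : β.val < r := ZMod.val_lt β
  have hne : -β ≠ 0 := neg_ne_zero.mpr hβ
  simp only [HS, mem_filter, mem_univ, true_and, hv, hne, hβ, ne_eq, not_false_eq_true]
  omega

theorem HalfSum_split (r : ℕ) [Fact r.Prime] (hr3 : 3 ≤ r) (f : ZMod r → ℤ) :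
    ∑ β ∈ univ.filter (fun β : ZMod r => β ≠ 0), f β
      = ∑ β ∈ HS r, f β + ∑ β ∈ HS r, f (-β) := by
  rw [← Finset.sum_filter_add_sum_filter_not (univ.filter (fun β : ZMod r => β ≠ 0))
    (fun β => β ∈ HS r)]
  have e1 : (univ.filter (fun β : ZMod r => β ≠ 0)).filter (fun β => β ∈ HS r) = HS r := by
    ext β
    simp only [mem_filter, mem_univ, true_and, HS, ne_eq]
    tauto
  rw [e1]
  have e2 : ∑ β ∈ (univ.filter (fun β : ZMod r => β ≠ 0)).filter (fun β => β ∉ HS r), f β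
      = ∑ β ∈ HS r, f (-β) := by
    refine Finset.sum_bij' (fun β _ => -β) (fun β _ => -β) ?_ ?_ ?_ ?_ ?_
    · intro β hβ
      simp only [mem_filter, mem_univ, true_and] at hβ
      exact (HalfSum_neg_mem r hr3 β hβ.1).mpr hβ.2
    · intro β hβ
      have hβ0 : β ≠ 0 := by
        simp only [HS, mem_filter, mem_univ, true_and] at hβ
        exact hβ.1
      simp only [mem_filter, mem_univ, true_and]
      refine ⟨neg_ne_zero.mpr hβ0, ?_⟩
      intro h
      exact ((HalfSum_neg_mem r hr3 β hβ0).mp h) hβ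
    · intro β _
      exact neg_neg β
    · intro β _
      exact neg_neg β
    · intro β _
      simp only [neg_neg]
  rw [e2]

theorem HalfSum_mul (r : ℕ) [Fact r.Prime] (c : ZMod r) (hc : c ≠ 0) (f : ZMod r → ℤ) :
    ∑ β ∈ univ.filter (fun β : ZMod r => β ≠ 0), f (c * β)
      = ∑ β ∈ univ.filter (fun β : ZMod r => β ≠ 0), f β := by
  refine Finset.sum_bij' (fun β _ => c * β) (fun β _ => c⁻¹ * β) ?_ ?_ ?_ ?_ ?_
  · intro β hβ
    simp only [mem_filter, mem_univ, true_and] at hβ ⊢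
    exact mul_ne_zero hc hβ
  · intro β hβ
    simp only [mem_filter, mem_univ, true_and] at hβ ⊢
    exact mul_ne_zero (inv_ne_zero hc) hβ
  · intro β _
    rw [← mul_assoc, inv_mul_cancel₀ hc, one_mul]
  · intro β _
    rw [← mul_assoc, mul_inv_cancel₀ hc, one_mul]
  · intro β _
    rfl

theorem card_HS (r : ℕ) [Fact r.Prime] (hr3 : 3 ≤ r) : (HS r).card = (r - 1) / 2 := by
  have h := HalfSum_split r hr3 (fun _ => 1)
  simp only [sum_const, nsmul_eq_mul, mul_one] at h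
  have hc : (univ.filter (fun β : ZMod r => β ≠ 0)).card = r - 1 := by
    rw [Finset.filter_ne' univ (0 : ZMod r), Finset.card_erase_of_mem (mem_univ _), Finset.card_univ,
      ZMod.card]
  rw [hc] at h
  have h' : r - 1 = (HS r).card + (HS r).card := by exact_mod_cast h
  omega

theorem half_sum (r : ℕ) [Fact r.Prime] (hr3 : 3 ≤ r) (u : ZMod r) (hu : u ≠ 0)
    (s0 s1 : ZMod r → ℤ) (h0 : ∀ β, s0 (-β) = - s0 β)
    (h1 : ∀ β, β ≠ 0 → s1 β - s1 (-β) = s0 (u * β) - s0 β) (h : ZMod r) (hh : h ≠ 0) :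
    2 * (∑ β ∈ HS r, s1 (h * β) + ∑ β ∈ (HS r).filter (fun β => u⁻¹ * β ∉ HS r), s0 (h * β)) =
      ∑ β ∈ univ.filter (fun β : ZMod r => β ≠ 0), s1 β := by
  have hne : ∀ β ∈ HS r, β ≠ 0 := by
    intro β hβ
    simp only [HS, mem_filter, mem_univ, true_and] at hβ
    exact hβ.1
  -- the even part
  have E1 : ∑ β ∈ HS r, s1 (h * β) + ∑ β ∈ HS r, s1 (h * -β)
      = ∑ β ∈ univ.filter (fun β : ZMod r => β ≠ 0), s1 β := by
    rw [← HalfSum_mul r h hh s1, HalfSum_split r hr3 (fun β => s1 (h * β))]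
  -- the odd part
  have E2 : ∑ β ∈ HS r, s1 (h * β) - ∑ β ∈ HS r, s1 (h * -β)
      = ∑ β ∈ HS r, s0 (h * (u * β)) - ∑ β ∈ HS r, s0 (h * β) := by
    rw [← Finset.sum_sub_distrib, ← Finset.sum_sub_distrib]
    refine Finset.sum_congr rfl ?_
    intro β hβ
    have := h1 (h * β) (mul_ne_zero hh (hne β hβ))
    rw [show h * -β = -(h * β) by ring, show h * (u * β) = u * (h * β) by ring]
    exact this
  -- the sum over `u H`
  have E3 : ∑ β ∈ HS r, s0 (h * (u * β))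
      = ∑ β ∈ HS r, s0 (h * β) - 2 * ∑ β ∈ (HS r).filter (fun β => u⁻¹ * β ∉ HS r), s0 (h * β) := by
    have a1 : ∑ β ∈ HS r, s0 (h * (u * β))
        = ∑ γ ∈ univ.filter (fun β : ZMod r => β ≠ 0),
            (if u⁻¹ * γ ∈ HS r then s0 (h * γ) else 0) := by
      rw [← HalfSum_mul r u hu (fun γ => if u⁻¹ * γ ∈ HS r then s0 (h * γ) else 0)]
      have a2 : ∀ β : ZMod r, u⁻¹ * (u * β) = β := by
        intro β
        rw [← mul_assoc, inv_mul_cancel₀ hu, one_mul]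
      simp only [a2]
      rw [← Finset.sum_filter]
      refine Finset.sum_congr ?_ (fun _ _ => rfl)
      ext β
      simp only [mem_filter, mem_univ, true_and]
      constructor
      · intro hβ
        exact ⟨hne β hβ, hβ⟩
      · intro hβ
        exact hβ.2
    rw [a1, HalfSum_split r hr3]
    have a3 : ∀ β ∈ HS r, (if u⁻¹ * -β ∈ HS r then s0 (h * -β) else 0)
        = - (if u⁻¹ * β ∉ HS r then s0 (h * β) else 0) := by
      intro β hβ
      have hβ0 := hne β hβ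
      have h3 : u⁻¹ * -β = -(u⁻¹ * β) := by ring
      have h4 := HalfSum_neg_mem r hr3 (u⁻¹ * β) (mul_ne_zero (inv_ne_zero hu) hβ0)
      rw [h3, show h * -β = -(h * β) by ring, h0]
      by_cases hc : u⁻¹ * β ∈ HS r
      · simp [h4, hc]
      · simp [h4, hc]
    rw [Finset.sum_congr rfl a3, Finset.sum_neg_distrib, ← Finset.sum_filter, ← Finset.sum_filter]
    rw [← Finset.sum_filter_add_sum_filter_not (HS r) (fun β => u⁻¹ * β ∈ HS r)
      (fun β => s0 (h * β))]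
    ring
  linarith

end Pool.Agent.FF
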