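import Pool.Agent.FF.Step

/-!
# FF-Ind (removal of all primes `≥ 11`)
-/

set_option autoImplicit false

namespace Pool.Agent.FF

open Finset Pool.Agent.FS

section

variable {m : ℕ} [NeZero m] {A : Type} [AddCommGroup A] (D : Datum m A)

theorem OKr_not_dvd {r r' n : ℕ} (hr : r.Prime) (hr11 : 11 ≤ r) (hr' : r'.Prime) (hne : r ≠ r')
    (hn : n ∈ OKr r') : ¬ r ∣ n := by
  have h1 : ¬ r ∣ r' := fun h => hne ((Nat.prime_dvd_prime_iff_eq hr hr').1 h)
  rcases hn with rfl | ⟨_, rfl⟩ | ⟨_, rfl⟩
  · exact h1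
  · intro h
    rcases hr.dvd_mul.1 h with h | h
    · have := Nat.le_of_dvd (by norm_num) h
      omega
    · exact h1 h
  · intro h
    rcases hr.dvd_mul.1 h with h | h
    · have := Nat.le_of_dvd (by norm_num) h
      omega
    · exact h1 h

theorem ind_primes (hm : Even m) (S : Multiset (ZMod m)) (hc : S.card ≤ 6)
    (h5 : ¬ 5 ∣ m ∨ cntp S 11 ≤ 4) (hW : ∀ t, D.W t (S.map D.f).sum = 0) (s : Finset ℕ)
    (hs : ∀ r ∈ s, r.Prime ∧ r ∣ m ∧ 11 ≤ r) :
    ∃ b ∈ D.lev {n | ∃ r ∈ s, n ∈ OKr r},
      (S.map D.f).sum = ((S.filter fun x => ∀ r ∈ s, ¬ r ∣ addOrderOf x).map D.f).sum + b ∧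
      (b = 0 ∨ (S.filter fun x => ∀ r ∈ s, ¬ r ∣ addOrderOf x).card ≤ 3) := by
  induction s using Finset.induction_on with
  | empty =>
    refine ⟨0, zero_mem _, ?_, Or.inl rfl⟩
    rw [add_zero, Multiset.filter_eq_self.2]
    intro x _ r hr
    exact absurd hr (notMem_empty r)
  | insert r s hrs ih =>
    obtain ⟨b, hb, hSb, hb0⟩ := ih fun r' hr' => hs r' (mem_insert_of_mem hr')
    obtain ⟨hr, hrm, hr11⟩ := hs r (mem_insert_self _ _)
    set U := S.filter fun x => ∀ r ∈ s, ¬ r ∣ addOrderOf x with hU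
    have hUS : U ≤ S := Multiset.filter_le _ _
    have hb' : b ∈ D.lev {n | ¬ r ∣ n} := by
      refine lev_mono D ?_ hb
      rintro n ⟨r', hr', hn⟩
      exact OKr_not_dvd hr hr11 (hs r' (mem_insert_of_mem hr')).1
        (by rintro rfl; exact hrs hr') hn
    obtain ⟨h1, h2⟩ := step D hm hr hr11 hrm U b ((Multiset.card_le_card hUS).trans hc) hb' hb0
      (by
        rintro rfl
        rcases h5 with h | h
        · exact Or.inl h
        · exact Or.inr ((Multiset.card_le_card (Multiset.filter_le_filter _ hUS)).trans h))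
      (fun t => by rw [← hSb]; exact hW t)
    have hU' : (S.filter fun x => ∀ r' ∈ insert r s, ¬ r' ∣ addOrderOf x) =
        U.filter fun x => ¬ r ∣ addOrderOf x := by
      rw [hU, Multiset.filter_filter]
      refine Multiset.filter_congr fun x _ => ?_
      constructor
      · intro h2
        exact ⟨h2 r (mem_insert_self _ _), fun r' hr' => h2 r' (mem_insert_of_mem hr')⟩
      · rintro ⟨h2, h3⟩ r' hr'
        rcases mem_insert.1 hr' with rfl | h
        · exact h2
        · exact h3 r' h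
    have hcard : (Fr r U).card + (U.filter fun x => ¬ r ∣ addOrderOf x).card = U.card := by
      rw [← Multiset.card_add, Fr, Multiset.filter_add_not]
    have hsum : (U.map D.f).sum = ((Fr r U).map D.f).sum +
        ((U.filter fun x => ¬ r ∣ addOrderOf x).map D.f).sum := by
      rw [← Multiset.sum_add, ← Multiset.map_add, Fr, Multiset.filter_add_not]
    have hUc : U.card ≤ 6 := (Multiset.card_le_card hUS).trans hc
    rw [hU']
    refine ⟨((Fr r U).map D.f).sum + b, add_mem (lev_mono D ?_ h1) (lev_mono D ?_ hb), ?_, ?_⟩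
    · intro n hn
      exact ⟨r, mem_insert_self _ _, hn⟩
    · rintro n ⟨r', hr', hn⟩
      exact ⟨r', mem_insert_of_mem hr', hn⟩
    · rw [hSb, hsum]
      abel
    · rcases h2 with h2 | h2
      · rcases hb0 with h3 | h3
        · exact Or.inl (by rw [h2, h3, add_zero])
        · exact Or.inr (by omega)
      · exact Or.inr (by omega)

end

end Pool.Agent.FF
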