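import Pool.Agent.FF.UpForm

/-!
# FF-KSum

Proof plan. `Kl_sum` (in `Pool/Agent/FF/Inv.lean`) for the multiset `{x}`, `g = φ`,
`g' w = φ (al m p * w) - φ (be m p * w)` with `rel_of_dist` (as in `weight_formula`):
`∑ h, GG {x} (φ (h * ·)) = GG {x} g'`, and `GG {x} (φ (h * ·)) = φ (h * x)` by `GG_dist` and
`isDist_unit`. With `exists_unit_al`, `exists_unit_be`: `al m p * w = ua * (ide m p * w)`,
`be m p * w = ub * (ide m p * w)`, and `Up_form` for `x` and the distributions `φ (ua * ·)`,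
`φ (ub * ·)` gives `GG {x} g' = c * φ (ua * y) - c * φ (ub * y)` with `c ≤ Qr m p`.
-/

set_option autoImplicit false

namespace Pool.Agent.FF

open Finset Pool.Agent.FS
open Pool.Agent.Helper9.Fermat (fib mem_fib)

section

variable {m : ℕ} [NeZero m]

theorem Ksum_bound {p : ℕ} (hp : p.Prime) (hpm : p ∣ m) (x : ZMod m) (hx : p ∣ addOrderOf x)
    (φ : ZMod m → ℤ) (hφ : IsDist φ) (C : ℕ) (hC : ∀ x, |φ x| ≤ C) [Fintype (Kl m p)] :
    |∑ h : Kl m p, φ (((h : (ZMod m)ˣ) : ZMod m) * x)| ≤ 2 * (C : ℤ) * (Qr m p : ℤ) := by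
  classical
  have hTr : ∀ y ∈ ({x} : Multiset (ZMod m)), p ∣ addOrderOf y := by
    intro y hy
    rw [Multiset.mem_singleton] at hy
    rw [hy]
    exact hx
  have hs := Kl_sum hp hTr φ (fun w => φ (al m p * w) - φ (be m p * w)) (by
    intro n hn hpn u
    have hn0 : n ≠ 0 := by
      rintro rfl
      exact NeZero.ne m (Nat.eq_zero_of_zero_dvd hn.1)
    have : NeZero n := ⟨hn0⟩
    exact rel_of_dist (g := φ) hn hp hpn (hφ p hp hpm) u)
  have e1 : ∀ h : Kl m p, GG ({x} : Multiset (ZMod m)) (fun w => φ (((h : (ZMod m)ˣ) : ZMod m) * w)) =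
      φ (((h : (ZMod m)ˣ) : ZMod m) * x) := by
    intro h
    rw [GG_dist _ (isDist_unit hφ (h : (ZMod m)ˣ)), Multiset.map_singleton, Multiset.sum_singleton]
  rw [sum_congr rfl fun h _ => e1 h] at hs
  obtain ⟨ua, hua⟩ := exists_unit_al (m := m) p hp
  obtain ⟨ub, hub⟩ := exists_unit_be (m := m) p hp hpm
  obtain ⟨c, y, _, hc2, _, _, _, hcy⟩ := Up_form hp x hx
  have e2 : GG ({x} : Multiset (ZMod m)) (fun w => φ (al m p * w) - φ (be m p * w)) =
      (c : ℤ) * φ ((ua : ZMod m) * y) - (c : ℤ) * φ ((ub : ZMod m) * y) := by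
    unfold GG
    rw [Multiset.map_singleton, Multiset.sum_singleton, sum_sub_distrib]
    simp only [hua, hub]
    rw [hcy _ (isDist_unit hφ ua), hcy _ (isDist_unit hφ ub)]
  rw [hs, e2]
  have h1 := abs_le.1 (hC ((ua : ZMod m) * y))
  have h2 := abs_le.1 (hC ((ub : ZMod m) * y))
  have hc0 : (0 : ℤ) ≤ c := Nat.cast_nonneg c
  have hcQ : (c : ℤ) ≤ (Qr m p : ℤ) := by exact_mod_cast hc2
  have hC0 : (0 : ℤ) ≤ C := Nat.cast_nonneg C
  have h3 : |φ ((ua : ZMod m) * y) - φ ((ub : ZMod m) * y)| ≤ 2 * (C : ℤ) := by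
    rw [abs_le]
    constructor
    · linarith [h1.1, h2.2]
    · linarith [h1.2, h2.1]
  rw [← mul_sub, abs_mul, abs_of_nonneg hc0]
  calc (c : ℤ) * |φ ((ua : ZMod m) * y) - φ ((ub : ZMod m) * y)|
      ≤ (Qr m p : ℤ) * (2 * (C : ℤ)) :=
        mul_le_mul hcQ h3 (abs_nonneg _) (Nat.cast_nonneg _)
    _ = 2 * (C : ℤ) * (Qr m p : ℤ) := by ring

end

end Pool.Agent.FF
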