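import Pool.Agent.FF.Inv

/-!
# FF-NoHalf

Proof plan.
* `no_half`. If all `p.2` are zero the sum is `0`. Otherwise let `p₀ ∈ P` be an element with
  `p₀.2 ≠ 0` and `n = addOrderOf p₀.2 ≥ 2` maximal. Choose a unit `t` with
  `t * p₀.2 = m / n * c` (`exists_emb`, `Mixed_mul_emb`, `ZMod.unitsMap_surjective`) where `c` is
  the unit of `ℤ/n` near `n / 2`: `n = 2`: `c = 1`; `n` odd: `c = (n - 1) / 2`; `4 ∣ n`:
  `c = n / 2 - 1`; `n = 4 j + 2`, `n ≥ 6`: `c = n / 2 - 2`. In all cases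
  `n * |sw (t * p₀.2)| ≤ 4 m`. For the other `p ∈ P`: `|sw (t * p.2)| ≤ m - 2 m / n`, i.e.
  `n * |sw (t * p.2)| ≤ (n - 2) m` (if `p.2 = 0` clear; otherwise the order `n'` of `t * p.2` is
  `≤ n` and its representative is a multiple of `m / n'`, so between `m / n'` and `m - m / n'`).
  Total: `n * |sum| ≤ Q (4 m + 5 (n - 2) m) = Q m (5 n - 6) < 5 n Q m`.
-/

set_option autoImplicit false

namespace Pool.Agent.FF

open Finset Pool.Agent.FS
open Pool.Agent.Helper9.Fermat (fib mem_fib)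

section

variable {m : ℕ} [NeZero m]

omit [NeZero m] in
private theorem NoHalf_c (n : ℕ) (hn : 2 ≤ n) :
    ∃ c : ℕ, c < n ∧ c.Coprime n ∧ |2 * (c : ℤ) - n| ≤ 4 := by
  rcases Nat.even_or_odd n with ⟨j, hj⟩ | ⟨j, hj⟩
  · rcases Nat.even_or_odd j with ⟨i, hi⟩ | ⟨i, hi⟩
    · have hi0 : 1 ≤ i := by omega
      refine ⟨2 * i - 1, by omega, ?_, ?_⟩
      · rw [← Nat.isCoprime_iff_coprime]
        refine ⟨2 * (i : ℤ) - 1, -((i : ℤ) - 1), ?_⟩
        have e1 : ((2 * i - 1 : ℕ) : ℤ) = 2 * i - 1 := by omega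
        have e2 : (n : ℤ) = 4 * i := by omega
        rw [e1, e2]
        ring
      · have e1 : ((2 * i - 1 : ℕ) : ℤ) = 2 * i - 1 := by omega
        have e2 : (n : ℤ) = 4 * i := by omega
        rw [e1, e2, abs_le]
        constructor <;> linarith
    · rcases Nat.eq_zero_or_pos i with h0 | h0
      · refine ⟨1, by omega, by simp, ?_⟩
        have e2 : (n : ℤ) = 2 := by omega
        rw [e2]
        norm_num
      · refine ⟨2 * i - 1, by omega, ?_, ?_⟩
        · rw [← Nat.isCoprime_iff_coprime]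
          refine ⟨(2 * (i : ℤ) - 1) + 2 * ((i : ℤ) ^ 2 - i), -((i : ℤ) ^ 2 - i), ?_⟩
          have e1 : ((2 * i - 1 : ℕ) : ℤ) = 2 * i - 1 := by omega
          have e2 : (n : ℤ) = 4 * i + 2 := by omega
          rw [e1, e2]
          ring
        · have e1 : ((2 * i - 1 : ℕ) : ℤ) = 2 * i - 1 := by omega
          have e2 : (n : ℤ) = 4 * i + 2 := by omega
          rw [e1, e2, abs_le]
          constructor <;> linarith
  · refine ⟨j, by omega, ?_, ?_⟩
    · rw [← Nat.isCoprime_iff_coprime]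
      refine ⟨-2, 1, ?_⟩
      have e2 : (n : ℤ) = 2 * j + 1 := by omega
      rw [e2]
      ring
    · have e2 : (n : ℤ) = 2 * j + 1 := by omega
      rw [e2, abs_le]
      constructor <;> linarith

private theorem NoHalf_key (y : ZMod m) : ∃ k : ℕ, addOrderOf y * y.val = m * k ∧
    k < addOrderOf y ∧ (y ≠ 0 → 0 < k) := by
  have hm : 0 < m := Nat.pos_of_ne_zero (NeZero.ne m)
  have ho : 0 < addOrderOf y := addOrderOf_pos y
  have h1 : m ∣ addOrderOf y * y.val := by
    rw [← ZMod.natCast_eq_zero_iff, Nat.cast_mul, ZMod.natCast_zmod_val, ← nsmul_eq_mul]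
    exact addOrderOf_nsmul_eq_zero y
  obtain ⟨k, hk⟩ := h1
  refine ⟨k, hk, ?_, ?_⟩
  · have h2 : m * k < m * addOrderOf y := by
      rw [← hk, mul_comm m]
      exact Nat.mul_lt_mul_of_pos_left (ZMod.val_lt y) ho
    exact Nat.lt_of_mul_lt_mul_left h2
  · intro hy
    rcases Nat.eq_zero_or_pos k with h0 | h0
    · exfalso
      rw [h0, mul_zero] at hk
      rcases Nat.mul_eq_zero.1 hk with h | h
      · omega
      · exact hy ((ZMod.val_eq_zero y).1 h)
    · exact h0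

private theorem NoHalf_small {n : ℕ} (hn : 2 ≤ n) (y : ZMod m)
    (hy : addOrderOf y ≤ n) : (n : ℤ) * |sw y| ≤ ((n : ℤ) - 2) * m := by
  have hm : (0 : ℤ) ≤ m := by positivity
  have hn2 : (2 : ℤ) ≤ n := by exact_mod_cast hn
  by_cases h0 : y = 0
  · have : sw y = 0 := by rw [h0]; simp [sw]
    rw [this, abs_zero, mul_zero]
    exact mul_nonneg (by linarith) hm
  · obtain ⟨k, hk1, hk2, hk3⟩ := NoHalf_key y
    have hk3 := hk3 h0
    set n' := addOrderOf y with hn'
    have ho : 0 < n' := addOrderOf_pos y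
    have hs : sw y = 2 * (y.val : ℤ) - m := by
      unfold sw
      rw [if_neg h0]
    have e1 : (n' : ℤ) * y.val = m * k := by exact_mod_cast hk1
    have e2 : (n' : ℤ) * sw y = m * (2 * k - n') := by
      rw [hs]
      linear_combination 2 * e1
    have e3 : (n' : ℤ) * |sw y| = m * |2 * (k : ℤ) - n'| := by
      have h1 : |(n' : ℤ) * sw y| = |(m : ℤ) * (2 * k - n')| := by rw [e2]
      rw [abs_mul, abs_mul, abs_of_nonneg (by positivity : (0 : ℤ) ≤ n'), abs_of_nonneg hm] at h1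
      exact h1
    have e4 : |2 * (k : ℤ) - n'| ≤ n' - 2 := by
      rw [abs_le]
      constructor <;> omega
    have e5 : (n' : ℤ) * |sw y| ≤ m * (n' - 2) := by
      rw [e3]
      exact mul_le_mul_of_nonneg_left e4 hm
    have ho' : (0 : ℤ) < n' := by exact_mod_cast ho
    have hle : (n' : ℤ) ≤ n := by exact_mod_cast hy
    refine le_of_mul_le_mul_left ?_ ho'
    calc (n' : ℤ) * (n * |sw y|) = n * (n' * |sw y|) := by ring
      _ ≤ n * (m * (n' - 2)) := mul_le_mul_of_nonneg_left e5 (by positivity)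
      _ ≤ n' * ((n - 2) * m) := by
        have : 0 ≤ ((n : ℤ) - n') * m := mul_nonneg (by linarith) hm
        nlinarith

private theorem NoHalf_t {n : ℕ} (hn : 2 ≤ n) (x : ZMod m) (hx : addOrderOf x = n) :
    ∃ t : (ZMod m)ˣ, (n : ℤ) * |sw ((t : ZMod m) * x)| ≤ 4 * m := by
  have hm0 : 0 < m := Nat.pos_of_ne_zero (NeZero.ne m)
  have hm : (0 : ℤ) ≤ m := by positivity
  have hnm : n ∣ m := by
    have := addOrderOf_dvd_card (x := x)
    rwa [ZMod.card, hx] at this
  have : NeZero n := ⟨by omega⟩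
  obtain ⟨u, hu⟩ := (exists_emb hnm x).1 hx
  obtain ⟨c, hc1, hc2, hc3⟩ := NoHalf_c n hn
  obtain ⟨t, ht⟩ := ZMod.unitsMap_surjective hnm (ZMod.unitOfCoprime c hc2 * u⁻¹)
  refine ⟨t, ?_⟩
  have e1 : (t : ZMod m) * x = ((m / n * c : ℕ) : ZMod m) := by
    rw [hu, Mixed_mul_emb hnm, ht, Units.val_mul, mul_assoc, Units.inv_mul, mul_one]
    unfold emb
    rw [ZMod.coe_unitOfCoprime, ZMod.val_natCast, Nat.mod_eq_of_lt hc1]
  obtain ⟨d, hd⟩ := hnm
  have hd' : m / n = d := by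
    rw [hd]
    exact Nat.mul_div_cancel_left d (by omega)
  rw [hd'] at e1
  have hd0 : 0 < d := by
    rcases Nat.eq_zero_or_pos d with h | h
    · rw [h, mul_zero] at hd; omega
    · exact h
  have e2 : ((t : ZMod m) * x).val = d * c := by
    rw [e1, ZMod.val_natCast]
    apply Nat.mod_eq_of_lt
    rw [hd, mul_comm n d]
    exact Nat.mul_lt_mul_of_pos_left hc1 hd0
  by_cases h0 : (t : ZMod m) * x = 0
  · have : sw ((t : ZMod m) * x) = 0 := by rw [h0]; simp [sw]
    rw [this, abs_zero, mul_zero]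
    linarith
  · have hs : sw ((t : ZMod m) * x) = 2 * ((d * c : ℕ) : ℤ) - m := by
      unfold sw
      rw [if_neg h0, e2]
    have e3 : (n : ℤ) * sw ((t : ZMod m) * x) = m * (2 * c - n) := by
      rw [hs]
      have : (m : ℤ) = n * d := by exact_mod_cast hd
      push_cast
      rw [this]
      ring
    have e4 : (n : ℤ) * |sw ((t : ZMod m) * x)| = m * |2 * (c : ℤ) - n| := by
      have h1 : |(n : ℤ) * sw ((t : ZMod m) * x)| = |(m : ℤ) * (2 * c - n)| := by rw [e3]
      rw [abs_mul, abs_mul, abs_of_nonneg (by positivity : (0 : ℤ) ≤ n), abs_of_nonneg hm] at h1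
      exact h1
    rw [e4]
    calc (m : ℤ) * |2 * (c : ℤ) - n| ≤ m * 4 := mul_le_mul_of_nonneg_left hc3 hm
      _ = 4 * m := by ring

private theorem NoHalf_sum {α : Type*} (P : Multiset α) (f : α → ℤ) (B : ℤ)
    (h : ∀ p ∈ P, |f p| ≤ B) : |(P.map f).sum| ≤ P.card * B := by
  induction P using Multiset.induction_on with
  | empty => simp
  | cons a P ih =>
    rw [Multiset.map_cons, Multiset.sum_cons, Multiset.card_cons]
    have h1 := h a (Multiset.mem_cons_self a P)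
    have h2 := ih fun p hp => h p (Multiset.mem_cons_of_mem hp)
    have h3 := abs_add_le (f a) (P.map f).sum
    push_cast
    linarith

theorem no_half (Q : ℕ) (hQ : 0 < Q) (P : Multiset (ℕ × ZMod m)) (hP : ∀ p ∈ P, p.1 ≤ Q)
    (hc : P.card ≤ 6) :
    ∃ t : (ZMod m)ˣ, |(P.map fun p => (p.1 : ℤ) * sw ((t : ZMod m) * p.2)).sum| <
      5 * (Q : ℤ) * m := by
  classical
  have hm0 : 0 < m := Nat.pos_of_ne_zero (NeZero.ne m)
  have hm : (0 : ℤ) < m := by exact_mod_cast hm0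
  have hQ' : (0 : ℤ) < Q := by exact_mod_cast hQ
  by_cases hall : ∀ p ∈ P, p.2 = 0
  · refine ⟨1, ?_⟩
    have e : (P.map fun p => (p.1 : ℤ) * sw (((1 : (ZMod m)ˣ) : ZMod m) * p.2)).sum = 0 := by
      apply Multiset.sum_eq_zero
      intro x hx
      obtain ⟨p, hp, rfl⟩ := Multiset.mem_map.1 hx
      rw [hall p hp, mul_zero]
      simp [sw]
    rw [e, abs_zero]
    positivity
  · push Not at hall
    obtain ⟨p₁, hp₁, hp₁'⟩ := hall
    have hne : (P.toFinset.filter fun p => p.2 ≠ 0).Nonempty :=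
      ⟨p₁, by rw [mem_filter, Multiset.mem_toFinset]; exact ⟨hp₁, hp₁'⟩⟩
    obtain ⟨p₀, hp₀, hmax⟩ := exists_max_image _ (fun p : ℕ × ZMod m => addOrderOf p.2) hne
    rw [mem_filter, Multiset.mem_toFinset] at hp₀
    set n := addOrderOf p₀.2 with hn
    have hn0 : 0 < n := addOrderOf_pos p₀.2
    have hn1 : n ≠ 1 := by
      intro h
      exact hp₀.2 (AddMonoid.addOrderOf_eq_one_iff.1 h)
    have hn2 : 2 ≤ n := by omega
    have hn2' : (2 : ℤ) ≤ n := by exact_mod_cast hn2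
    obtain ⟨t, ht⟩ := NoHalf_t hn2 p₀.2 rfl
    refine ⟨t, ?_⟩
    obtain ⟨P', hP'⟩ := Multiset.exists_cons_of_mem hp₀.1
    have hc' : P'.card ≤ 5 := by
      rw [hP', Multiset.card_cons] at hc
      omega
    have hb : ∀ p ∈ P', |(n : ℤ) * ((p.1 : ℤ) * sw ((t : ZMod m) * p.2))| ≤
        Q * ((n - 2) * m) := by
      intro p hp
      have hpP : p ∈ P := by
        rw [hP']
        exact Multiset.mem_cons_of_mem hp
      have h1 : (n : ℤ) * |sw ((t : ZMod m) * p.2)| ≤ ((n : ℤ) - 2) * m := by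
        apply NoHalf_small hn2
        rw [RUp_addOrderOf_unit_mul]
        by_cases h0 : p.2 = 0
        · rw [h0, addOrderOf_zero]
          omega
        · exact hmax p (by rw [mem_filter, Multiset.mem_toFinset]; exact ⟨hpP, h0⟩)
      rw [abs_mul, abs_mul, abs_of_nonneg (by positivity : (0 : ℤ) ≤ n),
        abs_of_nonneg (by positivity : (0 : ℤ) ≤ p.1)]
      have h2 : (p.1 : ℤ) ≤ Q := by exact_mod_cast hP p hpP
      calc (n : ℤ) * ((p.1 : ℤ) * |sw ((t : ZMod m) * p.2)|)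
          = p.1 * (n * |sw ((t : ZMod m) * p.2)|) := by ring
        _ ≤ Q * (((n : ℤ) - 2) * m) :=
          mul_le_mul h2 h1 (by positivity) hQ'.le
    have h1 := NoHalf_sum P' _ _ hb
    have hA : (0 : ℤ) ≤ Q * ((n - 2) * m) :=
      mul_nonneg hQ'.le (mul_nonneg (by linarith) hm.le)
    have hc'' : (P'.card : ℤ) ≤ 5 := by exact_mod_cast hc'
    have h2 : |(P'.map fun p => (n : ℤ) * ((p.1 : ℤ) * sw ((t : ZMod m) * p.2))).sum| ≤
        5 * (Q * ((n - 2) * m)) := h1.trans (mul_le_mul_of_nonneg_right hc'' hA)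
    have h3 : |(n : ℤ) * ((p₀.1 : ℤ) * sw ((t : ZMod m) * p₀.2))| ≤ Q * (4 * m) := by
      rw [abs_mul, abs_mul, abs_of_nonneg (by positivity : (0 : ℤ) ≤ n),
        abs_of_nonneg (by positivity : (0 : ℤ) ≤ p₀.1)]
      have h2 : (p₀.1 : ℤ) ≤ Q := by exact_mod_cast hP p₀ hp₀.1
      calc (n : ℤ) * ((p₀.1 : ℤ) * |sw ((t : ZMod m) * p₀.2)|)
          = p₀.1 * (n * |sw ((t : ZMod m) * p₀.2)|) := by ring
        _ ≤ Q * (4 * m) := mul_le_mul h2 ht (by positivity) hQ'.le
    have h4 : (n : ℤ) * |(P.map fun p => (p.1 : ℤ) * sw ((t : ZMod m) * p.2)).sum| ≤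
        Q * (4 * m) + 5 * (Q * ((n - 2) * m)) := by
      have e1 : (n : ℤ) * |(P.map fun p => (p.1 : ℤ) * sw ((t : ZMod m) * p.2)).sum| =
          |(P.map fun p => (n : ℤ) * ((p.1 : ℤ) * sw ((t : ZMod m) * p.2))).sum| := by
        rw [Multiset.sum_map_mul_left, abs_mul, abs_of_nonneg (by positivity : (0 : ℤ) ≤ n)]
      rw [e1, hP', Multiset.map_cons, Multiset.sum_cons]
      exact (abs_add_le _ _).trans (add_le_add h3 h2)
    have hn0' : (0 : ℤ) < n := by exact_mod_cast hn0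
    refine lt_of_mul_lt_mul_left (a := (n : ℤ)) (lt_of_le_of_lt h4 ?_) hn0'.le
    have : (0 : ℤ) < Q * m := mul_pos hQ' hm
    nlinarith

end

end Pool.Agent.FF
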