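import Pool.Agent.FF.Inv

/-!
# FF-YexB

`T` is a multiset of elements of order divisible by the odd prime `r`, with `KInv r T`;
`Q = Qr m r`, `D' = Dr r = (r - 1) / 2`, `G t = Gr r T t`.

Proof plan.
* `exists_g`. Let `φ₀ x = sw x / 2` (`sw x` is even because `m` is even; take `φ₀` with
  `sw x = 2 * φ₀ x`, by `choose`); it is an odd distribution (cancel the factor `2` in
  `RPack.isDist_sw`), so `dvd_GG` gives `Q D' ∣ GG T (φ₀ (ide * ·))`, and `G 1 = 2 * GG T φ₀ =
  2 Q D' g` (`GG_map` for multiplication by 2, or `GG_add`). For a unit `t` let `τ = t.val`; it is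
  odd (`m` is even and `τ` coprime to `m`). `sw (t x) - τ sw x` is divisible by `2 m` for all `x`
  (for `x ≠ 0` it is `2 (val (t x) - τ val x) + (τ - 1) m`; compare `exists_pack3` in
  `Pool/Agent/FS/RPack.lean`); choose `φ` with `sw (t x) - τ sw x = 2 m φ x`: an odd distribution
  (`isDist_sw_unit`). `dvd_GG` gives `Q D' ∣ GG T (φ (ide * ·))` and
  `2 m GG T φ = G t - τ G 1`. So `2 m Q D' ∣ G t - τ 2 Q D' g`.
-/

set_option autoImplicit false

namespace Pool.Agent.FF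

open Finset Pool.Agent.FS
open Pool.Agent.Helper9.Fermat (fib mem_fib)
open Pool.Agent.FS.Quot (sw_zero sw_neg sw_of_ne)

section

variable {m : ℕ} [NeZero m]

omit [NeZero m] in
private theorem YexB_even (hm : Even m) (x : ZMod m) : ∃ k : ℤ, sw x = 2 * k := by
  obtain ⟨c, hc⟩ := hm
  by_cases hx : x = 0
  · exact ⟨0, by rw [hx, sw_zero]; ring⟩
  · refine ⟨x.val - c, ?_⟩
    rw [sw_of_ne hx]
    have : (m : ℤ) = c + c := by exact_mod_cast hc
    rw [this]
    ring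

private theorem YexB_dvd (hm : Even m) (t : (ZMod m)ˣ) (x : ZMod m) :
    ∃ k : ℤ, sw ((t : ZMod m) * x) - ((t : ZMod m).val : ℤ) * sw x = 2 * (m : ℤ) * k := by
  by_cases hx : x = 0
  · exact ⟨0, by rw [hx, mul_zero, sw_zero]; ring⟩
  · have h1 : (t : ZMod m) * x ≠ 0 := fun h => hx ((t.isUnit.mul_right_eq_zero).1 h)
    rw [sw_of_ne hx, sw_of_ne h1]
    have h3 : (m : ℤ) ∣ (((t : ZMod m) * x).val : ℤ) - ((t : ZMod m).val : ℤ) * x.val := by
      rw [← ZMod.intCast_zmod_eq_zero_iff_dvd]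
      push_cast
      rw [ZMod.natCast_zmod_val, ZMod.natCast_zmod_val, ZMod.natCast_zmod_val]
      ring
    obtain ⟨k, hk⟩ := h3
    have h4 : ¬ 2 ∣ (t : ZMod m).val := by
      intro h
      have h5 : (t : ZMod m).val.Coprime m := ZMod.val_coe_unit_coprime t
      have h6 : 2 ∣ Nat.gcd (t : ZMod m).val m := Nat.dvd_gcd h hm.two_dvd
      rw [h5] at h6
      omega
    obtain ⟨j, hj⟩ : ∃ j : ℕ, (t : ZMod m).val = 2 * j + 1 := ⟨(t : ZMod m).val / 2, by omega⟩
    refine ⟨k + j, ?_⟩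
    have h7 : ((t : ZMod m).val : ℤ) = 2 * j + 1 := by exact_mod_cast hj
    have h8 : (((t : ZMod m) * x).val : ℤ) = ((t : ZMod m).val : ℤ) * x.val + m * k := by linarith
    rw [h8, h7]
    ring

variable {A : Type} [AddCommGroup A] (D : Datum m A)

include D in
theorem exists_g (hm : Even m) {r : ℕ} (hr : r.Prime) (hr3 : 3 ≤ r) (hrm : r ∣ m)
    {T : Multiset (ZMod m)} (hTr : ∀ x ∈ T, r ∣ addOrderOf x) (hK : KInv r T) :
    ∃ g : ℤ, ∀ t : (ZMod m)ˣ, ((2 * m * (Qr m r * Dr r) : ℕ) : ℤ) ∣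
      Gr r T t - 2 * ((Qr m r * Dr r : ℕ) : ℤ) * g * ((t : ZMod m).val : ℤ) := by
  classical
  choose φ₀ hφ₀ using YexB_even (m := m) hm
  have hd0 : IsDist φ₀ := by
    intro l hl hlm y
    have h1 := RPack.isDist_sw (m := m) l hl hlm y
    simp only [hφ₀] at h1
    rw [← mul_sum] at h1
    exact mul_left_cancel₀ (two_ne_zero) h1
  have ho0 : ∀ x, φ₀ (-x) = - φ₀ x := by
    intro x
    have h1 := sw_neg x
    rw [hφ₀, hφ₀] at h1
    linarith
  obtain ⟨g, hg⟩ := dvd_GG D hr hr3 hrm hTr hK φ₀ hd0 ho0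
  have hG1 : Gr r T 1 = 2 * GG T (fun w => φ₀ (ide m r * w)) := by
    have h1 := GG_map T (AddMonoidHom.mulLeft (2 : ℤ)) fun w => φ₀ (ide m r * w)
    simp only [AddMonoidHom.coe_mulLeft] at h1
    rw [h1]
    unfold Gr
    simp only [Units.val_one, one_mul, hφ₀]
  refine ⟨g, fun t => ?_⟩
  choose φ hφ using YexB_dvd hm t
  have hm0 : (2 * (m : ℤ)) ≠ 0 := by
    have : (m : ℤ) ≠ 0 := by exact_mod_cast NeZero.ne m
    positivity
  have hd : IsDist φ := by
    intro l hl hlm y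
    have h1 := RPack.isDist_sw (m := m) l hl hlm y
    have h2 := isDist_sw_unit t l hl hlm y
    have h3 : ∑ z ∈ fib m l ((l : ZMod m) * y),
        (sw ((t : ZMod m) * z) - ((t : ZMod m).val : ℤ) * sw z) =
        sw ((t : ZMod m) * ((l : ZMod m) * y)) -
          ((t : ZMod m).val : ℤ) * sw ((l : ZMod m) * y) := by
      rw [sum_sub_distrib, ← mul_sum, h1, h2]
    simp only [hφ] at h3
    rw [← mul_sum] at h3
    exact mul_left_cancel₀ hm0 h3
  have ho : ∀ x, φ (-x) = - φ x := by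
    intro x
    have h1 := hφ (-x)
    rw [mul_neg, sw_neg, sw_neg] at h1
    have h2 := hφ x
    have h3 : 2 * (m : ℤ) * φ (-x) = 2 * (m : ℤ) * (- φ x) := by linarith
    exact mul_left_cancel₀ hm0 h3
  obtain ⟨c, hc⟩ := dvd_GG D hr hr3 hrm hTr hK φ hd ho
  have hGt : Gr r T t - ((t : ZMod m).val : ℤ) * Gr r T 1 =
      2 * (m : ℤ) * GG T (fun w => φ (ide m r * w)) := by
    have h1 := GG_map T (AddMonoidHom.mulLeft (2 * (m : ℤ))) fun w => φ (ide m r * w)
    have h2 := GG_map T (AddMonoidHom.mulLeft ((t : ZMod m).val : ℤ)) fun w =>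
      sw (((1 : (ZMod m)ˣ) : ZMod m) * (ide m r * w))
    simp only [AddMonoidHom.coe_mulLeft] at h1 h2
    rw [h1]
    unfold Gr
    rw [h2, ← GG_sub]
    congr 1
    funext w
    rw [Units.val_one, one_mul, ← hφ]
  refine ⟨c, ?_⟩
  push_cast at hg hc ⊢
  rw [hc] at hGt
  rw [hG1, hg] at hGt
  linear_combination hGt

end

end Pool.Agent.FF
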