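import Pool.Agent.FF.YexA
import Pool.Agent.FF.YexB
import Pool.Agent.FF.NoHalf

/-!
# FF-Six11

Proof plan.
* `six_eleven`. Let `g` be as in `exists_g`, `r = 11`, `Dr 11 = 5`, `Q = Qr m 11`. For `h` as in
  `exists_h`, `G (t h) = G t` (`Kl_mul_ide`), so with `t = 1`: `2 m Q D' ∣ 2 Q D' g (val h - 1)`,
  so `m ∣ g (val h - 1)`, i.e. `h * g = g` in `ZMod m` and `ide m 11 * g = g`. `weight_formula`
  with `hW` and `Gr_al`, `Gr_be`: `G ua = G ub`, so in the same way `ua g = ub g` in `ZMod m`, where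
  `ua g = ua (ide g) = al g = qq m 11 * g = 11 Q g` and `ub g = be g = Q g`. So `10 Q g = 0`,
  `10 g = 0` (`Q` is a power of `11` and the order of `g = ide g` is prime to `11`,
  `addOrderOf_ide_mul`), and `2 g = 0` in `ZMod m` since `5` does not divide `m`.
  If `m ∣ g`: `2 m Q D' ∣ G t` for all `t`, and `|G t| ≤ 6 Q (m - 2) < 2 m * 5 * Q`
  (`Gr_bound`), so `G t = 0`. Otherwise `g ≡ m / 2 mod m`, and (the representative of `t` is odd)
  `G t ≡ 5 Q m mod 10 Q m`, so `|G t| ≥ 5 Q m` for all `t`; this contradicts `no_half` with `P` from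
  `GG_form` (`φ = sw (t ·)`, `isDist_sw_unit`).
-/

set_option autoImplicit false

namespace Pool.Agent.FF

open Finset Pool.Agent.FS
open Pool.Agent.Helper9.Fermat (fib mem_fib)

section

variable {m : ℕ} [NeZero m]

variable {A : Type} [AddCommGroup A] (D : Datum m A)

include D in
theorem six_eleven (hm : Even m) (h5 : ¬ 5 ∣ m) (h11 : 11 ∣ m) {T : Multiset (ZMod m)}
    (hTr : ∀ x ∈ T, 11 ∣ addOrderOf x) (hK : KInv 11 T) (hc : T.card ≤ 6)
    (hW : ∀ t : (ZMod m)ˣ, (T.map fun x => sw ((t : ZMod m) * x)).sum = 0) :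
    ∀ t, Gr 11 T t = 0 := by
  have hr : Nat.Prime 11 := by norm_num
  have hr3 : 3 ≤ 11 := by norm_num
  have hm0 : 0 < m := Nat.pos_of_ne_zero (NeZero.ne m)
  have hm2 : 2 ≤ m := by
    obtain ⟨j, hj⟩ := hm
    omega
  obtain ⟨g, hg⟩ := exists_g D hm hr hr3 h11 hTr hK
  have hD : Dr 11 = 5 := rfl
  have hQ := Qr_pos (m := m) hr h11
  have hbd := Gr_bound hr hm2 hTr
  obtain ⟨P, hPc, hP, hPG⟩ := GG_form hr T hTr
  have hqQ : ((qq m 11 : ℕ) : ZMod m) = 11 * ((Qr m 11 : ℕ) : ZMod m) := by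
    rw [← Qr_mul (m := m) hr h11]
    push_cast
    ring
  have hbeQ : be m 11 = ((Qr m 11 : ℕ) : ZMod m) * ide m 11 := rfl
  obtain ⟨a, -, ha⟩ := RNorm_qq_div (m := m) 11 hr h11
  have hQa : Qr m 11 = 11 ^ a := ha
  obtain ⟨ua, hua⟩ := exists_unit_al (m := m) 11 hr
  obtain ⟨ub, hub⟩ := exists_unit_be (m := m) 11 hr h11
  have hWf := weight_formula hr h11 hTr hr3 hK 1
  rw [hW, mul_zero, Gr_al T 1 ua hua, Gr_be T 1 ub hub, one_mul, one_mul] at hWf
  rw [hD] at hg
  obtain ⟨Q, hQe⟩ : ∃ Q, Q = Qr m 11 := ⟨_, rfl⟩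
  rw [← hQe] at hg hQ hbd hqQ hbeQ hQa
  have hQm : (0 : ℤ) < 2 * (Q * 5) := by positivity
  -- equal weights give equal multiples of `g`
  have hdiff : ∀ t s : (ZMod m)ˣ, Gr 11 T t = Gr 11 T s →
      (t : ZMod m) * (g : ZMod m) = (s : ZMod m) * (g : ZMod m) := by
    intro t s hts
    have e1 := dvd_sub (hg s) (hg t)
    rw [hts] at e1
    have e2 : (2 * ((Q : ℤ) * 5)) * (m : ℤ) ∣ (2 * ((Q : ℤ) * 5)) *
        (g * (((t : ZMod m).val : ℤ) - ((s : ZMod m).val : ℤ))) := by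
      have e3 : (2 * ((Q : ℤ) * 5)) * (m : ℤ) = ((2 * m * (Q * 5) : ℕ) : ℤ) := by
        push_cast; ring
      rw [e3]
      refine e1.trans (dvd_of_eq ?_)
      push_cast
      ring
    have e4 := Int.dvd_of_mul_dvd_mul_left (by positivity) e2
    have e5 : (((g * (((t : ZMod m).val : ℤ) - ((s : ZMod m).val : ℤ)) : ℤ)) : ZMod m) = 0 :=
      (ZMod.intCast_zmod_eq_zero_iff_dvd _ _).2 e4
    push_cast at e5
    rw [ZMod.natCast_zmod_val, ZMod.natCast_zmod_val] at e5
    linear_combination e5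
  -- `g` is in the part prime to `11`
  obtain ⟨h, hh, hhy⟩ := exists_h (m := m) hr hr3 h11
  have hide : ide m 11 * (g : ZMod m) = (g : ZMod m) := by
    apply hhy
    have e1 : Gr 11 T h = Gr 11 T 1 := by
      unfold Gr
      congr 1
      funext w
      rw [Kl_mul_ide 11 hr h hh, Units.val_one, one_mul]
    have e2 := hdiff h 1 e1
    rw [Units.val_one, one_mul] at e2
    exact e2
  -- `10 g = 0`
  have h10 : (10 : ZMod m) * (g : ZMod m) = 0 := by
    have e1 := hdiff ua ub (sub_eq_zero.1 hWf.symm)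
    have e2 : (ua : ZMod m) * (g : ZMod m) = 11 * (Q : ZMod m) * (g : ZMod m) := by
      rw [← hqQ, ← RNorm_al 11 hr, hua, hide]
    have e3 : (ub : ZMod m) * (g : ZMod m) = (Q : ZMod m) * (g : ZMod m) := by
      have e4 := hub (g : ZMod m)
      rw [hide] at e4
      rw [← e4, hbeQ, mul_assoc, hide]
    rw [e2, e3] at e1
    obtain ⟨y, hy⟩ : ∃ y : ZMod m, y = 10 * (g : ZMod m) := ⟨_, rfl⟩
    have hyi : ide m 11 * y = y := by
      rw [hy]
      linear_combination 10 * hide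
    have hQy : (11 ^ a) • y = 0 := by
      rw [nsmul_eq_mul, ← hQa, hy]
      linear_combination e1
    have e5 := addOrderOf_dvd_of_nsmul_eq_zero hQy
    have e6 := addOrderOf_ide_mul (m := m) 11 hr y
    rw [hyi] at e6
    have e7 : (11 : ℕ).Coprime (addOrderOf y) := by
      rw [e6]
      exact Nat.coprime_ordCompl hr (addOrderOf_pos y).ne'
    have e8 : addOrderOf y = 1 :=
      Nat.Coprime.eq_one_of_dvd (Nat.Coprime.pow_right a e7.symm) e5
    rw [← hy]
    exact AddMonoid.addOrderOf_eq_one_iff.1 e8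
  have h2 : (m : ℤ) ∣ 2 * g := by
    have e1 : ((10 * g : ℤ) : ZMod m) = 0 := by
      push_cast
      exact h10
    have e2 : (m : ℤ) ∣ 5 * (2 * g) := by
      have := (ZMod.intCast_zmod_eq_zero_iff_dvd _ _).1 e1
      refine this.trans (dvd_of_eq ?_)
      ring
    refine Int.dvd_of_dvd_mul_right_of_gcd_one e2 ?_
    have e3 : Nat.gcd m 5 = 1 :=
      ((Nat.Prime.coprime_iff_not_dvd (by norm_num : Nat.Prime 5)).2 h5).symm
    rw [show (5 : ℤ) = ((5 : ℕ) : ℤ) from rfl, Int.gcd_natCast_natCast]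
    exact e3
  obtain ⟨c, hcg⟩ := h2
  have hgt : ∀ t : (ZMod m)ˣ, ∃ j : ℤ, Gr 11 T t =
      (5 * (Q : ℤ) * m) * (2 * j + c * ((t : ZMod m).val : ℤ)) := by
    intro t
    obtain ⟨j, hj⟩ := hg t
    refine ⟨j, ?_⟩
    have e1 : Gr 11 T t = ((2 * m * (Q * 5) : ℕ) : ℤ) * j +
        2 * ((Q * 5 : ℕ) : ℤ) * g * ((t : ZMod m).val : ℤ) := by linarith
    rw [e1]
    push_cast
    linear_combination (5 * (Q : ℤ) * ((t : ZMod m).val : ℤ)) * hcg
  have hpos : 0 < 5 * (Q : ℤ) * m := by positivity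
  rcases Int.even_or_odd c with hce | hco
  · -- `m ∣ g`
    obtain ⟨c', hc'⟩ := hce
    intro t
    obtain ⟨j, hj⟩ := hgt t
    have e1 : Gr 11 T t = (5 * (Q : ℤ) * m) * (2 * (j + c' * ((t : ZMod m).val : ℤ))) := by
      rw [hj, hc']; ring
    have e2 : |Gr 11 T t| < 2 * (5 * (Q : ℤ) * m) := by
      refine lt_of_le_of_lt (hbd t) ?_
      have e3 : (T.card : ℤ) ≤ 6 := by exact_mod_cast hc
      have e4 : (2 : ℤ) ≤ m := by exact_mod_cast hm2
      have e5 : (0 : ℤ) < Q := by exact_mod_cast hQ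
      have e6 : (T.card : ℤ) * (Q : ℤ) ≤ 6 * Q := by nlinarith
      nlinarith
    rw [e1, abs_mul, abs_of_pos hpos, abs_mul] at e2
    have e7 : |(2 : ℤ)| * |j + c' * ((t : ZMod m).val : ℤ)| < 2 := by
      by_contra hcon
      rw [not_lt] at hcon
      nlinarith
    have e8 : |j + c' * ((t : ZMod m).val : ℤ)| = 0 := by
      have := abs_nonneg (j + c' * ((t : ZMod m).val : ℤ))
      rw [abs_two] at e7
      omega
    rw [e1, abs_eq_zero.1 e8]
    ring
  · -- `g` is `m / 2` modulo `m`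
    exfalso
    obtain ⟨t, ht⟩ := no_half Q hQ P (fun p hp => by rw [hQe]; exact (hP p hp).2.1)
      (by rw [hPc]; exact hc)
    have e1 : Gr 11 T t = (P.map fun p => (p.1 : ℤ) * sw ((t : ZMod m) * p.2)).sum :=
      hPG (fun x => sw ((t : ZMod m) * x)) (isDist_sw_unit t)
    rw [← e1] at ht
    obtain ⟨j, hj⟩ := hgt t
    have hodd : Odd ((t : ZMod m).val : ℤ) := by
      have e2 : ((t : ZMod m).val).Coprime m := ZMod.val_coe_unit_coprime t
      have e3 : ¬ 2 ∣ (t : ZMod m).val := by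
        intro e4
        have e5 : 2 ∣ m := hm.two_dvd
        have e6 := Nat.dvd_gcd e4 e5
        rw [e2] at e6
        omega
      have e7 : Odd (t : ZMod m).val := Nat.not_even_iff_odd.1 fun e8 => e3 e8.two_dvd
      exact_mod_cast e7
    have hodd2 : Odd (2 * j + c * ((t : ZMod m).val : ℤ)) :=
      (even_two_mul j).add_odd (hco.mul hodd)
    have hne : 2 * j + c * ((t : ZMod m).val : ℤ) ≠ 0 := by
      intro e2
      rw [e2] at hodd2
      exact absurd hodd2 (by decide)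
    rw [hj, abs_mul, abs_of_pos hpos] at ht
    have e3 : 1 ≤ |2 * j + c * ((t : ZMod m).val : ℤ)| := Int.one_le_abs hne
    nlinarith

end

end Pool.Agent.FF
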