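import Pool.Agent.FF.VSet

/-!
# FF-VComb

Proof plan. Let `n = addOrderOf y`, a divisor of `12` different from `1`.
* `n = 2`: `V = 0`, `sw (t y) = 0`.
* `n = 3`, `n = 4`: `exists_V` with `z = y`.
* `n = 6`: `V = V' + V'` with `V'` from `exists_V` for `z = 2 y` (order `3`);
  `sw (t y) = 2 sw (t (2 y))`: if `t y = ± m / 6` then `2 t y = ± m / 3`, values `∓ 2 m / 3`
  and `∓ m / 3`.
* `n = 12`: `V = V₃ + V₄` with `z = 4 y` (order `3`) and `z = 3 y` (order `4`);
  `sw (t y) = sw (t (4 y)) + sw (t (3 y))`: the elements of order `12` are `j m / 12` with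
  `j = 1, 5, 7, 11` and `sw` is `- 5 m / 6, - m / 6, m / 6, 5 m / 6`; `sw (4 ·)` is
  `- m / 3, m / 3, - m / 3, m / 3`, `sw (3 ·)` is `- m / 2, - m / 2, m / 2, m / 2`.
`KInv` and `Gr` are additive in the multiset (`GG`, `Multiset.map_add`, `Multiset.sum_add`).
-/

set_option autoImplicit false

namespace Pool.Agent.FF

open Finset Pool.Agent.FS
open Pool.Agent.Helper9.Fermat (fib mem_fib)

section

variable {m : ℕ} [NeZero m]

theorem KInv_add {r : ℕ} {U V : Multiset (ZMod m)} (hU : KInv r U) (hV : KInv r V) :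
    KInv r (U + V) := by
  intro t h hh
  rw [Multiset.map_add, Multiset.sum_add, Multiset.map_add, Multiset.sum_add, hU t h hh,
    hV t h hh]

theorem Gr_add (r : ℕ) (U V : Multiset (ZMod m)) (t : (ZMod m)ˣ) :
    Gr r (U + V) t = Gr r U t + Gr r V t := by
  unfold Gr GG
  rw [Multiset.map_add, Multiset.sum_add]

omit [NeZero m] in
private theorem vcomb_swk (n k : ℕ) [NeZero (n * k)] (j : ℕ) (hj : ¬ n ∣ j) :
    sw (((j * k : ℕ)) : ZMod (n * k)) = 2 * (((j % n) * k : ℕ) : ℤ) - ((n * k : ℕ) : ℤ) := by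
  have hnk : n * k ≠ 0 := NeZero.ne _
  have hn : 0 < n := Nat.pos_of_ne_zero fun h => hnk (by rw [h, Nat.zero_mul])
  have hk : 0 < k := Nat.pos_of_ne_zero fun h => hnk (by rw [h, Nat.mul_zero])
  have h1 : ((j * k : ℕ) : ZMod (n * k)) = (((j % n) * k : ℕ) : ZMod (n * k)) := by
    rw [ZMod.natCast_eq_natCast_iff]
    exact Nat.ModEq.mul_right' k (Nat.mod_modEq j n).symm
  have h2 : (j % n) * k < n * k := Nat.mul_lt_mul_of_pos_right (Nat.mod_lt _ hn) hk
  have h3 : (((j % n) * k : ℕ) : ZMod (n * k)).val = (j % n) * k := ZMod.val_natCast_of_lt h2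
  have h4 : 0 < (j % n) * k := by
    refine Nat.mul_pos (Nat.pos_of_ne_zero fun h => hj (Nat.dvd_of_mod_eq_zero h)) hk
  have h5 : (((j % n) * k : ℕ) : ZMod (n * k)) ≠ 0 := by
    intro h
    rw [h, ZMod.val_zero] at h3
    omega
  rw [h1, sw, if_neg h5, h3]

private theorem vcomb_rep {n : ℕ} (hn : n ∣ m) (y : ZMod m) (hy : addOrderOf y = n) :
    ∃ k : ℕ, m = n * k ∧ ∃ j : ℕ, j < n ∧ Nat.Coprime j n ∧ y = ((j * k : ℕ) : ZMod m) := by
  obtain ⟨k, hk⟩ := hn
  have hm0 : m ≠ 0 := NeZero.ne m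
  have hn0 : 0 < n := Nat.pos_of_ne_zero fun h => hm0 (by rw [hk, h, Nat.zero_mul])
  have hk0 : 0 < k := Nat.pos_of_ne_zero fun h => hm0 (by rw [hk, h, Nat.mul_zero])
  have h1 : n • y = 0 := by rw [← hy]; exact addOrderOf_nsmul_eq_zero y
  have h2 : ((n * y.val : ℕ) : ZMod m) = 0 := by
    rw [Nat.cast_mul, ZMod.natCast_zmod_val, ← nsmul_eq_mul, h1]
  rw [ZMod.natCast_eq_zero_iff] at h2
  have h3 : k ∣ y.val := by
    have h4 : n * k ∣ n * y.val := by rwa [← hk]
    exact Nat.dvd_of_mul_dvd_mul_left hn0 h4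
  obtain ⟨j, hj⟩ := h3
  have hlt : y.val < m := ZMod.val_lt y
  have hyj : y = ((j * k : ℕ) : ZMod m) := by
    rw [mul_comm j k, ← hj, ZMod.natCast_zmod_val]
  refine ⟨k, hk, j, ?_, ?_, hyj⟩
  · rw [hj, hk, mul_comm n k] at hlt
    exact Nat.lt_of_mul_lt_mul_left hlt
  · -- the order of `y` divides `n / gcd`
    by_contra hc
    set g := Nat.gcd j n with hg
    have hg0 : 0 < g := Nat.gcd_pos_of_pos_right _ hn0
    have hg1 : g ≠ 1 := hc
    obtain ⟨a, ha⟩ : g ∣ j := Nat.gcd_dvd_left j n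
    obtain ⟨b, hb⟩ : g ∣ n := Nat.gcd_dvd_right j n
    have h5 : b • y = 0 := by
      rw [hyj, nsmul_eq_mul, ← Nat.cast_mul, ZMod.natCast_eq_zero_iff]
      refine ⟨a, ?_⟩
      calc b * (j * k) = b * ((g * a) * k) := by rw [← ha]
        _ = (g * b) * k * a := by ring
        _ = m * a := by rw [← hb, ← hk]
    have h6 : n ∣ b := by rw [← hy]; exact addOrderOf_dvd_of_nsmul_eq_zero h5
    have hb0 : 0 < b := Nat.pos_of_ne_zero fun h => by rw [h, Nat.mul_zero] at hb; omega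
    have h7 := Nat.le_of_dvd hb0 h6
    have h8 : 2 ≤ g := by omega
    have h9 : 2 * b ≤ g * b := Nat.mul_le_mul_right b h8
    omega

private theorem vcomb_ord_dvd (y : ZMod m) : addOrderOf y ∣ m := by
  have := addOrderOf_dvd_card (x := y)
  rwa [ZMod.card] at this

private theorem vcomb_two (y : ZMod m) (hy : addOrderOf y = 2) : sw y = 0 := by
  have h1 : (2 : ℕ) ∣ m := hy ▸ vcomb_ord_dvd y
  obtain ⟨k, hk, j, hj, hc, hyj⟩ := vcomb_rep h1 y hy
  subst hk
  have hj1 : j = 1 := by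
    interval_cases j
    · simp at hc
    · rfl
  subst hj1
  rw [hyj, vcomb_swk 2 k 1 (by norm_num)]
  push_cast
  ring

private theorem vcomb_six (y : ZMod m) (hy : addOrderOf y = 6) : sw y = 2 * sw (2 * y) := by
  have h1 : (6 : ℕ) ∣ m := hy ▸ vcomb_ord_dvd y
  obtain ⟨k, hk, j, hj, hc, hyj⟩ := vcomb_rep h1 y hy
  subst hk
  have h2 : (2 : ZMod (6 * k)) * y = ((2 * j * k : ℕ) : ZMod (6 * k)) := by
    rw [hyj]; push_cast; ring
  rw [h2, hyj]
  have hj2 : j = 1 ∨ j = 5 := by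
    interval_cases j <;> first | (left; rfl) | (right; rfl) | (exfalso; revert hc; decide)
  rcases hj2 with rfl | rfl
  · rw [vcomb_swk 6 k 1 (by norm_num), vcomb_swk 6 k (2 * 1) (by norm_num)]
    norm_num
    push_cast
    ring
  · rw [vcomb_swk 6 k 5 (by norm_num), vcomb_swk 6 k (2 * 5) (by norm_num)]
    norm_num
    push_cast
    ring

private theorem vcomb_twelve (y : ZMod m) (hy : addOrderOf y = 12) :
    sw y = sw (4 * y) + sw (3 * y) := by
  have h1 : (12 : ℕ) ∣ m := hy ▸ vcomb_ord_dvd y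
  obtain ⟨k, hk, j, hj, hc, hyj⟩ := vcomb_rep h1 y hy
  subst hk
  have h2 : (4 : ZMod (12 * k)) * y = ((4 * j * k : ℕ) : ZMod (12 * k)) := by
    rw [hyj]; push_cast; ring
  have h3 : (3 : ZMod (12 * k)) * y = ((3 * j * k : ℕ) : ZMod (12 * k)) := by
    rw [hyj]; push_cast; ring
  rw [h2, h3, hyj]
  have hj2 : j = 1 ∨ j = 5 ∨ j = 7 ∨ j = 11 := by
    interval_cases j <;> first | (left; rfl) | (right; left; rfl) | (right; right; left; rfl) |
      (right; right; right; rfl) | (exfalso; revert hc; decide)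
  rcases hj2 with rfl | rfl | rfl | rfl
  · rw [vcomb_swk 12 k 1 (by norm_num), vcomb_swk 12 k (4 * 1) (by norm_num),
      vcomb_swk 12 k (3 * 1) (by norm_num)]
    norm_num
    push_cast
    ring
  · rw [vcomb_swk 12 k 5 (by norm_num), vcomb_swk 12 k (4 * 5) (by norm_num),
      vcomb_swk 12 k (3 * 5) (by norm_num)]
    norm_num
    push_cast
    ring
  · rw [vcomb_swk 12 k 7 (by norm_num), vcomb_swk 12 k (4 * 7) (by norm_num),
      vcomb_swk 12 k (3 * 7) (by norm_num)]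
    norm_num
    push_cast
    ring
  · rw [vcomb_swk 12 k 11 (by norm_num), vcomb_swk 12 k (4 * 11) (by norm_num),
      vcomb_swk 12 k (3 * 11) (by norm_num)]
    norm_num
    push_cast
    ring

/-- units preserve the order -/
private theorem vcomb_unit (t : (ZMod m)ˣ) (y : ZMod m) :
    addOrderOf ((t : ZMod m) * y) = addOrderOf y := RUp_addOrderOf_unit_mul t y

private theorem vcomb_zero_K (r : ℕ) : KInv r (0 : Multiset (ZMod m)) := by
  intro t h _
  simp

private theorem vcomb_zero_G (r : ℕ) (t : (ZMod m)ˣ) : Gr r (0 : Multiset (ZMod m)) t = 0 := by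
  unfold Gr GG
  simp

theorem exists_V12 {r : ℕ} (hr : r.Prime) (hr5 : 5 ≤ r) (hrm : r ∣ m) (y : ZMod m)
    (hy0 : y ≠ 0) (hy : 12 * y = 0) :
    ∃ V : Multiset (ZMod m), (∀ x ∈ V, addOrderOf x = r ∨ addOrderOf x = 3 * r ∨
      addOrderOf x = 4 * r) ∧
      KInv r V ∧ ∀ t, Gr r V t = ((Qr m r * Dr r : ℕ) : ℤ) * sw ((t : ZMod m) * y) := by
  have h1 : addOrderOf y ∣ 12 := by
    apply addOrderOf_dvd_of_nsmul_eq_zero
    rw [nsmul_eq_mul]
    exact_mod_cast hy
  have h2 : addOrderOf y ≠ 1 := by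
    intro h
    rw [AddMonoid.addOrderOf_eq_one_iff] at h
    exact hy0 h
  have h3 : addOrderOf y = 2 ∨ addOrderOf y = 3 ∨ addOrderOf y = 4 ∨ addOrderOf y = 6 ∨
      addOrderOf y = 12 := by
    have h4 : addOrderOf y ≤ 12 := Nat.le_of_dvd (by norm_num) h1
    generalize addOrderOf y = n at *
    interval_cases n <;> revert h1 h2 <;> decide
  rcases h3 with h | h | h | h | h
  · refine ⟨0, by simp, vcomb_zero_K r, fun t => ?_⟩
    rw [vcomb_zero_G, vcomb_two _ ((vcomb_unit t y).trans h), mul_zero]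
  · obtain ⟨V, hV1, hV2, hV3⟩ := exists_V hr hr5 hrm y (Or.inl h)
    refine ⟨V, fun x hx => ?_, hV2, hV3⟩
    rcases hV1 x hx with h5 | h5
    · exact Or.inl h5
    · rw [h] at h5; exact Or.inr (Or.inl h5)
  · obtain ⟨V, hV1, hV2, hV3⟩ := exists_V hr hr5 hrm y (Or.inr h)
    refine ⟨V, fun x hx => ?_, hV2, hV3⟩
    rcases hV1 x hx with h5 | h5
    · exact Or.inl h5
    · rw [h] at h5; exact Or.inr (Or.inr h5)
  · have ho : addOrderOf ((2 : ZMod m) * y) = 3 := by
      have e1 : (2 : ZMod m) * y = 2 • y := by rw [nsmul_eq_mul]; norm_num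
      rw [e1, addOrderOf_nsmul' y (by norm_num), h]
      norm_num
    obtain ⟨V, hV1, hV2, hV3⟩ := exists_V hr hr5 hrm (2 * y) (Or.inl ho)
    refine ⟨V + V, fun x hx => ?_, KInv_add hV2 hV2, fun t => ?_⟩
    · rw [Multiset.mem_add, or_self] at hx
      rcases hV1 x hx with h5 | h5
      · exact Or.inl h5
      · rw [ho] at h5; exact Or.inr (Or.inl h5)
    · rw [Gr_add, hV3 t, vcomb_six _ ((vcomb_unit t y).trans h)]
      rw [show (t : ZMod m) * (2 * y) = 2 * ((t : ZMod m) * y) by ring]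
      ring
  · have ho3 : addOrderOf ((4 : ZMod m) * y) = 3 := by
      have e1 : (4 : ZMod m) * y = 4 • y := by rw [nsmul_eq_mul]; norm_num
      rw [e1, addOrderOf_nsmul' y (by norm_num), h]
      norm_num
    have ho4 : addOrderOf ((3 : ZMod m) * y) = 4 := by
      have e1 : (3 : ZMod m) * y = 3 • y := by rw [nsmul_eq_mul]; norm_num
      rw [e1, addOrderOf_nsmul' y (by norm_num), h]
      norm_num
    obtain ⟨V, hV1, hV2, hV3⟩ := exists_V hr hr5 hrm (4 * y) (Or.inl ho3)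
    obtain ⟨V', hV1', hV2', hV3'⟩ := exists_V hr hr5 hrm (3 * y) (Or.inr ho4)
    refine ⟨V + V', fun x hx => ?_, KInv_add hV2 hV2', fun t => ?_⟩
    · rw [Multiset.mem_add] at hx
      rcases hx with hx | hx
      · rcases hV1 x hx with h5 | h5
        · exact Or.inl h5
        · rw [ho3] at h5; exact Or.inr (Or.inl h5)
      · rcases hV1' x hx with h5 | h5
        · exact Or.inl h5
        · rw [ho4] at h5; exact Or.inr (Or.inr h5)
    · rw [Gr_add, hV3 t, hV3' t, vcomb_twelve _ ((vcomb_unit t y).trans h)]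
      rw [show (t : ZMod m) * (4 * y) = 4 * ((t : ZMod m) * y) by ring,
        show (t : ZMod m) * (3 * y) = 3 * ((t : ZMod m) * y) by ring]
      ring

theorem exists_V3 {r : ℕ} (hr : r.Prime) (hr5 : 5 ≤ r) (hrm : r ∣ m) (y : ZMod m)
    (hy0 : y ≠ 0) (hy : 2 * y = 0 ∨ 3 * y = 0) :
    ∃ V : Multiset (ZMod m), (∀ x ∈ V, addOrderOf x = r ∨ addOrderOf x = 3 * r) ∧
      (2 * y = 0 → V = 0) ∧
      KInv r V ∧ ∀ t, Gr r V t = ((Qr m r * Dr r : ℕ) : ℤ) * sw ((t : ZMod m) * y) := by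
  by_cases h2 : 2 * y = 0
  · have ho : addOrderOf y = 2 := by
      apply addOrderOf_eq_prime (p := 2) _ hy0
      rw [nsmul_eq_mul]
      exact_mod_cast h2
    refine ⟨0, by simp, fun _ => rfl, vcomb_zero_K r, fun t => ?_⟩
    rw [vcomb_zero_G, vcomb_two _ ((vcomb_unit t y).trans ho), mul_zero]
  · have h3 : 3 * y = 0 := hy.resolve_left h2
    have ho : addOrderOf y = 3 := by
      have : Fact (Nat.Prime 3) := ⟨by norm_num⟩
      apply addOrderOf_eq_prime (p := 3) _ hy0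
      rw [nsmul_eq_mul]
      exact_mod_cast h3
    obtain ⟨V, hV1, hV2, hV3⟩ := exists_V hr hr5 hrm y (Or.inl ho)
    refine ⟨V, fun x hx => ?_, fun h => absurd h h2, hV2, hV3⟩
    rcases hV1 x hx with h5 | h5
    · exact Or.inl h5
    · rw [ho] at h5; exact Or.inr h5

end

end Pool.Agent.FF
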