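import Pool.Agent.FF.Inv

/-!
# FF-WForm

Proof plan.
* `W_form`: `weight_formula`, `Gr_al`, `Gr_be` with `exists_unit_al`, `exists_unit_be`, and `hy`:
  `2 Q D' W t = Q D' (sw (t ua y) - sw (t ub y))`, where `ua y = ua (ide y) = al y = qq m r * y`
  (`RNorm_al`), `ub y = be y = ((qq m r / r : ℕ) : ZMod m) * (ide m r * y) = Qr * y`, and
  `qq m r = r * Qr m r` (`Qr_mul`). Cancel `Q D' > 0` (`Qr_pos`, `two_Dr`).
* `ide_cancel`: `y = ide y`, so `addOrderOf y` is prime to `r` (`addOrderOf_ide_mul`), and `Qr m r`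
  is a power of `r` (`RNorm_qq_div`).
* `y_of_W0`: `W_form` with `hW`, `t = 1`: `sw (r y₁) = sw y₁`, `y₁ = Qr * y ≠ 0` (`ide_cancel`,
  `n = 1`), `r y₁ ≠ 0` (`r` is prime to the order), so the representatives agree and
  `r y₁ = y₁`; then `ide_cancel` with `n = r - 1`.
-/

set_option autoImplicit false

namespace Pool.Agent.FF

open Finset Pool.Agent.FS
open Pool.Agent.Helper9.Fermat (fib mem_fib)

section

variable {m : ℕ} [NeZero m]

private theorem wform_coprime {r : ℕ} (hr : r.Prime) (y : ZMod m) (hyi : ide m r * y = y) :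
    r.Coprime (addOrderOf y) := by
  have h1 := addOrderOf_ide_mul (m := m) r hr y
  rw [hyi] at h1
  rw [h1]
  exact Nat.coprime_ordCompl hr (addOrderOf_pos y).ne'

omit [NeZero m] in
private theorem wform_ord_dvd (n y : ZMod m) : addOrderOf (n * y) ∣ addOrderOf y := by
  rw [addOrderOf_dvd_iff_nsmul_eq_zero, nsmul_eq_mul, mul_left_comm, ← nsmul_eq_mul,
    addOrderOf_nsmul_eq_zero, mul_zero]

theorem W_form {r : ℕ} (hr : r.Prime) (hr3 : 3 ≤ r) (hrm : r ∣ m) {T : Multiset (ZMod m)}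
    (hTr : ∀ x ∈ T, r ∣ addOrderOf x) (hK : KInv r T) (y : ZMod m) (hyi : ide m r * y = y)
    (hy : ∀ t : (ZMod m)ˣ, Gr r T t = ((Qr m r * Dr r : ℕ) : ℤ) * sw ((t : ZMod m) * y))
    (t : (ZMod m)ˣ) :
    2 * (T.map fun x => sw ((t : ZMod m) * x)).sum =
      sw ((t : ZMod m) * ((r : ZMod m) * ((Qr m r : ZMod m) * y))) -
        sw ((t : ZMod m) * ((Qr m r : ZMod m) * y)) := by
  obtain ⟨ua, hua⟩ := exists_unit_al (m := m) r hr
  obtain ⟨ub, hub⟩ := exists_unit_be (m := m) r hr hrm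
  have h1 := weight_formula hr hrm hTr hr3 hK t
  rw [Gr_al T t ua hua, Gr_be T t ub hub, hy, hy] at h1
  have ea : (((t * ua : (ZMod m)ˣ)) : ZMod m) * y =
      (t : ZMod m) * ((r : ZMod m) * ((Qr m r : ZMod m) * y)) := by
    have h2 := hua y
    rw [hyi, RNorm_al r hr y, ← Qr_mul hr hrm, Nat.cast_mul] at h2
    rw [Units.val_mul, mul_assoc, ← h2]
    ring
  have eb : (((t * ub : (ZMod m)ˣ)) : ZMod m) * y = (t : ZMod m) * ((Qr m r : ZMod m) * y) := by
    have h2 := hub y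
    rw [hyi, be, mul_assoc, hyi] at h2
    rw [Units.val_mul, mul_assoc, ← h2]
    rfl
  rw [ea, eb] at h1
  have h0 := two_Dr hr hr3
  have hpos : 0 < Qr m r * Dr r := Nat.mul_pos (Qr_pos hr hrm) (by omega)
  have hne : ((Qr m r * Dr r : ℕ) : ℤ) ≠ 0 := by exact_mod_cast hpos.ne'
  apply mul_left_cancel₀ hne
  rw [Nat.cast_mul 2] at h1
  linear_combination h1

theorem ide_cancel {r : ℕ} (hr : r.Prime) (hrm : r ∣ m) (y : ZMod m) (hyi : ide m r * y = y)
    (n : ZMod m) (h : n * ((Qr m r : ZMod m) * y) = 0) : n * y = 0 := by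
  obtain ⟨a, -, ha⟩ := RNorm_qq_div (m := m) r hr hrm
  have hQ : Qr m r = r ^ a := ha
  have h1 : addOrderOf (n * y) ∣ r ^ a := by
    rw [addOrderOf_dvd_iff_nsmul_eq_zero, nsmul_eq_mul, ← hQ]
    linear_combination h
  have h2 := (wform_ord_dvd n y)
  have h3 : (r ^ a).Coprime (addOrderOf y) := Nat.Coprime.pow_left a (wform_coprime hr y hyi)
  have h4 : addOrderOf (n * y) = 1 := Nat.eq_one_of_dvd_coprimes h3 h1 h2
  exact AddMonoid.addOrderOf_eq_one_iff.1 h4

theorem y_of_W0 {r : ℕ} (hr : r.Prime) (hr3 : 3 ≤ r) (hrm : r ∣ m) {T : Multiset (ZMod m)}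
    (hTr : ∀ x ∈ T, r ∣ addOrderOf x) (hK : KInv r T) (y : ZMod m) (hy0 : y ≠ 0)
    (hyi : ide m r * y = y)
    (hy : ∀ t : (ZMod m)ˣ, Gr r T t = ((Qr m r * Dr r : ℕ) : ℤ) * sw ((t : ZMod m) * y))
    (hW : ∀ t : (ZMod m)ˣ, (T.map fun x => sw ((t : ZMod m) * x)).sum = 0) :
    ((r : ZMod m) - 1) * y = 0 := by
  have h1 := W_form hr hr3 hrm hTr hK y hyi hy 1
  rw [hW 1] at h1
  simp only [Units.val_one, one_mul, mul_zero] at h1
  have hy1 : (Qr m r : ZMod m) * y ≠ 0 := by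
    intro h
    have h2 := ide_cancel hr hrm y hyi 1 (by rw [one_mul, h])
    rw [one_mul] at h2
    exact hy0 h2
  have hy2 : (r : ZMod m) * ((Qr m r : ZMod m) * y) ≠ 0 := by
    intro h
    have h2 := ide_cancel hr hrm y hyi r h
    have h3 : addOrderOf y ∣ r := by
      rw [addOrderOf_dvd_iff_nsmul_eq_zero, nsmul_eq_mul]
      exact h2
    have h4 : addOrderOf y = 1 :=
      Nat.eq_one_of_dvd_coprimes (wform_coprime hr y hyi) h3 dvd_rfl
    exact hy0 (AddMonoid.addOrderOf_eq_one_iff.1 h4)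
  unfold sw at h1
  rw [if_neg hy1, if_neg hy2] at h1
  have h3 : ((r : ZMod m) * ((Qr m r : ZMod m) * y)).val = ((Qr m r : ZMod m) * y).val := by
    omega
  have h4 := ZMod.val_injective m h3
  exact ide_cancel hr hrm y hyi _ (by linear_combination h4)

end

end Pool.Agent.FF
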