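import Pool.Agent.FF.Yex
import Pool.Agent.FF.Ybd
import Pool.Agent.FF.WForm
import Pool.Agent.FF.Eleven
import Pool.Agent.FF.VComb
import Pool.Agent.FF.Six11

/-!
# FF-Step (removal of one prime `r ≥ 11`)
-/

set_option autoImplicit false

namespace Pool.Agent.FF

open Finset Pool.Agent.FS
open Pool.Agent.Helper9.Fermat (fib mem_fib)

/-- the orders which come from the prime `r` -/
def OKr (r : ℕ) : Set ℕ := {n | n = r ∨ (r ≤ 19 ∧ n = 3 * r) ∨ (r ≤ 13 ∧ n = 4 * r)}

section

variable {m : ℕ} [NeZero m]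

/-- the elements of order divisible by `r` -/
noncomputable def Fr (r : ℕ) (U : Multiset (ZMod m)) : Multiset (ZMod m) :=
  U.filter fun x => r ∣ addOrderOf x

omit [NeZero m] in
theorem Fr_dvd {r : ℕ} {U : Multiset (ZMod m)} : ∀ x ∈ Fr r U, r ∣ addOrderOf x :=
  fun _ hx => (Multiset.mem_filter.1 hx).2

omit [NeZero m] in
theorem Fr_eq {r : ℕ} {U : Multiset (ZMod m)} (h : U.card ≤ (Fr r U).card) : Fr r U = U :=
  Multiset.eq_of_le_of_card_le (Multiset.filter_le _ _) h

omit [NeZero m] in
theorem KInv_zero (r : ℕ) : KInv r (0 : Multiset (ZMod m)) := by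
  intro t h _
  simp

theorem Gr_zero (r : ℕ) (t : (ZMod m)ˣ) : Gr r (0 : Multiset (ZMod m)) t = 0 := by
  unfold Gr GG
  simp

variable {A : Type} [AddCommGroup A] (D : Datum m A)

theorem W_sum (U : Multiset (ZMod m)) (t : (ZMod m)ˣ) :
    D.W t (U.map D.f).sum = (U.map fun x => sw ((t : ZMod m) * x)).sum := by
  rw [map_multiset_sum, Multiset.map_map]
  exact congrArg Multiset.sum (Multiset.map_congr rfl fun x _ => D.wf t x)

theorem W_lev {r : ℕ} (hr : r.Prime) {b : A} (hb : b ∈ D.lev {n | ¬ r ∣ n}) (t h : (ZMod m)ˣ)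
    (hh : h ∈ Kl m r) : D.W (t * h) b = D.W t b := by
  induction hb using AddSubgroup.closure_induction with
  | mem x hx =>
    obtain ⟨z, hz, rfl⟩ := hx
    have h4 := Kl_mul_ide r hr h hh z
    rw [ide_mul_eq_self r hr z hz] at h4
    rw [D.wf, D.wf, Units.val_mul, mul_assoc, h4]
  | zero => rw [map_zero, map_zero]
  | add x y _ _ hx hy => rw [map_add, map_add, hx, hy]
  | neg x _ hx => rw [map_neg, map_neg, hx]

theorem KInv_of_W {r : ℕ} (hr : r.Prime) (U : Multiset (ZMod m)) (b : A)
    (hb : b ∈ D.lev {n | ¬ r ∣ n}) (hW : ∀ t, D.W t ((U.map D.f).sum + b) = 0) :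
    KInv r (Fr r U) := by
  have hsplit : ∀ t : (ZMod m)ˣ, ((Fr r U).map fun x => sw ((t : ZMod m) * x)).sum +
      ((U.filter fun x => ¬ r ∣ addOrderOf x).map fun x => sw ((t : ZMod m) * x)).sum +
        D.W t b = 0 := by
    intro t
    have h1 := hW t
    rw [map_add, W_sum] at h1
    rw [← h1, ← Multiset.sum_add, ← Multiset.map_add, Fr, Multiset.filter_add_not]
  intro t h hh
  have h1 := hsplit (t * h)
  have h2 := hsplit t
  have h3 : ((U.filter fun x => ¬ r ∣ addOrderOf x).map
      fun x => sw (((t * h : (ZMod m)ˣ) : ZMod m) * x)) =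
      ((U.filter fun x => ¬ r ∣ addOrderOf x).map fun x => sw ((t : ZMod m) * x)) := by
    refine Multiset.map_congr rfl fun x hx => ?_
    have hx2 := (Multiset.mem_filter.1 hx).2
    have h4 := Kl_mul_ide r hr h hh x
    rw [ide_mul_eq_self r hr x hx2] at h4
    rw [Units.val_mul, mul_assoc, h4]
  rw [h3, W_lev D hr hb t h hh] at h1
  linarith

/-- the value of a multiset without weights -/
theorem val_zero {r : ℕ} (hr : r.Prime) (hr3 : 3 ≤ r) (hrm : r ∣ m) {T : Multiset (ZMod m)}
    (hT : ∀ x ∈ T, r ∣ addOrderOf x) (hK : KInv r T) (h : ∀ t, Gr r T t = 0) :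
    (T.map D.f).sum = 0 := by
  have h1 := compare D hr hr3 hrm hT (V := 0) (by simp) hK (KInv_zero r) fun t => by
    rw [h, Gr_zero]
  rw [h1, Multiset.map_zero, Multiset.sum_zero]

theorem val_mem {r : ℕ} (hr : r.Prime) (hr3 : 3 ≤ r) (hrm : r ∣ m) {T V : Multiset (ZMod m)}
    (hT : ∀ x ∈ T, r ∣ addOrderOf x) (hK : KInv r T) (L : Set ℕ)
    (hV : ∀ x ∈ V, addOrderOf x ∈ L) (hL : ∀ n ∈ L, r ∣ n) (hKV : KInv r V)
    (h : ∀ t, Gr r T t = Gr r V t) :
    (T.map D.f).sum ∈ D.lev L := by
  rw [compare D hr hr3 hrm hT (V := V) (fun x hx => hL _ (hV x hx)) hK hKV h]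
  refine AddSubgroup.multiset_sum_mem _ _ fun a ha => ?_
  rw [Multiset.mem_map] at ha
  obtain ⟨x, hx, rfl⟩ := ha
  exact AddSubgroup.subset_closure ⟨x, hV x hx, rfl⟩

theorem OKr_dvd {r : ℕ} : ∀ n ∈ OKr r, r ∣ n := by
  rintro n (rfl | ⟨_, rfl⟩ | ⟨_, rfl⟩)
  · exact dvd_rfl
  · exact Dvd.intro_left _ rfl
  · exact Dvd.intro_left _ rfl

theorem step (hm : Even m) {r : ℕ} (hr : r.Prime) (hr11 : 11 ≤ r) (hrm : r ∣ m)
    (U : Multiset (ZMod m)) (b : A) (hc : U.card ≤ 6) (hb : b ∈ D.lev {n | ¬ r ∣ n})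
    (hb0 : b = 0 ∨ U.card ≤ 3) (h5 : r = 11 → ¬ 5 ∣ m ∨ (Fr r U).card ≤ 4)
    (hW : ∀ t, D.W t ((U.map D.f).sum + b) = 0) :
    ((Fr r U).map D.f).sum ∈ D.lev (OKr r) ∧
      (((Fr r U).map D.f).sum = 0 ∨ 3 ≤ (Fr r U).card) := by
  have hr3 : 3 ≤ r := by omega
  have hr5 : 5 ≤ r := by omega
  have hK := KInv_of_W D hr U b hb hW
  have hT := Fr_dvd (m := m) (r := r) (U := U)
  have hD := two_Dr hr hr3
  have hle : (Fr r U).card ≤ U.card := Multiset.card_le_card (Multiset.filter_le _ _)
  -- the weights of `U`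
  have hU : 4 ≤ U.card → ∀ t : (ZMod m)ˣ, (U.map fun x => sw ((t : ZMod m) * x)).sum = 0 := by
    intro h4 t
    have hb' : b = 0 := by
      rcases hb0 with h | h
      · exact h
      · omega
    have h1 := hW t
    rwa [hb', add_zero, W_sum] at h1
  -- twelve
  have h12 : ∀ y : ZMod m, y ≠ 0 → 12 * y = 0 → r ≤ 13 → 3 ≤ (Fr r U).card →
      (∀ t : (ZMod m)ˣ, Gr r (Fr r U) t = ((Qr m r * Dr r : ℕ) : ℤ) * sw ((t : ZMod m) * y)) →
      ((Fr r U).map D.f).sum ∈ D.lev (OKr r) ∧
      (((Fr r U).map D.f).sum = 0 ∨ 3 ≤ (Fr r U).card) := by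
    intro y hy0 hy12 hr13 hk3 hy
    obtain ⟨V, hV, hKV, hGV⟩ := exists_V12 hr hr5 hrm y hy0 hy12
    refine ⟨?_, Or.inr hk3⟩
    refine val_mem D hr hr3 hrm hT hK (OKr r) (fun x hx => ?_) OKr_dvd hKV fun t => ?_
    · rcases hV x hx with h | h | h
      · exact Or.inl h
      · exact Or.inr (Or.inl ⟨by omega, h⟩)
      · exact Or.inr (Or.inr ⟨hr13, h⟩)
    · rw [hy, hGV]
  by_cases hkD : (Fr r U).card < Dr r
  · obtain ⟨y, hy0, hyi, hy⟩ := exists_y D hm hr hr3 hrm hT hK hkD.le
    rcases y_cases hm hr hrm hT hkD y hy0 hy with h2 | ⟨h3, hD2⟩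
    · obtain ⟨V, _, hV0, _, hGV⟩ := exists_V3 hr hr5 hrm y hy0 (Or.inl h2)
      have h0 : ((Fr r U).map D.f).sum = 0 := by
        refine val_zero D hr hr3 hrm hT hK fun t => ?_
        rw [hy, ← hGV, hV0 h2, Gr_zero]
      exact ⟨by rw [h0]; exact zero_mem _, Or.inl h0⟩
    · by_cases hr19 : r ≤ 19
      · obtain ⟨V, hV, _, hKV, hGV⟩ := exists_V3 hr hr5 hrm y hy0 (Or.inr h3)
        refine ⟨?_, Or.inr (by omega)⟩
        refine val_mem D hr hr3 hrm hT hK (OKr r) (fun x hx => ?_) OKr_dvd hKV fun t => ?_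
        · rcases hV x hx with h | h
          · exact Or.inl h
          · exact Or.inr (Or.inl ⟨hr19, h⟩)
        · rw [hy, hGV]
      · -- `r = 23`
        exfalso
        have hr23 : r = 23 := by
          have h1 : r ≤ 25 := by omega
          have h2 : 20 ≤ r := by omega
          interval_cases r <;> first | rfl | (exfalso; revert hr; norm_num)
        have hk6 : (Fr r U).card = 6 := by omega
        have hTU : Fr r U = U := Fr_eq (by omega)
        have h1 := y_of_W0 hr hr3 hrm hT hK y hy0 hyi hy (by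
          rw [hTU]
          exact hU (by omega))
        subst hr23
        push_cast at h1
        apply hy0
        linear_combination h1 - 7 * h3
  · -- `r` is `11` or `13`
    have hr13 : r = 11 ∨ r = 13 := by
      have h1 : r ≤ 13 := by omega
      interval_cases r
      · exact Or.inl rfl
      · exfalso; revert hr; norm_num
      · exact Or.inr rfl
    rcases hr13 with hr' | hr'
    · have h5' : ¬ 5 ∣ m := by
        rcases h5 hr' with h | h
        · exact h
        · omega
      by_cases hk5 : (Fr r U).card = 5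
      · obtain ⟨y, hy0, hyi, hy⟩ := exists_y D hm hr hr3 hrm hT hK (by omega)
        refine h12 y hy0 ?_ (by omega) (by omega) hy
        have hWf := W_form hr hr3 hrm hT hK y hyi hy
        -- the rest
        have hrest : ∃ z : ZMod m, ∀ t : (ZMod m)ˣ,
            ((U.filter fun x => ¬ r ∣ addOrderOf x).map fun x => sw ((t : ZMod m) * x)).sum =
              sw ((t : ZMod m) * z) := by
          have h1 : (Fr r U).card + (U.filter fun x => ¬ r ∣ addOrderOf x).card = U.card := by
            rw [← Multiset.card_add, Fr, Multiset.filter_add_not]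
          have h2 : (U.filter fun x => ¬ r ∣ addOrderOf x).card = 0 ∨
              (U.filter fun x => ¬ r ∣ addOrderOf x).card = 1 := by omega
          rcases h2 with h2 | h2
          · rw [Multiset.card_eq_zero] at h2
            refine ⟨0, fun t => ?_⟩
            rw [h2, mul_zero]
            simp [sw]
          · rw [Multiset.card_eq_one] at h2
            obtain ⟨z, hz⟩ := h2
            refine ⟨z, fun t => ?_⟩
            rw [hz]
            simp
        obtain ⟨z, hz⟩ := hrest
        have h12y := eleven hm h5' ((Qr m r : ZMod m) * y) z (by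
          intro h
          apply hy0
          have h1 := ide_cancel hr hrm y hyi 1 (by rw [one_mul]; exact h)
          rwa [one_mul] at h1) (by
          intro t
          have h1 := hU (by omega) t
          rw [← Multiset.filter_add_not (fun x => r ∣ addOrderOf x) U, Multiset.map_add,
            Multiset.sum_add, hz] at h1
          have h2 := hWf t
          change ((Fr r U).map fun x => sw ((t : ZMod m) * x)).sum + _ = 0 at h1
          have e1 : (r : ZMod m) = 11 := by rw [hr']; norm_num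
          rw [e1] at h2
          linarith)
        exact ide_cancel hr hrm y hyi 12 h12y
      · have hk6 : (Fr r U).card = 6 := by omega
        have hTU : Fr r U = U := Fr_eq (by omega)
        subst hr'
        have h0 : ((Fr 11 U).map D.f).sum = 0 := by
          refine val_zero D hr hr3 hrm hT hK ?_
          refine six_eleven D hm h5' hrm hT hK (by omega) ?_
          rw [hTU]
          exact hU (by omega)
        exact ⟨by rw [h0]; exact zero_mem _, Or.inl h0⟩
    · have hk6 : (Fr r U).card = 6 := by omega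
      have hTU : Fr r U = U := Fr_eq (by omega)
      obtain ⟨y, hy0, hyi, hy⟩ := exists_y D hm hr hr3 hrm hT hK (by omega)
      refine h12 y hy0 ?_ (by omega) (by omega) hy
      have h1 := y_of_W0 hr hr3 hrm hT hK y hy0 hyi hy (by
        rw [hTU]
        exact hU (by omega))
      rw [hr'] at h1
      have e1 : (((13 : ℕ) : ZMod m) - 1) = 12 := by norm_num
      rwa [e1] at h1

end

end Pool.Agent.FF
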