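import Pool.Agent.FF.CombDefs

/-!
# FF-T4A

Proof plan.
* `exists_proj`: the homomorphism of `exists_kap` (`Pool/Agent/FS/RComb.lean`; its proof gives the
  second property: copy it), so `κ g ∈ Kl n l` and `rr (κ g) ≡ rr g [MOD ordProj[l] n]`.
* `proj_dec`: `ProdDec`. `fix`: `g ∈ Kl n l`: both sides agree modulo `ordProj[l] n` and are `1`
  modulo `ordCompl[l] n` (`mem_Kl`, `RComb_rr_ext`). `one`: `g ∈ Kl n l'` is `1` modulo
  `ordProj[l] n` (it divides `ordCompl[l'] n`), as in `exists_kap`. `gen`: `g ≡ 1` modulo all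
  `ordProj[l] n`, `l` prime divisor of `n`, so `rr g ≡ 1 [MOD n]` (`n` is the product of the
  coprime `ordProj[l] n`; e.g. `n ∣ rr g - 1` by factorizations).
* `half_sys`: `H l = {g | Half l (rr g)}`; `half_neg_iff`, `half_mod` with `Kl_mul_mod`
  (`hb l ∣ ordProj[l] n ∣ ordCompl[l'] n`), see the use in `Pool/Agent/FS/Remove.lean`.
-/

set_option autoImplicit false

namespace Pool.Agent.FF

open Finset Pool.Agent.FS

/-- projections to the `l`-parts -/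
def IsProj (n : ℕ) [NeZero n] (κ : ℕ → (ZMod n)ˣ →* (ZMod n)ˣ) (ls : List ℕ) : Prop :=
  ∀ l ∈ ls, ∀ g, κ l g ∈ Kl n l ∧ rr (κ l g) ≡ rr g [MOD ordProj[l] n]

private lemma t4A_single (n : ℕ) [NeZero n] (l : ℕ) (hl : l.Prime) :
    ∃ κ : (ZMod n)ˣ →* (ZMod n)ˣ, ∀ g, κ g ∈ Kl n l ∧ rr (κ g) ≡ rr g [MOD ordProj[l] n] := by
  have hn : n ≠ 0 := NeZero.ne n
  have hab : n = ordProj[l] n * ordCompl[l] n := (Nat.ordProj_mul_ordCompl_eq_self n l).symm
  have hcop : (ordProj[l] n).Coprime (ordCompl[l] n) :=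
    (Nat.coprime_ordCompl hl hn).pow_left _
  have hex : ∀ g : (ZMod n)ˣ, ∃ w : (ZMod n)ˣ,
      rr w ≡ rr g [MOD ordProj[l] n] ∧ rr w ≡ 1 [MOD ordCompl[l] n] := by
    intro g
    refine exists_unit_crt hab hcop (rr g) 1 ?_ (Nat.coprime_one_left _)
    exact (rr_coprime g).coprime_dvd_right (Nat.ordProj_dvd n l)
  choose κ hκ1 hκ2 using hex
  have r1 : ∀ d : ℕ, d ∣ n → rr (1 : (ZMod n)ˣ) ≡ 1 [MOD d] := fun d hd => (rr_one).of_dvd hd
  have d1 : ordProj[l] n ∣ n := Nat.ordProj_dvd n l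
  have d2 : ordCompl[l] n ∣ n := Nat.ordCompl_dvd n l
  refine ⟨{ toFun := κ, map_one' := ?_, map_mul' := ?_ }, ?_⟩
  · exact RComb_rr_ext hab hcop (hκ1 1) ((hκ2 1).trans (r1 _ d2).symm)
  · intro g h
    refine RComb_rr_ext hab hcop ?_ ?_
    · refine (hκ1 _).trans (((rr_mul g h).of_dvd d1).trans ?_)
      refine Nat.ModEq.trans ?_ ((rr_mul (κ g) (κ h)).of_dvd d1).symm
      exact ((hκ1 g).mul (hκ1 h)).symm
    · refine (hκ2 _).trans ?_
      refine Nat.ModEq.trans ?_ ((rr_mul (κ g) (κ h)).of_dvd d2).symm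
      have := ((hκ2 g).mul (hκ2 h)).symm
      rwa [one_mul] at this
  · intro g
    exact ⟨mem_Kl.2 (hκ2 g), hκ1 g⟩

private lemma t4A_proj_dvd_compl {n : ℕ} {l l' : ℕ} (hl : l.Prime) (hl' : l'.Prime)
    (hne : l' ≠ l) : ordProj[l] n ∣ ordCompl[l'] n := by
  have h3 : (ordProj[l] n).Coprime (ordProj[l'] n) :=
    Nat.Coprime.pow _ _ ((Nat.coprime_primes hl hl').2 (Ne.symm hne))
  refine h3.dvd_of_dvd_mul_left ?_
  rw [Nat.ordProj_mul_ordCompl_eq_self]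
  exact Nat.ordProj_dvd n l

private lemma t4A_hb_dvd {n : ℕ} (hn : n ≠ 0) {l : ℕ} (hl : l.Prime) (h : hb l ∣ n) :
    hb l ∣ ordProj[l] n := by
  have h1 : (hb l).Coprime (ordCompl[l] n) := by
    unfold hb
    split_ifs with h2
    · have h3 := (Nat.coprime_ordCompl hl hn).pow_left 2
      rw [h2] at h3 ⊢
      exact h3
    · exact Nat.coprime_ordCompl hl hn
  refine h1.dvd_of_dvd_mul_right ?_
  rw [Nat.ordProj_mul_ordCompl_eq_self]
  exact h

theorem exists_proj (n : ℕ) [NeZero n] (ls : List ℕ) (hp : ∀ l ∈ ls, l.Prime) :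
    ∃ κ : ℕ → (ZMod n)ˣ →* (ZMod n)ˣ, IsProj n κ ls := by
  classical
  have h : ∀ l : ℕ, ∃ κ : (ZMod n)ˣ →* (ZMod n)ˣ, l.Prime → ∀ g, κ g ∈ Kl n l ∧
      rr (κ g) ≡ rr g [MOD ordProj[l] n] := by
    intro l
    by_cases hl : l.Prime
    · obtain ⟨κ, hκ⟩ := t4A_single n l hl
      exact ⟨κ, fun _ => hκ⟩
    · exact ⟨1, fun h => absurd h hl⟩
  choose κ hκ using h
  exact ⟨κ, fun l hl g => hκ l (hp l hl) g⟩

theorem proj_dec (n : ℕ) [NeZero n] (ls : List ℕ) (hnd : ls.Nodup) (hp : ∀ l ∈ ls, l.Prime)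
    (hall : ∀ l : ℕ, l.Prime → l ∣ n → l ∈ ls) (κ : ℕ → (ZMod n)ˣ →* (ZMod n)ˣ)
    (hκ : IsProj n κ ls) : ProdDec (Kl n) κ ls := by
  have hn : n ≠ 0 := NeZero.ne n
  have hab : ∀ l : ℕ, n = ordProj[l] n * ordCompl[l] n :=
    fun l => (Nat.ordProj_mul_ordCompl_eq_self n l).symm
  have hcop : ∀ l : ℕ, l.Prime → (ordProj[l] n).Coprime (ordCompl[l] n) :=
    fun l hl => (Nat.coprime_ordCompl hl hn).pow_left _
  have r1 : ∀ d : ℕ, d ∣ n → rr (1 : (ZMod n)ˣ) ≡ 1 [MOD d] := fun d hd => (rr_one).of_dvd hd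
  have d1 : ∀ l : ℕ, ordProj[l] n ∣ n := fun l => Nat.ordProj_dvd n l
  have d2 : ∀ l : ℕ, ordCompl[l] n ∣ n := fun l => Nat.ordCompl_dvd n l
  refine ⟨hnd, fun l hl g => (hκ l hl g).1, ?_, ?_, ?_⟩
  · intro l hl g hg
    exact RComb_rr_ext (hab l) (hcop l (hp l hl)) (hκ l hl g).2
      ((mem_Kl.1 (hκ l hl g).1).trans (mem_Kl.1 hg).symm)
  · intro l hl l' hl' hne g hg
    have h1 : rr g ≡ 1 [MOD ordCompl[l'] n] := mem_Kl.1 hg
    have h2 : ordProj[l] n ∣ ordCompl[l'] n :=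
      t4A_proj_dvd_compl (hp l hl) (hp l' hl') hne
    exact RComb_rr_ext (hab l) (hcop l (hp l hl))
      ((hκ l hl g).2.trans ((h1.of_dvd h2).trans (r1 _ (d1 l)).symm))
      ((mem_Kl.1 (hκ l hl g).1).trans (r1 _ (d2 l)).symm)
  · intro g hg
    apply rr_inj
    refine Nat.ModEq.trans ?_ rr_one.symm
    rw [Nat.modEq_iff_dvd, Int.natCast_dvd, Nat.dvd_iff_prime_pow_dvd_dvd]
    intro p k hpp hpk
    rcases Nat.eq_zero_or_pos k with hk | hk
    · rw [hk, pow_zero]; exact one_dvd _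
    · have hpn : p ∣ n := (dvd_pow_self p (by omega)).trans hpk
      have hpl := hall p hpp hpn
      have h1 : rr g ≡ 1 [MOD ordProj[p] n] := by
        have h2 := (hκ p hpl g).2
        rw [hg p hpl] at h2
        exact h2.symm.trans (r1 _ (d1 p))
      have h2 : p ^ k ∣ ordProj[p] n :=
        pow_dvd_pow p ((hpp.pow_dvd_iff_le_factorization hn).1 hpk)
      have h3 := Nat.modEq_iff_dvd.1 (h1.of_dvd h2)
      exact Int.natCast_dvd.1 h3

theorem half_sys (n : ℕ) [NeZero n] (ls : List ℕ) (hp : ∀ l ∈ ls, l.Prime ∧ hb l ∣ n) :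
    HalfSys (Kl n) (-1) (fun l => {g : (ZMod n)ˣ | Half l (rr g)}) ls := by
  have hn : n ≠ 0 := NeZero.ne n
  refine ⟨by simp, ?_, ?_⟩
  · intro l hl g
    exact half_neg_iff (hp l hl).1 (hp l hl).2 g
  · intro l hl l' hl' hne k hk g
    exact half_mod (n := n) (t4A_hb_dvd hn (hp l hl).1 (hp l hl).2)
      (Kl_mul_mod hk (t4A_proj_dvd_compl (hp l hl).1 (hp l' hl').1 hne) g)

end Pool.Agent.FF
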