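import Pool.Agent.FF.Inv

/-!
# FF-UpForm

Proof plan. `Up_form` is extracted from the proof of `Up_bound'` in `Pool/Agent/FS/ROdd.lean`
(via `RUp_exists`, `RUp_dvd`, `RUp_upl_eq`, `RUp_eq_fib`, `RUp_key`). With
`n = upl m (addOrderOf x) / addOrderOf x`, `x = n * y₀`, put `a = n.factorization r`,
`c = r ^ a`, `d = ordCompl[r] n`, `y = d * (ide m r * y₀)`. Then `ide m r * y = y` by
`ide_mul_self`, `c * y = ide m r * (n * y₀) = ide m r * x`, the last clause is `RUp_key`,
`c ≤ qq m r / r` as in `Up_bound'` (`hle`). If `r * r` does not divide `addOrderOf x`, then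
`addOrderOf x` has exactly one factor `r`, `upl m (addOrderOf x)` has `m.factorization r` factors
`r` (it is a unitary divisor of `m` divisible by `r`, see `uni_ordProj`), so
`a = m.factorization r - 1` and `c = qq m r / r = Qr m r`.

`GG_form`: choose `c x`, `y x` for `x ∈ T` (`choose` for all `x` with `r ∣ addOrderOf x`; put
`P = T.map fun x => (c x, y x)` with junk values otherwise, or do induction over `T`).
-/

set_option autoImplicit false

namespace Pool.Agent.FF

open Finset Pool.Agent.FS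
open Pool.Agent.Helper9.Fermat (fib mem_fib)

section

variable {m : ℕ} [NeZero m]

theorem Up_form {r : ℕ} (hr : r.Prime) (x : ZMod m) (hx : r ∣ addOrderOf x) :
    ∃ (c : ℕ) (y : ZMod m), 0 < c ∧ c ≤ Qr m r ∧ ide m r * y = y ∧
      (c : ZMod m) * y = ide m r * x ∧ (¬ r * r ∣ addOrderOf x → c = Qr m r) ∧
      ∀ φ : ZMod m → ℤ, IsDist φ → ∑ w ∈ Up x, φ (ide m r * w) = (c : ℤ) * φ y := by
  have hm0 : m ≠ 0 := NeZero.ne m
  obtain ⟨y, hy⟩ := RUp_exists x
  have hdm := RUp_dvd x
  have hUe := RUp_upl_eq x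
  have hUm := (upl_uni (RUp_order_dvd x)).1.1
  have hUni := (upl_uni (RUp_order_dvd x)).1
  have hrU : r ∣ upl m (addOrderOf x) := hx.trans (upl_uni (RUp_order_dvd x)).2.1
  rw [RUp_eq_fib]
  set n := upl m (addOrderOf x) / addOrderOf x with hn
  have hn0 : n ≠ 0 := fun h => hm0 (Nat.eq_zero_of_zero_dvd (h ▸ hdm))
  have ho0 : addOrderOf x ≠ 0 := fun h => hm0 (Nat.eq_zero_of_zero_dvd (h ▸ RUp_order_dvd x))
  have hsplit : r ^ n.factorization r * (ordCompl[r] n) = n := Nat.ordProj_mul_ordCompl_eq_self n r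
  have hcop : ¬ r ∣ ordCompl[r] n := Nat.not_dvd_ordCompl hr hn0
  have hle : r ^ n.factorization r ≤ qq m r / r := by
    have h1 : r ^ (n.factorization r + 1) ∣ m := by
      refine dvd_trans ?_ hUm
      rw [← hUe, pow_succ']
      exact mul_dvd_mul hx (Nat.ordProj_dvd n r)
    have h2 : n.factorization r + 1 ≤ m.factorization r :=
      (hr.pow_dvd_iff_le_factorization hm0).1 h1
    rw [Nat.le_div_iff_mul_le hr.pos, ← pow_succ]
    exact Nat.pow_le_pow_right hr.pos h2
  have hE : ide m r * ide m r = ide m r := ide_mul_self r hr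
  have h6 : ((r ^ n.factorization r : ℕ) : ZMod m) * ((ordCompl[r] n : ℕ) : ZMod m) =
      (n : ZMod m) := by
    rw [← Nat.cast_mul, hsplit]
  refine ⟨r ^ n.factorization r, ((ordCompl[r] n : ℕ) : ZMod m) * (ide m r * y),
    pow_pos hr.pos _, hle, ?_, ?_, ?_, ?_⟩
  · linear_combination ((ordCompl[r] n : ℕ) : ZMod m) * y * hE
  · linear_combination (ide m r * y) * h6 - ide m r * hy
  · intro hrr
    have h7 : ordProj[r] (upl m (addOrderOf x)) = qq m r := uni_ordProj hUni hr hrU
    have h8 : (upl m (addOrderOf x)).factorization r =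
        (addOrderOf x).factorization r + n.factorization r := by
      rw [← hUe, Nat.factorization_mul ho0 hn0]
      rfl
    have h9 : (addOrderOf x).factorization r = 1 := by
      have h10 : 1 ≤ (addOrderOf x).factorization r := hr.factorization_pos_of_dvd ho0 hx
      by_contra hne
      have h11 : 2 ≤ (addOrderOf x).factorization r := by omega
      have h12 : r ^ 2 ∣ addOrderOf x := (hr.pow_dvd_iff_le_factorization ho0).2 h11
      exact hrr (by rwa [pow_two] at h12)
    unfold Qr
    rw [← h7, h8, h9, pow_add, pow_one, Nat.mul_div_cancel_left _ hr.pos]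
  · intro φ hφ
    have hkey := RUp_key (m := m) hr hcop (hsplit.symm ▸ hdm) hφ y
    rw [hsplit, ← hy] at hkey
    exact hkey

theorem GG_form {r : ℕ} (hr : r.Prime) (T : Multiset (ZMod m)) (hT : ∀ x ∈ T, r ∣ addOrderOf x) :
    ∃ P : Multiset (ℕ × ZMod m), P.card = T.card ∧
      (∀ p ∈ P, 0 < p.1 ∧ p.1 ≤ Qr m r ∧ ide m r * p.2 = p.2) ∧
      ∀ φ : ZMod m → ℤ, IsDist φ →
        GG T (fun w => φ (ide m r * w)) = (P.map fun p => (p.1 : ℤ) * φ p.2).sum := by
  induction T using Multiset.induction_on with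
  | empty =>
    refine ⟨0, rfl, ?_, ?_⟩
    · intro p hp
      exact absurd hp (Multiset.notMem_zero p)
    · intro φ _
      simp [GG]
  | cons x T ih =>
    obtain ⟨P, hP1, hP2, hP3⟩ := ih fun z hz => hT z (Multiset.mem_cons_of_mem hz)
    obtain ⟨c, y, hc0, hcQ, hy, -, -, hsum⟩ := Up_form hr x (hT x (Multiset.mem_cons_self x T))
    refine ⟨(c, y) ::ₘ P, ?_, ?_, ?_⟩
    · rw [Multiset.card_cons, Multiset.card_cons, hP1]
    · intro p hp
      rcases Multiset.mem_cons.mp hp with rfl | hp
      · exact ⟨hc0, hcQ, hy⟩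
      · exact hP2 p hp
    · intro φ hφ
      have h1 := hP3 φ hφ
      have h2 := hsum φ hφ
      unfold GG at h1 ⊢
      rw [Multiset.map_cons, Multiset.sum_cons, Multiset.map_cons, Multiset.sum_cons, h1, h2]

end

end Pool.Agent.FF
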