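import Pool.Agent.FF.UpForm
import Pool.Agent.FF.WForm
import Pool.Agent.FF.HalfSum

/-!
# FF-VSet

Proof plan (`exists_V`). Let `Q = Qr m r`, `E β = emb m r β` (additive in `β`, order `r` for
`β ≠ 0`; `t * E β = E (t̄ β)` with `t̄` the image of the unit `t` in `ℤ/r`, `Mixed_mul_emb`).
Let `(u, v) = (3, 1)` if `z` has order `3` and `(2, 2)` if `z` has order `4`, and
`V = {Q z + E β : β ∈ HS r} + {E (v β) : β ∈ HS r, u⁻¹ β ∉ HS r}`.
* orders: `addOrderOf (Q z) = addOrderOf z` (`Q` is a power of `r`, prime to `3` and `4`), and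
  `AddCommute.addOrderOf_add_eq_mul_addOrderOf_of_coprime`.
* `KInv`. Fix `t`, let `s1 β = sw (t (Q z + E β))`, `s0 β = sw (t E (v β))`. For `h ∈ Kl m r`,
  `h z = z` (`ide_mul_eq_self`, `Kl_mul_ide`) and `h E β = E (h̄ β)`, so the weight of `V` at `t h` is
  `∑ HS, s1 (h̄ β) + ∑ ..., s0 (h̄ β)`, and `half_sum` shows that twice it does not depend on `h̄`.
  The hypothesis `h1` of `half_sum`: the distribution relations of `sw (t ·)`
  (`isDist_sw_unit t`). Order `3`: the prime `3`, the fiber over `3 (Q z + E β)` is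
  `{E β, Q z + E β, - Q z + E β}`, so `sw (t E β) + s1 β - s1 (-β) = sw (t E (3 β))`
  (`sw (t (- Q z + E β)) = - s1 (-β)`). Order `4`: the prime `2`, `2 Q z = m / 2`, the fiber over
  `2 (Q z + E β)` is `{Q z + E β, - Q z + E β}`: `s1 β - s1 (-β) = sw (t (2 Q z + E (2 β)))`, and the
  fiber over `2 E (2 β)` is `{E (2 β), 2 Q z + E (2 β)}`:
  `sw (t E (2 β)) + sw (t (2 Q z + E (2 β))) = sw (t E (4 β))`.
* `Gr`. For `x ∈ V` use `Up_form` (`r * r` does not divide the order), so `c = Q` and
  `Q y = ide x`. `ide (Q z + E β) = Q z`, so `Q (y - z) = 0`, `y = z` (`ide_cancel`); for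
  `x = E (v β)`: `ide x = 0`, `y = 0`. So `Gr r V t = card (HS r) * Q * sw (t z)` and
  `card (HS r) = Dr r`.
-/

set_option autoImplicit false

namespace Pool.Agent.FF

open Finset Pool.Agent.FS
open Pool.Agent.Helper9.Fermat (fib mem_fib)
open Pool.Agent.FS.Quot (sw_zero sw_neg)

section

variable {m : ℕ} [NeZero m]

omit [NeZero m] in
private theorem vset_emb_add {r : ℕ} [NeZero r] (hrm : r ∣ m) (a b : ZMod r) :
    emb m r (a + b) = emb m r a + emb m r b := by
  unfold emb
  rw [← Nat.cast_add, ← mul_add]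
  apply emb_modEq hrm
  rw [← ZMod.natCast_eq_natCast_iff]
  push_cast
  simp only [ZMod.natCast_zmod_val]

omit [NeZero m] in
private theorem vset_emb_mul {r : ℕ} [NeZero r] (hrm : r ∣ m) (k : ℕ) (a : ZMod r) :
    emb m r ((k : ZMod r) * a) = (k : ZMod m) * emb m r a := by
  unfold emb
  rw [← Nat.cast_mul, mul_left_comm]
  apply emb_modEq hrm
  rw [← ZMod.natCast_eq_natCast_iff]
  push_cast
  simp only [ZMod.natCast_zmod_val]

omit [NeZero m] in
private theorem vset_emb_zero {r : ℕ} [NeZero r] : emb m r (0 : ZMod r) = 0 := by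
  unfold emb
  simp

omit [NeZero m] in
private theorem vset_emb_neg {r : ℕ} [NeZero r] (hrm : r ∣ m) (a : ZMod r) :
    emb m r (-a) = - emb m r a := by
  apply eq_neg_of_add_eq_zero_left
  rw [← vset_emb_add hrm, neg_add_cancel, vset_emb_zero]

private theorem vset_emb_order {r : ℕ} [NeZero r] (hr : r.Prime) (hrm : r ∣ m) (β : ZMod r)
    (hβ : β ≠ 0) : addOrderOf (emb m r β) = r := by
  have : Fact r.Prime := ⟨hr⟩
  exact (exists_emb hrm _).2 ⟨Units.mk0 β hβ, rfl⟩

private theorem vset_ide_emb {r : ℕ} [NeZero r] (hr : r.Prime) (hrm : r ∣ m) (β : ZMod r) :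
    ide m r * emb m r β = 0 := by
  refine RUp_ide_zero (a := 1) hr ?_
  rw [pow_one, ← vset_emb_mul hrm r β, ZMod.natCast_self, zero_mul, vset_emb_zero]

private theorem vset_dist3 {g : ZMod m → ℤ} (hg : IsDist g) (h3m : 3 ∣ m) {A : ZMod m}
    (hA : (3 : ZMod m) * A = 0) (hA0 : A ≠ 0) (x : ZMod m) :
    g (A + x) + (g (-A + x) + g x) = g (3 * x) := by
  have h := hg 3 Nat.prime_three h3m x
  have hcard := Pool.Agent.Helper9.Fermat.fib_card (m := m) (by norm_num : 0 < 3) h3m x
  have h2A : (2 : ZMod m) * A ≠ 0 := fun h => hA0 (by linear_combination hA - h)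
  have n1 : -A + x ∉ ({x} : Finset (ZMod m)) := by
    rw [mem_singleton]
    intro h
    exact hA0 (by linear_combination -h)
  have n2 : A + x ∉ ({-A + x, x} : Finset (ZMod m)) := by
    rw [mem_insert, mem_singleton, not_or]
    exact ⟨fun h => h2A (by linear_combination h), fun h => hA0 (by linear_combination h)⟩
  have hset : fib m 3 (((3 : ℕ) : ZMod m) * x) = {A + x, -A + x, x} := by
    symm
    apply Finset.eq_of_subset_of_card_le
    · intro y hy
      rw [mem_insert, mem_insert, mem_singleton] at hy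
      rw [mem_fib]
      push_cast
      rcases hy with rfl | rfl | rfl
      · linear_combination hA
      · linear_combination -hA
      · rfl
    · rw [hcard, card_insert_of_notMem n2, card_insert_of_notMem n1, card_singleton]
  rw [hset, sum_insert n2, sum_insert n1, sum_singleton] at h
  push_cast at h
  exact h

private theorem vset_dist2 {g : ZMod m → ℤ} (hg : IsDist g) (h2m : 2 ∣ m) {B : ZMod m}
    (hB : (2 : ZMod m) * B = 0) (hB0 : B ≠ 0) (x : ZMod m) :
    g (B + x) + g x = g (2 * x) := by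
  have h := hg 2 Nat.prime_two h2m x
  have hcard := Pool.Agent.Helper9.Fermat.fib_card (m := m) (by norm_num : 0 < 2) h2m x
  have n1 : B + x ∉ ({x} : Finset (ZMod m)) := by
    rw [mem_singleton]
    intro h
    exact hB0 (by linear_combination h)
  have hset : fib m 2 (((2 : ℕ) : ZMod m) * x) = {B + x, x} := by
    symm
    apply Finset.eq_of_subset_of_card_le
    · intro y hy
      rw [mem_insert, mem_singleton] at hy
      rw [mem_fib]
      push_cast
      rcases hy with rfl | rfl
      · linear_combination hB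
      · rfl
    · rw [hcard, card_insert_of_notMem n1, card_singleton]
  rw [hset, sum_insert n1, sum_singleton] at h
  push_cast at h
  exact h

/-- the multiset -/
private def vsetV (m r : ℕ) [NeZero r] (A : ZMod m) (u v : ZMod r) : Multiset (ZMod m) :=
  (HS r).val.map (fun β => A + emb m r β) +
    ((HS r).filter fun β => u⁻¹ * β ∉ HS r).val.map (fun β => emb m r (v * β))

omit [NeZero m] in
private theorem vset_sum {r : ℕ} [NeZero r] (A : ZMod m) (u v : ZMod r) (f : ZMod m → ℤ) :
    ((vsetV m r A u v).map f).sum = ∑ β ∈ HS r, f (A + emb m r β) +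
      ∑ β ∈ (HS r).filter (fun β => u⁻¹ * β ∉ HS r), f (emb m r (v * β)) := by
  unfold vsetV
  rw [Multiset.map_add, Multiset.sum_add, Multiset.map_map, Multiset.map_map]
  rfl

private theorem vset_kinv {r : ℕ} [NeZero r] (hr : r.Prime) (hr3 : 3 ≤ r) (hrm : r ∣ m)
    {A : ZMod m} (hA : ide m r * A = A) {u v : ZMod r} (hu : u ≠ 0)
    (h1 : ∀ (t : (ZMod m)ˣ) (β : ZMod r), sw ((t : ZMod m) * (A + emb m r β)) -
      sw ((t : ZMod m) * (A + emb m r (-β))) = sw ((t : ZMod m) * emb m r (v * (u * β))) -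
        sw ((t : ZMod m) * emb m r (v * β))) : KInv r (vsetV m r A u v) := by
  have : Fact r.Prime := ⟨hr⟩
  intro t h hh
  rw [vset_sum, vset_sum]
  have e1 : ∀ β : ZMod r, ((t * h : (ZMod m)ˣ) : ZMod m) * (A + emb m r β) =
      (t : ZMod m) * (A + emb m r (((ZMod.unitsMap hrm h : (ZMod r)ˣ) : ZMod r) * β)) := by
    intro β
    have h2 : (h : ZMod m) * A = A := by
      rw [← hA]
      exact Kl_mul_ide r hr h hh A
    rw [Units.val_mul, mul_assoc, mul_add, Mixed_mul_emb hrm h β, h2]
  have e2 : ∀ β : ZMod r, ((t * h : (ZMod m)ˣ) : ZMod m) * emb m r (v * β) =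
      (t : ZMod m) * emb m r (v * (((ZMod.unitsMap hrm h : (ZMod r)ˣ) : ZMod r) * β)) := by
    intro β
    rw [Units.val_mul, mul_assoc, Mixed_mul_emb hrm, mul_left_comm]
  simp only [e1, e2]
  have h0 : ∀ β : ZMod r, (fun β => sw ((t : ZMod m) * emb m r (v * β))) (-β) =
      - (fun β => sw ((t : ZMod m) * emb m r (v * β))) β := by
    intro β
    change sw ((t : ZMod m) * emb m r (v * (-β))) = - sw ((t : ZMod m) * emb m r (v * β))
    rw [mul_neg, vset_emb_neg hrm, mul_neg, sw_neg]
  have k1 := half_sum r hr3 u hu (fun β => sw ((t : ZMod m) * emb m r (v * β)))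
    (fun β => sw ((t : ZMod m) * (A + emb m r β))) h0 (fun β _ => h1 t β)
    ((ZMod.unitsMap hrm h : (ZMod r)ˣ) : ZMod r) (Units.ne_zero _)
  have k2 := half_sum r hr3 u hu (fun β => sw ((t : ZMod m) * emb m r (v * β)))
    (fun β => sw ((t : ZMod m) * (A + emb m r β))) h0 (fun β _ => h1 t β) 1 one_ne_zero
  simp only [one_mul] at k2
  linarith

private theorem vset_term {r : ℕ} (hr : r.Prime) (hrm : r ∣ m) (t : (ZMod m)ˣ)
    (x y : ZMod m) (hx : r ∣ addOrderOf x) (hx2 : ¬ r * r ∣ addOrderOf x)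
    (hy : ide m r * y = y) (h : (Qr m r : ZMod m) * y = ide m r * x) :
    ∑ w ∈ Up x, sw ((t : ZMod m) * (ide m r * w)) = (Qr m r : ℤ) * sw ((t : ZMod m) * y) := by
  obtain ⟨c, y', -, -, hy', hcy, hc, hφ⟩ := Up_form hr x hx
  have h1 := hφ _ (isDist_sw_unit t)
  have h2 : c = Qr m r := hc hx2
  rw [h2] at hcy h1
  have h3 : ide m r * (y' - y) = y' - y := by rw [mul_sub, hy', hy]
  have h4 := ide_cancel hr hrm (y' - y) h3 1 (by
    rw [one_mul, mul_sub, hcy, h, sub_self])
  rw [one_mul, sub_eq_zero] at h4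
  rw [h1, h4]

theorem exists_V {r : ℕ} (hr : r.Prime) (hr5 : 5 ≤ r) (hrm : r ∣ m) (z : ZMod m)
    (hz : addOrderOf z = 3 ∨ addOrderOf z = 4) :
    ∃ V : Multiset (ZMod m), (∀ x ∈ V, addOrderOf x = r ∨ addOrderOf x = addOrderOf z * r) ∧
      KInv r V ∧ ∀ t, Gr r V t = ((Qr m r * Dr r : ℕ) : ℤ) * sw ((t : ZMod m) * z) := by
  have hfact : Fact r.Prime := ⟨hr⟩
  have hne : NeZero r := ⟨hr.ne_zero⟩
  have hzm : addOrderOf z ∣ m := RUp_order_dvd z
  have hrz : ¬ r ∣ addOrderOf z := by
    intro h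
    have := Nat.le_of_dvd (by omega) h
    rcases hz with hz | hz
    · omega
    · omega
  have hrz' : r.Coprime (addOrderOf z) := (Nat.Prime.coprime_iff_not_dvd hr).2 hrz
  have hide : ide m r * z = z := ide_mul_eq_self r hr z hrz
  obtain ⟨a, -, ha⟩ := RNorm_qq_div (m := m) r hr hrm
  have hQ : Qr m r = r ^ a := ha
  set A : ZMod m := (Qr m r : ZMod m) * z with hAdef
  have hAo : addOrderOf A = addOrderOf z := by
    rw [hAdef]
    apply RNorm_ord_nsmul
    rw [hQ]
    exact (Nat.Coprime.pow_left a hrz').symm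
  have hAide : ide m r * A = A := by
    rw [hAdef, mul_left_comm, hide]
  have hr2 : (2 : ZMod r) ≠ 0 := by
    intro h
    have h1 : ((2 : ℕ) : ZMod r) = 0 := by push_cast; exact h
    rw [ZMod.natCast_eq_zero_iff] at h1
    have := Nat.le_of_dvd (by norm_num) h1
    omega
  have hr3 : (3 : ZMod r) ≠ 0 := by
    intro h
    have h1 : ((3 : ℕ) : ZMod r) = 0 := by push_cast; exact h
    rw [ZMod.natCast_eq_zero_iff] at h1
    have := Nat.le_of_dvd (by norm_num) h1
    omega
  -- the choice of `u` and `v`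
  obtain ⟨u, v, hu, hv, h1⟩ : ∃ u v : ZMod r, u ≠ 0 ∧ v ≠ 0 ∧
      ∀ (t : (ZMod m)ˣ) (β : ZMod r), sw ((t : ZMod m) * (A + emb m r β)) -
      sw ((t : ZMod m) * (A + emb m r (-β))) = sw ((t : ZMod m) * emb m r (v * (u * β))) -
        sw ((t : ZMod m) * emb m r (v * β)) := by
    have hneg : ∀ (t : (ZMod m)ˣ) (β : ZMod r), sw ((t : ZMod m) * (-A + emb m r β)) =
        - sw ((t : ZMod m) * (A + emb m r (-β))) := by
      intro t β
      rw [vset_emb_neg hrm, ← sw_neg]
      congr 1
      ring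
    rcases hz with hz | hz
    · refine ⟨3, 1, hr3, one_ne_zero, fun t β => ?_⟩
      have hA3 : (3 : ZMod m) * A = 0 := by
        have h := addOrderOf_nsmul_eq_zero A
        rw [hAo, hz, nsmul_eq_mul] at h
        exact_mod_cast h
      have hA0 : A ≠ 0 := by
        intro h
        rw [h, addOrderOf_zero, hz] at hAo
        omega
      have h2 := vset_dist3 (isDist_sw_unit t) (hz ▸ hzm) hA3 hA0 (emb m r β)
      have h3 : (3 : ZMod m) * emb m r β = emb m r (1 * (3 * β)) := by
        have := vset_emb_mul hrm 3 β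
        push_cast at this
        rw [one_mul, this]
      rw [h3, hneg] at h2
      rw [one_mul β]
      linarith
    · refine ⟨2, 2, hr2, hr2, fun t β => ?_⟩
      have hA4 : (4 : ZMod m) * A = 0 := by
        have h := addOrderOf_nsmul_eq_zero A
        rw [hAo, hz, nsmul_eq_mul] at h
        exact_mod_cast h
      have hB0 : (2 : ZMod m) * A ≠ 0 := by
        intro h
        have h5 : addOrderOf A ∣ 2 := by
          rw [addOrderOf_dvd_iff_nsmul_eq_zero, nsmul_eq_mul]
          exact_mod_cast h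
        rw [hAo, hz] at h5
        omega
      have hB : (2 : ZMod m) * (2 * A) = 0 := by linear_combination hA4
      have h2m : 2 ∣ m := (by norm_num : 2 ∣ 4).trans (hz ▸ hzm)
      have h2 := vset_dist2 (isDist_sw_unit t) h2m hB hB0 (-A + emb m r β)
      have h3 := vset_dist2 (isDist_sw_unit t) h2m hB hB0 (emb m r (2 * β))
      have e1 : 2 * A + (-A + emb m r β) = A + emb m r β := by ring
      have e2 : (2 : ZMod m) * (-A + emb m r β) = 2 * A + emb m r (2 * β) := by
        have := vset_emb_mul hrm 2 β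
        push_cast at this
        rw [this]
        linear_combination -hA4
      have e3 : (2 : ZMod m) * emb m r (2 * β) = emb m r (2 * (2 * β)) := by
        have := vset_emb_mul hrm 2 (2 * β)
        push_cast at this
        rw [this]
      simp only [e1, e2, e3, hneg] at h2 h3
      linarith
  -- elements of the half system
  have hHS : ∀ β ∈ HS r, β ≠ 0 := by
    intro β hβ
    unfold HS at hβ
    exact (mem_filter.1 hβ).2.1
  have ho1 : ∀ β : ZMod r, β ≠ 0 → addOrderOf (A + emb m r β) = addOrderOf z * r := by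
    intro β hβ
    have h2 := vset_emb_order hr hrm β hβ
    have h3 := (AddCommute.all A (emb m r β)).addOrderOf_add_eq_mul_addOrderOf_of_coprime (by
      rw [hAo, h2]
      exact hrz'.symm)
    rw [h3, hAo, h2]
  have ho2 : ∀ β : ZMod r, β ≠ 0 → addOrderOf (emb m r (v * β)) = r := fun β hβ =>
    vset_emb_order hr hrm _ (mul_ne_zero hv hβ)
  refine ⟨vsetV m r A u v, ?_, vset_kinv hr (by omega) hrm hAide hu h1, ?_⟩
  · intro x hx
    unfold vsetV at hx
    rw [Multiset.mem_add, Multiset.mem_map, Multiset.mem_map] at hx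
    rcases hx with ⟨β, hβ, rfl⟩ | ⟨β, hβ, rfl⟩
    · exact Or.inr (ho1 β (hHS β hβ))
    · exact Or.inl (ho2 β (hHS β (mem_filter.1 hβ).1))
  · intro t
    have hg : Gr r (vsetV m r A u v) t = ((vsetV m r A u v).map fun x =>
        ∑ w ∈ Up x, sw ((t : ZMod m) * (ide m r * w))).sum := rfl
    rw [hg, vset_sum]
    have hrr1 : ¬ r * r ∣ addOrderOf z * r := by
      intro h
      exact hrz (Nat.dvd_of_mul_dvd_mul_right hr.pos h)
    have hrr2 : ¬ r * r ∣ r := by
      intro h
      have := Nat.le_of_dvd hr.pos h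
      nlinarith
    have s1 : ∀ β ∈ HS r, ∑ w ∈ Up (A + emb m r β), sw ((t : ZMod m) * (ide m r * w)) =
        (Qr m r : ℤ) * sw ((t : ZMod m) * z) := by
      intro β hβ
      refine vset_term hr hrm t _ z ?_ ?_ hide ?_
      · rw [ho1 β (hHS β hβ)]
        exact dvd_mul_left _ _
      · rw [ho1 β (hHS β hβ)]
        exact hrr1
      · rw [mul_add, vset_ide_emb hr hrm, add_zero, hAide]
    have s2 : ∀ β ∈ (HS r).filter (fun β => u⁻¹ * β ∉ HS r),
        ∑ w ∈ Up (emb m r (v * β)), sw ((t : ZMod m) * (ide m r * w)) = 0 := by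
      intro β hβ
      have hβ' := hHS β (mem_filter.1 hβ).1
      rw [vset_term hr hrm t _ 0 ?_ ?_ (mul_zero _) ?_, mul_zero, sw_zero, mul_zero]
      · rw [ho2 β hβ']
      · rw [ho2 β hβ']
        exact hrr2
      · rw [vset_ide_emb hr hrm, mul_zero]
    rw [sum_congr rfl s1, sum_congr rfl s2, sum_const, sum_const_zero, add_zero,
      card_HS r (by omega), nsmul_eq_mul]
    unfold Dr
    push_cast
    ring

end

end Pool.Agent.FF
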