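import Pool.Agent.FF.UpForm

/-!
# FF-YbdA

Proof plan.
* `y_bound`. `2 m * GG T (φ (ide * ·)) = a G u + b G v + c G 1` (`GG_add`, `GG_map`), and by `hy`
  this is `Q D' (a sw (u y) + b sw (v y) + c sw y) = 2 m Q D' φ y`. So `GG T (φ (ide * ·)) =
  Q D' φ y`. By `GG_form`, `|GG T (φ (ide * ·))| ≤ T.card * Q * C`. Cancel `Q > 0`.
  (To apply it to `t * y` instead of `y` use the hypothesis for `t * y`, see `y_cases`.)
* `exists_part`. The element `1 + (d - 1) (1 - ide m l)`; for `d' d ≡ 1 mod qq m l`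
  (`Int.isCoprime`, `d` prime to `l`, so to the power `qq m l`) it is inverse to
  `1 + (d' - 1) (1 - ide m l)`, as `(1 - ide)² = 1 - ide` and `qq m l * (1 - ide) = 0`
  (`RNorm_qq_ide`, `ide_mul_self`).
-/

set_option autoImplicit false

namespace Pool.Agent.FF

open Finset Pool.Agent.FS
open Pool.Agent.Helper9.Fermat (fib mem_fib)

section

variable {m : ℕ} [NeZero m]

theorem y_bound {r : ℕ} (hr : r.Prime) (hrm : r ∣ m) {T : Multiset (ZMod m)}
    (hTr : ∀ x ∈ T, r ∣ addOrderOf x) (y : ZMod m)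
    (hy : ∀ t : (ZMod m)ˣ, Gr r T t = ((Qr m r * Dr r : ℕ) : ℤ) * sw ((t : ZMod m) * y))
    (φ : ZMod m → ℤ) (hφ : IsDist φ) (C : ℕ) (hC : ∀ x, |φ x| ≤ C) (a b c : ℤ) (u v : (ZMod m)ˣ)
    (hform : ∀ x, (2 * m : ℤ) * φ x = a * sw ((u : ZMod m) * x) + b * sw ((v : ZMod m) * x) +
      c * sw x) :
    (Dr r : ℤ) * |φ y| ≤ (T.card : ℤ) * C := by
  classical
  set S : ℤ := GG T (fun w => φ (ide m r * w)) with hS
  have hm0 : (m : ℤ) ≠ 0 := Nat.cast_ne_zero.2 (NeZero.ne m)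
  have hQ : 0 < Qr m r := Qr_pos hr hrm
  -- the value
  have h1 : (2 * m : ℤ) * S = (2 * m : ℤ) * (((Qr m r * Dr r : ℕ) : ℤ) * φ y) := by
    have e1 : (2 * m : ℤ) * S = GG T (fun w => (2 * m : ℤ) * φ (ide m r * w)) :=
      GG_map T (AddMonoidHom.mulLeft (2 * m : ℤ)) fun w => φ (ide m r * w)
    have e2 : GG T (fun w => (2 * m : ℤ) * φ (ide m r * w)) =
        GG T (fun w => a * sw ((u : ZMod m) * (ide m r * w)) +
          b * sw ((v : ZMod m) * (ide m r * w)) + c * sw (ide m r * w)) :=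
      GG_congr T fun x _ w _ => hform _
    have e3 : GG T (fun w => a * sw ((u : ZMod m) * (ide m r * w))) = a * Gr r T u :=
      (GG_map T (AddMonoidHom.mulLeft a) fun w => sw ((u : ZMod m) * (ide m r * w))).symm
    have e4 : GG T (fun w => b * sw ((v : ZMod m) * (ide m r * w))) = b * Gr r T v :=
      (GG_map T (AddMonoidHom.mulLeft b) fun w => sw ((v : ZMod m) * (ide m r * w))).symm
    have e5 : GG T (fun w => c * sw (ide m r * w)) = c * Gr r T 1 := by
      have := (GG_map T (AddMonoidHom.mulLeft c) fun w =>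
        sw (((1 : (ZMod m)ˣ) : ZMod m) * (ide m r * w))).symm
      simp only [Units.val_one, one_mul] at this
      unfold Gr
      simp only [Units.val_one, one_mul]
      exact this
    rw [e1, e2, GG_add, GG_add, e3, e4, e5, hy, hy, hy, Units.val_one, one_mul]
    linear_combination (-(((Qr m r * Dr r : ℕ) : ℤ))) * hform y
  have h2 : S = ((Qr m r * Dr r : ℕ) : ℤ) * φ y :=
    mul_left_cancel₀ (mul_ne_zero two_ne_zero hm0) h1
  obtain ⟨P, hPc, hP, hPs⟩ := GG_form hr T hTr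
  have h3 : |S| ≤ (T.card : ℤ) * ((Qr m r : ℤ) * C) := by
    rw [hS, hPs φ hφ, ← hPc]
    refine (Multiset.abs_sum_le_sum_abs).trans ?_
    rw [Multiset.map_map]
    have h4 : ∀ z ∈ P.map (abs ∘ fun p : ℕ × ZMod m => (p.1 : ℤ) * φ p.2),
        z ≤ (Qr m r : ℤ) * C := by
      intro z hz
      rw [Multiset.mem_map] at hz
      obtain ⟨p, hp, rfl⟩ := hz
      rw [Function.comp_apply, abs_mul, Nat.abs_cast]
      obtain ⟨_, h6, _⟩ := hP p hp
      exact mul_le_mul (by exact_mod_cast h6) (hC _) (abs_nonneg _) (by positivity)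
    have h5 := Multiset.sum_le_card_nsmul _ _ h4
    rw [Multiset.card_map, nsmul_eq_mul] at h5
    exact h5
  rw [h2, abs_mul, Nat.abs_cast] at h3
  push_cast at h3
  have h6 : (0 : ℤ) < Qr m r := by exact_mod_cast hQ
  have h7 : (Qr m r : ℤ) * ((Dr r : ℤ) * |φ y|) ≤ (Qr m r : ℤ) * ((T.card : ℤ) * C) := by
    calc (Qr m r : ℤ) * ((Dr r : ℤ) * |φ y|) = (Qr m r : ℤ) * (Dr r : ℤ) * |φ y| := by ring
      _ ≤ (T.card : ℤ) * ((Qr m r : ℤ) * C) := h3
      _ = (Qr m r : ℤ) * ((T.card : ℤ) * C) := by ring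
  exact le_of_mul_le_mul_left h7 h6

theorem exists_part {l : ℕ} (hl : l.Prime) (d : ℤ) (hd : ¬ (l : ℤ) ∣ d) :
    ∃ u : (ZMod m)ˣ, (u : ZMod m) = 1 + ((d : ZMod m) - 1) * (1 - ide m l) := by
  have hcop : IsCoprime d (qq m l : ℤ) := by
    have h1 : IsCoprime (l : ℤ) d := (Nat.prime_iff_prime_int.1 hl).coprime_iff_not_dvd.2 hd
    have h2 : ((qq m l : ℕ) : ℤ) = (l : ℤ) ^ m.factorization l := by
      unfold qq
      push_cast
      rfl
    rw [h2]
    exact h1.symm.pow_right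
  obtain ⟨a, b, hab⟩ := hcop
  have hE : (1 - ide m l) * (1 - ide m l) = 1 - ide m l := by
    have := ide_mul_self (m := m) l hl
    linear_combination this
  have hq : (qq m l : ZMod m) * (1 - ide m l) = 0 := by
    have := RNorm_qq_ide (m := m) l hl
    linear_combination -this
  have hab' : (a : ZMod m) * (d : ZMod m) + (b : ZMod m) * (qq m l : ZMod m) = 1 := by
    have := congrArg (fun z : ℤ => (z : ZMod m)) hab
    push_cast at this
    exact this
  refine ⟨Units.mkOfMulEqOne (1 + ((d : ZMod m) - 1) * (1 - ide m l))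
    (1 + ((a : ZMod m) - 1) * (1 - ide m l)) ?_, rfl⟩
  linear_combination ((d : ZMod m) - 1) * ((a : ZMod m) - 1) * hE + (1 - ide m l) * hab' -
    (b : ZMod m) * hq

end

end Pool.Agent.FF
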