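import Pool.Agent.FF.Inv

/-!
# FF-YbdB

Proof plan.
* `unit_fix`. `u, v` units, `u = v + 2`, `n = addOrderOf y`. We may assume `2 y ≠ 0` (if `2 y = 0`
  then `u y = y` because `rr u` is odd). There is a unit `t` with `t y = m / n`
  (`exists_emb`, `Mixed_mul_emb`: `y = emb m n w`, take `t` above `w⁻¹`,
  `ZMod.unitsMap_surjective`). Put `e = m / n`, `x = t y = (e : ZMod m)`, `val x = e`. Let
  `a = val (u x)`, a positive multiple of `e` less than `m` (`u x = rr u * e`). If `2 e < a`, then
  `val (v x) = val (u x - 2 x) = a - 2 e` and the sum in `h` is `-2 m ≠ 0`. `a = 2 e` is impossible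
  (`v x ≠ 0` as `v` is a unit). So `a = e`, `u x = x`, `u y = y`.
-/

set_option autoImplicit false

namespace Pool.Agent.FF

open Finset Pool.Agent.FS
open Pool.Agent.Helper9.Fermat (fib mem_fib)

section

variable {m : ℕ} [NeZero m]

theorem unit_fix (hm : Even m) (y : ZMod m) (u v : (ZMod m)ˣ) (huv : (u : ZMod m) = (v : ZMod m) + 2)
    (h : ∀ t : (ZMod m)ˣ, sw ((v : ZMod m) * ((t : ZMod m) * y)) -
      sw ((u : ZMod m) * ((t : ZMod m) * y)) + 2 * sw ((t : ZMod m) * y) = 0) :
    (u : ZMod m) * y = y := by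
  by_cases h2 : (2 : ZMod m) * y = 0
  · have hu : Nat.Coprime (u : ZMod m).val m := ZMod.val_coe_unit_coprime u
    have hodd : (u : ZMod m).val % 2 = 1 := by
      by_contra hcon
      have h2d : 2 ∣ (u : ZMod m).val := by omega
      have h3 := Nat.dvd_gcd h2d hm.two_dvd
      rw [hu] at h3
      omega
    have e1 : (u : ZMod m) = ((2 * ((u : ZMod m).val / 2) + 1 : ℕ) : ZMod m) := by
      have e2 : 2 * ((u : ZMod m).val / 2) + 1 = (u : ZMod m).val := by omega
      rw [e2, ZMod.natCast_val, ZMod.cast_id]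
    rw [e1, Nat.cast_add, Nat.cast_mul, Nat.cast_one, add_mul, one_mul]
    have e3 : ((2 : ℕ) : ZMod m) * (((u : ZMod m).val / 2 : ℕ) : ZMod m) * y =
        (((u : ZMod m).val / 2 : ℕ) : ZMod m) * (2 * y) := by
      push_cast
      ring
    rw [e3, h2, mul_zero, zero_add]
  · have hy0 : y ≠ 0 := by
      rintro rfl
      exact h2 (mul_zero _)
    set n : ℕ := addOrderOf y with hndef
    have hn : n ∣ m := by
      have h3 := addOrderOf_dvd_card (x := y)
      rwa [ZMod.card] at h3
    have hm0 : 0 < m := Nat.pos_of_ne_zero (NeZero.ne m)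
    have hn0 : n ≠ 0 := by
      intro h0
      rw [h0] at hn
      exact NeZero.ne m (Nat.eq_zero_of_zero_dvd hn)
    have hn1 : n ≠ 1 := by
      intro h1
      exact hy0 (AddMonoid.addOrderOf_eq_one_iff.1 h1)
    have : NeZero n := ⟨hn0⟩
    have hf : Fact (1 < n) := ⟨by omega⟩
    obtain ⟨w, hw⟩ := (exists_emb hn y).1 hndef.symm
    obtain ⟨t, ht⟩ := ZMod.unitsMap_surjective hn w⁻¹
    have hx : (t : ZMod m) * y = ((m / n : ℕ) : ZMod m) := by
      rw [hw, Mixed_mul_emb hn t, ht, ← Units.val_mul, inv_mul_cancel, Units.val_one]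
      unfold emb
      rw [ZMod.val_one, mul_one]
    have hen : n * (m / n) = m := Nat.mul_div_cancel' hn
    set e : ℕ := m / n with he
    have he0 : 0 < e := Nat.pos_of_ne_zero (by
      intro h0
      rw [h0, mul_zero] at hen
      omega)
    have hem : e < m := by
      have : 1 * e < n * e := Nat.mul_lt_mul_of_pos_right hf.out he0
      omega
    have hxval : ((t : ZMod m) * y).val = e := by
      rw [hx, ZMod.val_natCast, Nat.mod_eq_of_lt hem]
    have hx0 : (t : ZMod m) * y ≠ 0 := by
      intro h0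
      rw [h0, ZMod.val_zero] at hxval
      omega
    have hkey : ∀ a : ℕ, a * e % m = a % n * e := by
      intro a
      calc a * e % m = a * e % (n * e) := by rw [hen]
        _ = a % n * e := Nat.mul_mod_mul_right _ _ _
    have hval : ∀ k : (ZMod m)ˣ, ((k : ZMod m) * ((t : ZMod m) * y)).val =
        (k : ZMod m).val % n * e := by
      intro k
      rw [ZMod.val_mul, hxval]
      exact hkey _
    have hne : ∀ k : (ZMod m)ˣ, (k : ZMod m) * ((t : ZMod m) * y) ≠ 0 := fun k h0 =>
      hx0 ((k.isUnit.mul_right_eq_zero).1 h0)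
    have h3 := h t
    rw [Quot.sw_of_ne (hne v), Quot.sw_of_ne (hne u), Quot.sw_of_ne hx0, hval, hval, hxval] at h3
    set b : ℕ := (u : ZMod m).val % n with hb
    set c : ℕ := (v : ZMod m).val % n with hc
    have hcn : c < n := Nat.mod_lt _ (Nat.pos_of_ne_zero hn0)
    have hb0 : b ≠ 0 := by
      intro h0
      have h4 := hval u
      rw [← hb, h0, zero_mul, ZMod.val_eq_zero] at h4
      exact hne u h4
    have hmZ : (m : ℤ) = n * e := by
      rw [← hen]
      push_cast
      rfl
    rw [hmZ] at h3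
    push_cast at h3
    have h5 : (e : ℤ) * ((c : ℤ) - b + 2 - n) = 0 := by linarith
    have h6 : (c : ℤ) - b + 2 - n = 0 := by
      rcases mul_eq_zero.1 h5 with h7 | h7
      · exfalso
        have : (0 : ℤ) < e := by exact_mod_cast he0
        omega
      · exact h7
    have hb1 : b = 1 := by omega
    have h8 : ((u : ZMod m) * ((t : ZMod m) * y)).val = ((t : ZMod m) * y).val := by
      rw [hval u, ← hb, hb1, one_mul, hxval]
    have h9 : (u : ZMod m) * ((t : ZMod m) * y) = (t : ZMod m) * y := ZMod.val_injective m h8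
    have h10 : (t : ZMod m) * ((u : ZMod m) * y) = (t : ZMod m) * y := by
      rw [← h9]
      ring
    exact t.isUnit.mul_left_cancel h10

end

end Pool.Agent.FF
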