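import Pool.Agent.FF.YexA
import Pool.Agent.FF.YexB

/-!
# FF-Yex

`T` is a multiset of elements of order divisible by the odd prime `r`, with `KInv r T`;
`Q = Qr m r`, `D' = Dr r = (r - 1) / 2`, `G t = Gr r T t`.

Proof plan.
* `exists_y`. `D' > 0`. Let `k = T.card ≤ D'`. By `Gr_bound` `|G t| ≤ k Q (m - 2) ≤ Q D' (m - 2)`.
  Put `y = (g : ZMod m) + (m / 2 : ℕ)`. If `y = 0`, then `m ∣ g + m / 2`, `2 g = m + 2 m i` for
  some `i`, so `G 1 ≡ Q D' (2 g) ≡ Q D' m mod 2 m Q D'`, impossible by the bound. So `y ≠ 0`, and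
  for every unit `t`, `t y ≠ 0`, `sw (t y) = 2 val (t y) - m ≡ 2 τ (g + m / 2) - m ≡ 2 τ g mod 2 m`
  (`τ` odd), hence `2 m Q D' ∣ G t - Q D' sw (t y)`, of absolute value
  `≤ 2 Q D' (m - 2) < 2 m Q D'`: equality.
* `ide m r * y = y`: with `h` from `exists_h`, `h * (ide * w) = ide * w` (`Kl_mul_ide`), so
  `G (t * h) = G t` and `sw (h y) = sw y` with `h y ≠ 0`, `y ≠ 0`: `h y = y`.
-/

set_option autoImplicit false

namespace Pool.Agent.FF

open Finset Pool.Agent.FS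
open Pool.Agent.Helper9.Fermat (fib mem_fib)

section

variable {m : ℕ} [NeZero m]

variable {A : Type} [AddCommGroup A] (D : Datum m A)

include D in
theorem exists_y (hm : Even m) {r : ℕ} (hr : r.Prime) (hr3 : 3 ≤ r) (hrm : r ∣ m)
    {T : Multiset (ZMod m)} (hTr : ∀ x ∈ T, r ∣ addOrderOf x) (hK : KInv r T)
    (hk : T.card ≤ Dr r) :
    ∃ y : ZMod m, y ≠ 0 ∧ ide m r * y = y ∧
      ∀ t : (ZMod m)ˣ, Gr r T t = ((Qr m r * Dr r : ℕ) : ℤ) * sw ((t : ZMod m) * y) := by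
  have hr0 : 0 < r := hr.pos
  have hm0 : m ≠ 0 := NeZero.ne m
  have hrle : r ≤ m := Nat.le_of_dvd (Nat.pos_of_ne_zero hm0) hrm
  have hm3 : 3 ≤ m := hr3.trans hrle
  have hQ : 0 < Qr m r := Qr_pos hr hrm
  have hD : 0 < Dr r := by
    have := two_Dr hr hr3
    omega
  obtain ⟨k, hk2⟩ := hm
  have hk2' : m = 2 * k := by omega
  have hkdiv : m / 2 = k := by omega
  set N : ℕ := Qr m r * Dr r with hN
  have hN0 : 0 < N := Nat.mul_pos hQ hD
  have hN0' : (0 : ℤ) < (N : ℤ) := by exact_mod_cast hN0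
  have hm3' : (3 : ℤ) ≤ (m : ℤ) := by exact_mod_cast hm3
  have hmk : (m : ℤ) = 2 * (k : ℤ) := by exact_mod_cast hk2'
  obtain ⟨g, hg⟩ := exists_g D ⟨k, hk2⟩ hr hr3 hrm hTr hK
  -- the bound
  have hbd : ∀ t : (ZMod m)ˣ, |Gr r T t| ≤ (N : ℤ) * ((m : ℤ) - 2) := by
    intro t
    refine (Gr_bound hr (by omega) hTr t).trans ?_
    refine mul_le_mul_of_nonneg_right ?_ (by linarith)
    have h1 : (T.card : ℤ) ≤ (Dr r : ℤ) := by exact_mod_cast hk
    have h2 : (0 : ℤ) ≤ (Qr m r : ℤ) := Int.natCast_nonneg _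
    calc (T.card : ℤ) * (Qr m r : ℤ) ≤ (Dr r : ℤ) * (Qr m r : ℤ) :=
          mul_le_mul_of_nonneg_right h1 h2
      _ = (N : ℤ) := by rw [hN]; push_cast; ring
  set y : ZMod m := (g : ZMod m) + ((k : ℕ) : ZMod m) with hy
  have hyint : y = (((g + (k : ℤ) : ℤ)) : ZMod m) := by
    rw [hy]; push_cast; ring
  have hfact : Fact (1 < m) := ⟨by omega⟩
  -- `y ≠ 0`
  have hy0 : y ≠ 0 := by
    intro h0
    rw [hyint, ZMod.intCast_zmod_eq_zero_iff_dvd] at h0
    obtain ⟨i, hi⟩ := h0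
    have h1 := hg 1
    rw [Units.val_one, ZMod.val_one] at h1
    obtain ⟨c, hc⟩ := h1
    have h2 := hbd 1
    rw [abs_le] at h2
    have h3 : Gr r T 1 + (N : ℤ) * m = 2 * (m : ℤ) * (N : ℤ) * (c + i) := by
      have h4 : g = (m : ℤ) * i - k := by linarith
      rw [h4] at hc
      push_cast at hc
      have h5 : Gr r T 1 = 2 * (N : ℤ) * ((m : ℤ) * i - k) * 1 + 2 * (m : ℤ) * (N : ℤ) * c := by
        rw [hN]
        push_cast
        linarith
      rw [h5]
      have h6 : (N : ℤ) * m = 2 * N * k := by rw [hmk]; ring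
      rw [h6]
      ring
    have h7 : 0 < Gr r T 1 + (N : ℤ) * m := by nlinarith [h2.1]
    have h8 : Gr r T 1 + (N : ℤ) * m < 2 * (m : ℤ) * (N : ℤ) := by nlinarith [h2.2]
    rw [h3] at h7 h8
    have h9 : 0 < 2 * (m : ℤ) * (N : ℤ) := by positivity
    have h10 : 0 < c + i := by
      by_contra hcon
      push Not at hcon
      nlinarith
    have h11 : c + i < 1 := by
      by_contra hcon
      push Not at hcon
      nlinarith
    omega
  have hty0 : ∀ t : (ZMod m)ˣ, (t : ZMod m) * y ≠ 0 := by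
    intro t h0
    exact hy0 ((Units.mul_right_eq_zero t).1 h0)
  -- the formula
  have hform : ∀ t : (ZMod m)ˣ, Gr r T t = (N : ℤ) * sw ((t : ZMod m) * y) := by
    intro t
    have hsw : sw ((t : ZMod m) * y) = 2 * (((t : ZMod m) * y).val : ℤ) - m := by
      unfold sw
      rw [if_neg (hty0 t)]
    set τ : ℕ := (t : ZMod m).val with hτ
    have hcop : Nat.Coprime τ m := ZMod.val_coe_unit_coprime t
    have hodd : τ % 2 = 1 := by
      have h1 : ¬ 2 ∣ τ := by
        intro h2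
        have h3 : 2 ∣ Nat.gcd τ m := Nat.dvd_gcd h2 ⟨k, hk2'⟩
        rw [hcop] at h3
        omega
      omega
    obtain ⟨e, he⟩ : ∃ e : ℕ, τ = 2 * e + 1 := ⟨τ / 2, by omega⟩
    have h1 : ((((t : ZMod m) * y).val : ℤ) : ZMod m) =
        (((τ : ℤ) * (g + (k : ℤ)) : ℤ) : ZMod m) := by
      rw [Int.cast_natCast, ZMod.natCast_zmod_val]
      push_cast
      rw [hτ, ZMod.natCast_zmod_val]
    rw [ZMod.intCast_eq_intCast_iff] at h1
    obtain ⟨c, hc⟩ := h1.symm.dvd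
    obtain ⟨d, hd⟩ := hg t
    have h2 : ((2 * m * N : ℕ) : ℤ) ∣ Gr r T t - (N : ℤ) * sw ((t : ZMod m) * y) := by
      refine ⟨d - c - e, ?_⟩
      rw [hsw]
      have h3 : (((t : ZMod m) * y).val : ℤ) = (τ : ℤ) * (g + (k : ℤ)) + m * c := by linarith
      have h4 : Gr r T t = 2 * (N : ℤ) * g * (τ : ℤ) + 2 * (m : ℤ) * (N : ℤ) * d := by
        push_cast at hd ⊢
        rw [hN]
        push_cast
        linarith
      rw [h3, h4, he]
      push_cast
      rw [hmk]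
      ring
    have h5 : |Gr r T t - (N : ℤ) * sw ((t : ZMod m) * y)| < ((2 * m * N : ℕ) : ℤ) := by
      have h6 := hbd t
      have h7 : |(N : ℤ) * sw ((t : ZMod m) * y)| ≤ (N : ℤ) * ((m : ℤ) - 2) := by
        rw [abs_mul, abs_of_pos hN0']
        exact mul_le_mul_of_nonneg_left (abs_sw_le (by omega) _) hN0'.le
      refine (abs_sub _ _).trans_lt ?_
      push_cast
      nlinarith
    have h8 := Int.eq_zero_of_abs_lt_dvd h2 h5
    linarith
  refine ⟨y, hy0, ?_, ?_⟩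
  · obtain ⟨h, hh, hfix⟩ := exists_h hr hr3 hrm
    apply hfix
    have h1 : Gr r T h = Gr r T 1 := by
      unfold Gr
      congr 1
      funext w
      rw [Kl_mul_ide r hr h hh w, Units.val_one, one_mul]
    rw [hform h, hform 1, Units.val_one, one_mul] at h1
    have h2 : sw ((h : ZMod m) * y) = sw y := mul_left_cancel₀ hN0'.ne' h1
    unfold sw at h2
    rw [if_neg (hty0 h), if_neg hy0] at h2
    apply ZMod.val_injective m
    omega
  · intro t
    exact hform t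


end

end Pool.Agent.FF
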