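import Pool.Agent.FF.UpForm

/-!
# FF-YexA

`T` is a multiset of elements of order divisible by the odd prime `r`, with `KInv r T`;
`Q = Qr m r`, `D' = Dr r = (r - 1) / 2`, `G t = Gr r T t`.

Proof plan.
* `Gr_bound`. By `GG_form`, `G t = ∑ p ∈ P, p.1 * sw (t * p.2)`, `p.1 ≤ Q`, and
  `|sw z| ≤ m - 2` for all `z` (`sw z = 2 val z - m` with `1 ≤ val z ≤ m - 1` for `z ≠ 0`). Here
  `2 ≤ m`.
* `exists_h`: `ide m r * y = y`: let `h = 2 * ide m r - 1`, a unit (`h * h = 1` by `ide_mul_self`) in `Kl m r`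
  (`mem_Kl`; `qq m r * (h - 1) = 0` in `ZMod m` because `qq * ide = qq`, `RNorm_qq_ide`, so
  `ordCompl[r] m ∣ rr h - 1`, compare `RNorm_compl_ide`, `RNorm_qq_mul`). `h * (ide * w) = ide * w`,
  so `G (t * h) = G t` and `sw (h y) = sw y` with `h y ≠ 0`, `y ≠ 0`: `h y = y`, i.e.
  `2 (1 - ide) y = 0`; also `qq m r * ((1 - ide) y) = 0` and `qq m r` is odd, so `(1 - ide) y = 0`.
-/

set_option autoImplicit false

namespace Pool.Agent.FF

open Finset Pool.Agent.FS
open Pool.Agent.Helper9.Fermat (fib mem_fib)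

section

variable {m : ℕ} [NeZero m]

theorem abs_sw_le (hm : 2 ≤ m) (x : ZMod m) : |sw x| ≤ (m : ℤ) - 2 := by
  by_cases hx : x = 0
  · rw [hx, show sw (0 : ZMod m) = 0 from if_pos rfl, abs_zero]
    have : (2 : ℤ) ≤ m := by exact_mod_cast hm
    linarith
  · have h1 : (x.val : ℤ) < m := by exact_mod_cast ZMod.val_lt x
    have h2 : 0 < x.val := Nat.pos_of_ne_zero fun h => hx ((ZMod.val_eq_zero x).1 h)
    have h3 : (1 : ℤ) ≤ x.val := by exact_mod_cast h2
    unfold sw
    rw [if_neg hx, abs_le]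
    constructor <;> linarith

theorem Gr_bound {r : ℕ} (hr : r.Prime) (hm : 2 ≤ m) {T : Multiset (ZMod m)}
    (hTr : ∀ x ∈ T, r ∣ addOrderOf x) (t : (ZMod m)ˣ) :
    |Gr r T t| ≤ (T.card : ℤ) * (Qr m r : ℤ) * ((m : ℤ) - 2) := by
  obtain ⟨P, hPc, hP, hPf⟩ := GG_form hr T hTr
  have h1 : Gr r T t = (P.map fun p => (p.1 : ℤ) * sw ((t : ZMod m) * p.2)).sum :=
    hPf (fun x => sw ((t : ZMod m) * x)) (isDist_sw_unit t)
  rw [h1, ← hPc]
  have h2 : ∀ p ∈ P, |(p.1 : ℤ) * sw ((t : ZMod m) * p.2)| ≤ (Qr m r : ℤ) * ((m : ℤ) - 2) := by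
    intro p hp
    obtain ⟨_, hp2, _⟩ := hP p hp
    rw [abs_mul, Nat.abs_cast]
    exact mul_le_mul (by exact_mod_cast hp2) (abs_sw_le hm _) (abs_nonneg _) (Nat.cast_nonneg _)
  have h3 : ∀ R : Multiset (ℕ × ZMod m),
      (∀ p ∈ R, |(p.1 : ℤ) * sw ((t : ZMod m) * p.2)| ≤ (Qr m r : ℤ) * ((m : ℤ) - 2)) →
      |(R.map fun p => (p.1 : ℤ) * sw ((t : ZMod m) * p.2)).sum| ≤
        (R.card : ℤ) * (Qr m r : ℤ) * ((m : ℤ) - 2) := by
    intro R
    induction R using Multiset.induction_on with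
    | empty => intro _; simp
    | cons a R ih =>
      intro hR
      rw [Multiset.map_cons, Multiset.sum_cons, Multiset.card_cons]
      have e1 := hR a (Multiset.mem_cons_self a R)
      have e2 := ih fun p hp => hR p (Multiset.mem_cons_of_mem hp)
      refine (abs_add_le _ _).trans ?_
      push_cast
      linarith
  exact h3 P h2

/-- the unit which is `-1` on the `r`-part and `1` on the rest -/
theorem exists_h {r : ℕ} (hr : r.Prime) (hr3 : 3 ≤ r) (hrm : r ∣ m) :
    ∃ h : (ZMod m)ˣ, h ∈ Kl m r ∧ ∀ y : ZMod m, (h : ZMod m) * y = y → ide m r * y = y := by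
  have hid := ide_mul_self (m := m) r hr
  have hsq : (2 * ide m r - 1) * (2 * ide m r - 1) = 1 := by
    linear_combination 4 * hid
  refine ⟨⟨2 * ide m r - 1, 2 * ide m r - 1, hsq, hsq⟩, ?_, ?_⟩
  · change ZMod.unitsMap (Nat.ordCompl_dvd m r) _ = 1
    rw [Units.ext_iff, Units.val_one]
    change (ZMod.castHom (Nat.ordCompl_dvd m r) (ZMod (ordCompl[r] m))) (2 * ide m r - 1) = 1
    have h1 : qq m r ^ (ordCompl[r] m).totient ≡ 1 [MOD ordCompl[r] m] :=
      Nat.ModEq.pow_totient (RNorm_qq_coprime hr)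
    rw [← ZMod.natCast_eq_natCast_iff] at h1
    have h2 : (ZMod.castHom (Nat.ordCompl_dvd m r) (ZMod (ordCompl[r] m))) (ide m r) = 1 := by
      unfold ide
      rw [map_pow, map_natCast]
      push_cast at h1
      exact h1
    rw [map_sub, map_mul, h2, map_one, map_ofNat]
    norm_num
  · intro y hy
    have hy' : (2 * ide m r - 1) * y = y := hy
    have h2z : 2 * (ide m r * y - y) = 0 := by linear_combination hy'
    have hqz : (qq m r : ZMod m) * (ide m r * y - y) = 0 := by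
      rw [mul_sub, qq_mul_ide_mul r hr, sub_self]
    have hodd : Odd (qq m r) := by
      unfold qq
      refine Odd.pow ?_
      rcases hr.eq_two_or_odd' with h | h
      · omega
      · exact h
    obtain ⟨k, hk⟩ := hodd
    rw [hk] at hqz
    push_cast at hqz
    have h4 : ide m r * y - y = 0 := by linear_combination hqz - (k : ZMod m) * h2z
    exact sub_eq_zero.1 h4

end

end Pool.Agent.FF
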